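import Pool.Agent.R396.F.Geo

set_option autoImplicit false

/-!
# There are no zeros of height greater than `1 / m ^ 2`
-/

namespace Pool.Agent.R396.F

open Complex Set Finset Topology Pool.Agent.Y813.RL

noncomputable section

variable {G : Matrix (Fin 20) (Fin 20) ℤ}

theorem lam_zsmul (c : ℤ) (μ : Fin 20 → ℤ) : lam G (c • μ) = (c : ℝ) • lam G μ := by
  unfold lam
  have : (fun j => (((c • μ) j : ℤ) : ℝ)) = (c : ℝ) • fun j => (μ j : ℝ) := by
    funext j
    simp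
  rw [this, Matrix.mulVec_smul]

theorem bd_zsmul (h : PosSymm G) (c : ℤ) (μ : Fin 20 → ℤ) :
    bd G (c • μ) (c • μ) = (c : ℝ) ^ 2 * bd G μ μ := by
  rw [← bf_lam_lam h, ← bf_lam_lam h, lam_zsmul, bf_smul_left, bf_smul_right]
  ring

/-- genericity: candidates of the same height are proportional -/
def Sep (G : Matrix (Fin 20) (Fin 20) ℤ) (x : Fin 20 → ℝ) (h0 : ℝ) : Prop :=
  ∀ (l n : ℤ) (μ : Fin 20 → ℤ) (d : ℕ) (l' n' : ℤ) (μ' : Fin 20 → ℤ) (d' : ℕ) (h' : ℝ), h0 < h' →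
    Cand G x l n μ d h' → Cand G x l' n' μ' d' h' → l' • μ = l • μ' ∧ l' * n = l * n'

theorem sq_dvd {P : ℕ} (hP : P ≠ 0) : ∃ N0 : ℕ, 0 < N0 ∧ N0 ^ 2 ≤ P ∧
    ∀ l : ℕ, l ^ 2 ∣ P → l ∣ N0 := by
  obtain ⟨a, b, hab, hsq⟩ := Nat.sq_mul_squarefree P
  have hb : b ≠ 0 := by
    rintro rfl
    simp at hab
    exact hP hab.symm
  have ha : a ≠ 0 := hsq.ne_zero
  refine ⟨b, Nat.pos_of_ne_zero hb, ?_, ?_⟩
  · rw [← hab]
    exact Nat.le_mul_of_pos_right _ (Nat.pos_of_ne_zero ha)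
  · intro l hl
    rw [← hab] at hl
    have hl0 : l ≠ 0 := by
      rintro rfl
      simp at hl
      rcases hl with h | h
      · exact hb h
      · exact ha h
    set g := Nat.gcd l b with hg
    have hg0 : 0 < g := Nat.gcd_pos_of_pos_left _ (Nat.pos_of_ne_zero hl0)
    obtain ⟨l1, hl1⟩ : g ∣ l := Nat.gcd_dvd_left _ _
    obtain ⟨b1, hb1⟩ : g ∣ b := Nat.gcd_dvd_right _ _
    have hcop : Nat.Coprime l1 b1 := by
      have := Nat.coprime_div_gcd_div_gcd (m := l) (n := b) hg0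
      rw [← hg] at this
      have e1 : l / g = l1 := by rw [hl1]; exact Nat.mul_div_cancel_left _ hg0
      have e2 : b / g = b1 := by rw [hb1]; exact Nat.mul_div_cancel_left _ hg0
      rwa [e1, e2] at this
    have h1 : l1 ^ 2 ∣ b1 ^ 2 * a := by
      have h2 : g ^ 2 * l1 ^ 2 ∣ g ^ 2 * (b1 ^ 2 * a) := by
        rw [← mul_pow, ← hl1, ← mul_assoc, ← mul_pow, ← hb1]
        exact hl
      exact Nat.dvd_of_mul_dvd_mul_left (by positivity) h2
    have h2 : l1 ^ 2 ∣ a := (Nat.Coprime.pow 2 2 hcop).dvd_of_dvd_mul_left h1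
    have h3 : IsUnit l1 := hsq l1 (by rw [← sq]; exact h2)
    rw [Nat.isUnit_iff] at h3
    rw [hl1, h3, mul_one]
    exact ⟨b1, hb1⟩

section

variable {x : Fin 20 → ℝ} {h0 h' : ℝ} {l n l' n' : ℤ} {μ μ' : Fin 20 → ℤ} {d d' : ℕ}

theorem cand_d (hc : Cand G x l n μ d h') : 0 < d := by
  rcases Nat.eq_zero_or_pos d with h | h
  · have := hc.2.2.1
    rw [h] at this
    simp at this
  · exact h

/-- the invariant `d l ^ 2` -/
theorem cand_inv (h : PosSymm G) (hc : Cand G x l n μ d h') (hc' : Cand G x l' n' μ' d' h')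
    (h1 : l' • μ = l • μ') (h2 : l' * n = l * n') :
    (d : ℤ) * l ^ 2 = d' * l' ^ 2 := by
  have e1 : (l' : ℝ) ^ 2 * nu G 0 0 l n μ = (l : ℝ) ^ 2 * nu G 0 0 l' n' μ' := by
    have e2 := bd_zsmul h l' μ
    have e3 := bd_zsmul h l μ'
    rw [h1] at e2
    rw [e2] at e3
    have e4 : (l' : ℝ) * n = l * n' := by exact_mod_cast h2
    unfold nu
    push_cast
    linear_combination (1 / 2) * e3 - (l : ℝ) * l' * e4
  have hd : (0 : ℝ) < d := by exact_mod_cast cand_d hc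
  have hd' : (0 : ℝ) < d' := by exact_mod_cast cand_d hc'
  have e5 : nu G 0 0 l n μ = 1 / d := by
    have := hc.2.2.1
    field_simp
    linarith
  have e6 : nu G 0 0 l' n' μ' = 1 / d' := by
    have := hc'.2.2.1
    field_simp
    linarith
  rw [e5, e6] at e1
  have e7 : (d : ℝ) * (l : ℝ) ^ 2 = d' * (l' : ℝ) ^ 2 := by
    field_simp at e1
    linarith
  exact_mod_cast e7

end

theorem ee_intmul (q b : ℤ) : ee (-((q : ℂ) * b)) = 1 := by
  have := Pool.Agent.Y683.RL.ee_int (-(q * b))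
  rw [← this]
  push_cast
  ring_nf

/-- **descent** -/
theorem nz_desc (hVDS : JobVDS) (h : PosSymm G) {k : ℤ} {F : TP → ℂ}
    {φ : ℕ → ℂ × (Fin 20 → ℂ) → ℂ} {C m : ℕ} (H : CM G k F φ C m) (hs : StrongZeros G F)
    {X : Fin 20 → ℤ} {N : ℕ} (hN : 0 < N) {y : Fin 20 → ℝ}
    (hm : ∀ τ : ℂ, 0 < τ.im → pt X N y τ ∉ Mir G) (hsep : Sep G (xr X N) (1 / (m : ℝ) ^ 2)) :
    ∀ (n : ℕ) (h0 : ℝ), 1 / (m : ℝ) ^ 2 ≤ h0 →
      {h' : ℝ | h0 < h' ∧ ∃ (l n : ℤ) (μ : Fin 20 → ℤ) (d : ℕ), Cand G (xr X N) l n μ d h'}.ncard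
        = n → NZ G F X N y h0 := by
  have hmpos : (0 : ℝ) < m := by exact_mod_cast H.hm
  intro n
  induction n with
  | zero =>
    intro h0 h1 hcard
    have h00 : 0 < h0 := lt_of_lt_of_le (by positivity) h1
    rw [Set.ncard_eq_zero (cand_fin h (xr X N) h00)] at hcard
    refine nz_of_cand h hs hm h00 fun l n μ d h' hc => ?_
    by_contra hlt
    push Not at hlt
    have : h' ∈ {h' : ℝ | h0 < h' ∧ ∃ (l n : ℤ) (μ : Fin 20 → ℤ) (d : ℕ),
        Cand G (xr X N) l n μ d h'} := ⟨hlt, l, n, μ, d, hc⟩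
    rw [hcard] at this
    exact this
  | succ n ih =>
    intro h0 h1 hcard
    have h00 : 0 < h0 := lt_of_lt_of_le (by positivity) h1
    set S := {h' : ℝ | h0 < h' ∧ ∃ (l n : ℤ) (μ : Fin 20 → ℤ) (d : ℕ),
        Cand G (xr X N) l n μ d h'} with hS
    have hfin : S.Finite := cand_fin h (xr X N) h00
    have hne : S.Nonempty := by
      rw [Set.nonempty_iff_ne_empty]
      intro he
      rw [he, Set.ncard_empty] at hcard
      omega
    obtain ⟨h2, hmem, hmin⟩ := Set.exists_min_image S id hfin hne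
    obtain ⟨h02, l0, n0, μ0, d0, hc0⟩ := hmem
    have hS2 : {h' : ℝ | h2 < h' ∧ ∃ (l n : ℤ) (μ : Fin 20 → ℤ) (d : ℕ),
        Cand G (xr X N) l n μ d h'} = S \ {h2} := by
      ext z
      constructor
      · rintro ⟨hz, hz2⟩
        exact ⟨⟨h02.trans hz, hz2⟩, fun hz3 => (ne_of_gt hz) hz3⟩
      · rintro ⟨⟨hz1, hz2⟩, hz3⟩
        refine ⟨lt_of_le_of_ne (hmin z ⟨hz1, hz2⟩) fun he => hz3 he.symm, hz2⟩
    have hNZ2 : NZ G F X N y h2 := by
      refine ih h2 (h1.trans h02.le) ?_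
      have hmemS : h2 ∈ S := ⟨h02, l0, n0, μ0, d0, hc0⟩
      rw [hS2, Set.ncard_sdiff_singleton_of_mem hmemS, hcard]
      rfl
    have h2pos : 0 < h2 := h00.trans h02
    -- the number N0
    have hd0 := cand_d hc0
    have hl0 := hc0.1
    obtain ⟨L0, hL0⟩ : ∃ L0 : ℕ, l0 = L0 := ⟨l0.toNat, by omega⟩
    have hL0pos : 0 < L0 := by omega
    obtain ⟨N0, hN0, hN0P, hN0d⟩ := sq_dvd (P := d0 * L0 ^ 2) (by positivity)
    have hN0m : N0 < m := by
      have e1 := cand_id h hc0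
      have e2 := h.nonneg (lam G μ0 + (l0 : ℝ) • xr X N)
      have hdpos : (0 : ℝ) < d0 := by exact_mod_cast hd0
      have hLpos : (0 : ℝ) < L0 := by exact_mod_cast hL0pos
      have e3 : nu G 0 0 l0 n0 μ0 = 1 / d0 := by
        have := hc0.2.2.1
        field_simp
        linarith
      have e4 : ((L0 : ℝ)) ^ 2 * h2 ≤ 1 / d0 := by
        have : (l0 : ℝ) = L0 := by rw [hL0]; simp
        rw [← this, ← e3, e1]
        linarith
      have e5 : ((d0 * L0 ^ 2 : ℕ) : ℝ) * h2 ≤ 1 := by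
        push_cast
        rw [le_div_iff₀ hdpos] at e4
        linarith
      have e6 : ((N0 ^ 2 : ℕ) : ℝ) ≤ ((d0 * L0 ^ 2 : ℕ) : ℝ) := by exact_mod_cast hN0P
      have e7 : ((N0 : ℝ)) ^ 2 * h2 ≤ 1 := by
        push_cast at e6 e5
        have := mul_le_mul_of_nonneg_right e6 h2pos.le
        linarith
      have e8 : 1 < (m : ℝ) ^ 2 * h2 := by
        have : 1 / (m : ℝ) ^ 2 < h2 := lt_of_le_of_lt h1 h02
        rw [div_lt_iff₀ (by positivity)] at this
        linarith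
      have e9 : (N0 : ℝ) ^ 2 < (m : ℝ) ^ 2 := by
        by_contra hc
        push Not at hc
        have := mul_le_mul_of_nonneg_right hc h2pos.le
        linarith
      have e10 : (N0 : ℝ) < m := lt_of_pow_lt_pow_left₀ 2 hmpos.le e9
      exact_mod_cast e10
    obtain ⟨T2, hT2, hNZ2'⟩ := hNZ2
    have hinv : 0 < 1 / h0 := by positivity
    -- all zeros above h0 have height h2
    have hheight : ∀ τ ω : ℂ, max T2 (1 + 1 / h0) ≤ τ.im →
        (h0 + bf G (xr X N) (xr X N) / 2) * τ.im < ω.im → F (ω, pt X N y τ) = 0 →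
        ω.im = (h2 + bf G (xr X N) (xr X N) / 2) * τ.im ∧
        ∃ (b l n : ℤ) (μ : Fin 20 → ℤ) (d : ℕ), Cand G (xr X N) l n μ d h2 ∧
          WEq G 0 b l n μ (ω, pt X N y τ) := by
      intro τ ω hτ hω hF0
      have hτ1 : T2 ≤ τ.im := (le_max_left _ _).trans hτ
      have hτ2 : 1 + 1 / h0 ≤ τ.im := (le_max_right _ _).trans hτ
      have hτ0 : 0 < τ.im := by linarith
      obtain ⟨b, l, n', μ, d, hc, he⟩ := zero_cand h hs (hm τ hτ0) h00 hτ2 hω hF0
      have hgt : h0 < ω.im / τ.im - bf G (xr X N) (xr X N) / 2 := by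
        have : h0 + bf G (xr X N) (xr X N) / 2 < ω.im / τ.im := by
          rw [lt_div_iff₀ hτ0]
          exact hω
        linarith
      have hmem : ω.im / τ.im - bf G (xr X N) (xr X N) / 2 ∈ S := ⟨hgt, l, n', μ, d, hc⟩
      have hge := hmin _ hmem
      have hle : ω.im / τ.im - bf G (xr X N) (xr X N) / 2 ≤ h2 := by
        by_contra hlt
        push Not at hlt
        have h3 : h2 + bf G (xr X N) (xr X N) / 2 < ω.im / τ.im := by linarith
        rw [lt_div_iff₀ hτ0] at h3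
        exact hNZ2' τ ω hτ1 h3 hF0
      have heq : ω.im / τ.im - bf G (xr X N) (xr X N) / 2 = h2 := le_antisymm hle hge
      refine ⟨?_, b, l, n', μ, d, heq ▸ hc, he⟩
      have h4 : ω.im / τ.im = h2 + bf G (xr X N) (xr X N) / 2 := by linarith
      rw [div_eq_iff hτ0.ne'] at h4
      exact h4
    refine hVDS G k F φ C m h H X N y h0 h2 N0 hN h00 h02 hN0 hN0m hm
      ⟨max T2 (1 + 1 / h0), lt_max_of_lt_left hT2, fun τ ω hτ hω hF0 =>
        (hheight τ ω hτ hω hF0).1⟩ ⟨max T2 (1 + 1 / h0), lt_max_of_lt_left hT2,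
        fun τ ω ω' hτ hω hω' hF0 hF0' => ?_⟩
    -- the powers agree
    have key : ∀ ω : ℂ, (∃ (b l n : ℤ) (μ : Fin 20 → ℤ) (d : ℕ), Cand G (xr X N) l n μ d h2 ∧
          WEq G 0 b l n μ (ω, pt X N y τ)) →
        ee (N0 * ω) = ee (-(((N0 / L0 : ℕ) : ℂ) * (n0 * τ + dt μ0 (pt X N y τ).2))) := by
      rintro ω ⟨b, l, n, μ, d, hc, he⟩
      have hgt2 : 1 / (m : ℝ) ^ 2 < h2 := lt_of_le_of_lt h1 h02
      obtain ⟨s1, s2⟩ := hsep l n μ d l0 n0 μ0 d0 h2 hgt2 hc hc0
      have s3 := cand_inv h hc hc0 s1 s2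
      obtain ⟨L, hL⟩ : ∃ L : ℕ, l = L := ⟨l.toNat, by have := hc.1; omega⟩
      have hLpos : 0 < L := by have := hc.1; omega
      have s4 : d * L ^ 2 = d0 * L0 ^ 2 := by
        rw [hL, hL0] at s3
        exact_mod_cast s3
      have hLN : L ∣ N0 := hN0d L (by rw [← s4]; exact dvd_mul_left _ _)
      have hL0N : L0 ∣ N0 := hN0d L0 (dvd_mul_left _ _)
      obtain ⟨q, hq⟩ := hLN
      obtain ⟨q0, hq0⟩ := hL0N
      have hdiv : N0 / L0 = q0 := by rw [hq0]; exact Nat.mul_div_cancel_left _ hL0pos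
      rw [hdiv]
      -- q n = q0 n0, q μ = q0 μ0
      have t1 : (q : ℤ) * n = q0 * n0 := by
        have e1 : (L : ℤ) * L0 * (q * n) = L * L0 * (q0 * n0) := by
          have e2 : (L0 : ℤ) * n = L * n0 := by rw [← hL0, ← hL]; exact s2
          have e3 : (L : ℤ) * q = L0 * q0 := by exact_mod_cast hq.symm.trans hq0
          calc (L : ℤ) * L0 * (q * n) = (L * q) * (L0 * n) := by ring
            _ = (L0 * q0) * (L * n0) := by rw [e2, e3]
            _ = L * L0 * (q0 * n0) := by ring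
        exact mul_left_cancel₀ (by positivity) e1
      have t2 : (q : ℤ) • μ = (q0 : ℤ) • μ0 := by
        funext i
        have e1 : (L : ℤ) * L0 * (q * μ i) = L * L0 * (q0 * μ0 i) := by
          have e2 : (L0 : ℤ) * μ i = L * μ0 i := by
            have := congrFun s1 i
            simp only [Pi.smul_apply, smul_eq_mul] at this
            rw [← hL0, ← hL]
            exact this
          have e3 : (L : ℤ) * q = L0 * q0 := by exact_mod_cast hq.symm.trans hq0
          calc (L : ℤ) * L0 * (q * μ i) = (L * q) * (L0 * μ i) := by ring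
            _ = (L0 * q0) * (L * μ0 i) := by rw [e2, e3]
            _ = L * L0 * (q0 * μ0 i) := by ring
        have := mul_left_cancel₀ (show (L : ℤ) * L0 ≠ 0 by positivity) e1
        simpa using this
      have t3 : ((q : ℤ) : ℂ) * dt μ (pt X N y τ).2 = ((q0 : ℤ) : ℂ) * dt μ0 (pt X N y τ).2 := by
        rw [← dt_smul_left, ← dt_smul_left, t2]
      unfold WEq at he
      simp only [Int.cast_zero, zero_mul, zero_add] at he
      have hpt1 : (pt X N y τ).1 = τ := rfl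
      rw [hpt1] at he
      have e5 : (N0 : ℂ) * ω = -((q : ℤ) * b : ℂ) +
          (-((q0 : ℂ) * (n0 * τ + dt μ0 (pt X N y τ).2))) := by
        have t1' : ((q : ℤ) : ℂ) * n = ((q0 : ℤ) : ℂ) * n0 := by exact_mod_cast t1
        have hN0c : (N0 : ℂ) = (L : ℂ) * q := by rw [hq]; push_cast; ring
        have hLc : (l : ℂ) = (L : ℂ) := by rw [hL]; simp
        rw [hLc] at he
        rw [hN0c]
        push_cast at t1' t3 ⊢
        linear_combination (q : ℂ) * he - τ * t1' - t3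
      rw [e5, Pool.Agent.Y813.RL.ee_add, ee_intmul, one_mul]
    rw [key ω (hheight τ ω hτ hω hF0).2, key ω' (hheight τ ω' hτ hω' hF0').2]

/-- **no zeros above `1 / m ^ 2`, over a generic direction in a given open set** -/
theorem exists_dir (hVDS : JobVDS) (h : PosSymm G) {k : ℤ} {F : TP → ℂ}
    {φ : ℕ → ℂ × (Fin 20 → ℂ) → ℂ} {C m : ℕ} (H : CM G k F φ C m) (hs : StrongZeros G F)
    {O : Set (Fin 20 → ℝ)} (hO : IsOpen O) (hne : O.Nonempty) :
    ∃ (X : Fin 20 → ℤ) (N : ℕ), 0 < N ∧ xr X N ∈ O ∧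
      (∀ (y : Fin 20 → ℝ) (τ : ℂ), 0 < τ.im → pt X N y τ ∉ Mir G) ∧
      ∀ y : Fin 20 → ℝ, NZ G F X N y (1 / (m : ℝ) ^ 2) := by
  have hmpos : (0 : ℝ) < m := by exact_mod_cast H.hm
  -- shrink to a bounded set
  obtain ⟨x0, hx0⟩ := hne
  set c0 : ℝ := bf G x0 x0 + 1 with hc0
  have hcont : Continuous fun x : Fin 20 → ℝ => bf G x x := bf_contR G continuous_id continuous_id
  set O' : Set (Fin 20 → ℝ) := O ∩ {x | bf G x x < c0} with hO'
  have hO'o : IsOpen O' := hO.inter (isOpen_lt hcont continuous_const)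
  have hO'ne : O'.Nonempty := ⟨x0, hx0, by simp [hc0]⟩
  have hc0pos : 0 < c0 := by
    have := h.nonneg x0
    linarith
  obtain ⟨Q, hQ⟩ := short_bound h (4 + 2 * (m : ℝ) ^ 2 * c0)
  obtain ⟨X, N, hN, hX, hgen⟩ := gen (2 * m * Q + Q) hO'o hO'ne
  have hxx : bf G (xr X N) (xr X N) < c0 := hX.2
  have hmir : ∀ (y : Fin 20 → ℝ) (τ : ℂ), 0 < τ.im → pt X N y τ ∉ Mir G := by
    intro y τ hτ
    refine not_mir_pt (Q := Q) (fun μ hμ => hQ μ ?_) (fun ν hν hνQ => hgen ν hν fun i => ?_) y hτ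
    · have : 0 ≤ 2 * (m : ℝ) ^ 2 * c0 := by positivity
      linarith
    · refine (hνQ i).trans ?_
      push_cast
      nlinarith [Int.natCast_nonneg m, Int.natCast_nonneg Q,
        mul_nonneg (Int.natCast_nonneg m) (Int.natCast_nonneg Q)]
  refine ⟨X, N, hN, hX.1, hmir, fun y => ?_⟩
  refine nz_desc hVDS h H hs hN (hmir y) ?_ _ _ le_rfl rfl
  -- separation
  intro l n μ d l' n' μ' d' h' hh' hc hc'
  have hpos : 0 < h' := lt_of_le_of_lt (by positivity) hh'
  have hbound : ∀ (l n : ℤ) (μ : Fin 20 → ℤ) (d : ℕ), Cand G (xr X N) l n μ d h' →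
      l ≤ m ∧ ∀ i, |μ i| ≤ Q := by
    intro l n μ d hc
    obtain ⟨b1, b2⟩ := cand_bound h hc hpos
    have hl0 : (0 : ℝ) < l := by exact_mod_cast hc.1
    have hlm2 : (l : ℝ) ^ 2 < (m : ℝ) ^ 2 := by
      have e1 : 1 < h' * (m : ℝ) ^ 2 := by
        rwa [div_lt_iff₀ (by positivity)] at hh'
      by_contra hcc
      push Not at hcc
      have := mul_le_mul_of_nonneg_right hcc hpos.le
      linarith
    have hlm : (l : ℝ) < m := lt_of_pow_lt_pow_left₀ 2 hmpos.le hlm2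
    refine ⟨?_, hQ μ ?_⟩
    · have : (l : ℝ) < ((m : ℤ) : ℝ) := by exact_mod_cast hlm
      exact (Int.cast_lt.1 this).le
    · have hx0 := h.nonneg (xr X N)
      have e1 : (l : ℝ) ^ 2 * bf G (xr X N) (xr X N) ≤ (m : ℝ) ^ 2 * c0 := by
        have := mul_le_mul hlm2.le hxx.le hx0 (by positivity)
        exact this
      linarith
  obtain ⟨hl, hμ⟩ := hbound l n μ d hc
  obtain ⟨hl', hμ'⟩ := hbound l' n' μ' d' hc'
  have hlpos := hc.1
  have hlpos' := hc'.1
  have hslope : ((l' * n - l * n' : ℤ) : ℝ) + dt (l' • μ - l • μ') (xr X N) = 0 := by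
    have e1 := hc.2.2.2
    have e2 := hc'.2.2.2
    have hlr : (l : ℝ) ≠ 0 := by exact_mod_cast hlpos.ne'
    have hlr' : (l' : ℝ) ≠ 0 := by exact_mod_cast hlpos'.ne'
    have e3 : -((n : ℝ) + dt μ (xr X N)) / l = -((n' : ℝ) + dt μ' (xr X N)) / l' := by
      linarith
    rw [div_eq_div_iff hlr hlr'] at e3
    have e4 : dt (l' • μ - l • μ') (xr X N) = l' * dt μ (xr X N) - l * dt μ' (xr X N) := by
      rw [sub_eq_add_neg, dt_add_left, ← neg_smul, dt_smul_left, dt_smul_left]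
      push_cast
      ring
    rw [e4]
    push_cast
    linarith
  have hzero : l' • μ - l • μ' = 0 := by
    by_contra hne
    refine hgen _ hne (fun i => ?_) (-(l' * n - l * n')) (by push_cast; push_cast at hslope; linarith)
    have e1 : |(l' • μ - l • μ') i| ≤ |l'| * |μ i| + |l| * |μ' i| := by
      simp only [Pi.sub_apply, Pi.smul_apply, smul_eq_mul]
      rw [← abs_mul, ← abs_mul]
      exact abs_sub _ _
    have e2 : |l'| * |μ i| ≤ m * Q := by
      rw [abs_of_pos hlpos']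
      exact mul_le_mul hl' (hμ i) (abs_nonneg _) (by positivity)
    have e3 : |l| * |μ' i| ≤ m * Q := by
      rw [abs_of_pos hlpos]
      exact mul_le_mul hl (hμ' i) (abs_nonneg _) (by positivity)
    push_cast
    have : (0 : ℤ) ≤ Q := by positivity
    linarith
  refine ⟨sub_eq_zero.1 hzero, ?_⟩
  rw [hzero] at hslope
  have hdt0 : dt (0 : Fin 20 → ℤ) (xr X N) = 0 := by simp [dt]
  rw [hdt0, add_zero] at hslope
  have : (l' * n - l * n' : ℤ) = 0 := by exact_mod_cast hslope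
  linarith

end

end Pool.Agent.R396.F
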