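import Pool.Agent.R396.F.Th1a

set_option autoImplicit false

/-!
# The statement JobTheta1
-/

open MeasureTheory Complex Set Topology

namespace Pool.Agent.R396.F

open Pool.Agent.Y813.RL

noncomputable section

theorem ee_add (x y : ℂ) : ee (x + y) = ee x * ee y := by
  unfold ee; rw [← Complex.exp_add]; congr 1; ring

theorem ee_int (m : ℤ) : ee (m : ℂ) = 1 := by
  unfold ee
  rw [Complex.exp_eq_one_iff]
  exact ⟨m, by ring⟩

theorem ee_neg_mul (x : ℂ) : ee (-x) * ee x = 1 := by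
  rw [← ee_add, neg_add_cancel]
  have := ee_int 0
  simpa using this

theorem norm_ee (x : ℂ) : ‖ee x‖ = Real.exp (-(2 * Real.pi * x.im)) := by
  unfold ee
  rw [Complex.norm_exp]
  congr 1
  simp [Complex.mul_re, Complex.mul_im]

theorem differentiable_ee : Differentiable ℂ ee := by
  unfold ee; fun_prop

theorem dt_add (μ : Fin 20 → ℤ) (z w : Fin 20 → ℂ) :
    dt μ (fun i => z i + w i) = dt μ z + dt μ w := by
  unfold dt
  rw [← Finset.sum_add_distrib]
  exact Finset.sum_congr rfl (fun i _ => by ring)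

theorem dt_neg_left (μ : Fin 20 → ℤ) (z : Fin 20 → ℂ) : dt (-μ) z = -dt μ z := by
  unfold dt
  rw [← Finset.sum_neg_distrib]
  exact Finset.sum_congr rfl (fun i _ => by simp)

theorem dt_int (μ v : Fin 20 → ℤ) :
    dt μ (fun i => (v i : ℂ)) = ((∑ i, μ i * v i : ℤ) : ℂ) := by
  unfold dt; push_cast; rfl

theorem differentiable_dt (μ : Fin 20 → ℤ) : Differentiable ℂ (fun z : Fin 20 → ℂ => dt μ z) := by
  unfold dt; fun_prop

theorem continuous_dt (μ : Fin 20 → ℤ) : Continuous (fun z : Fin 20 → ℂ => dt μ z) :=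
  (differentiable_dt μ).continuous

section entire

variable {g : (Fin 20 → ℂ) → ℂ}

/-- the coefficients do not depend on the contour -/
theorem shift_coeff (hg : Differentiable ℂ g)
    (hper : ∀ z (v : Fin 20 → ℤ), g (fun i => z i + (v i : ℂ)) = g z) (μ : Fin 20 → ℤ)
    (w : Fin 20 → ℂ) :
    ∫ y in Icc (0 : Fin 20 → ℝ) 1, g (fun i => (y i : ℂ)) * ee (-(dt μ (fun i => (y i : ℂ)))) =
      ∫ y in Icc (0 : Fin 20 → ℝ) 1, g (fun i => w i + (y i : ℂ)) *
        ee (-(dt μ (fun i => w i + (y i : ℂ)))) := by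
  have h1 := shift_const (F := fun z => g z * ee (-(dt μ z)))
    (hg.mul (differentiable_ee.comp (differentiable_dt μ).neg))
    (fun z v => by
      show g (fun i => z i + (v i : ℂ)) * ee (-(dt μ (fun i => z i + (v i : ℂ)))) = _
      rw [hper, dt_add, dt_int, neg_add, ee_add]
      have h2 : ee (-((∑ i, μ i * v i : ℤ) : ℂ)) = 1 := by
        rw [← Int.cast_neg]; exact ee_int _
      rw [h2, mul_one]) w
  exact h1.symm

/-- Fourier expansion of an entire periodic function -/
theorem fourier_entire (hg : Differentiable ℂ g)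
    (hper : ∀ z (v : Fin 20 → ℤ), g (fun i => z i + (v i : ℂ)) = g z) (z : Fin 20 → ℂ) :
    HasSum (fun μ : Fin 20 → ℤ => (∫ y in Icc (0 : Fin 20 → ℝ) 1, g (fun i => (y i : ℂ)) *
      ee (-(dt μ (fun i => (y i : ℂ))))) * ee (dt μ z)) (g z) := by
  obtain ⟨H, hH⟩ := descend_cont (h := fun y : Fin 20 → ℝ => g (fun i => z i + (y i : ℂ)))
    (by refine hg.continuous.comp ?_; fun_prop)
    (fun y v => by
      have := hper (fun i => z i + (y i : ℂ)) v
      rw [← this]
      congr 1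
      funext i
      push_cast
      ring)
  have hcoef : ∀ μ, UnitAddTorus.mFourierCoeff H μ = (∫ y in Icc (0 : Fin 20 → ℝ) 1,
      g (fun i => (y i : ℂ)) * ee (-(dt μ (fun i => (y i : ℂ))))) * ee (dt μ z) := by
    intro μ
    rw [UnitAddTorus.mFourierCoeff_eq_integral (fun x => H x) μ 0, shift_coeff hg hper μ z,
      ← integral_mul_const]
    refine (integral_cu _).trans ?_
    refine integral_congr_ae (Filter.Eventually.of_forall (fun y => ?_))
    have h1 : UnitAddTorus.mFourier (-μ) (fun i => (y i : UnitAddCircle)) =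
        ee (dt (-μ) (fun i => (y i : ℂ))) := mFourier_mk (-μ) y
    have h2 : H (fun i => (y i : UnitAddCircle)) = g (fun i => z i + (y i : ℂ)) := hH y
    simp only [h1, h2, smul_eq_mul]
    rw [dt_neg_left, dt_add, neg_add, ee_add]
    have h3 := ee_neg_mul (dt μ z)
    linear_combination -(g (fun i => z i + (y i : ℂ)) * ee (-(dt μ (fun i => (y i : ℂ))))) * h3
  -- bound
  have hcomp : IsCompact (Icc (-1 : Fin 20 → ℝ) 1 ×ˢ Icc (0 : Fin 20 → ℝ) 1) :=
    isCompact_Icc.prod isCompact_Icc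
  obtain ⟨M, hM⟩ := hcomp.exists_bound_of_continuousOn
    (f := fun p : (Fin 20 → ℝ) × (Fin 20 → ℝ) =>
      g (fun i => (z i - Complex.I * (p.1 i : ℂ)) + (p.2 i : ℂ)))
    (by refine (hg.continuous.comp ?_).continuousOn; fun_prop)
  have hbound : ∀ μ, ‖UnitAddTorus.mFourierCoeff H μ‖ ≤
      M * ∏ i, Real.exp (-(2 * Real.pi * |(μ i : ℝ)|)) := by
    intro μ
    obtain ⟨s, hs⟩ : ∃ s : Fin 20 → ℝ, ∀ i, (-1 ≤ s i ∧ s i ≤ 1) ∧ (μ i : ℝ) * s i = |(μ i : ℝ)| := by
      have : ∀ i, ∃ r : ℝ, (-1 ≤ r ∧ r ≤ 1) ∧ (μ i : ℝ) * r = |(μ i : ℝ)| := by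
        intro i
        rcases le_total 0 (μ i : ℝ) with h | h
        · exact ⟨1, ⟨by norm_num, by norm_num⟩, by rw [abs_of_nonneg h, mul_one]⟩
        · exact ⟨-1, ⟨by norm_num, by norm_num⟩, by rw [abs_of_nonpos h]; ring⟩
      choose s hs using this
      exact ⟨s, hs⟩
    rw [hcoef μ, shift_coeff hg hper μ (fun i => z i - Complex.I * (s i : ℂ)),
      ← integral_mul_const]
    have h1 : ∀ y ∈ Icc (0 : Fin 20 → ℝ) 1, ‖g (fun i => (z i - Complex.I * (s i : ℂ)) + (y i : ℂ)) *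
        ee (-(dt μ (fun i => (z i - Complex.I * (s i : ℂ)) + (y i : ℂ)))) * ee (dt μ z)‖ ≤
        M * ∏ i, Real.exp (-(2 * Real.pi * |(μ i : ℝ)|)) := by
      intro y hy
      rw [mul_assoc, norm_mul, ← ee_add, norm_ee]
      have h2 : ‖g (fun i => (z i - Complex.I * (s i : ℂ)) + (y i : ℂ))‖ ≤ M :=
        hM (s, y) ⟨⟨fun i => by simpa using (hs i).1.1, fun i => by simpa using (hs i).1.2⟩, hy⟩
      have h3 : (-(dt μ (fun i => (z i - Complex.I * (s i : ℂ)) + (y i : ℂ))) + dt μ z).im =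
          ∑ i, |(μ i : ℝ)| := by
        have h4 : -(dt μ (fun i => (z i - Complex.I * (s i : ℂ)) + (y i : ℂ))) + dt μ z =
            ∑ i, ((μ i : ℂ) * (Complex.I * (s i : ℂ)) - (μ i : ℂ) * (y i : ℂ)) := by
          unfold dt
          rw [← Finset.sum_neg_distrib, ← Finset.sum_add_distrib]
          exact Finset.sum_congr rfl (fun i _ => by ring)
        rw [h4, Complex.im_sum]
        refine Finset.sum_congr rfl (fun i _ => ?_)
        rw [← (hs i).2]
        simp [Complex.mul_im, Complex.mul_re]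
      rw [h3]
      have h5 : Real.exp (-(2 * Real.pi * ∑ i, |(μ i : ℝ)|)) =
          ∏ i, Real.exp (-(2 * Real.pi * |(μ i : ℝ)|)) := by
        rw [← Real.exp_sum]
        congr 1
        rw [Finset.mul_sum, Finset.sum_neg_distrib]
      rw [h5]
      exact mul_le_mul_of_nonneg_right h2 (Finset.prod_nonneg (fun _ _ => (Real.exp_pos _).le))
    have h6 := norm_setIntegral_le_of_norm_le_const (μ := (volume : Measure (Fin 20 → ℝ)))
      (isCompact_Icc.measure_lt_top) h1
    have h7 : (volume : Measure (Fin 20 → ℝ)).real (Icc (0 : Fin 20 → ℝ) 1) = 1 := by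
      rw [Measure.real, Real.volume_Icc_pi]
      simp
    rw [h7, mul_one] at h6
    exact h6
  have hsum : Summable (UnitAddTorus.mFourierCoeff H) :=
    Summable.of_norm_bounded ((summable_prod_exp 20).mul_left M) hbound
  have hmain := UnitAddTorus.hasSum_mFourier_series_apply_of_summable hsum (mk 0)
  have h0 : H (mk 0) = g z := by
    rw [hH]
    simp
  rw [h0] at hmain
  have h1 : ∀ μ, UnitAddTorus.mFourier μ (mk 0) = 1 := by
    intro μ
    rw [mFourier_mk]
    have : dt μ (fun i => (((0 : Fin 20 → ℝ) i : ℝ) : ℂ)) = ((0 : ℤ) : ℂ) := by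
      unfold dt; simp
    rw [this]
    exact ee_int 0
  have h2 : (fun μ : Fin 20 → ℤ => (∫ y in Icc (0 : Fin 20 → ℝ) 1, g (fun i => (y i : ℂ)) *
      ee (-(dt μ (fun i => (y i : ℂ))))) * ee (dt μ z)) =
      fun μ => UnitAddTorus.mFourierCoeff H μ • UnitAddTorus.mFourier μ (mk 0) := by
    funext μ
    rw [h1, smul_eq_mul, mul_one, hcoef]
  rw [h2]
  exact hmain

end entire

section bdl

variable {A : Matrix (Fin 20) (Fin 20) ℤ}

theorem det_unit (h : PosSymm A) : IsUnit (A.map (Int.cast : ℤ → ℝ)).det := by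
  rw [isUnit_iff_ne_zero]
  intro h0
  obtain ⟨x, hx, hx0⟩ := Matrix.exists_mulVec_eq_zero_iff.2 h0
  have h2 := h.pos x hx
  have h3 : bf A x x = ∑ i, x i * ((A.map (Int.cast : ℤ → ℝ)).mulVec x) i := by
    simp only [bf, Matrix.mulVec, dotProduct, Matrix.map_apply, Finset.mul_sum, mul_assoc]
  rw [h3, hx0] at h2
  simp at h2

theorem bd_eq (μ ν : Fin 20 → ℤ) : bd A μ ν =
    (fun i => (μ i : ℝ)) ⬝ᵥ (A.map (Int.cast : ℤ → ℝ))⁻¹.mulVec (fun j => (ν j : ℝ)) := rfl

theorem bd_add_left (μ μ' ν : Fin 20 → ℤ) : bd A (μ + μ') ν = bd A μ ν + bd A μ' ν := by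
  rw [bd_eq, bd_eq, bd_eq, ← add_dotProduct]
  congr 1
  funext i
  simp

theorem bd_add_right (μ ν ν' : Fin 20 → ℤ) : bd A μ (ν + ν') = bd A μ ν + bd A μ ν' := by
  rw [bd_eq, bd_eq, bd_eq, ← dotProduct_add, ← Matrix.mulVec_add]
  congr 2
  funext i
  simp

theorem bd_comm (h : PosSymm A) (μ ν : Fin 20 → ℤ) : bd A μ ν = bd A ν μ := by
  rw [bd_eq, bd_eq, Matrix.dotProduct_mulVec, dotProduct_comm]
  congr 1
  rw [← Matrix.mulVec_transpose]
  congr 1
  rw [Matrix.transpose_nonsing_inv]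
  congr 1
  ext i j
  simp [h.symm.apply]

/-- pairing with a lattice vector -/
theorem bd_mulVec_right (h : PosSymm A) (μ v : Fin 20 → ℤ) :
    bd A μ (A.mulVec v) = ∑ i, (μ i : ℝ) * (v i : ℝ) := by
  have h1 : (fun j => ((A.mulVec v j : ℤ) : ℝ)) =
      (A.map (Int.cast : ℤ → ℝ)).mulVec (fun j => (v j : ℝ)) := by
    funext j
    simp [Matrix.mulVec, dotProduct]
  unfold bd
  rw [h1, Matrix.mulVec_mulVec, Matrix.nonsing_inv_mul _ (det_unit h), Matrix.one_mulVec]

theorem sum_mulVec (h : PosSymm A) {R : Type*} [CommRing R] (v : Fin 20 → ℤ) (y : Fin 20 → R) :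
    ∑ i, ((A.mulVec v i : ℤ) : R) * y i = bf A (fun i => (v i : R)) y := by
  unfold bf
  rw [Finset.sum_comm]
  refine Finset.sum_congr rfl (fun i _ => ?_)
  simp only [Matrix.mulVec, dotProduct, Int.cast_sum, Int.cast_mul, Finset.sum_mul]
  refine Finset.sum_congr rfl (fun j _ => ?_)
  rw [h.symm.apply]
  ring

theorem bd_shift (h : PosSymm A) (μ v : Fin 20 → ℤ) :
    (bd A (μ + A.mulVec v) (μ + A.mulVec v) : ℂ) = (bd A μ μ : ℂ) + 2 * dt μ (fun i => (v i : ℂ)) +
      bf A (fun i => (v i : ℂ)) (fun i => (v i : ℂ)) := by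
  have h1 : bd A (μ + A.mulVec v) (μ + A.mulVec v) = bd A μ μ + 2 * ∑ i, (μ i : ℝ) * (v i : ℝ) +
      bf A (fun i => (v i : ℝ)) (fun i => (v i : ℝ)) := by
    rw [bd_add_left, bd_add_right, bd_add_right, bd_comm h (A.mulVec v) μ, bd_mulVec_right h,
      bd_mulVec_right h, sum_mulVec h]
    ring
  rw [h1]
  have h2 : ((bf A (fun i => (v i : ℝ)) (fun i => (v i : ℝ)) : ℝ) : ℂ) =
      bf A (fun i => (v i : ℂ)) (fun i => (v i : ℂ)) := by
    rw [← bf_ofReal]
    simp
  have h3 : dt μ (fun i => (v i : ℂ)) = ((∑ i, (μ i : ℝ) * (v i : ℝ) : ℝ) : ℂ) := by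
    unfold dt; push_cast; rfl
  rw [h3, ← h2]
  push_cast
  ring

end bdl

theorem theta1 : JobTheta1 := by
  intro A c hA hc
  have hopen : IsOpen {p : ℂ × (Fin 20 → ℂ) | 0 < p.1.im} :=
    isOpen_lt continuous_const (Complex.continuous_im.comp continuous_fst)
  have hopen1 : IsOpen {τ : ℂ | 0 < τ.im} := isOpen_lt continuous_const Complex.continuous_im
  have hent : ∀ τ : ℂ, 0 < τ.im → Differentiable ℂ (c τ) := by
    intro τ hτ z
    have h1 := (hc.holo.differentiableAt (hopen.mem_nhds (show (τ, z) ∈ _ from hτ)))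
    have h2 : DifferentiableAt ℂ (fun z : Fin 20 → ℂ => (τ, z)) z :=
      (differentiableAt_const τ).prodMk differentiableAt_id
    exact h1.comp z h2
  have hshift : ∀ μ (τ : ℂ) (w : Fin 20 → ℂ), 0 < τ.im → fc c μ τ =
      ∫ y in Icc (0 : Fin 20 → ℝ) 1, c τ (fun i => w i + (y i : ℂ)) *
        ee (-(dt μ (fun i => w i + (y i : ℂ)))) := by
    intro μ τ w hτ
    exact shift_coeff (hent τ hτ) (fun z v => hc.perz τ z v hτ) μ w
  refine ⟨?_, ?_, hshift, ?_, ?_⟩
  · intro μ
    refine differentiableOn_setIntegral (E := ℂ) (volume : Measure (Fin 20 → ℝ))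
      (K := Icc (0 : Fin 20 → ℝ) 1) isCompact_Icc measurableSet_Icc
      (isCompact_Icc.measure_lt_top) (U := {τ | 0 < τ.im}) hopen1
      (f := fun τ y => c τ (fun i => (y i : ℂ)) * ee (-(dt μ (fun i => (y i : ℂ))))) ?_ ?_
    · refine ContinuousOn.mul ?_ ?_
      · have h1 : ContinuousOn (fun q : ℂ × (Fin 20 → ℝ) => (q.1, fun i => (q.2 i : ℂ)))
            ({τ : ℂ | 0 < τ.im} ×ˢ Icc (0 : Fin 20 → ℝ) 1) := by
          refine Continuous.continuousOn ?_
          fun_prop
        exact hc.holo.continuousOn.comp h1 (fun q hq => hq.1)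
      · refine (differentiable_ee.continuous.comp ((continuous_dt μ).comp ?_).neg).continuousOn
        fun_prop
    · intro y _
      refine DifferentiableOn.mul_const ?_ _
      intro τ hτ
      have h1 := (hc.holo.differentiableAt
        (hopen.mem_nhds (show (τ, fun i => (y i : ℂ)) ∈ _ from hτ)))
      have h2 : DifferentiableAt ℂ (fun τ : ℂ => (τ, fun i => (y i : ℂ))) τ :=
        differentiableAt_id.prodMk (differentiableAt_const _)
      exact (h1.comp τ h2).differentiableWithinAt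
  · intro μ τ hτ
    unfold fc
    refine integral_congr_ae (Filter.Eventually.of_forall (fun y => ?_))
    simp only
    rw [hc.perτ τ _ hτ]
  · intro μ v τ hτ
    have h1 := hshift μ τ (fun i => τ * (v i : ℂ)) hτ
    have h2 : ∀ y : Fin 20 → ℝ, c τ (fun i => τ * (v i : ℂ) + (y i : ℂ)) *
        ee (-(dt μ (fun i => τ * (v i : ℂ) + (y i : ℂ)))) =
        ee (-(τ * bf A (fun i => (v i : ℂ)) (fun i => (v i : ℂ)) / 2) -
          τ * dt μ (fun i => (v i : ℂ))) *
        (c τ (fun i => (y i : ℂ)) * ee (-(dt (μ + A.mulVec v) (fun i => (y i : ℂ))))) := by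
      intro y
      have h3 := hc.quasi τ (fun i => (y i : ℂ)) v hτ
      have h4 : (fun i => τ * (v i : ℂ) + (y i : ℂ)) = fun i => (y i : ℂ) + τ * (v i : ℂ) := by
        funext i; ring
      rw [dt_add, h4, h3]
      have h5 : dt (μ + A.mulVec v) (fun i => (y i : ℂ)) = dt μ (fun i => (y i : ℂ)) +
          bf A (fun i => (v i : ℂ)) (fun i => (y i : ℂ)) := by
        rw [← sum_mulVec hA]
        unfold dt
        rw [← Finset.sum_add_distrib]
        exact Finset.sum_congr rfl (fun i _ => by simp; ring)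
      have h6 : dt μ (fun i => τ * (v i : ℂ)) = τ * dt μ (fun i => (v i : ℂ)) := by
        unfold dt
        rw [Finset.mul_sum]
        exact Finset.sum_congr rfl (fun i _ => by ring)
      rw [h5, h6]
      have h7 : ∀ a b d : ℂ, ee a * d * ee b = ee (a + b) * d := by
        intro a b d; rw [ee_add]; ring
      have h8 : ∀ a b d : ℂ, ee a * (d * ee b) = ee (a + b) * d := by
        intro a b d; rw [ee_add]; ring
      rw [h7, h8]
      congr 2
      ring
    simp_rw [h2] at h1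
    rw [integral_const_mul] at h1
    have h9 : fc c (μ + A.mulVec v) τ = ∫ y in Icc (0 : Fin 20 → ℝ) 1,
      c τ (fun i => (y i : ℂ)) * ee (-(dt (μ + A.mulVec v) (fun i => (y i : ℂ)))) := rfl
    rw [← h9] at h1
    unfold vf
    rw [h1, bd_shift hA, ← mul_assoc, ← ee_add]
    congr 2
    ring
  · intro τ z hτ
    exact fourier_entire (hent τ hτ) (fun z v => hc.perz τ z v hτ) z

end

end Pool.Agent.R396.F
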