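import Pool.Agent.R396.F.Stm2
import Pool.Agent.R396.F.Th1

set_option autoImplicit false

/-!
# FC: Fourier coefficients of theta components from growth on slices
-/

open MeasureTheory Complex Set Topology

namespace Pool.Agent.R396.F

open Pool.Agent.Y813.RL Pool.Agent.Y683.RL

noncomputable section

namespace FCsec

variable {A : Matrix (Fin 20) (Fin 20) ℤ} {c : ℂ → (Fin 20 → ℂ) → ℂ}

/-- the slice function `t ↦ c (N t) (t X + y)` -/
def Hy (c : ℂ → (Fin 20 → ℂ) → ℂ) (X : Fin 20 → ℤ) (N : ℕ) (y : Fin 20 → ℝ) (t : ℂ) : ℂ :=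
  c (N * t) (fun i => t * (X i : ℂ) + (y i : ℂ))

theorem perτN (hc : JacobiZero A c) (N : ℕ) (τ : ℂ) (z : Fin 20 → ℂ) (hτ : 0 < τ.im) :
    c (τ + N) z = c τ z := by
  induction N with
  | zero => simp
  | succ N ih =>
    rw [← ih, ← hc.perτ (τ + N) z (by simpa using hτ)]
    congr 1
    push_cast
    ring

theorem im_mul_nat (N : ℕ) (t : ℂ) : ((N : ℂ) * t).im = N * t.im := by
  rw [Complex.mul_im]; simp

theorem Hy_HP (hc : JacobiZero A c) (X : Fin 20 → ℤ) {N : ℕ} (hN : 0 < N) (y : Fin 20 → ℝ) :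
    HP 0 (Hy c X N y) where
  holo := by
    have h1 : DifferentiableOn ℂ (fun t : ℂ => ((N : ℂ) * t, fun i => t * (X i : ℂ) + (y i : ℂ)))
        {t | 0 < t.im} := by
      refine Differentiable.differentiableOn ?_
      fun_prop
    refine hc.holo.comp h1 ?_
    intro t ht
    show 0 < ((N : ℂ) * t).im
    rw [im_mul_nat]
    have : (0 : ℝ) < N := by exact_mod_cast hN
    exact mul_pos this ht
  per := by
    intro t ht
    have hN' : (0 : ℝ) < N := by exact_mod_cast hN
    have him : 0 < ((N : ℂ) * t).im := by rw [im_mul_nat]; exact mul_pos hN' ht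
    unfold Hy
    have e1 : (N : ℂ) * (t + 1) = N * t + N := by ring
    have e2 : (fun i => (t + 1) * (X i : ℂ) + (y i : ℂ)) =
        fun i => (t * (X i : ℂ) + (y i : ℂ)) + (X i : ℂ) := by
      funext i; ring
    rw [e1, e2, perτN hc N _ _ him, hc.perz _ _ X him]

/-- growth of the slice functions -/
theorem Hy_bound (hc : JacobiZero A c) {X : Fin 20 → ℤ} {N : ℕ} {a : ℝ} (hN : 0 < N)
    (hg : ∀ y : Fin 20 → ℝ, ∃ K T : ℝ, 0 < T ∧ ∀ τ : ℂ, T ≤ τ.im →
      ‖c τ (pt X N y τ).2‖ ≤ K * Real.exp (a * τ.im)) (y : Fin 20 → ℝ) :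
    ∃ M : ℝ, ∀ t : ℂ, 1 ≤ t.im → ‖Hy c X N y t‖ ≤ M * Real.exp (a * N * t.im) := by
  obtain ⟨K, T, hT, hK⟩ := hg y
  have hN' : (0 : ℝ) < N := by exact_mod_cast hN
  have hHP := Hy_HP hc X hN y
  -- compact part
  have hcont : ContinuousOn (Hy c X N y) (Icc (0 : ℝ) 1 ×ℂ Icc (1 : ℝ) T) := by
    refine hHP.holo.continuousOn.mono ?_
    intro t ht
    have := (Complex.mem_reProdIm.1 ht).2.1
    show 0 < t.im
    linarith
  have hcomp : IsCompact (Icc (0 : ℝ) 1 ×ℂ Icc (1 : ℝ) T) := isCompact_Icc.reProdIm isCompact_Icc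
  obtain ⟨B, hB⟩ := hcomp.exists_bound_of_continuousOn hcont
  -- periodicity by integers
  have hperZ : ∀ (m : ℕ) (t : ℂ), 0 < t.im → Hy c X N y (t + m) = Hy c X N y t := by
    intro m t ht
    induction m with
    | zero => simp
    | succ m ih =>
      rw [← ih, ← hHP.per (t + m) (by simpa using ht)]
      congr 1
      push_cast
      ring
  have hfract : ∀ t : ℂ, 0 < t.im → ∃ t' : ℂ, t'.im = t.im ∧ t'.re ∈ Icc (0 : ℝ) 1 ∧
      Hy c X N y t = Hy c X N y t' := by
    intro t ht
    refine ⟨t - (⌊t.re⌋ : ℂ), by simp, ⟨by simp, ?_⟩, ?_⟩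
    · have := Int.lt_floor_add_one t.re
      simp only [Complex.sub_re, Complex.intCast_re]
      linarith
    · rcases Int.natAbs_eq ⌊t.re⌋ with h | h
      · have h1 := hperZ ⌊t.re⌋.natAbs (t - (⌊t.re⌋ : ℂ)) (by simpa using ht)
        rw [← h1]
        congr 1
        have : ((⌊t.re⌋.natAbs : ℕ) : ℂ) = ((⌊t.re⌋ : ℤ) : ℂ) := by
          have h2 : ((⌊t.re⌋.natAbs : ℕ) : ℤ) = ⌊t.re⌋ := h.symm
          rw [← Int.cast_natCast, h2]
        rw [this]
        ring
      · have h1 := hperZ ⌊t.re⌋.natAbs t ht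
        rw [← h1]
        congr 1
        have : ((⌊t.re⌋.natAbs : ℕ) : ℂ) = -((⌊t.re⌋ : ℤ) : ℂ) := by
          have h2 : ((⌊t.re⌋.natAbs : ℕ) : ℤ) = -⌊t.re⌋ := by omega
          rw [← Int.cast_natCast, h2, Int.cast_neg]
        rw [this]
        ring
  refine ⟨|K| + |B| * Real.exp (|a| * N * T), fun t ht => ?_⟩
  have hpt : (pt X N y (N * t)).2 = fun i => t * (X i : ℂ) + (y i : ℂ) := by
    funext i
    simp only [pt, xr]
    have hN0 : (N : ℂ) ≠ 0 := by exact_mod_cast hN.ne'
    push_cast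
    field_simp
  have hexp := Real.exp_pos (a * N * t.im)
  by_cases hbig : T ≤ N * t.im
  · have h1 := hK (N * t) (by rw [im_mul_nat]; exact hbig)
    rw [hpt, im_mul_nat] at h1
    calc ‖Hy c X N y t‖ ≤ K * Real.exp (a * (N * t.im)) := h1
      _ ≤ |K| * Real.exp (a * N * t.im) := by
        rw [← mul_assoc]
        exact mul_le_mul_of_nonneg_right (le_abs_self K) hexp.le
      _ ≤ _ := by
        refine mul_le_mul_of_nonneg_right ?_ hexp.le
        have := Real.exp_pos (|a| * N * T)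
        have h2 : 0 ≤ |B| * Real.exp (|a| * N * T) := by positivity
        linarith
  · push Not at hbig
    have ht0 : 0 < t.im := by linarith
    have htT : t.im ≤ T := by
      have h1 : (1 : ℝ) ≤ N := by exact_mod_cast hN
      nlinarith
    obtain ⟨t', h1, h2, h3⟩ := hfract t ht0
    rw [h3]
    have h4 : ‖Hy c X N y t'‖ ≤ B := hB t' (Complex.mem_reProdIm.2 ⟨h2, by
      rw [h1]; exact ⟨ht, htT⟩⟩)
    have h5 : 1 ≤ Real.exp (|a| * N * T) * Real.exp (a * N * t.im) := by
      rw [← Real.exp_add]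
      apply Real.one_le_exp
      have h6 : -(|a|) ≤ a := neg_abs_le a
      have h7 : 0 ≤ |a| := abs_nonneg a
      have h8 : -(|a| * N * T) ≤ a * N * t.im := by
        have h9 : -(|a|) * (N * t.im) ≤ a * (N * t.im) :=
          mul_le_mul_of_nonneg_right h6 (by positivity)
        have h10 : |a| * (N * t.im) ≤ |a| * (N * T) := by gcongr
        linarith
      linarith
    calc ‖Hy c X N y t'‖ ≤ |B| * 1 := by rw [mul_one]; exact h4.trans (le_abs_self B)
      _ ≤ |B| * (Real.exp (|a| * N * T) * Real.exp (a * N * t.im)) := by gcongr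
      _ = (|B| * Real.exp (|a| * N * T)) * Real.exp (a * N * t.im) := by ring
      _ ≤ _ := by
        refine mul_le_mul_of_nonneg_right ?_ hexp.le
        have := abs_nonneg K
        linarith

/-- the slice Fourier integral -/
theorem slice_int (hA : PosSymm A) (hc : JacobiZero A c) (X : Fin 20 → ℤ) {N : ℕ} (hN : 0 < N)
    (μ : Fin 20 → ℤ) {t : ℂ} (ht : 0 < t.im) :
    fc c μ (N * t) * ee (dt μ (fun i => (X i : ℂ)) * t) =
      ∫ y in Icc (0 : Fin 20 → ℝ) 1, Hy c X N y t * ee (-(dt μ (fun i => (y i : ℂ)))) := by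
  have hN' : (0 : ℝ) < N := by exact_mod_cast hN
  have him : 0 < ((N : ℂ) * t).im := by rw [im_mul_nat]; exact mul_pos hN' ht
  rw [(theta1 A c hA hc).2.2.1 μ (N * t) (fun i => t * (X i : ℂ)) him, ← integral_mul_const]
  refine integral_congr_ae (Filter.Eventually.of_forall (fun y => ?_))
  simp only
  unfold Hy
  rw [mul_assoc, ← ee_add]
  congr 2
  rw [dt_add]
  have : dt μ (fun i => t * (X i : ℂ)) = t * dt μ (fun i => (X i : ℂ)) := by
    unfold dt
    rw [Finset.mul_sum]
    exact Finset.sum_congr rfl (fun i _ => by ring)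
  rw [this]
  ring

theorem fc_HP (hA : PosSymm A) (hc : JacobiZero A c) (μ : Fin 20 → ℤ) : HP 0 (fc c μ) where
  holo := (theta1 A c hA hc).1 μ
  per := fun t ht => (theta1 A c hA hc).2.1 μ t ht

end FCsec

open FCsec

theorem jobFC : JobFC := by
  intro A c hA hc X N a hN hg μ n hneg
  have hN' : (0 : ℝ) < N := by exact_mod_cast hN
  have hN0 : (N : ℂ) ≠ 0 := by exact_mod_cast hN.ne'
  set m : ℤ := ∑ i, μ i * X i with hm
  have hdm : dt μ (fun i => (X i : ℂ)) = (m : ℂ) := dt_int μ X
  -- the index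
  have hj : 2 * Real.pi * (((n * N + m : ℤ)) : ℝ) + a * N < 0 := by
    have h1 : dt μ (xr X N) = (m : ℝ) / N := by
      unfold dt xr
      rw [hm]
      push_cast
      rw [Finset.sum_div]
      exact Finset.sum_congr rfl (fun i _ => by ring)
    rw [h1] at hneg
    have h2 : 2 * Real.pi * (((n * N + m : ℤ)) : ℝ) + a * N =
        N * (2 * Real.pi * ((n : ℝ) + (m : ℝ) / N) + a) := by
      push_cast
      field_simp
    rw [h2]
    exact mul_neg_of_pos_of_neg hN' hneg
  have hzero : ∀ y : Fin 20 → ℝ, fco 0 (Hy c X N y) (n * N + m) = 0 := by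
    intro y
    obtain ⟨M, hM⟩ := Hy_bound hc hN hg y
    exact fco_zero (Hy_HP hc X hN y) hM hj
  have hfHP := fc_HP hA hc μ
  -- Step A
  have hA1 : ∫ x in (0 : ℝ)..1, fc c μ (N * ((x : ℂ) + Complex.I)) *
      ee (-(n * (N * ((x : ℂ) + Complex.I)))) = 0 := by
    have e1 : ∀ x : ℝ, fc c μ (N * ((x : ℂ) + Complex.I)) * ee (-(n * (N * ((x : ℂ) + Complex.I)))) =
        ∫ y in Icc (0 : Fin 20 → ℝ) 1, (Hy c X N y ((x : ℂ) + Complex.I) *
          ee (-(((n * N + m : ℤ) : ℂ) * ((x : ℂ) + Complex.I)))) *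
          ee (-(dt μ (fun i => (y i : ℂ)))) := by
      intro x
      have h1 := slice_int hA hc X hN μ (t := (x : ℂ) + Complex.I) (by simp)
      have h2 : ∫ y in Icc (0 : Fin 20 → ℝ) 1, (Hy c X N y ((x : ℂ) + Complex.I) *
          ee (-(((n * N + m : ℤ) : ℂ) * ((x : ℂ) + Complex.I)))) *
          ee (-(dt μ (fun i => (y i : ℂ)))) =
          (∫ y in Icc (0 : Fin 20 → ℝ) 1, Hy c X N y ((x : ℂ) + Complex.I) *
          ee (-(dt μ (fun i => (y i : ℂ))))) *
          ee (-(((n * N + m : ℤ) : ℂ) * ((x : ℂ) + Complex.I))) := by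
        rw [← integral_mul_const]
        refine integral_congr_ae (Filter.Eventually.of_forall (fun y => ?_))
        simp only
        ring
      rw [h2, ← h1, mul_assoc, ← ee_add, hdm]
      congr 2
      push_cast
      ring
    simp_rw [e1]
    -- Fubini
    have hcont : ContinuousOn (fun q : ℝ × (Fin 20 → ℝ) =>
        (Hy c X N q.2 ((q.1 : ℂ) + Complex.I) *
          ee (-(((n * N + m : ℤ) : ℂ) * ((q.1 : ℂ) + Complex.I)))) *
          ee (-(dt μ (fun i => (q.2 i : ℂ))))) (Set.univ ×ˢ Set.univ) := by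
      refine ContinuousOn.mul (ContinuousOn.mul ?_ ?_) ?_
      · unfold Hy
        have h1 : ContinuousOn (fun q : ℝ × (Fin 20 → ℝ) => ((N : ℂ) * ((q.1 : ℂ) + Complex.I),
            fun i => ((q.1 : ℂ) + Complex.I) * (X i : ℂ) + (q.2 i : ℂ)))
            (Set.univ ×ˢ Set.univ) := by
          refine Continuous.continuousOn ?_
          fun_prop
        refine hc.holo.continuousOn.comp h1 ?_
        intro q _
        show 0 < ((N : ℂ) * ((q.1 : ℂ) + Complex.I)).im
        rw [im_mul_nat]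
        simpa using hN'
      · refine (differentiable_ee.continuous.comp ?_).continuousOn
        fun_prop
      · refine (differentiable_ee.continuous.comp ((continuous_dt μ).comp ?_).neg).continuousOn
        fun_prop
    rw [intervalIntegral.integral_of_le zero_le_one]
    rw [MeasureTheory.integral_integral_swap]
    · have h3 : ∀ y : Fin 20 → ℝ, ∫ x in Ioc (0 : ℝ) 1, (Hy c X N y ((x : ℂ) + Complex.I) *
          ee (-(((n * N + m : ℤ) : ℂ) * ((x : ℂ) + Complex.I)))) *
          ee (-(dt μ (fun i => (y i : ℂ)))) = 0 := by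
        intro y
        rw [integral_mul_const]
        have h4 := hzero y
        rw [(Hy_HP hc X hN y).fco_eq (n * N + m) (w := Complex.I) (by simp),
          intervalIntegral.integral_of_le zero_le_one] at h4
        rw [h4, zero_mul]
      simp_rw [h3]
      simp
    · -- integrability
      have h5 : IntegrableOn (fun q : ℝ × (Fin 20 → ℝ) =>
        (Hy c X N q.2 ((q.1 : ℂ) + Complex.I) *
          ee (-(((n * N + m : ℤ) : ℂ) * ((q.1 : ℂ) + Complex.I)))) *
          ee (-(dt μ (fun i => (q.2 i : ℂ))))) (Icc (0 : ℝ) 1 ×ˢ Icc (0 : Fin 20 → ℝ) 1)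
          (volume.prod volume) := by
        refine ContinuousOn.integrableOn_compact (isCompact_Icc.prod isCompact_Icc) ?_
        exact hcont.mono (fun _ _ => ⟨trivial, trivial⟩)
      have h6 := h5.mono_set (Set.prod_mono (Ioc_subset_Icc_self) (le_refl (Icc (0 : Fin 20 → ℝ) 1)))
      rw [IntegrableOn, ← Measure.prod_restrict] at h6
      exact h6
  -- Step B: change of variables
  have hB1 : ∫ x in (0 : ℝ)..1, fc c μ (N * ((x : ℂ) + Complex.I)) *
      ee (-(n * (N * ((x : ℂ) + Complex.I)))) = fco 0 (fc c μ) n := by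
    set g : ℝ → ℂ := fun u => fc c μ ((u : ℂ) + (N : ℂ) * Complex.I) *
      ee (-(n * ((u : ℂ) + (N : ℂ) * Complex.I))) with hgdef
    have hgper : Function.Periodic g 1 := by
      intro u
      simp only [hgdef]
      have h1 := (hfHP.mul_ee n).per ((u : ℂ) + (N : ℂ) * Complex.I) (by simpa using hN')
      rw [← h1]
      congr 2
      · push_cast; ring
      · push_cast; ring
    have h2 : ∀ x : ℝ, fc c μ (N * ((x : ℂ) + Complex.I)) *
        ee (-(n * (N * ((x : ℂ) + Complex.I)))) = g (N * x) := by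
      intro x
      simp only [hgdef]
      push_cast
      rw [mul_add]
    simp_rw [h2]
    rw [intervalIntegral.integral_comp_mul_left (fun u => g u) hN'.ne', mul_zero, mul_one]
    have h3 := hgper.intervalIntegral_add_zsmul_eq (N : ℤ) 0 (by
      intro a b
      refine Continuous.intervalIntegrable ?_ _ _
      have h4 := (hfHP.mul_ee n).cont_line (w := (N : ℂ) * Complex.I) (by simpa using hN')
      exact h4)
    simp only [zsmul_eq_mul, Int.cast_natCast, mul_one, zero_add] at h3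
    rw [h3, hfHP.fco_eq n (w := (N : ℂ) * Complex.I) (by simpa using hN')]
    rw [Complex.real_smul, ← mul_assoc]
    push_cast
    rw [inv_mul_cancel₀ hN0, one_mul]
  rw [← hB1, hA1]

end

end Pool.Agent.R396.F
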