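import Pool.Agent.R396.F.Main

set_option autoImplicit false

/-!
# Reflective lattices of signature (2, 22): the final step
-/

namespace Pool.Agent.R396.F

open Complex Set Finset Topology Pool.Agent.Y813.RL

theorem final (hA : JobA) (hGrow : JobGrow) (hFC : JobFC) (hVDS : JobVDS)
    {G : Matrix (Fin 20) (Fin 20) ℤ} (h : PosSymm G) (he : ∀ i, Even (G i i))
    (hR : Pool.Agent.Y813.Refl.IsReflectiveLattice (Pool.Agent.Y813.Refl.gramM G)
      (Pool.Agent.Y813.Refl.coneM G)) : SameGenus G gramEED := by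
  obtain ⟨k, F, hF, hs⟩ := hA G h he hR
  obtain ⟨φ, hφ⟩ := exists_FJD Pool.Agent.Y683.RL.jobFJ Pool.Agent.Y683.RL.jobKD h hF
  obtain ⟨C, m, hm, h1, h2, h3, h4⟩ := exists_second h hF hφ
  have H : CM G k F φ C m := ⟨hF, hφ, hm, h1, h2, h3, h4⟩
  obtain ⟨c, hc, hcφ⟩ := H.exists_jacobi Pool.Agent.Y155.RL.bc Pool.Agent.Y155.RL.div h
  have hm1 := m_eq_one hGrow hFC hVDS h H hs hc hcφ
  subst hm1
  have hA1 := posSymm_smul h H.hm
  have hG1 : (((1 : ℕ) : ℤ) • G) = G := by simp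
  obtain ⟨-, R, hR, -, -⟩ := finFour G h
  have hc' : JacobiZero G c := by rw [← hG1]; exact hc
  have hV := vv10 h hc' hR
  have g1 := growth_one hGrow hFC hVDS h H hs hc hcφ
  have g2 := growth_half hGrow hFC hVDS h he H hs hc hcφ
  rw [hG1] at g1 g2
  obtain ⟨τ, z, hτ, hcz⟩ := jac_ne H hcφ
  obtain ⟨μ, hμ⟩ := vf_ne h hc' hτ hcz
  obtain ⟨o1, o2⟩ := ode vv finFour G R (vf G c) h he hR hV (fun μ => by
    obtain ⟨C0, -, hC0⟩ := g1 μ
    refine ⟨C0, fun τ hτ => (hC0 τ hτ).trans (le_of_eq ?_)⟩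
    congr 2
    ring) (fun μ hμ => by
    obtain ⟨C0, -, hC0⟩ := g2 μ hμ
    refine ⟨C0, fun τ hτ => (hC0 τ hτ).trans (le_of_eq ?_)⟩
    congr 2
    ring) ⟨μ, τ, hτ, hμ⟩
  exact genus G h he o1 o2

end Pool.Agent.R396.F
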