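import Pool.Agent.Y813.RL.Stm

/-! Job FINFOUR: representatives and unitarity of the finite Fourier transform. -/

set_option autoImplicit false

namespace Pool.Agent.R396.F

open Pool.Agent.Y813.RL Matrix

noncomputable section

section

variable {A : Matrix (Fin 20) (Fin 20) ℤ}

lemma posDef_map (h : PosSymm A) : (A.map (Int.cast : ℤ → ℝ)).PosDef := by
  refine Matrix.PosDef.of_dotProduct_mulVec_pos ?_ ?_
  · unfold Matrix.IsHermitian
    ext i j
    simp only [Matrix.conjTranspose_apply, Matrix.map_apply, star_trivial]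
    rw [h.symm.apply i j]
  · intro x hx
    have h3 : bf A x x = ∑ i, x i * ((A.map (Int.cast : ℤ → ℝ)).mulVec x) i := by
      simp only [bf, Matrix.mulVec, dotProduct, Matrix.map_apply, Finset.mul_sum, mul_assoc]
    have := h.pos x hx
    rw [h3] at this
    simpa [dotProduct] using this

lemma det_pos (h : PosSymm A) : 0 < A.det := by
  have h1 := (posDef_map h).det_pos
  have h2 : (A.map (Int.cast : ℤ → ℝ)).det = ((A.det : ℤ) : ℝ) := by
    have := (Int.castRingHom ℝ).map_det A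
    simpa using this.symm
  rw [h2] at h1
  exact_mod_cast h1

lemma unit_det (h : PosSymm A) : IsUnit (A.map (Int.cast : ℤ → ℝ)).det :=
  (posDef_map h).det_pos.ne'.isUnit

lemma bd_add_leftf (μ μ' ν : Fin 20 → ℤ) : bd A (μ + μ') ν = bd A μ ν + bd A μ' ν := by
  unfold bd
  rw [← Finset.sum_add_distrib]
  refine Finset.sum_congr rfl fun i _ => ?_
  simp only [Pi.add_apply]
  push_cast
  ring

lemma bd_sub_right (μ ν ν' : Fin 20 → ℤ) : bd A μ (ν - ν') = bd A μ ν - bd A μ ν' := by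
  unfold bd
  rw [← Finset.sum_sub_distrib]
  refine Finset.sum_congr rfl fun i _ => ?_
  have : (fun j => (((ν - ν') j : ℤ) : ℝ)) = (fun j => ((ν j : ℤ) : ℝ)) - fun j => ((ν' j : ℤ) : ℝ) := by
    funext j; simp
  rw [this, Matrix.mulVec_sub, Pi.sub_apply]
  ring

lemma bd_mulVec_rightf (h : PosSymm A) (μ v : Fin 20 → ℤ) :
    bd A μ (A.mulVec v) = ((∑ i, μ i * v i : ℤ) : ℝ) := by
  have h1 : (fun j => ((A.mulVec v j : ℤ) : ℝ)) =
      (A.map (Int.cast : ℤ → ℝ)).mulVec (fun j => (v j : ℝ)) := by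
    funext j
    simp [Matrix.mulVec, dotProduct]
  unfold bd
  rw [h1, Matrix.mulVec_mulVec, Matrix.nonsing_inv_mul _ (unit_det h), Matrix.one_mulVec]
  push_cast
  rfl

lemma bd_commf (h : PosSymm A) (μ ν : Fin 20 → ℤ) : bd A μ ν = bd A ν μ := by
  have hs : (A.map (Int.cast : ℤ → ℝ))⁻¹.IsSymm := by
    unfold Matrix.IsSymm
    rw [Matrix.transpose_nonsing_inv]
    congr 1
    ext i j
    simp only [Matrix.transpose_apply, Matrix.map_apply]
    rw [h.symm.apply i j]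
  unfold bd
  simp only [Matrix.mulVec, dotProduct, Finset.mul_sum]
  rw [Finset.sum_comm]
  refine Finset.sum_congr rfl fun i _ => Finset.sum_congr rfl fun j _ => ?_
  rw [hs.apply i j]
  ring

lemma ee_intf (n : ℤ) : ee ((n : ℝ) : ℂ) = 1 := by
  unfold ee
  rw [Complex.exp_eq_one_iff]
  exact ⟨n, by push_cast; ring⟩

lemma ee_addf (x y : ℂ) : ee (x + y) = ee x * ee y := by
  unfold ee
  rw [← Complex.exp_add]
  congr 1; ring

lemma ee_eq_one {x : ℝ} (h : ee (x : ℂ) = 1) : ∃ n : ℤ, x = n := by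
  unfold ee at h
  rw [Complex.exp_eq_one_iff] at h
  obtain ⟨n, hn⟩ := h
  refine ⟨n, ?_⟩
  have h1 : (2 * Real.pi * Complex.I : ℂ) ≠ 0 := Complex.two_pi_I_ne_zero
  have h2 : (2 * Real.pi * Complex.I : ℂ) * ((x : ℂ) - n) = 0 := by linear_combination hn
  have h3 : (x : ℂ) - n = 0 := (mul_eq_zero.mp h2).resolve_left h1
  have h4 : (x : ℂ) = ((n : ℝ) : ℂ) := by
    rw [sub_eq_zero] at h3
    rw [h3]; simp
  exact_mod_cast h4

lemma norm_eef (x : ℝ) : ‖ee (x : ℂ)‖ = 1 := by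
  unfold ee
  rw [Complex.norm_exp]
  have : (2 * (Real.pi : ℂ) * Complex.I * (x : ℂ)).re = 0 := by simp
  rw [this, Real.exp_zero]

lemma conj_ee (x : ℝ) : (starRingEnd ℂ) (ee (x : ℂ)) = ee ((-x : ℝ) : ℂ) := by
  unfold ee
  rw [← Complex.exp_conj]
  congr 1
  simp only [map_mul, Complex.conj_ofReal, Complex.conj_I, map_ofNat]
  push_cast
  ring

/-- the sublattice -/
def Nsub (A : Matrix (Fin 20) (Fin 20) ℤ) : Submodule ℤ (Fin 20 → ℤ) := LinearMap.range (Matrix.toLin' A)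

lemma mem_N (μ : Fin 20 → ℤ) : μ ∈ Nsub A ↔ ∃ v, μ = A.mulVec v := by
  unfold Nsub
  rw [LinearMap.mem_range]
  constructor
  · rintro ⟨v, rfl⟩; exact ⟨v, by rw [Matrix.toLin'_apply]⟩
  · rintro ⟨v, rfl⟩; exact ⟨v, by rw [Matrix.toLin'_apply]⟩

lemma card_quot (h : PosSymm A) : (Nat.card ((Fin 20 → ℤ) ⧸ Nsub A) : ℤ) = A.det := by
  have hd := det_pos h
  have hinj : Function.Injective (Matrix.toLin' A) := by
    rw [← LinearMap.ker_eq_bot]
    refine LinearMap.ker_eq_bot_of_injective ?_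
    intro x y hxy
    rw [Matrix.toLin'_apply, Matrix.toLin'_apply] at hxy
    have h1 : A.mulVec (x - y) = 0 := by rw [Matrix.mulVec_sub, hxy, sub_self]
    by_contra hne
    have := (Matrix.exists_mulVec_eq_zero_iff (M := A)).mp ⟨x - y, sub_ne_zero.mpr hne, h1⟩
    omega
  let e : (Fin 20 → ℤ) ≃ₗ[ℤ] Nsub A := LinearEquiv.ofInjective (Matrix.toLin' A) hinj
  have h1 := Submodule.natAbs_det_equiv (Nsub A) e
  have h2 : (Nsub A).subtype ∘ₗ AddMonoidHom.toIntLinearMap (e : (Fin 20 → ℤ) →+ Nsub A) = Matrix.toLin' A := by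
    ext; rfl
  rw [h2, LinearMap.det_toLin'] at h1
  rw [← h1]
  omega

/-- the character sum -/
lemma sum_char (h : PosSymm A) [Fintype ((Fin 20 → ℤ) ⧸ Nsub A)] (ρ : Fin 20 → ℤ) :
    (ρ ∈ Nsub A → ∑ q : (Fin 20 → ℤ) ⧸ Nsub A, ee (-(bd A q.out ρ : ℂ)) =
      Fintype.card ((Fin 20 → ℤ) ⧸ Nsub A)) ∧
    (ρ ∉ Nsub A → ∑ q : (Fin 20 → ℤ) ⧸ Nsub A, ee (-(bd A q.out ρ : ℂ)) = 0) := by
  constructor
  · intro hρ
    obtain ⟨v, rfl⟩ := (mem_N ρ).mp hρ
    have : ∀ q : (Fin 20 → ℤ) ⧸ Nsub A, ee (-(bd A q.out (A.mulVec v) : ℂ)) = 1 := by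
      intro q
      rw [bd_mulVec_rightf h]
      have := ee_intf (-(∑ i, q.out i * v i))
      rw [← this]
      congr 1
      push_cast
      ring
    rw [Finset.sum_congr rfl (fun q _ => this q)]
    simp
  · intro hρ
    -- a unit vector with non integral pairing
    have hex : ∃ μ0 : Fin 20 → ℤ, ee (-(bd A μ0 ρ : ℂ)) ≠ 1 := by
      by_contra hcon
      push Not at hcon
      apply hρ
      rw [mem_N]
      have h1 : ∀ i, ∃ n : ℤ, ((A.map (Int.cast : ℤ → ℝ))⁻¹.mulVec (fun j => (ρ j : ℝ))) i = n := by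
        intro i
        have h2 := hcon (Pi.single i 1)
        have h3 : bd A (Pi.single i 1) ρ = ((A.map (Int.cast : ℤ → ℝ))⁻¹.mulVec (fun j => (ρ j : ℝ))) i := by
          unfold bd
          rw [Finset.sum_eq_single i]
          · simp
          · intro j _ hj
            simp [Pi.single_eq_of_ne hj]
          · simp
        rw [h3] at h2
        have h4 : ee ((-((A.map (Int.cast : ℤ → ℝ))⁻¹.mulVec (fun j => (ρ j : ℝ)) i) : ℝ) : ℂ) = 1 := by
          rw [← h2]; push_cast; rfl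
        obtain ⟨n, hn⟩ := ee_eq_one h4
        exact ⟨-n, by push_cast; linarith⟩
      choose v hv using h1
      refine ⟨v, ?_⟩
      have h5 : (A.map (Int.cast : ℤ → ℝ)).mulVec (fun j => (v j : ℝ)) = fun j => (ρ j : ℝ) := by
        have : (fun j => (v j : ℝ)) = (A.map (Int.cast : ℤ → ℝ))⁻¹.mulVec (fun j => (ρ j : ℝ)) := by
          funext i; rw [hv i]
        rw [this, Matrix.mulVec_mulVec, Matrix.mul_nonsing_inv _ (unit_det h), Matrix.one_mulVec]
      funext j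
      have h6 := congrFun h5 j
      have h7 : (A.map (Int.cast : ℤ → ℝ)).mulVec (fun j => (v j : ℝ)) j = ((A.mulVec v j : ℤ) : ℝ) := by
        simp [Matrix.mulVec, dotProduct]
      rw [h7] at h6
      exact_mod_cast h6.symm
    obtain ⟨μ0, hμ0⟩ := hex
    set s := ∑ q : (Fin 20 → ℤ) ⧸ Nsub A, ee (-(bd A q.out ρ : ℂ)) with hs
    have h1 : s = s * ee (-(bd A μ0 ρ : ℂ)) := by
      conv_lhs => rw [hs, ← Equiv.sum_comp (Equiv.addRight (Submodule.Quotient.mk μ0 : (Fin 20 → ℤ) ⧸ Nsub A))]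
      rw [hs, Finset.sum_mul]
      refine Finset.sum_congr rfl fun q _ => ?_
      have h2 : (q + Submodule.Quotient.mk μ0).out - (q.out + μ0) ∈ Nsub A := by
        rw [← Submodule.Quotient.eq, Submodule.Quotient.mk_add]
        have e1 : (Submodule.Quotient.mk (q + Submodule.Quotient.mk μ0).out : (Fin 20 → ℤ) ⧸ Nsub A)
            = q + Submodule.Quotient.mk μ0 := Quotient.out_eq _
        have e2 : (Submodule.Quotient.mk q.out : (Fin 20 → ℤ) ⧸ Nsub A) = q := Quotient.out_eq _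
        rw [e1, e2]
      obtain ⟨v, hv⟩ := (mem_N _).mp h2
      have h3 : (q + Submodule.Quotient.mk μ0).out = q.out + μ0 + A.mulVec v := by
        rw [← hv]; ring
      simp only [Equiv.coe_addRight]
      rw [h3, bd_add_leftf, bd_add_leftf, bd_commf h (A.mulVec v), bd_mulVec_rightf h]
      rw [← ee_addf]
      have := ee_intf (-(∑ i, ρ i * v i))
      have e3 : (-(((bd A q.out ρ + bd A μ0 ρ + ((∑ i, ρ i * v i : ℤ) : ℝ) : ℝ)) : ℂ)) =
        (-(bd A q.out ρ : ℂ) + -(bd A μ0 ρ : ℂ)) + (((-(∑ i, ρ i * v i) : ℤ) : ℝ) : ℂ) := by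
        push_cast
        ring
      rw [e3, ee_addf, this, mul_one]
    have h2 : s * (1 - ee (-(bd A μ0 ρ : ℂ))) = 0 := by linear_combination h1
    rcases mul_eq_zero.mp h2 with h3 | h3
    · exact h3
    · exact absurd (sub_eq_zero.mp h3).symm hμ0

end

theorem finFour : JobFinFour := by
  classical
  intro A h
  have hd := det_pos h
  have hcard := card_quot h
  have hfin : Finite ((Fin 20 → ℤ) ⧸ Nsub A) := by
    refine Nat.finite_of_card_ne_zero ?_
    omega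
  letI : Fintype ((Fin 20 → ℤ) ⧸ Nsub A) := Fintype.ofFinite _
  have hout : ∀ q : (Fin 20 → ℤ) ⧸ Nsub A, (Submodule.Quotient.mk q.out : (Fin 20 → ℤ) ⧸ Nsub A) = q :=
    fun q => Quotient.out_eq _
  have hinj : Function.Injective (fun q : (Fin 20 → ℤ) ⧸ Nsub A => q.out) := by
    intro q q' hqq
    simp only at hqq
    rw [← hout q, ← hout q', hqq]
  have hsum : ∀ {V : Type} [AddCommMonoid V] (g : (Fin 20 → ℤ) → V),
      ∑ μ ∈ Finset.univ.image (fun q : (Fin 20 → ℤ) ⧸ Nsub A => q.out), g μ = ∑ q : (Fin 20 → ℤ) ⧸ Nsub A, g q.out := by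
    intro V _ g
    rw [Finset.sum_image (fun a _ b _ hab => hinj hab)]
  refine ⟨hd, Finset.univ.image (fun q : (Fin 20 → ℤ) ⧸ Nsub A => q.out), ?_, ?_, ?_⟩
  · intro μ
    refine ⟨(Submodule.Quotient.mk μ : (Fin 20 → ℤ) ⧸ Nsub A).out, ⟨?_, ?_⟩, ?_⟩
    · exact Finset.mem_image_of_mem _ (Finset.mem_univ _)
    · have h1 : μ - (Submodule.Quotient.mk μ : (Fin 20 → ℤ) ⧸ Nsub A).out ∈ Nsub A := by
        rw [← Submodule.Quotient.eq, hout]
      obtain ⟨v, hv⟩ := (mem_N _).mp h1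
      exact ⟨v, by rw [← hv]; ring⟩
    · rintro ρ ⟨hρ, v, hv⟩
      obtain ⟨q, -, rfl⟩ := Finset.mem_image.mp hρ
      have : (Submodule.Quotient.mk μ : (Fin 20 → ℤ) ⧸ Nsub A) = q := by
        rw [← hout q, Submodule.Quotient.eq]
        exact (mem_N _).mpr ⟨v, by rw [hv]; ring⟩
      rw [this]
  · rw [Finset.card_image_of_injective _ hinj, Finset.card_univ, ← hcard, Nat.card_eq_fintype_card]
  · intro a
    rw [hsum (fun μ => ‖∑ ρ ∈ _, ee (-(bd A μ ρ : ℂ)) * a ρ‖ ^ 2), hsum (fun ρ => ‖a ρ‖ ^ 2)]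
    simp only [hsum (fun ρ => ee (-(bd A _ ρ : ℂ)) * a ρ)]
    have key : ∀ ρ ρ' : (Fin 20 → ℤ) ⧸ Nsub A, ∑ q : (Fin 20 → ℤ) ⧸ Nsub A, ee (-(bd A q.out (ρ.out - ρ'.out) : ℂ))
        = if ρ = ρ' then (A.det : ℂ) else 0 := by
      intro ρ ρ'
      split_ifs with hρ
      · rw [hρ, sub_self]
        rw [(sum_char h 0).1 (Submodule.zero_mem _)]
        have : ((Fintype.card ((Fin 20 → ℤ) ⧸ Nsub A) : ℤ) : ℂ) = ((A.det : ℤ) : ℂ) := by
          rw [← hcard, Nat.card_eq_fintype_card]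
        exact_mod_cast this
      · refine (sum_char h _).2 fun hmem => hρ ?_
        rw [← hout ρ, ← hout ρ', Submodule.Quotient.eq]
        exact hmem
    -- expand in complex numbers
    have e1 : ∀ q : (Fin 20 → ℤ) ⧸ Nsub A, ((‖∑ ρ : (Fin 20 → ℤ) ⧸ Nsub A, ee (-(bd A q.out ρ.out : ℂ)) * a ρ.out‖ ^ 2 : ℝ) : ℂ)
        = ∑ ρ : (Fin 20 → ℤ) ⧸ Nsub A, ∑ ρ' : (Fin 20 → ℤ) ⧸ Nsub A,
          (a ρ.out * (starRingEnd ℂ) (a ρ'.out)) * ee (-(bd A q.out (ρ.out - ρ'.out) : ℂ)) := by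
      intro q
      rw [Complex.ofReal_pow, ← Complex.mul_conj', map_sum, Finset.sum_mul_sum]
      refine Finset.sum_congr rfl fun ρ _ => Finset.sum_congr rfl fun ρ' _ => ?_
      rw [map_mul]
      have c1 : (starRingEnd ℂ) (ee (-(bd A q.out ρ'.out : ℂ))) = ee (bd A q.out ρ'.out : ℂ) := by
        have := conj_ee (-(bd A q.out ρ'.out))
        rw [neg_neg] at this
        rw [← this]; push_cast; rfl
      have c2 : ee (-(bd A q.out (ρ.out - ρ'.out) : ℂ)) = ee (-(bd A q.out ρ.out : ℂ)) * ee (bd A q.out ρ'.out : ℂ) := by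
        rw [← ee_addf, bd_sub_right]
        congr 1
        push_cast
        ring
      rw [c1, c2]
      ring
    have e2 : ((∑ q : (Fin 20 → ℤ) ⧸ Nsub A, ‖∑ ρ : (Fin 20 → ℤ) ⧸ Nsub A, ee (-(bd A q.out ρ.out : ℂ)) * a ρ.out‖ ^ 2 : ℝ) : ℂ)
        = (((A.det : ℝ) * ∑ q : (Fin 20 → ℤ) ⧸ Nsub A, ‖a q.out‖ ^ 2 : ℝ) : ℂ) := by
      rw [Complex.ofReal_sum, Finset.sum_congr rfl (fun q _ => e1 q), Finset.sum_comm]
      have e3 : ∀ ρ : (Fin 20 → ℤ) ⧸ Nsub A, ∑ q : (Fin 20 → ℤ) ⧸ Nsub A, ∑ ρ' : (Fin 20 → ℤ) ⧸ Nsub A,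
          (a ρ.out * (starRingEnd ℂ) (a ρ'.out)) * ee (-(bd A q.out (ρ.out - ρ'.out) : ℂ))
          = (A.det : ℂ) * ((‖a ρ.out‖ ^ 2 : ℝ) : ℂ) := by
        intro ρ
        rw [Finset.sum_comm]
        have e4 : ∀ ρ' : (Fin 20 → ℤ) ⧸ Nsub A, ∑ q : (Fin 20 → ℤ) ⧸ Nsub A,
          (a ρ.out * (starRingEnd ℂ) (a ρ'.out)) * ee (-(bd A q.out (ρ.out - ρ'.out) : ℂ))
          = if ρ = ρ' then (a ρ.out * (starRingEnd ℂ) (a ρ'.out)) * (A.det : ℂ) else 0 := by
          intro ρ'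
          rw [← Finset.mul_sum, key]
          split_ifs <;> simp
        rw [Finset.sum_congr rfl (fun ρ' _ => e4 ρ'), Finset.sum_ite_eq]
        simp only [Finset.mem_univ, if_true]
        rw [Complex.ofReal_pow, ← Complex.mul_conj']
        ring
      rw [Finset.sum_congr rfl (fun ρ _ => e3 ρ), ← Finset.mul_sum]
      simp only [Complex.ofReal_mul, Complex.ofReal_sum, Complex.ofReal_intCast]
    exact_mod_cast e2

end

end Pool.Agent.R396.F
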