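import Pool.Agent.R396.F.Stm2
import Pool.Agent.Y683.RL.Kd

set_option autoImplicit false

/-!
# MP_f1d0b6_nt: bound of `gp` on discs (subtask T8, helper393)
-/

namespace Pool.Agent.R396.F

open Complex Set Finset Topology Pool.Agent.Y813.RL Pool.Agent.Y683.RL

noncomputable section

variable {G : Matrix (Fin 20) (Fin 20) ℤ}

theorem pt_mem (X : Fin 20 → ℤ) (N : ℕ) (y : Fin 20 → ℝ) {τ : ℂ} (hτ : 0 < τ.im) :
    pt X N y τ ∈ UP := hτ

theorem imv_pt (X : Fin 20 → ℤ) (N : ℕ) (y : Fin 20 → ℝ) (τ : ℂ) :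
    imv (pt X N y τ).2 = τ.im • xr X N := by
  funext i
  simp [imv, pt, xr]

theorem xp_pt (X : Fin 20 → ℤ) (N : ℕ) (y : Fin 20 → ℝ) {τ : ℂ} (hτ : 0 < τ.im) :
    xp (pt X N y τ) = xr X N := by
  unfold xp
  rw [imv_pt]
  have : (pt X N y τ).1.im = τ.im := rfl
  rw [this, smul_smul, inv_mul_cancel₀ hτ.ne', one_smul]

theorem bh_pt (X : Fin 20 → ℤ) (N : ℕ) (y : Fin 20 → ℝ) {τ : ℂ} (hτ : 0 < τ.im) :
    bh G (pt X N y τ) = τ.im * (bf G (xr X N) (xr X N) / 2) := by
  rw [bh_eq (pt_mem X N y hτ), xp_pt X N y hτ]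
  rfl

theorem law_T_nat {k : ℤ} {F : TP → ℂ} {φ : ℕ → ℂ × (Fin 20 → ℂ) → ℂ} (hF : TubeForm G k F)
    (hφ : FJD G F φ) (j : ℕ) (n : ℕ) {τ : ℂ} (z : Fin 20 → ℂ) (hτ : 0 < τ.im) :
    φ j (τ + n, z) = φ j (τ, z) := by
  induction n with
  | zero => simp
  | succ n ih =>
    rw [← ih]
    have h1 : 0 < (τ + (n : ℂ)).im := by simpa using hτ
    have := law_T hF hφ j z h1
    rw [← this]
    congr 2
    push_cast
    ring

/-- the restriction of a coefficient to the slice is periodic -/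
theorem slice_per {k : ℤ} {F : TP → ℂ} {φ : ℕ → ℂ × (Fin 20 → ℂ) → ℂ} (hF : TubeForm G k F)
    (hφ : FJD G F φ) (j : ℕ) (X : Fin 20 → ℤ) {N : ℕ} (hN : 0 < N) (y : Fin 20 → ℝ) {t : ℂ}
    (ht : 0 < t.im) : φ j (pt X N y (N * (t + 1))) = φ j (pt X N y (N * t)) := by
  have hN' : (N : ℂ) ≠ 0 := by exact_mod_cast hN.ne'
  have hNt : 0 < ((N : ℂ) * t).im := by
    rw [Complex.mul_im]
    simp only [Complex.natCast_re, Complex.natCast_im, zero_mul, add_zero]
    have : (0 : ℝ) < N := by exact_mod_cast hN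
    positivity
  have h1 := law_T_nat hF hφ j N (τ := N * t) (fun i => (pt X N y (N * t)).2 i + (X i : ℂ)) hNt
  have h2 := law_z hF hφ j (τ := N * t) (pt X N y (N * t)).2 X hNt
  rw [h2] at h1
  have h3 : (((N : ℂ) * t, (pt X N y (N * t)).2) : ℂ × (Fin 20 → ℂ)) = pt X N y (N * t) := rfl
  rw [h3] at h1
  rw [← h1]
  congr 1
  refine Prod.ext ?_ ?_
  · simp only [pt]
    ring
  · funext i
    simp only [pt, xr]
    push_cast
    field_simp
    ring

theorem slice_hp {k : ℤ} {F : TP → ℂ} {φ : ℕ → ℂ × (Fin 20 → ℂ) → ℂ} (hF : TubeForm G k F)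
    (hφ : FJD G F φ) (j : ℕ) (X : Fin 20 → ℤ) {N : ℕ} (hN : 0 < N) (y : Fin 20 → ℝ) :
    HP 0 (fun t => φ j (pt X N y (N * t))) where
  holo := by
    refine (hφ.holo j).comp (t := UP) (f := fun t : ℂ => pt X N y (N * t)) ?_ ?_
    · unfold pt
      fun_prop
    · intro t ht
      have ht' : 0 < t.im := ht
      refine pt_mem X N y ?_
      rw [Complex.mul_im]
      simp only [Complex.natCast_re, Complex.natCast_im, zero_mul, add_zero]
      have : (0 : ℝ) < N := by exact_mod_cast hN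
      positivity
  per := fun t ht => slice_per hF hφ j X hN y ht

theorem natmul_im (N : ℕ) (t : ℂ) : ((N : ℂ) * t).im = N * t.im := by
  rw [Complex.mul_im]
  simp

/-- bound of a coefficient from a bound on a horizontal line -/
theorem coeff_le {F : TP → ℂ} {φ : ℕ → ℂ × (Fin 20 → ℂ) → ℂ} (hφ : FJD G F φ) (j : ℕ)
    {p : ℂ × (Fin 20 → ℂ)} (hp : p ∈ UP) {v M : ℝ} (hv : bh G p < v)
    (hM : ∀ ω : ℂ, ω.im = v → ‖F (ω, p)‖ ≤ M) :
    ‖φ j p‖ ≤ M * Real.exp (2 * Real.pi * v * j) := by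
  rw [hφ.coeff j p v hp hv]
  have h1 : ∀ u ∈ Set.uIoc (0 : ℝ) 1, ‖F ((u : ℂ) + (v : ℂ) * Complex.I, p) *
      ee (-(j * ((u : ℂ) + (v : ℂ) * Complex.I)))‖ ≤ M * Real.exp (2 * Real.pi * v * j) := by
    intro u _
    rw [norm_mul, norm_ee]
    have h2 : (-((j : ℂ) * ((u : ℂ) + (v : ℂ) * Complex.I))).im = -(j * v) := by
      simp [Complex.mul_im]
    rw [h2]
    have h3 : -(2 * Real.pi * -(j * v)) = 2 * Real.pi * v * j := by ring
    rw [h3]
    refine mul_le_mul_of_nonneg_right (hM _ ?_) (Real.exp_pos _).le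
    simp
  have := intervalIntegral.norm_integral_le_of_norm_le_const h1
  simpa using this

theorem jobGB : JobGB := by
  intro G k F φ C m hG H X N y η hN hη hmir
  set q := bf G (xr X N) (xr X N) with hq
  have hq0 : 0 ≤ q := hG.nonneg _
  have hN1 : (1 : ℝ) ≤ N := by exact_mod_cast hN
  have hN0 : (0 : ℝ) < N := by linarith
  have hpi := Real.pi_pos
  obtain ⟨M, hM⟩ := bound_slice jobKD hG H.tf X hN hη
  -- the bound on the slice
  have hline : ∀ τ : ℂ, 1 ≤ τ.im → ∀ ω : ℂ, ω.im = (η + q / 2) * τ.im →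
      ‖F (ω, pt X N y τ)‖ ≤ |M| := by
    intro τ hτ ω hω
    refine (hM (ω, pt X N y τ) hτ (imv_pt X N y τ) ?_).trans (le_abs_self _)
    show (η + q / 2) * τ.im ≤ ω.im
    rw [hω]
  have hbh : ∀ τ : ℂ, 1 ≤ τ.im → bh G (pt X N y τ) < (η + q / 2) * τ.im := by
    intro τ hτ
    rw [bh_pt X N y (by linarith)]
    have : 0 < η * τ.im := mul_pos hη (by linarith)
    rw [← hq]
    nlinarith
  set a : ℝ := 2 * Real.pi * (η + q / 2) * N * C with ha
  have hfp := slice_hp H.tf H.fd C X hN y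
  obtain ⟨c, a', T₁, hc, hlow⟩ := per_lower hfp (M := |M|) (a := a) ⟨Complex.I, by simp, by
      have h1 : 0 < ((N : ℂ) * Complex.I).im := by
        rw [natmul_im]; simpa using hN0
      exact leading_ne_zero hG H.tf H.fd H.hC H.hne (pt_mem X N y h1) (hmir _ h1)⟩ (by
      intro t ht
      have h1 : ((N : ℂ) * t).im = N * t.im := natmul_im N t
      have h2 : 1 ≤ ((N : ℂ) * t).im := by
        rw [h1]; nlinarith
      refine (coeff_le H.fd C (pt_mem X N y (by linarith)) (hbh _ h2) (hline _ h2)).trans ?_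
      rw [h1, ha]
      apply le_of_eq
      congr 2
      ring)
  refine ⟨|M| / c + |2 * Real.pi * (η + q / 2) * C + a' / N| + 1, max 1 (N * T₁), by positivity,
    lt_of_lt_of_le one_pos (le_max_left _ _), ?_⟩
  intro τ hτ s hs
  have hτ1 : 1 ≤ τ.im := (le_max_left _ _).trans hτ
  have hτ0 : 0 < τ.im := by linarith
  have hτ2 : N * T₁ ≤ τ.im := (le_max_right _ _).trans hτ
  have h0 : φ C (pt X N y τ) ≠ 0 :=
    leading_ne_zero hG H.tf H.fd H.hC H.hne (pt_mem X N y hτ0) (hmir _ hτ0)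
  have hgb := H.gp_bound (pt_mem X N y hτ0) h0 (hbh τ hτ1) (hline τ hτ1) (s := s) (by
    refine hs.trans (le_of_eq ?_)
    rfl)
  have hNc : (N : ℂ) ≠ 0 := by exact_mod_cast hN.ne'
  have him : (τ / N).im = τ.im / N := by
    have := natmul_im N (τ / N)
    rw [mul_div_cancel₀ _ hNc] at this
    field_simp
    linarith
  have hl := hlow (τ / N) (by
    rw [him, le_div_iff₀ hN0]
    linarith)
  simp only [mul_div_cancel₀ _ hNc, him] at hl
  refine hgb.trans ?_
  have hpos : 0 < c * Real.exp (-(a' * (τ.im / N))) := by positivity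
  calc |M| * Real.exp (2 * Real.pi * ((η + q / 2) * τ.im) * C) / ‖φ C (pt X N y τ)‖
      ≤ |M| * Real.exp (2 * Real.pi * ((η + q / 2) * τ.im) * C) /
          (c * Real.exp (-(a' * (τ.im / N)))) := by
        gcongr
    _ = (|M| / c) * Real.exp ((2 * Real.pi * (η + q / 2) * C + a' / N) * τ.im) := by
        rw [Real.exp_neg]
        have e1 : (2 * Real.pi * (η + q / 2) * C + a' / N) * τ.im =
            2 * Real.pi * ((η + q / 2) * τ.im) * C + a' * (τ.im / N) := by ring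
        rw [e1, Real.exp_add]
        field_simp
    _ ≤ Real.exp ((|M| / c) * τ.im) *
          Real.exp (|2 * Real.pi * (η + q / 2) * C + a' / N| * τ.im) := by
        have h1 : |M| / c ≤ Real.exp ((|M| / c) * τ.im) := by
          have h2 : 0 ≤ |M| / c := by positivity
          have h3 := Real.add_one_le_exp ((|M| / c) * τ.im)
          nlinarith
        gcongr
        exact le_abs_self _
    _ ≤ _ := by
        rw [← Real.exp_add]
        apply Real.exp_le_exp.2
        nlinarith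

end

end Pool.Agent.R396.F
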