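import Pool.Agent.R396.F.GenusTwo
import Pool.Agent.R396.F.FinFour

/-!
# JobGenus: the discriminant form of `D_4` determines the genus
-/

set_option autoImplicit false

namespace Pool.Agent.R396.F

open Matrix Pool.Agent.Y813.RL

section real

theorem real_main : ∀ (n : ℕ) (ι κ : Type) [Fintype ι] [Fintype κ] [DecidableEq ι]
    [DecidableEq κ] (M : Matrix ι ι ℝ) (N : Matrix κ κ ℝ), M.IsSymm → N.IsSymm →
    (∀ x, x ≠ 0 → 0 < bil M x x) → (∀ x, x ≠ 0 → 0 < bil N x x) →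
    Fintype.card ι = n → Fintype.card κ = n → Iso M N := by
  intro n
  induction n with
  | zero =>
    intro ι κ _ _ _ _ M N _ _ _ _ hι hκ
    have := Fintype.card_eq_zero_iff.1 hι
    have := Fintype.card_eq_zero_iff.1 hκ
    exact iso_empty M N
  | succ n ih =>
    intro ι κ _ _ _ _ M N hM hN pM pN hι hκ
    have key : ∀ (ι : Type) [Fintype ι] [DecidableEq ι] (M : Matrix ι ι ℝ), M.IsSymm →
        (∀ x, x ≠ 0 → 0 < bil M x x) → Fintype.card ι = n + 1 →
        ∃ (m : ℕ) (N : Matrix (Fin m) (Fin m) ℝ), N.IsSymm ∧ (∀ x, x ≠ 0 → 0 < bil N x x) ∧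
          m = n ∧ Iso M (fromBlocks (1 : Matrix (Fin 1) (Fin 1) ℝ) 0 0 N) := by
      intro ι _ _ M hM pM hc
      have : Nonempty ι := Fintype.card_pos_iff.1 (by omega)
      obtain ⟨i⟩ := this
      have hx : (Pi.single i 1 : ι → ℝ) ≠ 0 := by
        intro h
        have := congrFun h i
        simp at this
      have hp := pM _ hx
      set c := bil M (Pi.single i 1) (Pi.single i 1) with hcd
      have hv : bil M ((1 / Real.sqrt c) • Pi.single i 1) ((1 / Real.sqrt c) • Pi.single i 1)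
          = 1 := by
        rw [bil_smul_left, bil_smul_right, ← hcd]
        have h1 : Real.sqrt c * Real.sqrt c = c := Real.mul_self_sqrt hp.le
        have h2 : Real.sqrt c ≠ 0 := (Real.sqrt_pos.2 hp).ne'
        field_simp
        nlinarith [h1]
      obtain ⟨m, N, hN, hm, e, he⟩ := split_one hM hv
      refine ⟨m, N, hN, fun x hx => ?_, by omega, ⟨e, he⟩⟩
      have h1 : bil N x x = bil M (e.symm (Sum.elim 0 x)) (e.symm (Sum.elim 0 x)) := by
        rw [← he, e.apply_symm_apply, bil_fromBlocks, bil_zero_left, zero_add]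
      rw [h1]
      apply pM
      intro h2
      rw [LinearEquiv.map_eq_zero_iff] at h2
      apply hx
      funext j
      exact congrFun h2 (Sum.inr j)
    obtain ⟨m, M1, hM1, pM1, hm, hi⟩ := key ι M hM pM hι
    obtain ⟨m', N1, hN1, pN1, hm', hi'⟩ := key κ N hN pN hκ
    exact hi.trans ((Iso.blocks (Iso.refl _) (ih (Fin m) (Fin m') M1 N1 hM1 hN1 pM1 pN1
      (by rw [Fintype.card_fin, hm]) (by rw [Fintype.card_fin, hm']))).trans hi'.symm)

end real

section integers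

variable {ι κ : Type} [Fintype ι] [Fintype κ] [DecidableEq ι] [DecidableEq κ]

theorem bf_eq {R : Type} [CommRing R] (B : Matrix ι ι ℤ) (x y : ι → R) :
    bf B x y = bil (B.map (Int.cast : ℤ → R)) x y := by
  unfold bf bil
  simp only [dotProduct, mulVec, map_apply, Finset.mul_sum]
  exact Finset.sum_congr rfl fun i _ => Finset.sum_congr rfl fun j _ => by ring

/-- The integral conditions. -/
structure IC (G : Matrix ι ι ℤ) : Prop where
  symm : G.IsSymm
  even : ∀ i, ∃ d, G i i = 2 * d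
  kk : ∃ K : Matrix ι ι ℤ, G * K = (2 : ℤ) • 1
  dd : ∀ y w : ι → ℤ, G *ᵥ y = (2 : ℤ) • w →
    (∃ z, y = (2 : ℤ) • z) ∨ ∃ k, y ⬝ᵥ (G *ᵥ y) = 4 + 8 * k

theorem even_form {R : Type} [CommRing R] {M : Matrix ι ι R} (hM : M.IsSymm)
    (h : ∀ i, ∃ d, M i i = 2 * d) (x : ι → R) : ∃ k, bil M x x = 2 * k := by
  have key : ∀ s : Finset ι, ∃ k, bil M (∑ i ∈ s, x i • Pi.single i 1)
      (∑ i ∈ s, x i • Pi.single i 1) = 2 * k := by
    intro s
    induction s using Finset.induction_on with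
    | empty => exact ⟨0, by simp [bil_zero_left]⟩
    | insert i s hi ih =>
      obtain ⟨k, hk⟩ := ih
      obtain ⟨d, hd⟩ := h i
      rw [Finset.sum_insert hi]
      set S := ∑ i ∈ s, x i • (Pi.single i 1 : ι → R)
      refine ⟨x i ^ 2 * d + x i * bil M (Pi.single i 1) S + k, ?_⟩
      rw [bil_add_left, bil_add_right, bil_add_right, hk, bil_comm hM S, bil_smul_left,
        bil_smul_left, bil_smul_right, bil_single, hd]
      ring
  obtain ⟨k, hk⟩ := key Finset.univ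
  refine ⟨k, ?_⟩
  rw [← hk, ← pi_eq_sum_univ' x]

theorem cast_even {n : ℤ} {t : Z2} (h : (n : Z2) = 2 * t) : ∃ m, n = 2 * m := by
  have h1 : ¬ IsUnit ((n : ℤ) : Z2) := (nonunit_iff _).2 ⟨t, h⟩
  rw [← toZMod_eq_zero_iff, map_intCast] at h1
  have h2 := (ZMod.intCast_zmod_eq_zero_iff_dvd n 2).1 h1
  obtain ⟨m, hm⟩ := h2
  exact ⟨m, by rw [hm]; norm_num⟩

theorem cond_of_int {G : Matrix ι ι ℤ} (h : IC G) (hd : ∃ d, G.det = 2 * d) :
    Cond (G.map (Int.cast : ℤ → Z2)) := by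
  have hs : (G.map (Int.cast : ℤ → Z2)).IsSymm := by
    ext i j
    simp only [transpose_apply, map_apply]
    rw [h.symm.apply i j]
  have hE : ∀ x, ∃ k, bil (G.map (Int.cast : ℤ → Z2)) x x = 2 * k := by
    apply even_form hs
    intro i
    obtain ⟨d, hd⟩ := h.even i
    exact ⟨d, by rw [map_apply, hd]; push_cast; ring⟩
  have hmul : ∀ c : ι → ℤ, (G.map (Int.cast : ℤ → Z2)) *ᵥ (fun i => (c i : Z2)) =
      fun i => (((G *ᵥ c) i : ℤ) : Z2) := by
    intro c
    funext i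
    simp [mulVec, dotProduct]
  refine ⟨hs, hE, fun φ => ?_, fun y hy => ?_, ?_⟩
  · obtain ⟨K, hK⟩ := h.kk
    have hK' : (G.map (Int.cast : ℤ → Z2)) * (K.map (Int.cast : ℤ → Z2)) = (2 : Z2) • 1 := by
      have := congrArg (fun M : Matrix ι ι ℤ => M.map (Int.castRingHom Z2)) hK
      simp only [Matrix.map_mul] at this
      refine this.trans ?_
      ext i j
      simp only [map_apply, Matrix.smul_apply, smul_eq_mul]
      by_cases hij : i = j
      · subst hij; simp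
      · simp [one_apply_ne hij]
    refine ⟨(K.map (Int.cast : ℤ → Z2)) *ᵥ (fun i => φ (Pi.single i 1)), fun x => ?_⟩
    unfold bil
    rw [mulVec_mulVec, hK', smul_mulVec, one_mulVec, dotProduct_smul, smul_eq_mul]
    congr 1
    rw [LinearMap.pi_apply_eq_sum_univ φ x]
    simp only [dotProduct, smul_eq_mul]
    refine Finset.sum_congr rfl fun i _ => ?_
    congr 2
    ext j
    rw [Pi.single_apply]
    by_cases hij : j = i
    · simp [hij]
    · simp [hij, Ne.symm hij]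
  · -- approximate
    have hc : ∀ i, ∃ (c : ℤ) (t : Z2), y i = c + 2 * t := by
      intro i
      obtain ⟨c, hc⟩ := ZMod.intCast_surjective (PadicInt.toZMod (y i))
      have h1 : ¬ IsUnit (y i - ((c : ℤ) : Z2)) := by
        rw [← toZMod_eq_zero_iff, map_sub, map_intCast, hc, sub_self]
      obtain ⟨k, hk⟩ := (nonunit_iff _).1 h1
      exact ⟨_, k, by linear_combination hk⟩
    choose c t hct using hc
    have hyc : y = (fun i => (c i : Z2)) + (2 : Z2) • t := by
      funext i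
      rw [hct i]; simp
    have hw : ∀ i, ∃ w, (G *ᵥ c) i = 2 * w := by
      intro i
      obtain ⟨s, hs'⟩ := hy (Pi.single i 1)
      have h2 : bil (G.map (Int.cast : ℤ → Z2)) (Pi.single i 1) y =
          (((G *ᵥ c) i : ℤ) : Z2) + 2 * ((G.map (Int.cast : ℤ → Z2)) *ᵥ t) i := by
        unfold bil
        rw [single_one_dotProduct, hyc, mulVec_add, hmul, mulVec_smul]
        simp
      rw [h2] at hs'
      exact cast_even (t := s - ((G.map (Int.cast : ℤ → Z2)) *ᵥ t) i) (by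
        linear_combination hs')
    choose w hw using hw
    rcases h.dd c w (by funext i; rw [hw i]; simp) with ⟨z, hz⟩ | ⟨k, hk⟩
    · left
      refine ⟨(fun i => (z i : Z2)) + t, ?_⟩
      rw [hyc]
      funext i
      have : c i = 2 * z i := by rw [hz]; simp
      simp only [Pi.add_apply, Pi.smul_apply, smul_eq_mul, this]
      push_cast
      ring
    · right
      set M := G.map (Int.cast : ℤ → Z2) with hMd
      set c' : ι → Z2 := fun i => (c i : Z2) with hc'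
      have h3 : bil M c' c' = 4 + 8 * k := by
        unfold bil
        rw [hMd, hc', hmul]
        have := congrArg (Int.cast : ℤ → Z2) hk
        push_cast at this
        rw [← this]
        simp only [dotProduct]
        push_cast
        rfl
      have h4 : ∃ s, bil M t c' = 2 * s := by
        unfold bil
        rw [hMd, hc', hmul]
        refine ⟨∑ i, t i * (w i : Z2), ?_⟩
        rw [Finset.mul_sum]
        simp only [dotProduct]
        refine Finset.sum_congr rfl fun i _ => ?_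
        rw [hw i]
        push_cast
        ring
      obtain ⟨s, hs4⟩ := h4
      obtain ⟨r, hr⟩ := hE t
      refine ⟨k + s + r, ?_⟩
      have h5 : bil M c' t = 2 * s := by rw [bil_comm hs, hs4]
      rw [hyc, bil_add_left, bil_add_right, bil_add_right, bil_smul_left, bil_smul_right,
        bil_smul_right, bil_smul_left, h3, hs4, h5, hr]
      ring
  · obtain ⟨d, hd⟩ := hd
    have h1 : (G.map (Int.cast : ℤ → Z2)).det = ((G.det : ℤ) : Z2) := by
      have := (Int.castRingHom Z2).map_det G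
      simpa using this.symm
    rw [h1, hd]
    exact (nonunit_iff _).2 ⟨d, by push_cast; ring⟩

theorem det_cast {R : Type} [CommRing R] (G : Matrix ι ι ℤ) :
    (G.map (Int.cast : ℤ → R)).det = ((G.det : ℤ) : R) := by
  have := (Int.castRingHom R).map_det G
  simpa using this.symm

/-- positivity from a Gram factorization -/
theorem pos_of_gram {n : ℕ} (B S : Matrix (Fin n) (Fin n) ℤ) (c : ℤ) (hc : 0 < c)
    (h : S * Sᵀ = c • B) (hd : B.det ≠ 0) (x : Fin n → ℝ) (hx : x ≠ 0) :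
    0 < bil (B.map (Int.cast : ℤ → ℝ)) x x := by
  have hc' : (0 : ℝ) < c := by exact_mod_cast hc
  have hS : (S.map (Int.cast : ℤ → ℝ)) * (S.map (Int.cast : ℤ → ℝ))ᵀ =
      (c : ℝ) • B.map (Int.cast : ℤ → ℝ) := by
    have := congrArg (fun M : Matrix (Fin n) (Fin n) ℤ => M.map (Int.castRingHom ℝ)) h
    simp only [Matrix.map_mul] at this
    refine (Eq.trans ?_ this).trans ?_
    · rfl
    · ext i j
      simp only [map_apply, Matrix.smul_apply, smul_eq_mul, map_mul]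
      rfl
  set T := S.map (Int.cast : ℤ → ℝ) with hT
  have h1 : (c : ℝ) * bil (B.map (Int.cast : ℤ → ℝ)) x x = (Tᵀ *ᵥ x) ⬝ᵥ (Tᵀ *ᵥ x) := by
    have : (c : ℝ) * bil (B.map (Int.cast : ℤ → ℝ)) x x = bil (T * Tᵀ) x x := by
      rw [hS]
      unfold bil
      rw [smul_mulVec, dotProduct_smul, smul_eq_mul]
    rw [this]
    unfold bil
    rw [← mulVec_mulVec, dotProduct_mulVec, ← mulVec_transpose]
  have hdet : Tᵀ.det ≠ 0 := by
    rw [det_transpose]
    intro h0
    have h2 := congrArg Matrix.det hS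
    rw [det_mul, det_transpose, h0, mul_zero, det_smul, det_cast] at h2
    have h3 : ((B.det : ℤ) : ℝ) ≠ 0 := by exact_mod_cast hd
    exact (mul_ne_zero (pow_ne_zero _ hc'.ne') h3) h2.symm
  have h2 : Tᵀ *ᵥ x ≠ 0 := by
    intro h0
    exact hdet (Matrix.exists_mulVec_eq_zero_iff.1 ⟨x, hx, h0⟩)
  have h3 : 0 < (Tᵀ *ᵥ x) ⬝ᵥ (Tᵀ *ᵥ x) := by
    have h4 : 0 ≤ (Tᵀ *ᵥ x) ⬝ᵥ (Tᵀ *ᵥ x) := by
      unfold dotProduct
      exact Finset.sum_nonneg fun i _ => mul_self_nonneg _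
    rcases h4.lt_or_eq with h5 | h5
    · exact h5
    · exact absurd (dotProduct_self_eq_zero.1 h5.symm) h2
  rw [← h1] at h3
  exact (mul_pos_iff_of_pos_left hc').1 h3

theorem pos_blocks {M : Matrix ι ι ℝ} {N : Matrix κ κ ℝ} (hM : ∀ x, x ≠ 0 → 0 < bil M x x)
    (hN : ∀ x, x ≠ 0 → 0 < bil N x x) (x : ι ⊕ κ → ℝ) (hx : x ≠ 0) :
    0 < bil (fromBlocks M 0 0 N) x x := by
  rw [bil_fromBlocks']
  by_cases h1 : x ∘ Sum.inl = 0
  · have h2 : x ∘ Sum.inr ≠ 0 := by
      intro h2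
      apply hx
      rw [← Sum.elim_comp_inl_inr x, h1, h2]
      funext i
      cases i <;> rfl
    rw [h1, bil_zero_left, zero_add]
    exact hN _ h2
  · by_cases h2 : x ∘ Sum.inr = 0
    · rw [h2, bil_zero_left, add_zero]
      exact hM _ h1
    · exact add_pos (hM _ h1) (hN _ h2)

end integers

section EED

/-- The inverse of the Cartan matrix of `E_8`. -/
def E8inv : Matrix (Fin 8) (Fin 8) ℤ :=
  !![4, 5, 7, 10, 8, 6, 4, 2; 5, 8, 10, 15, 12, 9, 6, 3; 7, 10, 14, 20, 16, 12, 8, 4;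
    10, 15, 20, 30, 24, 18, 12, 6; 8, 12, 16, 24, 20, 15, 10, 5; 6, 9, 12, 18, 15, 12, 8, 4;
    4, 6, 8, 12, 10, 8, 6, 3; 2, 3, 4, 6, 5, 4, 3, 2]

/-- Twice the coordinates of the simple roots of `E_8`. -/
def S8 : Matrix (Fin 8) (Fin 8) ℤ :=
  !![1, -1, -1, -1, -1, -1, -1, 1; 2, 2, 0, 0, 0, 0, 0, 0; -2, 2, 0, 0, 0, 0, 0, 0;
    0, -2, 2, 0, 0, 0, 0, 0; 0, 0, -2, 2, 0, 0, 0, 0; 0, 0, 0, -2, 2, 0, 0, 0;
    0, 0, 0, 0, -2, 2, 0, 0; 0, 0, 0, 0, 0, -2, 2, 0]

/-- The simple roots of `D_4`. -/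
def S4 : Matrix (Fin 4) (Fin 4) ℤ := !![1, -1, 0, 0; 0, 1, -1, 0; 0, 0, 1, -1; 0, 0, 1, 1]

/-- Twice the inverse of the Cartan matrix of `D_4`. -/
def K4 : Matrix (Fin 4) (Fin 4) ℤ := !![2, 2, 1, 1; 2, 4, 2, 2; 1, 2, 2, 1; 1, 2, 1, 2]

theorem E8_inv : CartanMatrix.E₈ * E8inv = 1 := by decide +kernel

theorem inv_E8 : E8inv * CartanMatrix.E₈ = 1 := by decide +kernel

theorem S8_gram : S8 * S8ᵀ = (4 : ℤ) • CartanMatrix.E₈ := by decide +kernel

theorem S4_gram : S4 * S4ᵀ = (1 : ℤ) • CartanMatrix.D 4 := by decide +kernel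

theorem K4_eq : CartanMatrix.D 4 * K4 = (2 : ℤ) • 1 := by decide +kernel

theorem det_D4 : (CartanMatrix.D 4).det = 4 := by decide +kernel

theorem det_EED : gramEED.det = 4 := by
  unfold gramEED
  rw [det_fromBlocks_zero₂₁, det_fromBlocks_zero₂₁, CartanMatrix.E₈_det, det_D4]
  norm_num

theorem E8_even (y w : Fin 8 → ℤ) (h : CartanMatrix.E₈ *ᵥ y = (2 : ℤ) • w) :
    y = (2 : ℤ) • (E8inv *ᵥ w) := by
  have h1 := congrArg (fun v => E8inv *ᵥ v) h
  simp only [mulVec_mulVec, inv_E8, one_mulVec, mulVec_smul] at h1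
  exact h1

theorem D4_cond (y w : Fin 4 → ℤ) (h : CartanMatrix.D 4 *ᵥ y = (2 : ℤ) • w) :
    (∃ z, y = (2 : ℤ) • z) ∨ ∃ k, y ⬝ᵥ (CartanMatrix.D 4 *ᵥ y) = 4 + 8 * k := by
  rw [CartanMatrix.D_four] at h ⊢
  have e0 := congrFun h 0
  have e1 := congrFun h 1
  have e2 := congrFun h 2
  have e3 := congrFun h 3
  simp [mulVec, dotProduct, Fin.sum_univ_four] at e0 e1 e2 e3
  have hval : y ⬝ᵥ (!![2, -1, 0, 0; -1, 2, -1, -1; 0, -1, 2, 0; 0, -1, 0, 2] *ᵥ y) =
      2 * y 0 ^ 2 + 2 * y 1 ^ 2 + 2 * y 2 ^ 2 + 2 * y 3 ^ 2 - 2 * y 0 * y 1 - 2 * y 1 * y 2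
        - 2 * y 1 * y 3 := by
    simp [mulVec, dotProduct, Fin.sum_univ_four]
    ring
  rw [hval]
  obtain ⟨s, hs⟩ : ∃ s, y 1 = 2 * s := ⟨y 0 - w 0, by omega⟩
  rcases Int.even_or_odd' (y 0) with ⟨p, hp | hp⟩ <;>
    rcases Int.even_or_odd' (y 2) with ⟨q, hq | hq⟩ <;>
    rcases Int.even_or_odd' (y 3) with ⟨r, hr | hr⟩
  · left
    refine ⟨![p, s, q, r], ?_⟩
    funext i
    fin_cases i
    · exact hp
    · exact hs
    · exact hq
    · exact hr
  · omega
  · omega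
  · right
    rw [hp, hs, hq, hr]
    exact ⟨p ^ 2 + q ^ 2 + q + r ^ 2 + r + s ^ 2 - p * s - q * s - s * r - s, by ring⟩
  · omega
  · right
    rw [hp, hs, hq, hr]
    exact ⟨p ^ 2 + p + q ^ 2 + r ^ 2 + r + s ^ 2 - p * s - q * s - s * r - s, by ring⟩
  · right
    rw [hp, hs, hq, hr]
    exact ⟨p ^ 2 + p + q ^ 2 + q + r ^ 2 + s ^ 2 - p * s - q * s - s * r - s, by ring⟩
  · omega

theorem ic_D4 : IC (CartanMatrix.D 4) where
  symm := CartanMatrix.D_isSymm 4
  even i := ⟨1, by rw [CartanMatrix.D_diag]; norm_num⟩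
  kk := ⟨K4, K4_eq⟩
  dd := D4_cond

/-- Adding a copy of `E_8`. -/
theorem IC.addE8 {ι : Type} [Fintype ι] [DecidableEq ι] {G : Matrix ι ι ℤ} (h : IC G) :
    IC (fromBlocks CartanMatrix.E₈ 0 0 G) where
  symm := by
    rw [isSymm_fromBlocks_iff]
    exact ⟨CartanMatrix.E₈_isSymm, by simp, by simp, h.symm⟩
  even i := by
    rcases i with i | i
    · exact ⟨1, by rw [fromBlocks_apply₁₁, CartanMatrix.E₈_diag]; norm_num⟩
    · rw [fromBlocks_apply₂₂]
      exact h.even i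
  kk := by
    obtain ⟨K, hK⟩ := h.kk
    refine ⟨fromBlocks ((2 : ℤ) • E8inv) 0 0 K, ?_⟩
    rw [fromBlocks_multiply, hK, Matrix.mul_smul, E8_inv]
    simp only [Matrix.mul_zero, Matrix.zero_mul, add_zero, zero_add]
    rw [← fromBlocks_one, fromBlocks_smul, smul_zero]
    simp
  dd y w hy := by
    have h1 : CartanMatrix.E₈ *ᵥ (y ∘ Sum.inl) = (2 : ℤ) • (w ∘ Sum.inl) := by
      funext i
      have := congrFun hy (Sum.inl i)
      rw [fromBlocks_mulVec] at this
      simpa using this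
    have h2 : G *ᵥ (y ∘ Sum.inr) = (2 : ℤ) • (w ∘ Sum.inr) := by
      funext i
      have := congrFun hy (Sum.inr i)
      rw [fromBlocks_mulVec] at this
      simpa using this
    have h3 := E8_even _ _ h1
    rcases h.dd _ _ h2 with ⟨z, hz⟩ | ⟨k, hk⟩
    · left
      refine ⟨Sum.elim (E8inv *ᵥ (w ∘ Sum.inl)) z, ?_⟩
      funext i
      rcases i with i | i
      · exact congrFun h3 i
      · exact congrFun hz i
    · right
      have h4 : y ⬝ᵥ (fromBlocks CartanMatrix.E₈ 0 0 G *ᵥ y) =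
          bil CartanMatrix.E₈ (y ∘ Sum.inl) (y ∘ Sum.inl) + bil G (y ∘ Sum.inr) (y ∘ Sum.inr) :=
        bil_fromBlocks' _ _ _ _
      have h5 : bil G (y ∘ Sum.inr) (y ∘ Sum.inr) = 4 + 8 * k := hk
      obtain ⟨r, hr⟩ := even_form CartanMatrix.E₈_isSymm
        (fun i => ⟨1, by rw [CartanMatrix.E₈_diag]; norm_num⟩) (E8inv *ᵥ (w ∘ Sum.inl))
      rw [h4, h5, h3, bil_smul_left, bil_smul_right, hr]
      exact ⟨k + r, by ring⟩

theorem ic_EED : IC gramEED := ic_D4.addE8.addE8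

theorem pos_EED (x : Fin 8 ⊕ (Fin 8 ⊕ Fin 4) → ℝ) (hx : x ≠ 0) :
    0 < bil (gramEED.map (Int.cast : ℤ → ℝ)) x x := by
  have hE : ∀ x : Fin 8 → ℝ, x ≠ 0 → 0 < bil (CartanMatrix.E₈.map (Int.cast : ℤ → ℝ)) x x :=
    pos_of_gram _ S8 4 (by norm_num) S8_gram (by rw [CartanMatrix.E₈_det]; norm_num)
  have hD : ∀ x : Fin 4 → ℝ, x ≠ 0 → 0 < bil ((CartanMatrix.D 4).map (Int.cast : ℤ → ℝ)) x x :=
    pos_of_gram _ S4 1 (by norm_num) S4_gram (by rw [det_D4]; norm_num)
  have h1 : gramEED.map (Int.cast : ℤ → ℝ) =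
      fromBlocks (CartanMatrix.E₈.map (Int.cast : ℤ → ℝ)) 0 0
        (fromBlocks (CartanMatrix.E₈.map (Int.cast : ℤ → ℝ)) 0 0
          ((CartanMatrix.D 4).map (Int.cast : ℤ → ℝ))) := by
    unfold gramEED
    rw [fromBlocks_map, fromBlocks_map]
    simp
  rw [h1]
  exact pos_blocks hE (pos_blocks hE hD) x hx

end EED

section final

variable {G : Matrix (Fin 20) (Fin 20) ℤ}

theorem ic_G (hG : PosSymm G) (he : ∀ i, Even (G i i))
    (hb : ∀ μ, (¬ ∃ v : Fin 20 → ℤ, μ = G.mulVec v) → ∃ k : ℤ, bd G μ μ = 2 * k + 1) :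
    IC G := by
  have hd := det_pos hG
  have hinj : ∀ x y, G *ᵥ x = G *ᵥ y → x = y := by
    intro x y hxy
    have h1 : G.mulVec (x - y) = 0 := by rw [Matrix.mulVec_sub, hxy, sub_self]
    by_contra hne
    have := (Matrix.exists_mulVec_eq_zero_iff (M := G)).mp ⟨x - y, sub_ne_zero.mpr hne, h1⟩
    omega
  have hdbl : ∀ μ ν : Fin 20 → ℤ, bd G μ ((2 : ℤ) • ν) = 2 * bd G μ ν := by
    intro μ ν
    have h1 : bd G ((2 : ℤ) • ν) μ = 2 * bd G ν μ := by
      rw [two_smul, bd_add_leftf]; ring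
    rw [bd_commf hG, h1, bd_commf hG]
  have hrange : ∀ μ : Fin 20 → ℤ, ∃ y : Fin 20 → ℤ, G *ᵥ y = (2 : ℤ) • μ := by
    intro μ
    by_contra hcon
    push Not at hcon
    obtain ⟨k, hk⟩ := hb ((2 : ℤ) • μ) (fun ⟨v, hv⟩ => hcon v hv.symm)
    obtain ⟨k', hk'⟩ := hb μ (fun ⟨v, hv⟩ => hcon ((2 : ℤ) • v) (by rw [mulVec_smul, ← hv]))
    rw [hdbl, bd_commf hG, hdbl, hk'] at hk
    have h2 : 2 * (2 * (2 * k' + 1)) = 2 * k + 1 := by exact_mod_cast hk
    omega
  refine ⟨hG.symm, fun i => ?_, ?_, fun y w hy => ?_⟩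
  · obtain ⟨r, hr⟩ := he i
    exact ⟨r, by rw [hr]; ring⟩
  · choose K hK using fun j : Fin 20 => hrange (Pi.single j 1)
    refine ⟨fun i j => K j i, ?_⟩
    ext i j
    have := congrFun (hK j) i
    simp only [mulVec, dotProduct] at this
    rw [mul_apply, this, Matrix.smul_apply, Pi.smul_apply, Pi.single_apply, one_apply]
  · by_cases hv : ∃ v : Fin 20 → ℤ, w = G.mulVec v
    · obtain ⟨v, hv⟩ := hv
      left
      refine ⟨v, hinj _ _ ?_⟩
      rw [hy, mulVec_smul, hv]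
    · right
      obtain ⟨k, hk⟩ := hb w hv
      refine ⟨k, ?_⟩
      have h1 := bd_mulVec_rightf hG w y
      rw [hy, hdbl, hk] at h1
      have h2 : 2 * (2 * k + 1) = ∑ i, w i * y i := by exact_mod_cast h1
      rw [hy, dotProduct_smul, smul_eq_mul]
      have h3 : y ⬝ᵥ w = ∑ i, w i * y i := Finset.sum_congr rfl fun i _ => mul_comm _ _
      rw [h3, ← h2]
      ring

theorem det_G (hG : PosSymm G) (h : IC G) (h1 : G.det ≠ 1) : G.det = 4 := by
  have hd := det_pos hG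
  obtain ⟨K, hK⟩ := h.kk
  have h2 : G.det * K.det = 2 ^ 20 := by
    rw [← det_mul, hK, det_smul, det_one, Fintype.card_fin, mul_one]
  have h3 : G.det.natAbs ∣ 2 ^ 20 := by
    have : G.det ∣ ((2 ^ 20 : ℕ) : ℤ) := ⟨K.det, by push_cast; exact h2.symm⟩
    exact Int.natAbs_dvd_natAbs.2 this |>.trans (by norm_num)
  obtain ⟨m, _, hm⟩ := (Nat.dvd_prime_pow Nat.prime_two).1 h3
  have h4 : G.det = 2 ^ m := by
    have : (G.det.natAbs : ℤ) = 2 ^ m := by rw [hm]; push_cast; rfl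
    rw [← this]
    omega
  have hm0 : m ≠ 0 := by
    rintro rfl
    exact h1 (by rw [h4]; norm_num)
  obtain ⟨m, rfl⟩ := Nat.exists_eq_succ_of_ne_zero hm0
  have hcond := cond_of_int h ⟨2 ^ m, by rw [h4, pow_succ]; ring⟩
  obtain ⟨u, hu, hval⟩ := det_val 20 (Fin 20) _ (Fintype.card_fin 20) hcond
  rw [det_cast, h4] at hval
  push_cast at hval
  rcases Nat.eq_zero_or_pos m with rfl | hm1
  · exfalso
    have h5 : (2 : Z2) * (1 + 2 * (-u)) = 0 := by
      rw [Nat.succ_eq_add_one] at hval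
      linear_combination hval
    have h6 := (mul_eq_zero.1 h5).resolve_left two_ne
    have h7 : IsUnit (1 + 2 * (-u)) := (unit_iff _).2 ⟨_, rfl⟩
    rw [h6] at h7
    exact not_isUnit_zero h7
  · rcases Nat.lt_or_ge m 2 with hm2 | hm2
    · have : m = 1 := by omega
      subst this
      rw [h4]; norm_num
    · exfalso
      obtain ⟨r, rfl⟩ := Nat.exists_eq_add_of_le hm2
      have h5 : (4 : Z2) * u = 4 * (2 * 2 ^ r) := by
        rw [← hval, Nat.succ_eq_add_one]
        ring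
      have h6 : u = 2 * 2 ^ r := mul_left_cancel₀ (by norm_num) h5
      exact (nonunit_iff u).2 ⟨_, h6⟩ hu

/-- **JobGenus.** -/
theorem genus : JobGenus := by
  intro G hG he hb h1
  have hIC := ic_G hG he hb
  have hdet := det_G hG hIC h1
  have hsymm : ∀ (R : Type) [CommRing R] (ι : Type) [Fintype ι] (B : Matrix ι ι ℤ), B.IsSymm →
      (B.map (Int.cast : ℤ → R)).IsSymm := by
    intro R _ ι _ B hB
    ext i j
    simp only [transpose_apply, map_apply]
    rw [hB.apply i j]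
  have hconv : ∀ (R : Type) [CommRing R], Iso (G.map (Int.cast : ℤ → R))
      (gramEED.map (Int.cast : ℤ → R)) →
      ∃ e : (Fin 20 → R) ≃ₗ[R] (Fin 8 ⊕ (Fin 8 ⊕ Fin 4) → R),
        ∀ x y, bf gramEED (e x) (e y) = bf G x y := by
    rintro R _ ⟨e, he⟩
    exact ⟨e, fun x y => by rw [bf_eq, bf_eq, he]⟩
  refine ⟨?_, fun p _ => ?_⟩
  · apply hconv
    refine real_main 20 _ _ _ _ (hsymm _ _ _ hG.symm) (hsymm _ _ _ ic_EED.symm) ?_ pos_EED
      (Fintype.card_fin 20) (by simp)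
    intro x hx
    have := hG.pos x hx
    rwa [bf_eq] at this
  · apply hconv
    by_cases hp : p = 2
    · subst hp
      refine two_main 20 _ _ _ _ (cond_of_int hIC ⟨2, by rw [hdet]; norm_num⟩)
        (cond_of_int ic_EED ⟨2, by rw [det_EED]; norm_num⟩) (Fintype.card_fin 20) (by simp)
        ⟨1, ?_⟩
      rw [det_cast, det_cast, hdet, det_EED]
      simp
    · refine odd_main hp 20 _ _ _ _ (hsymm _ _ _ hG.symm) (hsymm _ _ _ ic_EED.symm)
        (Fintype.card_fin 20) (by simp) ?_ ⟨1, ?_⟩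
      · rw [det_cast, hdet]
        have hpp : p.Prime := Fact.out
        by_contra h
        rw [← toZMod_eq_zero_iff, map_intCast] at h
        have h2 : ((4 : ℕ) : ZMod p) = 0 := by exact_mod_cast h
        have h3 := (ZMod.natCast_eq_zero_iff 4 p).1 h2
        have h4 : p ∣ 2 ^ 2 := by norm_num; exact h3
        exact hp ((Nat.prime_dvd_prime_iff_eq hpp Nat.prime_two).1 (hpp.dvd_of_dvd_pow h4))
      · rw [det_cast, det_cast, hdet, det_EED]
        simp

end final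

end Pool.Agent.R396.F
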