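import Pool.Agent.Y813.RL.Stm

/-!
# Isometry of symmetric matrices over a commutative ring; splitting off unimodular parts
-/

set_option autoImplicit false

namespace Pool.Agent.R396.F

open Matrix

section basics

variable {R : Type} [CommRing R]
variable {ι κ ι' κ' l : Type} [Fintype ι] [Fintype κ] [Fintype ι'] [Fintype κ'] [Fintype l]

/-- The bilinear form of a matrix. -/
def bil (M : Matrix ι ι R) (x y : ι → R) : R := x ⬝ᵥ (M *ᵥ y)

/-- Isometry. -/
def Iso (M : Matrix ι ι R) (N : Matrix κ κ R) : Prop :=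
  ∃ e : (ι → R) ≃ₗ[R] (κ → R), ∀ x y, bil N (e x) (e y) = bil M x y

theorem Iso.refl (M : Matrix ι ι R) : Iso M M := ⟨LinearEquiv.refl R _, fun _ _ => rfl⟩

theorem Iso.symm {M : Matrix ι ι R} {N : Matrix κ κ R} (h : Iso M N) : Iso N M := by
  obtain ⟨e, he⟩ := h
  refine ⟨e.symm, fun x y => ?_⟩
  rw [← he, e.apply_symm_apply, e.apply_symm_apply]

theorem Iso.trans {M : Matrix ι ι R} {N : Matrix κ κ R} {L : Matrix l l R} (h : Iso M N)
    (h' : Iso N L) : Iso M L := by
  obtain ⟨e, he⟩ := h
  obtain ⟨f, hf⟩ := h'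
  refine ⟨e.trans f, fun x y => ?_⟩
  rw [LinearEquiv.trans_apply, LinearEquiv.trans_apply, hf, he]

theorem bil_add_left (M : Matrix ι ι R) (x x' y : ι → R) :
    bil M (x + x') y = bil M x y + bil M x' y := by
  unfold bil; rw [add_dotProduct]

theorem bil_add_right (M : Matrix ι ι R) (x y y' : ι → R) :
    bil M x (y + y') = bil M x y + bil M x y' := by
  unfold bil; rw [mulVec_add, dotProduct_add]

theorem bil_smul_left (M : Matrix ι ι R) (c : R) (x y : ι → R) :
    bil M (c • x) y = c * bil M x y := by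
  unfold bil; rw [smul_dotProduct, smul_eq_mul]

theorem bil_smul_right (M : Matrix ι ι R) (c : R) (x y : ι → R) :
    bil M x (c • y) = c * bil M x y := by
  unfold bil; rw [mulVec_smul, dotProduct_smul, smul_eq_mul]

theorem bil_sub_left (M : Matrix ι ι R) (x x' y : ι → R) :
    bil M (x - x') y = bil M x y - bil M x' y := by
  unfold bil; rw [sub_dotProduct]

theorem bil_sub_right (M : Matrix ι ι R) (x y y' : ι → R) :
    bil M x (y - y') = bil M x y - bil M x y' := by
  unfold bil; rw [mulVec_sub, dotProduct_sub]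

theorem bil_zero_left (M : Matrix ι ι R) (y : ι → R) : bil M 0 y = 0 := by
  unfold bil; rw [zero_dotProduct]

theorem bil_zero_right (M : Matrix ι ι R) (y : ι → R) : bil M y 0 = 0 := by
  unfold bil; rw [mulVec_zero, dotProduct_zero]

theorem bil_comm {M : Matrix ι ι R} (h : M.IsSymm) (x y : ι → R) : bil M x y = bil M y x := by
  unfold bil
  rw [dotProduct_mulVec, dotProduct_comm, ← mulVec_transpose, h.eq]

theorem bil_fromBlocks (M : Matrix ι ι R) (N : Matrix κ κ R) (x : ι → R) (x' : κ → R)
    (y : ι → R) (y' : κ → R) :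
    bil (fromBlocks M 0 0 N) (Sum.elim x x') (Sum.elim y y') = bil M x y + bil N x' y' := by
  unfold bil
  rw [fromBlocks_mulVec]
  simp

theorem bil_fromBlocks' (M : Matrix ι ι R) (N : Matrix κ κ R) (x y : ι ⊕ κ → R) :
    bil (fromBlocks M 0 0 N) x y =
      bil M (x ∘ Sum.inl) (y ∘ Sum.inl) + bil N (x ∘ Sum.inr) (y ∘ Sum.inr) := by
  rw [← bil_fromBlocks, Sum.elim_comp_inl_inr, Sum.elim_comp_inl_inr]

theorem Iso.blocks {M : Matrix ι ι R} {N : Matrix κ κ R} {M' : Matrix ι' ι' R}
    {N' : Matrix κ' κ' R} (h : Iso M M') (h' : Iso N N') :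
    Iso (fromBlocks M 0 0 N) (fromBlocks M' 0 0 N') := by
  obtain ⟨e, he⟩ := h
  obtain ⟨f, hf⟩ := h'
  refine ⟨(LinearEquiv.sumArrowLequivProdArrow ι κ R R).trans ((e.prodCongr f).trans
    (LinearEquiv.sumArrowLequivProdArrow ι' κ' R R).symm), fun x y => ?_⟩
  rw [bil_fromBlocks', bil_fromBlocks', ← he, ← hf]
  rfl

/-- a symmetric matrix is determined by its form -/
theorem Iso.isSymm [DecidableEq ι] {M : Matrix ι ι R} {N : Matrix κ κ R} (h : Iso M N)
    (hN : N.IsSymm) : M.IsSymm := by
  obtain ⟨e, he⟩ := h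
  ext i j
  have h1 : ∀ a b : ι, M a b = bil M (Pi.single a 1) (Pi.single b 1) := by
    intro a b
    unfold bil
    simp
  rw [transpose_apply, h1, h1 i j, ← he, ← he, bil_comm hN]

theorem Iso.card [Nontrivial R] {M : Matrix ι ι R} {N : Matrix κ κ R} (h : Iso M N) :
    Fintype.card ι = Fintype.card κ := by
  obtain ⟨e, _⟩ := h
  have := e.finrank_eq
  simpa using this

theorem Iso.det [Nontrivial R] [DecidableEq ι] [DecidableEq κ] {M : Matrix ι ι R}
    {N : Matrix κ κ R} (h : Iso M N) : ∃ u : Rˣ, M.det = (u : R) ^ 2 * N.det := by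
  have hc := h.card
  obtain ⟨e, he⟩ := h
  obtain f : ι ≃ κ := Fintype.equivOfCardEq hc
  set g : (ι → R) ≃ₗ[R] (ι → R) := e.trans (LinearEquiv.funCongrLeft R R f) with hg
  have hu : IsUnit (LinearMap.toMatrix' (g : (ι → R) →ₗ[R] (ι → R))).det := by
    rw [LinearMap.det_toMatrix']
    exact g.isUnit_det'
  obtain ⟨u, hu⟩ := hu
  refine ⟨u, ?_⟩
  set P := LinearMap.toMatrix' (g : (ι → R) →ₗ[R] (ι → R)) with hP
  have hPg : ∀ x, P *ᵥ x = g x := by
    intro x
    rw [hP, LinearMap.toMatrix'_mulVec]
    rfl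
  have key : M = Pᵀ * (N.submatrix f f) * P := by
    have h1 : ∀ x y, bil M x y = bil (Pᵀ * (N.submatrix f f) * P) x y := by
      intro x y
      rw [← he]
      have h2 : ∀ x, g x = (e x) ∘ f := fun x => rfl
      have h3 : bil (Pᵀ * (N.submatrix f f) * P) x y = (P *ᵥ x) ⬝ᵥ ((N.submatrix f f) *ᵥ (P *ᵥ y)) := by
        unfold bil
        rw [← mulVec_mulVec, ← mulVec_mulVec, dotProduct_mulVec, vecMul_transpose]
      rw [h3, hPg, hPg, h2, h2]
      have h4 : (N.submatrix f f) *ᵥ (e y ∘ f) = (N *ᵥ (e y)) ∘ f := by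
        rw [submatrix_mulVec_equiv]
        simp [Function.comp_assoc]
      rw [h4]
      unfold bil
      simp only [dotProduct, Function.comp_apply]
      exact (Equiv.sum_comp f (fun i => e x i * (N *ᵥ e y) i)).symm
    ext i j
    have h5 : ∀ (L : Matrix ι ι R) (a b : ι), L a b = bil L (Pi.single a 1) (Pi.single b 1) := by
      intro L a b
      unfold bil
      simp
    exact (h5 M i j).trans ((h1 _ _).trans (h5 _ i j).symm)
  rw [key, det_mul, det_mul, det_transpose, det_submatrix_equiv_self, ← hu]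
  ring

end basics

section split

variable {R : Type} [CommRing R] [IsDomain R] [IsPrincipalIdealRing R]
variable {ι κ : Type} [Fintype ι] [Fintype κ] [DecidableEq κ]

/-- **Splitting off a unimodular part.** -/
theorem split {M : Matrix ι ι R} (hM : M.IsSymm) (A : Matrix κ κ R) (v : κ → ι → R)
    (hA : ∀ a b, A a b = bil M (v a) (v b)) (hu : IsUnit A.det) :
    ∃ (m : ℕ) (N : Matrix (Fin m) (Fin m) R), N.IsSymm ∧ Fintype.card ι = Fintype.card κ + m ∧
      Iso M (fromBlocks A 0 0 N) := by
  classical
  -- the map to the values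
  let φ : (ι → R) →ₗ[R] (κ → R) :=
    { toFun := fun x a => bil M (v a) x
      map_add' := fun x y => by funext a; exact bil_add_right _ _ _ _
      map_smul' := fun c x => by funext a; exact bil_smul_right _ _ _ _ }
  let S : (κ → R) →ₗ[R] (ι → R) :=
    { toFun := fun c => ∑ a, c a • v a
      map_add' := fun x y => by simp [add_smul, Finset.sum_add_distrib]
      map_smul' := fun c x => by simp [Finset.smul_sum, mul_smul] }
  have hφS : ∀ c, φ (S c) = A *ᵥ c := by
    intro c
    funext a
    change bil M (v a) (∑ b, c b • v b) = _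
    have : bil M (v a) (∑ b, c b • v b) = ∑ b, c b * bil M (v a) (v b) := by
      have h1 : ∀ s : Finset κ, bil M (v a) (∑ b ∈ s, c b • v b) =
          ∑ b ∈ s, c b * bil M (v a) (v b) := by
        intro s
        induction s using Finset.induction_on with
        | empty => simp [bil_zero_right]
        | insert b s hb ih => rw [Finset.sum_insert hb, Finset.sum_insert hb, bil_add_right,
            bil_smul_right, ih]
      exact h1 _
    rw [this]
    simp only [mulVec, dotProduct, hA]
    exact Finset.sum_congr rfl fun b _ => mul_comm _ _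
  have hSB : ∀ c x, bil M (S c) x = c ⬝ᵥ φ x := by
    intro c x
    change bil M (∑ b, c b • v b) x = _
    have h1 : ∀ s : Finset κ, bil M (∑ b ∈ s, c b • v b) x =
        ∑ b ∈ s, c b * bil M (v b) x := by
      intro s
      induction s using Finset.induction_on with
      | empty => simp [bil_zero_left]
      | insert b s hb ih => rw [Finset.sum_insert hb, Finset.sum_insert hb, bil_add_left,
          bil_smul_left, ih]
    exact h1 _
  have hAu : IsUnit A := (isUnit_iff_isUnit_det A).2 hu
  have hinv1 : A * A⁻¹ = 1 := mul_nonsing_inv A hu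
  have hinv2 : A⁻¹ * A = 1 := nonsing_inv_mul A hu
  set W : Submodule R (ι → R) := LinearMap.ker φ with hW
  have hπ : ∀ x, x - S (A⁻¹ *ᵥ φ x) ∈ W := by
    intro x
    rw [hW, LinearMap.mem_ker, map_sub, hφS, mulVec_mulVec, hinv1, one_mulVec, sub_self]
  obtain ⟨m, ⟨b⟩⟩ := Submodule.nonempty_basis_of_pid (Pi.basisFun R ι) W
  let e : (ι → R) ≃ₗ[R] (κ → R) × W :=
    { toFun := fun x => (A⁻¹ *ᵥ φ x, ⟨x - S (A⁻¹ *ᵥ φ x), hπ x⟩)
      map_add' := fun x y => by
        refine Prod.ext ?_ (Subtype.ext ?_)
        · simp [mulVec_add]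
        · simp only [map_add, mulVec_add, Prod.snd_add, Submodule.coe_add]
          abel
      map_smul' := fun c x => by
        refine Prod.ext ?_ (Subtype.ext ?_)
        · simp [mulVec_smul]
        · simp only [map_smul, mulVec_smul, Prod.smul_snd, SetLike.val_smul, RingHom.id_apply,
            smul_sub]
      invFun := fun p => S p.1 + p.2
      left_inv := fun x => by simp
      right_inv := fun p => by
        have h2 : φ (p.2 : ι → R) = 0 := p.2.2
        have h1 : A⁻¹ *ᵥ φ (S p.1 + p.2) = p.1 := by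
          rw [map_add, h2, add_zero, hφS, mulVec_mulVec, hinv2, one_mulVec]
        refine Prod.ext h1 (Subtype.ext ?_)
        change S p.1 + (p.2 : ι → R) - S (A⁻¹ *ᵥ φ (S p.1 + p.2)) = p.2
        rw [h1]
        abel }
  let N : Matrix (Fin m) (Fin m) R := fun i j => bil M (b i) (b j)
  have hN : ∀ x y : Fin m → R, bil N x y =
      bil M ((b.equivFun.symm x : W) : ι → R) ((b.equivFun.symm y : W) : ι → R) := by
    intro x y
    rw [Module.Basis.equivFun_symm_apply, Module.Basis.equivFun_symm_apply]
    have h1 : ∀ (s : Finset (Fin m)) (z : ι → R), bil M (((∑ i ∈ s, x i • b i : W)) : ι → R) z =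
        ∑ i ∈ s, x i * bil M (b i) z := by
      intro s z
      induction s using Finset.induction_on with
      | empty => simp [bil_zero_left]
      | insert i s hi ih => rw [Finset.sum_insert hi, Finset.sum_insert hi, Submodule.coe_add,
          bil_add_left, Submodule.coe_smul, bil_smul_left, ih]
    have h2 : ∀ (s : Finset (Fin m)) (z : ι → R), bil M z (((∑ i ∈ s, y i • b i : W)) : ι → R) =
        ∑ i ∈ s, y i * bil M z (b i) := by
      intro s z
      induction s using Finset.induction_on with
      | empty => simp [bil_zero_right]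
      | insert i s hi ih => rw [Finset.sum_insert hi, Finset.sum_insert hi, Submodule.coe_add,
          bil_add_right, Submodule.coe_smul, bil_smul_right, ih]
    rw [h1]
    unfold bil
    simp only [dotProduct, mulVec]
    refine Finset.sum_congr rfl fun i _ => ?_
    congr 1
    have := h2 Finset.univ (b i)
    unfold bil at this
    simp only [dotProduct, mulVec] at this
    rw [this]
    refine Finset.sum_congr rfl fun j _ => ?_
    change bil M (b i) (b j) * y j = _
    unfold bil
    simp only [dotProduct, mulVec]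
    ring
  have hiso : Iso M (fromBlocks A 0 0 N) := by
    refine ⟨e.trans (((LinearEquiv.refl R (κ → R)).prodCongr b.equivFun).trans
      (LinearEquiv.sumArrowLequivProdArrow κ (Fin m) R R).symm), fun x y => ?_⟩
    rw [bil_fromBlocks']
    have h1 : ∀ z, (e.trans (((LinearEquiv.refl R (κ → R)).prodCongr b.equivFun).trans
      (LinearEquiv.sumArrowLequivProdArrow κ (Fin m) R R).symm)) z ∘ Sum.inl = (e z).1 :=
      fun z => rfl
    have h2 : ∀ z, (e.trans (((LinearEquiv.refl R (κ → R)).prodCongr b.equivFun).trans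
      (LinearEquiv.sumArrowLequivProdArrow κ (Fin m) R R).symm)) z ∘ Sum.inr =
        b.equivFun (e z).2 := fun z => rfl
    rw [h1, h1, h2, h2, hN, LinearEquiv.symm_apply_apply, LinearEquiv.symm_apply_apply]
    have h3 : ∀ z, z = S (e z).1 + ((e z).2 : ι → R) := fun z => (e.left_inv z).symm
    have h4 : ∀ z, φ ((e z).2 : ι → R) = 0 := fun z => (e z).2.2
    conv_rhs => rw [h3 x, h3 y]
    rw [bil_add_left, bil_add_right, bil_add_right, hSB, hφS, hSB, h4, dotProduct_zero,
      bil_comm hM _ (S (e y).1), hSB, h4, dotProduct_zero]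
    unfold bil
    ring
  refine ⟨m, N, ?_, ?_, hiso⟩
  · ext i j
    exact bil_comm hM _ _
  · have := hiso.card
    simpa using this

end split

end Pool.Agent.R396.F
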