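import Pool.Agent.R396.F.GenusA

/-!
# Unimodular symmetric matrices over the p-adic integers, p odd
-/

set_option autoImplicit false

namespace Pool.Agent.R396.F

open Matrix Polynomial

section hensel

variable {p : ℕ} [Fact p.Prime]

theorem quad_root (α β γ : ℤ_[p]) (hβ : IsUnit β) (hγ : ¬ IsUnit γ) :
    ∃ x : ℤ_[p], α * x ^ 2 + β * x + γ = 0 := by
  set F : Polynomial ℤ_[p] := C α * X ^ 2 + C β * X + C γ with hF
  have h1 : F.aeval (0 : ℤ_[p]) = γ := by simp [hF]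
  have h2 : F.derivative.aeval (0 : ℤ_[p]) = β := by simp [hF]
  have hb : ‖β‖ = 1 := PadicInt.isUnit_iff.1 hβ
  have hg : ‖γ‖ < 1 := PadicInt.mem_nonunits.1 hγ
  obtain ⟨z, hz, _⟩ := hensels_lemma (p := p) (F := F) (a := 0) (by
    rw [h1, h2, hb]; simpa using hg)
  refine ⟨z, ?_⟩
  have h3 : F.aeval z = α * z ^ 2 + β * z + γ := by simp [hF]
  rw [← h3, hz]

theorem toZMod_eq_zero_iff (x : ℤ_[p]) : PadicInt.toZMod x = 0 ↔ ¬ IsUnit x := by
  rw [← RingHom.mem_ker, PadicInt.ker_toZMod, IsLocalRing.mem_maximalIdeal]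
  rfl

theorem add_nonunit {x y : ℤ_[p]} (hx : ¬ IsUnit x) (hy : ¬ IsUnit y) : ¬ IsUnit (x + y) := by
  rw [← toZMod_eq_zero_iff] at *
  rw [map_add, hx, hy, add_zero]

theorem mul_nonunit {x y : ℤ_[p]} (hy : ¬ IsUnit y) : ¬ IsUnit (x * y) := by
  rw [← toZMod_eq_zero_iff] at *
  rw [map_mul, hy, mul_zero]

theorem det_nonunit {ι : Type} [Fintype ι] [DecidableEq ι] [Nonempty ι] (M : Matrix ι ι ℤ_[p])
    (h : ∀ i j, ¬ IsUnit (M i j)) : ¬ IsUnit M.det := by
  rw [← toZMod_eq_zero_iff, RingHom.map_det]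
  have : (PadicInt.toZMod (p := p)).mapMatrix M = 0 := by
    ext i j
    exact (toZMod_eq_zero_iff _).2 (h i j)
  rw [this, det_zero]

theorem rep_one (hp : p ≠ 2) {u w : ℤ_[p]} (hu : IsUnit u) (hw : IsUnit w) :
    ∃ x y : ℤ_[p], u * x ^ 2 + w * y ^ 2 = 1 := by
  have hpp : p.Prime := Fact.out
  have h2 : IsUnit (2 : ℤ_[p]) := by
    by_contra h
    rw [← toZMod_eq_zero_iff, map_ofNat] at h
    have : (p : ℕ) ∣ 2 := by
      have := (ZMod.natCast_eq_zero_iff 2 p).1 (by exact_mod_cast h)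
      exact this
    exact hp ((Nat.prime_dvd_prime_iff_eq hpp Nat.prime_two).1 this)
  set u' := PadicInt.toZMod u with hu'
  set w' := PadicInt.toZMod w with hw'
  have hu0 : u' ≠ 0 := fun h => (toZMod_eq_zero_iff u).1 h hu
  have hw0 : w' ≠ 0 := fun h => (toZMod_eq_zero_iff w).1 h hw
  obtain ⟨a, b, hab⟩ := FiniteField.exists_root_sum_quadratic (R := ZMod p)
    (f := C u' * X ^ 2) (g := C w' * X ^ 2 + C (-1))
    (degree_C_mul_X_pow 2 hu0)
    (by
      rw [degree_add_eq_left_of_degree_lt]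
      · exact degree_C_mul_X_pow 2 hw0
      · rw [degree_C_mul_X_pow 2 hw0]
        exact lt_of_le_of_lt degree_C_le (by norm_num))
    (by rw [ZMod.card]; exact (hpp.eq_two_or_odd).resolve_left hp)
  simp only [eval_mul, eval_C, eval_pow, eval_X, eval_add] at hab
  have hsurj : Function.Surjective (PadicInt.toZMod (p := p)) := ZMod.ringHom_surjective _
  obtain ⟨a', ha'⟩ := hsurj a
  obtain ⟨b', hb'⟩ := hsurj b
  have hg : ¬ IsUnit (u * a' ^ 2 + w * b' ^ 2 - 1) := by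
    rw [← toZMod_eq_zero_iff]
    simp only [map_sub, map_add, map_mul, map_pow, map_one, ha', hb', ← hu', ← hw']
    linear_combination hab
  by_cases ha0 : a = 0
  · have hb0 : b ≠ 0 := by
      rintro rfl
      rw [ha0] at hab
      simp at hab
    have hbu : IsUnit b' := by
      by_contra h
      exact hb0 (by rw [← hb', (toZMod_eq_zero_iff b').2 h])
    obtain ⟨t, ht⟩ := quad_root w (2 * w * b') (u * a' ^ 2 + w * b' ^ 2 - 1)
      ((h2.mul hw).mul hbu) hg
    exact ⟨a', b' + t, by linear_combination ht⟩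
  · have hau : IsUnit a' := by
      by_contra h
      exact ha0 (by rw [← ha', (toZMod_eq_zero_iff a').2 h])
    obtain ⟨t, ht⟩ := quad_root u (2 * u * a') (u * a' ^ 2 + w * b' ^ 2 - 1)
      ((h2.mul hu).mul hau) hg
    exact ⟨a' + t, b', by linear_combination ht⟩

theorem bil_single {R ι : Type} [CommRing R] [Fintype ι] [DecidableEq ι] (M : Matrix ι ι R)
    (i j : ι) : bil M (Pi.single i 1) (Pi.single j 1) = M i j := by
  unfold bil
  simp

theorem unit_norm (hp : p ≠ 2) {ι : Type} [Fintype ι] [DecidableEq ι] [Nonempty ι]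
    {M : Matrix ι ι ℤ_[p]} (hM : M.IsSymm) (hd : IsUnit M.det) : ∃ v, IsUnit (bil M v v) := by
  by_contra h
  push Not at h
  refine det_nonunit M (fun i j hij => ?_) hd
  have hpp : p.Prime := Fact.out
  have h2 : IsUnit (2 : ℤ_[p]) := by
    by_contra h
    rw [← toZMod_eq_zero_iff, map_ofNat] at h
    have : (p : ℕ) ∣ 2 := (ZMod.natCast_eq_zero_iff 2 p).1 (by exact_mod_cast h)
    exact hp ((Nat.prime_dvd_prime_iff_eq hpp Nat.prime_two).1 this)
  set x : ι → ℤ_[p] := Pi.single i 1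
  set y : ι → ℤ_[p] := Pi.single j 1
  have h3 : bil M x y = M i j := bil_single M i j
  have h4 : bil M (x + y) (x + y) + (-1) * bil M x x + (-1) * bil M y y = 2 * M i j := by
    rw [← h3, bil_add_left, bil_add_right, bil_add_right, bil_comm hM y x]
    ring
  have h5 := add_nonunit (add_nonunit (h (x + y)) (mul_nonunit (x := -1) (h x)))
    (mul_nonunit (x := -1) (h y))
  rw [h4] at h5
  exact h5 (h2.mul hij)

end hensel

section general

variable {R : Type} [CommRing R]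

theorem iso_empty {ι κ : Type} [Fintype ι] [Fintype κ] [IsEmpty ι] [IsEmpty κ]
    (M : Matrix ι ι R) (N : Matrix κ κ R) : Iso M N := by
  refine ⟨LinearEquiv.funCongrLeft R R (Equiv.equivOfIsEmpty κ ι), fun x y => ?_⟩
  unfold bil
  simp [dotProduct]

/-- size one -/
theorem iso_one {ι κ : Type} [Fintype ι] [Fintype κ] [DecidableEq ι] [DecidableEq κ] [Unique ι]
    [Unique κ] {M : Matrix ι ι R} {N : Matrix κ κ R} (s : Rˣ) (h : N.det = (s : R) ^ 2 * M.det) :
    Iso M N := by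
  rw [det_unique, det_unique] at h
  let e : (ι → R) ≃ₗ[R] (κ → R) := (LinearEquiv.funCongrLeft R R (Equiv.ofUnique κ ι)).trans
    (LinearEquiv.smulOfUnit s⁻¹)
  refine ⟨e, fun x y => ?_⟩
  have h1 : ∀ z, e z default = ((s⁻¹ : Rˣ) : R) * z default := by
    intro z
    change ((s⁻¹ : Rˣ) : R) * z _ = _
    congr 2
  unfold bil
  simp only [dotProduct, mulVec, Fintype.sum_unique, Finset.univ_unique, Finset.sum_singleton, h1]
  rw [h]
  have : (s : R) * ((s⁻¹ : Rˣ) : R) = 1 := s.mul_inv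
  linear_combination (M default default * x default * y default *
    ((s : R) * ((s⁻¹ : Rˣ) : R) + 1)) * this

variable [IsDomain R] [IsPrincipalIdealRing R]

/-- splitting off a vector of norm one -/
theorem split_one {ι : Type} [Fintype ι] {M : Matrix ι ι R} (hM : M.IsSymm) {v : ι → R}
    (hv : bil M v v = 1) : ∃ (m : ℕ) (N : Matrix (Fin m) (Fin m) R), N.IsSymm ∧
      Fintype.card ι = m + 1 ∧ Iso M (fromBlocks (1 : Matrix (Fin 1) (Fin 1) R) 0 0 N) := by
  obtain ⟨m, N, h1, h2, h3⟩ := split hM (1 : Matrix (Fin 1) (Fin 1) R) (fun _ => v)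
    (fun a b => by rw [hv, Subsingleton.elim a b, one_apply_eq]) (by rw [det_one]; exact isUnit_one)
  refine ⟨m, N, h1, ?_, h3⟩
  rw [h2, Fintype.card_fin]
  ring

end general

section odd

variable {p : ℕ} [Fact p.Prime]

theorem exists_norm_one (hp : p ≠ 2) {ι : Type} [Fintype ι] [DecidableEq ι]
    {M : Matrix ι ι ℤ_[p]} (hM : M.IsSymm) (hd : IsUnit M.det) (hc : 2 ≤ Fintype.card ι) :
    ∃ v, bil M v v = 1 := by
  haveI : Nonempty ι := Fintype.card_pos_iff.1 (by omega)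
  obtain ⟨v1, hv1⟩ := unit_norm hp hM hd
  obtain ⟨m, N, hN, hm, hiso⟩ := split hM (fun _ _ => bil M v1 v1 : Matrix (Fin 1) (Fin 1) ℤ_[p])
    (fun _ => v1) (fun _ _ => rfl) (by rw [det_unique]; exact hv1)
  rw [Fintype.card_fin] at hm
  obtain ⟨s, hs⟩ := hiso.det
  rw [det_fromBlocks_zero₂₁] at hs
  have hNd : IsUnit N.det := by
    by_contra h
    rw [hs, ← mul_assoc] at hd
    exact mul_nonunit h hd
  haveI : Nonempty (Fin m) := ⟨⟨0, by omega⟩⟩
  obtain ⟨v2, hv2⟩ := unit_norm hp hN hNd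
  obtain ⟨x, y, hxy⟩ := rep_one hp hv1 hv2
  obtain ⟨e, he⟩ := hiso
  refine ⟨e.symm (Sum.elim (fun _ => x) (y • v2)), ?_⟩
  rw [← he, e.apply_symm_apply, bil_fromBlocks, bil_smul_left, bil_smul_right, ← hxy]
  unfold bil
  simp only [dotProduct, mulVec, Finset.univ_unique, Finset.sum_singleton]
  ring

theorem odd_main (hp : p ≠ 2) : ∀ (n : ℕ) (ι κ : Type) [Fintype ι] [Fintype κ] [DecidableEq ι]
    [DecidableEq κ] (M : Matrix ι ι ℤ_[p]) (N : Matrix κ κ ℤ_[p]), M.IsSymm → N.IsSymm →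
    Fintype.card ι = n → Fintype.card κ = n → IsUnit M.det →
    (∃ s : ℤ_[p]ˣ, N.det = (s : ℤ_[p]) ^ 2 * M.det) → Iso M N := by
  intro n
  induction n with
  | zero =>
    intro ι κ _ _ _ _ M N _ _ hι hκ _ _
    haveI := Fintype.card_eq_zero_iff.1 hι
    haveI := Fintype.card_eq_zero_iff.1 hκ
    exact iso_empty M N
  | succ n ih =>
    intro ι κ _ _ _ _ M N hM hN hι hκ hd hs
    obtain ⟨s, hs⟩ := hs
    rcases Nat.eq_zero_or_pos n with rfl | hn
    · obtain ⟨u⟩ := Fintype.card_eq_one_iff_nonempty_unique.1 hι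
      obtain ⟨u'⟩ := Fintype.card_eq_one_iff_nonempty_unique.1 hκ
      exact iso_one s hs
    · have hd' : IsUnit N.det := by
        rw [hs]
        exact (s.isUnit.pow 2).mul hd
      obtain ⟨v, hv⟩ := exists_norm_one hp hM hd (by omega)
      obtain ⟨v', hv'⟩ := exists_norm_one hp hN hd' (by omega)
      obtain ⟨m, M1, hM1, hm, hiso⟩ := split_one hM hv
      obtain ⟨m', N1, hN1, hm', hiso'⟩ := split_one hN hv'
      obtain ⟨s1, hs1⟩ := hiso.det
      obtain ⟨s2, hs2⟩ := hiso'.det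
      rw [det_fromBlocks_zero₂₁, det_one, one_mul] at hs1 hs2
      have hu1 : IsUnit M1.det := by
        by_contra h
        rw [hs1] at hd
        exact mul_nonunit h hd
      refine hiso.trans ((Iso.blocks (Iso.refl _) (ih (Fin m) (Fin m') M1 N1 hM1 hN1 ?_ ?_ hu1
        ⟨s2⁻¹ * s * s1, ?_⟩)).trans hiso'.symm)
      · rw [Fintype.card_fin]; omega
      · rw [Fintype.card_fin]; omega
      · have h3 : (s2 : ℤ_[p]) * ((s2⁻¹ : ℤ_[p]ˣ) : ℤ_[p]) = 1 := s2.mul_inv
        rw [hs1, hs2] at hs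
        push_cast
        have h4 : N1.det = ((s2⁻¹ : ℤ_[p]ˣ) : ℤ_[p]) ^ 2 * ((s2 : ℤ_[p]) ^ 2 * N1.det) := by
          linear_combination (- N1.det * ((s2 : ℤ_[p]) * ((s2⁻¹ : ℤ_[p]ˣ) : ℤ_[p]) + 1)) * h3
        rw [h4, hs]
        ring

end odd

end Pool.Agent.R396.F
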