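import Pool.Agent.R396.F.GenusOdd

/-!
# Even symmetric matrices over the 2-adic integers with the discriminant form of `D_4`
-/

set_option autoImplicit false

namespace Pool.Agent.R396.F

open Matrix

/-- The 2-adic integers. -/
abbrev Z2 : Type := ℤ_[2]

theorem two_nonunit : ¬ IsUnit (2 : Z2) := by
  rw [← toZMod_eq_zero_iff, map_ofNat]
  decide

theorem nonunit_iff (x : Z2) : ¬ IsUnit x ↔ ∃ k, x = 2 * k := by
  constructor
  · intro h
    have h1 : x ∈ IsLocalRing.maximalIdeal Z2 := (IsLocalRing.mem_maximalIdeal x).2 h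
    rw [PadicInt.maximalIdeal_eq_span_p, Ideal.mem_span_singleton] at h1
    obtain ⟨k, hk⟩ := h1
    exact ⟨k, by rw [hk]; norm_num⟩
  · rintro ⟨k, rfl⟩ h
    exact two_nonunit (isUnit_of_mul_isUnit_left h)

theorem unit_iff (x : Z2) : IsUnit x ↔ ∃ k, x = 1 + 2 * k := by
  constructor
  · intro h
    have h1 : PadicInt.toZMod x ≠ 0 := fun h' => (toZMod_eq_zero_iff x).1 h' h
    have h2 : PadicInt.toZMod (x - 1) = 0 := by
      rw [map_sub, map_one]
      revert h1
      generalize PadicInt.toZMod x = y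
      revert y
      decide
    obtain ⟨k, hk⟩ := (nonunit_iff (x - 1)).1 ((toZMod_eq_zero_iff _).1 h2)
    exact ⟨k, by linear_combination hk⟩
  · rintro ⟨k, rfl⟩
    by_contra h
    rw [← toZMod_eq_zero_iff] at h
    simp only [map_add, map_one, map_mul, map_ofNat] at h
    revert h
    generalize PadicInt.toZMod k = y
    revert y
    decide

theorem sq_unit {u : Z2} (hu : IsUnit u) : ∃ k, u ^ 2 = 1 + 8 * k := by
  obtain ⟨m, rfl⟩ := (unit_iff u).1 hu
  have h : ¬ IsUnit (m * (m + 1)) := by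
    rw [← toZMod_eq_zero_iff, map_mul, map_add, map_one]
    generalize PadicInt.toZMod m = y
    revert y
    decide
  obtain ⟨t, ht⟩ := (nonunit_iff _).1 h
  exact ⟨t, by linear_combination 4 * ht⟩

theorem two_ne : (2 : Z2) ≠ 0 := by
  norm_num

theorem no_mix {u w : Z2} (hu : IsUnit u) (hw : IsUnit w) : 3 * u ^ 2 + w ^ 2 ≠ 0 := by
  intro h
  obtain ⟨a, ha⟩ := sq_unit hu
  obtain ⟨b, hb⟩ := sq_unit hw
  rw [ha, hb] at h
  have h1 : (2 : Z2) * (2 * (1 + 2 * (3 * a + b))) = 0 := by linear_combination h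
  have h2 := (mul_eq_zero.1 ((mul_eq_zero.1 h1).resolve_left two_ne)).resolve_left two_ne
  have h3 : IsUnit (1 + 2 * (3 * a + b)) := (unit_iff _).2 ⟨_, rfl⟩
  rw [h2] at h3
  exact not_isUnit_zero h3

section

variable {ι κ : Type} [Fintype ι] [Fintype κ] [DecidableEq ι] [DecidableEq κ]

/-- The hyperbolic pair. -/
def HPair (M : Matrix ι ι Z2) : Prop := ∃ v w, bil M v v = 0 ∧ bil M v w = 1 ∧ bil M w w = 0

/-- The anisotropic pair. -/
def APair (M : Matrix ι ι Z2) : Prop := ∃ v w, bil M v v = 2 ∧ bil M v w = 1 ∧ bil M w w = 2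

theorem pair_case1 {M : Matrix ι ι Z2} (hM : M.IsSymm) {v w : ι → Z2} {a b c : Z2}
    (ha : bil M v v = 2 * a) (hb : bil M v w = b) (hc : bil M w w = 2 * c) (hbu : IsUnit b)
    (hcn : ¬ IsUnit c) : HPair M := by
  obtain ⟨x, hx⟩ := quad_root a b c hbu hcn
  have ht : IsUnit (2 * a * x + b) := by
    obtain ⟨k, hk⟩ := (unit_iff b).1 hbu
    exact (unit_iff _).2 ⟨a * x + k, by rw [hk]; ring⟩
  obtain ⟨t, ht⟩ := ht
  have htt : (t : Z2) * ((t⁻¹ : Z2ˣ) : Z2) = 1 := t.mul_inv
  set s : Z2 := ((t⁻¹ : Z2ˣ) : Z2) with hs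
  have hb' : bil M w v = b := by rw [bil_comm hM, hb]
  set V := x • v + w with hV
  have h1 : bil M V V = 0 := by
    rw [hV]
    simp only [bil_add_left, bil_add_right, bil_smul_left, bil_smul_right, ha, hb, hb', hc]
    linear_combination 2 * hx
  have h2 : bil M V v = t := by
    rw [hV]
    simp only [bil_add_left, bil_add_right, bil_smul_left, bil_smul_right, ha, hb, hb', hc]
    rw [ht]; ring
  have h2' : bil M v V = t := by rw [bil_comm hM, h2]
  refine ⟨V, s • v - (a * s ^ 2) • V, h1, ?_, ?_⟩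
  · simp only [bil_sub_right, bil_smul_right, h1, h2]
    linear_combination htt
  · simp only [bil_sub_right, bil_smul_right, bil_sub_left, bil_smul_left, h1, h2, h2', ha]
    linear_combination (-2 * a * s ^ 2) * htt

theorem pair_of_unit {M : Matrix ι ι Z2} (hM : M.IsSymm) (hE : ∀ x, ∃ k, bil M x x = 2 * k)
    {v w : ι → Z2} (hb : IsUnit (bil M v w)) : HPair M ∨ APair M := by
  obtain ⟨a, ha⟩ := hE v
  obtain ⟨c, hc⟩ := hE w
  by_cases hcn : IsUnit c
  · by_cases han : IsUnit a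
    · right
      set b := bil M v w with hbb
      have hb' : bil M w v = b := by rw [bil_comm hM]
      obtain ⟨c', hc'⟩ := (unit_iff c).1 hcn
      obtain ⟨x, hx⟩ := quad_root a b (c - 1) hb ((nonunit_iff _).2 ⟨c', by rw [hc']; ring⟩)
      have ht : IsUnit (2 * a * x + b) := by
        obtain ⟨k, hk⟩ := (unit_iff b).1 hb
        exact (unit_iff _).2 ⟨a * x + k, by rw [hk]; ring⟩
      obtain ⟨t, ht⟩ := ht
      have htt : (t : Z2) * ((t⁻¹ : Z2ˣ) : Z2) = 1 := t.mul_inv
      have hsu : IsUnit (((t⁻¹ : Z2ˣ) : Z2)) := (t⁻¹).isUnit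
      set s : Z2 := ((t⁻¹ : Z2ˣ) : Z2) with hs
      set V := x • v + w with hV
      have h1 : bil M V V = 2 := by
        rw [hV]
        simp only [bil_add_left, bil_add_right, bil_smul_left, bil_smul_right, ha, ← hbb, hb', hc]
        linear_combination 2 * hx
      have h2 : bil M V v = t := by
        rw [hV]
        simp only [bil_add_left, bil_add_right, bil_smul_left, bil_smul_right, ha, ← hbb, hb', hc]
        rw [ht]; ring
      have h2' : bil M v V = t := by rw [bil_comm hM, h2]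
      set d := a * s ^ 2 with hd
      have hdu : IsUnit d := han.mul (hsu.pow 2)
      obtain ⟨d', hd'⟩ := (unit_iff d).1 hdu
      obtain ⟨k, hk⟩ := quad_root (4 * d - 1) (4 * d - 1) (d - 1)
        ((unit_iff _).2 ⟨2 * d - 1, by ring⟩) ((nonunit_iff _).2 ⟨d', by rw [hd']; ring⟩)
      refine ⟨V, ((1 + 2 * k) * s) • v - k • V, h1, ?_, ?_⟩
      · simp only [bil_sub_right, bil_smul_right, h1, h2]
        linear_combination (1 + 2 * k) * htt
      · simp only [bil_sub_right, bil_smul_right, bil_sub_left, bil_smul_left, h1, h2, h2', ha]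
        linear_combination 2 * hk + (2 * (1 + 2 * k) ^ 2) * (hd.symm) -
          (2 * (1 + 2 * k) * k) * htt
    · left
      exact pair_case1 hM hc (by rw [bil_comm hM]) ha hb han
  · left
    exact pair_case1 hM ha rfl hc hb hcn

/-- The conditions. -/
structure Cond (M : Matrix ι ι Z2) : Prop where
  symm : M.IsSymm
  even : ∀ x, ∃ k, bil M x x = 2 * k
  kk : ∀ φ : (ι → Z2) →ₗ[Z2] Z2, ∃ y, ∀ x, bil M x y = 2 * φ x
  dd : ∀ y, (∀ x, ∃ t, bil M x y = 2 * t) → (∃ z, y = (2 : Z2) • z) ∨ ∃ k, bil M y y = 4 + 8 * k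
  nu : ¬ IsUnit M.det

theorem Cond.iso {M : Matrix ι ι Z2} {N : Matrix κ κ Z2} (h : Cond M) (hi : Iso M N) :
    Cond N := by
  have hi' := hi.symm
  obtain ⟨u, hu⟩ := hi.det
  obtain ⟨e, he⟩ := hi
  refine ⟨hi'.isSymm h.symm, fun x => ?_, fun φ => ?_, fun y hy => ?_, fun hd => ?_⟩
  · obtain ⟨k, hk⟩ := h.even (e.symm x)
    exact ⟨k, by rw [← hk, ← he, e.apply_symm_apply]⟩
  · obtain ⟨y, hy⟩ := h.kk (φ ∘ₗ (e : (ι → Z2) →ₗ[Z2] (κ → Z2)))
    refine ⟨e y, fun x => ?_⟩
    have := hy (e.symm x)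
    rw [← he, e.apply_symm_apply] at this
    rw [this]
    simp
  · rcases h.dd (e.symm y) (fun x => by
      obtain ⟨t, ht⟩ := hy (e x)
      exact ⟨t, by rw [← ht, ← he, e.apply_symm_apply]⟩) with ⟨z, hz⟩ | ⟨k, hk⟩
    · left
      refine ⟨e z, ?_⟩
      rw [← map_smul, ← hz, e.apply_symm_apply]
    · right
      exact ⟨k, by rw [← hk, ← he, e.apply_symm_apply]⟩
  · apply h.nu
    rw [hu]
    exact (u.isUnit.pow 2).mul hd

theorem Cond.right {A : Matrix κ κ Z2} {N : Matrix ι ι Z2} (h : Cond (fromBlocks A 0 0 N))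
    (hA : IsUnit A.det) : Cond N := by
  have h0 : ∀ x y : ι → Z2, bil (fromBlocks A 0 0 N) (Sum.elim 0 x) (Sum.elim 0 y) = bil N x y := by
    intro x y
    rw [bil_fromBlocks, bil_zero_left, zero_add]
  refine ⟨?_, fun x => ?_, fun φ => ?_, fun y hy => ?_, fun hd => ?_⟩
  · have := h.symm
    rw [isSymm_fromBlocks_iff] at this
    exact this.2.2.2
  · obtain ⟨k, hk⟩ := h.even (Sum.elim 0 x)
    exact ⟨k, by rw [← hk, h0]⟩
  · obtain ⟨y, hy⟩ := h.kk (φ ∘ₗ (LinearMap.funLeft Z2 Z2 Sum.inr))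
    refine ⟨y ∘ Sum.inr, fun x => ?_⟩
    have := hy (Sum.elim 0 x)
    rw [bil_fromBlocks', Sum.elim_comp_inl, bil_zero_left, zero_add, Sum.elim_comp_inr] at this
    rw [this]
    congr 1
  · rcases h.dd (Sum.elim 0 y) (fun x => by
      obtain ⟨t, ht⟩ := hy (x ∘ Sum.inr)
      refine ⟨t, ?_⟩
      rw [bil_fromBlocks', Sum.elim_comp_inl, bil_zero_right, zero_add, Sum.elim_comp_inr, ht])
      with ⟨z, hz⟩ | ⟨k, hk⟩
    · left
      refine ⟨z ∘ Sum.inr, ?_⟩
      funext i
      exact congrFun hz (Sum.inr i)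
    · right
      exact ⟨k, by rw [← hk, h0]⟩
  · apply h.nu
    rw [det_fromBlocks_zero₂₁]
    exact hA.mul hd

/-- The hyperbolic plane. -/
noncomputable def H2 : Matrix (Fin 2) (Fin 2) Z2 := !![0, 1; 1, 0]

/-- The anisotropic plane. -/
noncomputable def A2 : Matrix (Fin 2) (Fin 2) Z2 := !![2, 1; 1, 2]

theorem det_H2 : H2.det = -1 := by
  unfold H2; rw [det_fin_two_of]; ring

theorem det_A2 : A2.det = 3 := by
  unfold A2; rw [det_fin_two_of]; ring

theorem unit_H2 : IsUnit H2.det := by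
  rw [det_H2]; exact isUnit_one.neg

theorem unit_A2 : IsUnit A2.det := by
  rw [det_A2]; exact (unit_iff _).2 ⟨1, by ring⟩

theorem split_H {M : Matrix ι ι Z2} (hM : M.IsSymm) (h : HPair M) :
    ∃ (m : ℕ) (N : Matrix (Fin m) (Fin m) Z2), Fintype.card ι = 2 + m ∧
      Iso M (fromBlocks H2 0 0 N) := by
  obtain ⟨v, w, h1, h2, h3⟩ := h
  obtain ⟨m, N, _, hm, hi⟩ := split hM H2 ![v, w] (fun a b => by
    have h4 : bil M w v = 1 := by rw [bil_comm hM, h2]
    fin_cases a <;> fin_cases b <;> simp [H2, h1, h2, h3, h4]) unit_H2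
  exact ⟨m, N, by rw [hm, Fintype.card_fin], hi⟩

theorem split_A {M : Matrix ι ι Z2} (hM : M.IsSymm) (h : APair M) :
    ∃ (m : ℕ) (N : Matrix (Fin m) (Fin m) Z2), Fintype.card ι = 2 + m ∧
      Iso M (fromBlocks A2 0 0 N) := by
  obtain ⟨v, w, h1, h2, h3⟩ := h
  obtain ⟨m, N, _, hm, hi⟩ := split hM A2 ![v, w] (fun a b => by
    have h4 : bil M w v = 1 := by rw [bil_comm hM, h2]
    fin_cases a <;> fin_cases b <;> simp [A2, h1, h2, h3, h4]) unit_A2
  exact ⟨m, N, by rw [hm, Fintype.card_fin], hi⟩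

theorem HPair.iso {M : Matrix ι ι Z2} {N : Matrix κ κ Z2} (h : HPair M) (hi : Iso M N) :
    HPair N := by
  obtain ⟨e, he⟩ := hi
  obtain ⟨v, w, h1, h2, h3⟩ := h
  exact ⟨e v, e w, by rw [he, h1], by rw [he, h2], by rw [he, h3]⟩

theorem HPair.blocks {A : Matrix κ κ Z2} {N : Matrix ι ι Z2} (h : HPair N) :
    HPair (fromBlocks A 0 0 N) := by
  obtain ⟨v, w, h1, h2, h3⟩ := h
  refine ⟨Sum.elim 0 v, Sum.elim 0 w, ?_, ?_, ?_⟩ <;>
    rw [bil_fromBlocks, bil_zero_left, zero_add] <;> assumption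

theorem HPair_of_AA {N : Matrix ι ι Z2} (hN : N.IsSymm) (h : APair N) :
    HPair (fromBlocks A2 0 0 N) := by
  obtain ⟨v, w, h1, h2, h3⟩ := h
  have h2' : bil N w v = 1 := by rw [bil_comm hN, h2]
  obtain ⟨x, hx⟩ := quad_root (1 : Z2) 1 2 isUnit_one two_nonunit
  have hA : bil A2 ![x, 1] ![x, 1] = -2 := by
    unfold bil A2
    simp [dotProduct, mulVec, Fin.sum_univ_two]
    linear_combination 2 * hx
  set V : Fin 2 ⊕ ι → Z2 := Sum.elim ![x, 1] v with hV
  set W : Fin 2 ⊕ ι → Z2 := Sum.elim 0 w with hW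
  have e1 : bil (fromBlocks A2 0 0 N) V V = 0 := by
    rw [hV, bil_fromBlocks, hA, h1]; ring
  have e2 : bil (fromBlocks A2 0 0 N) V W = 1 := by
    rw [hV, hW, bil_fromBlocks, bil_zero_right, h2]; ring
  have e2' : bil (fromBlocks A2 0 0 N) W V = 1 := by
    rw [hV, hW, bil_fromBlocks, bil_zero_left, h2']; ring
  have e3 : bil (fromBlocks A2 0 0 N) W W = 2 := by
    rw [hW, bil_fromBlocks, bil_zero_left, h3]; ring
  refine ⟨V, W - V, e1, ?_, ?_⟩
  · rw [bil_sub_right, e1, e2]; ring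
  · rw [bil_sub_right, bil_sub_left, bil_sub_left, e1, e2, e2', e3]; ring

theorem has_pair {M : Matrix ι ι Z2} (h : Cond M) {v w : ι → Z2} (hb : IsUnit (bil M v w)) :
    HPair M ∨ APair M := pair_of_unit h.symm h.even hb

/-- Splitting a unimodular plane. -/
theorem red {M : Matrix ι ι Z2} (h : Cond M) {v w : ι → Z2} (hb : IsUnit (bil M v w)) :
    ∃ (m : ℕ) (N : Matrix (Fin m) (Fin m) Z2), Fintype.card ι = 2 + m ∧ Cond N ∧
      (Iso M (fromBlocks H2 0 0 N) ∨ Iso M (fromBlocks A2 0 0 N)) := by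
  rcases has_pair h hb with h1 | h1
  · obtain ⟨m, N, hm, hi⟩ := split_H h.symm h1
    exact ⟨m, N, hm, (h.iso hi).right unit_H2, Or.inl hi⟩
  · obtain ⟨m, N, hm, hi⟩ := split_A h.symm h1
    exact ⟨m, N, hm, (h.iso hi).right unit_A2, Or.inr hi⟩

/-- the nonunimodular plane -/
noncomputable def D2 : Matrix (Fin 2) (Fin 2) Z2 := !![4, 2; 2, 4]

theorem det_D2 : D2.det = 12 := by
  unfold D2; rw [det_fin_two_of]; ring

/-- **No unimodular part**: the matrix is the nonunimodular plane. -/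
theorem nounit {M : Matrix ι ι Z2} (h : Cond M) (hn : ∀ v w, ¬ IsUnit (bil M v w)) :
    Iso M D2 := by
  choose M' hM' using fun i j => (nonunit_iff (M i j)).1 (by
    rw [← bil_single M i j]; exact hn _ _)
  have hbil : ∀ x y, bil M x y = 2 * bil (fun i j => M' i j) x y := by
    intro x y
    unfold bil
    simp only [dotProduct, mulVec, Finset.mul_sum]
    refine Finset.sum_congr rfl fun i _ => Finset.sum_congr rfl fun j _ => ?_
    rw [hM']; ring
  set L : Matrix ι ι Z2 := fun i j => M' i j with hL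
  have hLs : L.IsSymm := by
    ext i j
    have h1 := h.symm.apply i j
    rw [hM', hM'] at h1
    exact mul_left_cancel₀ two_ne h1
  have hkk : ∀ φ : (ι → Z2) →ₗ[Z2] Z2, ∃ y, ∀ x, bil L x y = φ x := by
    intro φ
    obtain ⟨y, hy⟩ := h.kk φ
    refine ⟨y, fun x => ?_⟩
    have := hy x
    rw [hbil] at this
    exact mul_left_cancel₀ two_ne this
  have hdd : ∀ y, (∃ z, y = (2 : Z2) • z) ∨ ∃ k, bil L y y = 2 + 4 * k := by
    intro y
    rcases h.dd y (fun x => ⟨bil L x y, hbil x y⟩) with h1 | ⟨k, hk⟩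
    · exact Or.inl h1
    · right
      rw [hbil] at hk
      refine ⟨k, mul_left_cancel₀ two_ne ?_⟩
      rw [hk]; ring
  have hE : ∀ x, ∃ k, bil L x x = 2 * k := by
    intro x
    rcases hdd x with ⟨z, rfl⟩ | ⟨k, hk⟩
    · exact ⟨2 * bil L z z, by rw [bil_smul_left, bil_smul_right]⟩
    · exact ⟨1 + 2 * k, by rw [hk]; ring⟩
  -- values on sums of basis vectors
  have hnot : ∀ (y : ι → Z2) (i : ι), y i = 1 → ∃ k, bil L y y = 2 + 4 * k := by
    intro y i hyi
    rcases hdd y with ⟨z, rfl⟩ | h1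
    · exfalso
      rw [Pi.smul_apply, smul_eq_mul] at hyi
      have : IsUnit (2 * z i) := by rw [hyi]; exact isUnit_one
      exact two_nonunit (isUnit_of_mul_isUnit_left this)
    · exact h1
  -- there are two different indices with a unit entry
  have hex : ∃ i j, IsUnit (L i j) := by
    by_contra hcon
    push Not at hcon
    rcases isEmpty_or_nonempty ι with he | ⟨⟨i0⟩⟩
    · exact h.nu (by rw [det_isEmpty]; exact isUnit_one)
    · obtain ⟨y, hy⟩ := hkk (LinearMap.proj i0)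
      have h1 := hy (Pi.single i0 1)
      have h2 : bil L (Pi.single i0 1) y = ∑ j, L i0 j * y j := by
        unfold bil
        rw [single_one_dotProduct]
        rfl
      rw [h2] at h1
      have h3 : PadicInt.toZMod (∑ j, L i0 j * y j) = 0 := by
        rw [map_sum]
        refine Finset.sum_eq_zero fun j _ => ?_
        rw [map_mul, (toZMod_eq_zero_iff _).2 (hcon i0 j), zero_mul]
      rw [h1] at h3
      simp at h3
  obtain ⟨i, j, hij⟩ := hex
  rw [← bil_single L i j] at hij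
  have hap : APair L := by
    rcases pair_of_unit hLs hE hij with ⟨v, w, h1, h2, _⟩ | h1
    · exfalso
      rcases hdd v with ⟨z, rfl⟩ | ⟨k, hk⟩
      · rw [bil_smul_left] at h2
        have : IsUnit (2 * bil L z w) := by rw [h2]; exact isUnit_one
        exact two_nonunit (isUnit_of_mul_isUnit_left this)
      · rw [h1] at hk
        have h3 : (2 : Z2) * (1 + 2 * k) = 0 := by linear_combination -hk
        have h4 := (mul_eq_zero.1 h3).resolve_left two_ne
        have h5 : IsUnit (1 + 2 * k) := (unit_iff _).2 ⟨_, rfl⟩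
        rw [h4] at h5
        exact not_isUnit_zero h5
    · exact h1
  obtain ⟨m, N, hm, hi⟩ := split_A hLs hap
  -- the complement is zero
  have hm0 : m = 0 := by
    by_contra hm0
    obtain ⟨e, he⟩ := hi
    have hpos : 0 < m := Nat.pos_of_ne_zero hm0
    set f : Fin m → Z2 := Pi.single ⟨0, hpos⟩ 1 with hf
    have hval : ∀ y : Fin 2 ⊕ Fin m → Z2, (∃ i, y i = 1) →
        ∃ k, bil (fromBlocks A2 0 0 N) y y = 2 + 4 * k := by
      intro y ⟨i, hi⟩
      rcases hdd (e.symm y) with ⟨z, hz⟩ | ⟨k, hk⟩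
      · exfalso
        have h1 : y = (2 : Z2) • e z := by
          rw [← map_smul, ← hz, e.apply_symm_apply]
        rw [h1, Pi.smul_apply, smul_eq_mul] at hi
        have : IsUnit (2 * (e z) i) := by rw [hi]; exact isUnit_one
        exact two_nonunit (isUnit_of_mul_isUnit_left this)
      · refine ⟨k, ?_⟩
        rw [← he, e.apply_symm_apply] at hk
        exact hk
    obtain ⟨k1, h1⟩ := hval (Sum.elim 0 f) ⟨Sum.inr ⟨0, hpos⟩, by simp [hf]⟩
    obtain ⟨k2, h2⟩ := hval (Sum.elim ![1, 0] f) ⟨Sum.inl 0, by simp⟩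
    rw [bil_fromBlocks, bil_zero_left, zero_add] at h1
    rw [bil_fromBlocks, h1] at h2
    have h3 : bil A2 ![1, 0] ![1, 0] = 2 := by
      unfold bil A2
      simp [dotProduct, mulVec, Fin.sum_univ_two]
    rw [h3] at h2
    have h4 : (2 : Z2) * (1 + 2 * (k1 - k2)) = 0 := by linear_combination h2
    have h5 := (mul_eq_zero.1 h4).resolve_left two_ne
    have h6 : IsUnit (1 + 2 * (k1 - k2)) := (unit_iff _).2 ⟨_, rfl⟩
    rw [h5] at h6
    exact not_isUnit_zero h6
  subst hm0
  -- final isometry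
  obtain ⟨e, he⟩ := hi
  let g : (Fin 2 ⊕ Fin 0 → Z2) ≃ₗ[Z2] (Fin 2 → Z2) :=
    LinearEquiv.funCongrLeft Z2 Z2 (Equiv.sumEmpty (Fin 2) (Fin 0)).symm
  refine ⟨e.trans g, fun x y => ?_⟩
  rw [hbil, ← he, bil_fromBlocks']
  have h1 : bil N (e x ∘ Sum.inr) (e y ∘ Sum.inr) = 0 := by
    unfold bil
    simp [dotProduct]
  rw [h1, add_zero]
  have h2 : ∀ z, (e.trans g) z = e z ∘ Sum.inl := fun z => rfl
  rw [h2, h2]
  generalize e x ∘ Sum.inl = a
  generalize e y ∘ Sum.inl = b
  unfold bil D2 A2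
  simp [dotProduct, mulVec, Fin.sum_univ_two]
  ring

theorem nounit_card {M : Matrix ι ι Z2} (h : Cond M) (hn : ∀ v w, ¬ IsUnit (bil M v w)) :
    Fintype.card ι = 2 := by
  have := (nounit h hn).card
  simpa using this

/-- size two -/
theorem card_two {M : Matrix ι ι Z2} (h : Cond M) (hc : Fintype.card ι ≤ 3) : Iso M D2 := by
  apply nounit h
  intro v w hb
  obtain ⟨m, N, hm, hN, _⟩ := red h hb
  have hm1 : m ≤ 1 := by omega
  have h2 : ∀ v w, ¬ IsUnit (bil N v w) := by
    intro v w hb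
    obtain ⟨m', N', hm', _⟩ := red hN hb
    rw [Fintype.card_fin] at hm'
    omega
  have := nounit_card hN h2
  rw [Fintype.card_fin] at this
  omega

theorem det_val : ∀ (n : ℕ) (ι : Type) [Fintype ι] [DecidableEq ι] (M : Matrix ι ι Z2),
    Fintype.card ι = n → Cond M → ∃ u : Z2, IsUnit u ∧ M.det = 4 * u := by
  intro n
  induction n using Nat.strong_induction_on with
  | _ n ih =>
    intro ι _ _ M hn h
    by_cases hb : ∃ v w, IsUnit (bil M v w)
    · obtain ⟨v, w, hb⟩ := hb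
      obtain ⟨m, N, hm, hN, hi⟩ := red h hb
      obtain ⟨u, hu, hd⟩ := ih m (by omega) (Fin m) N (Fintype.card_fin m) hN
      rcases hi with hi | hi
      · obtain ⟨t, ht⟩ := hi.det
        rw [det_fromBlocks_zero₂₁, hd] at ht
        exact ⟨(t : Z2) ^ 2 * (H2.det * u), (t.isUnit.pow 2).mul (unit_H2.mul hu), by
          rw [ht]; ring⟩
      · obtain ⟨t, ht⟩ := hi.det
        rw [det_fromBlocks_zero₂₁, hd] at ht
        exact ⟨(t : Z2) ^ 2 * (A2.det * u), (t.isUnit.pow 2).mul (unit_A2.mul hu), by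
          rw [ht]; ring⟩
    · push Not at hb
      obtain ⟨t, ht⟩ := (nounit h hb).det
      rw [det_D2] at ht
      refine ⟨(t : Z2) ^ 2 * 3, (t.isUnit.pow 2).mul ((unit_iff _).2 ⟨1, by ring⟩), ?_⟩
      rw [ht]; ring

/-- a hyperbolic pair exists in size at least five -/
theorem exists_HPair {M : Matrix ι ι Z2} (h : Cond M) (hc : 5 ≤ Fintype.card ι) : HPair M := by
  by_cases hb : ∃ v w, IsUnit (bil M v w)
  · obtain ⟨v, w, hb⟩ := hb
    rcases has_pair h hb with h1 | h1
    · exact h1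
    · obtain ⟨m, N, hm, hi⟩ := split_A h.symm h1
      have hN : Cond N := (h.iso hi).right unit_A2
      by_cases hb' : ∃ v w, IsUnit (bil N v w)
      · obtain ⟨v', w', hb'⟩ := hb'
        rcases has_pair hN hb' with h2 | h2
        · exact h2.blocks.iso hi.symm
        · exact (HPair_of_AA hN.symm h2).iso hi.symm
      · push Not at hb'
        have := nounit_card hN hb'
        rw [Fintype.card_fin] at this
        omega
  · push Not at hb
    have := nounit_card h hb
    omega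

/-- **Classification over the 2-adic integers.** -/
theorem two_main : ∀ (n : ℕ) (ι κ : Type) [Fintype ι] [Fintype κ] [DecidableEq ι]
    [DecidableEq κ] (M : Matrix ι ι Z2) (N : Matrix κ κ Z2), Cond M → Cond N →
    Fintype.card ι = n → Fintype.card κ = n →
    (∃ s : Z2ˣ, N.det = (s : Z2) ^ 2 * M.det) → Iso M N := by
  intro n
  induction n using Nat.strong_induction_on with
  | _ n ih =>
    intro ι κ _ _ _ _ M N hM hN hι hκ hs
    obtain ⟨s, hs⟩ := hs
    rcases Nat.lt_or_ge n 4 with hn | hn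
    · exact (card_two hM (by omega)).trans (card_two hN (by omega)).symm
    rcases Nat.lt_or_ge n 5 with hn5 | hn5
    · -- size four
      have hex : ∀ (ι : Type) [Fintype ι] [DecidableEq ι] (M : Matrix ι ι Z2), Cond M →
          Fintype.card ι = 4 → Iso M (fromBlocks H2 0 0 D2) ∨ Iso M (fromBlocks A2 0 0 D2) := by
        intro ι _ _ M h hc
        by_cases hb : ∃ v w, IsUnit (bil M v w)
        · obtain ⟨v, w, hb⟩ := hb
          obtain ⟨m, N, hm, hN, hi⟩ := red h hb
          have h2 := card_two hN (by rw [Fintype.card_fin]; omega)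
          rcases hi with hi | hi
          · exact Or.inl (hi.trans ((Iso.refl _).blocks h2))
          · exact Or.inr (hi.trans ((Iso.refl _).blocks h2))
        · push Not at hb
          have := nounit_card h hb
          omega
      have hdetH : (fromBlocks H2 0 0 D2).det = -12 := by
        rw [det_fromBlocks_zero₂₁, det_H2, det_D2]; ring
      have hdetA : (fromBlocks A2 0 0 D2).det = 36 := by
        rw [det_fromBlocks_zero₂₁, det_A2, det_D2]; ring
      have h12 : (12 : Z2) ≠ 0 := by norm_num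
      rcases hex ι M hM (by omega) with h1 | h1 <;> rcases hex κ N hN (by omega) with h2 | h2
      · exact h1.trans h2.symm
      · exfalso
        obtain ⟨t1, ht1⟩ := h1.det
        obtain ⟨t2, ht2⟩ := h2.det
        rw [ht1, ht2, hdetH, hdetA] at hs
        refine no_mix t2.isUnit (s.isUnit.mul t1.isUnit) (mul_left_cancel₀ h12 ?_)
        linear_combination hs
      · exfalso
        obtain ⟨t1, ht1⟩ := h1.det
        obtain ⟨t2, ht2⟩ := h2.det
        rw [ht1, ht2, hdetH, hdetA] at hs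
        refine no_mix (s.isUnit.mul t1.isUnit) t2.isUnit (mul_left_cancel₀ h12 ?_)
        linear_combination -hs
      · exact h1.trans h2.symm
    · have hp1 := exists_HPair hM (by omega)
      have hp2 := exists_HPair hN (by omega)
      obtain ⟨m, M1, hm, hi⟩ := split_H hM.symm hp1
      obtain ⟨m', N1, hm', hi'⟩ := split_H hN.symm hp2
      have hM1 : Cond M1 := (hM.iso hi).right unit_H2
      have hN1 : Cond N1 := (hN.iso hi').right unit_H2
      obtain ⟨s1, hs1⟩ := hi.det
      obtain ⟨s2, hs2⟩ := hi'.det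
      rw [det_fromBlocks_zero₂₁, det_H2] at hs1 hs2
      refine hi.trans (((Iso.refl _).blocks (ih m (by omega) (Fin m) (Fin m') M1 N1 hM1 hN1
        (Fintype.card_fin m) (by rw [Fintype.card_fin]; omega) ⟨s2⁻¹ * s * s1, ?_⟩)).trans
        hi'.symm)
      have h3 : (s2 : Z2) * ((s2⁻¹ : Z2ˣ) : Z2) = 1 := s2.mul_inv
      rw [hs1, hs2] at hs
      push_cast
      have h4 : N1.det = -(((s2⁻¹ : Z2ˣ) : Z2) ^ 2 * ((s2 : Z2) ^ 2 * (-1 * N1.det))) := by
        linear_combination (- N1.det * ((s2 : Z2) * ((s2⁻¹ : Z2ˣ) : Z2) + 1)) * h3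
      rw [h4, hs]
      ring

end

end Pool.Agent.R396.F
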