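import Pool.Agent.R396.F.Stm2

set_option autoImplicit false

/-!
# Zeros on rational slices
-/

namespace Pool.Agent.R396.F

open Complex Set Finset Topology Pool.Agent.Y813.RL

noncomputable section

variable {G : Matrix (Fin 20) (Fin 20) ℤ}

section pt

variable {X : Fin 20 → ℤ} {N : ℕ} {y : Fin 20 → ℝ} {τ : ℂ}

theorem pt_UP (X : Fin 20 → ℤ) (N : ℕ) (y : Fin 20 → ℝ) (hτ : 0 < τ.im) : pt X N y τ ∈ UP := hτ

theorem imv_ptg (X : Fin 20 → ℤ) (N : ℕ) (y : Fin 20 → ℝ) (τ : ℂ) :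
    imv (pt X N y τ).2 = τ.im • xr X N := by
  funext i
  simp [imv, pt]

theorem rev_pt (X : Fin 20 → ℤ) (N : ℕ) (y : Fin 20 → ℝ) (τ : ℂ) :
    rev (pt X N y τ).2 = τ.re • xr X N + y := by
  funext i
  simp [rev, pt]

theorem xp_ptg (hτ : 0 < τ.im) : xp (pt X N y τ) = xr X N := by
  unfold xp
  rw [imv_ptg, smul_smul]
  have : (pt X N y τ).1.im = τ.im := rfl
  rw [this, inv_mul_cancel₀ hτ.ne', one_smul]

theorem bh_ptg (hτ : 0 < τ.im) :
    bh G (pt X N y τ) = τ.im * (bf G (xr X N) (xr X N) / 2) := by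
  rw [bh_eq (pt_UP X N y hτ), xp_ptg hτ]
  rfl

theorem ht_pt (hτ : 0 < τ.im) (ω : ℂ) :
    ht G (ω, pt X N y τ) = ω.im / τ.im - bf G (xr X N) (xr X N) / 2 := by
  unfold ht
  simp only
  rw [xp_ptg hτ]
  rfl

end pt

/-- generic direction -/
def Gx (Q : ℕ) (x : Fin 20 → ℝ) : Prop :=
  ∀ ν : Fin 20 → ℤ, ν ≠ 0 → (∀ i, |ν i| ≤ Q) → ∀ k : ℤ, dt ν x ≠ k

theorem not_mir_pt {X : Fin 20 → ℤ} {N : ℕ} {Q : ℕ}
    (hQ : ∀ μ : Fin 20 → ℤ, bd G μ μ ≤ 2 → ∀ i, |μ i| ≤ Q) (hx : Gx Q (xr X N))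
    (y : Fin 20 → ℝ) {τ : ℂ} (hτ : 0 < τ.im) : pt X N y τ ∉ Mir G := by
  rintro ⟨b, n, μ, h1, h2, h3⟩
  rw [mir_eq (pt_UP X N y hτ) b n μ, xp_ptg hτ] at h3
  refine hx μ ?_ (hQ μ h2) (-n) (by push_cast; exact h3.1)
  rintro rfl
  rw [bd_zero] at h1
  exact lt_irrefl _ h1

/-- candidate walls of height `h'` over the direction `x` -/
def Cand (G : Matrix (Fin 20) (Fin 20) ℤ) (x : Fin 20 → ℝ) (l n : ℤ) (μ : Fin 20 → ℤ) (d : ℕ)
    (h' : ℝ) : Prop :=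
  0 < l ∧ WallData G 0 0 l n μ ∧ nu G 0 0 l n μ * d = 1 ∧
    h' = -((n : ℝ) + dt μ x) / l - bf G x x / 2

theorem wd_b {b l n : ℤ} {μ : Fin 20 → ℤ} : WallData G 0 b l n μ ↔ WallData G 0 0 l n μ := by
  simp [WallData]

theorem nu_b {b l n : ℤ} {μ : Fin 20 → ℤ} : nu G 0 b l n μ = nu G 0 0 l n μ := by
  simp [nu]

theorem nu_neg {b l n : ℤ} {μ : Fin 20 → ℤ} : nu G 0 (-b) (-l) (-n) (-μ) = nu G 0 b l n μ := by
  have hbd : bd G (-μ) (-μ) = bd G μ μ := by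
    unfold bd
    have : (fun j => (((-μ) j : ℤ) : ℝ)) = -fun j => (μ j : ℝ) := by
      funext j; simp
    rw [this, Matrix.mulVec_neg]
    simp
  unfold nu
  rw [hbd]
  push_cast
  ring

theorem zero_cand (h : PosSymm G) {F : TP → ℂ} (hs : StrongZeros G F)
    {X : Fin 20 → ℤ} {N : ℕ} {y : Fin 20 → ℝ} {τ ω : ℂ} (hm : pt X N y τ ∉ Mir G) {h0 : ℝ}
    (h00 : 0 < h0) (hT : 1 + 1 / h0 ≤ τ.im)
    (hω : (h0 + bf G (xr X N) (xr X N) / 2) * τ.im < ω.im) (hF0 : F (ω, pt X N y τ) = 0) :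
    ∃ (b l n : ℤ) (μ : Fin 20 → ℤ) (d : ℕ),
      Cand G (xr X N) l n μ d (ω.im / τ.im - bf G (xr X N) (xr X N) / 2) ∧
      WEq G 0 b l n μ (ω, pt X N y τ) := by
  have hinv : 0 < 1 / h0 := by positivity
  have hτ : 0 < τ.im := by linarith
  have hht : h0 < ω.im / τ.im - bf G (xr X N) (xr X N) / 2 := by
    have : h0 + bf G (xr X N) (xr X N) / 2 < ω.im / τ.im := by
      rw [lt_div_iff₀ hτ]
      exact hω
    linarith
  have hx0 := h.nonneg (xr X N)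
  have hW : (ω, pt X N y τ) ∈ Hd G := by
    refine ⟨pt_UP X N y hτ, ?_⟩
    simp only
    rw [bh_ptg hτ]
    nlinarith
  obtain ⟨a, b, m, n, μ, d, hw, hd, he⟩ := hs _ hW hF0
  have ha := wall_a h hW he (nu_le_one hw).2 (by
    rw [kf_im_eq (mem_Hd'.1 hW).1, ht_pt hτ]
    have e1 : (ω, pt X N y τ).2.1.im = τ.im := rfl
    rw [e1]
    have h1 : 1 < τ.im * h0 := by
      have : (1 + 1 / h0) * h0 ≤ τ.im * h0 := mul_le_mul_of_nonneg_right hT h00.le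
      have h2 : (1 + 1 / h0) * h0 = h0 + 1 := by field_simp
      linarith
    have h2 : 1 ≤ τ.im := by linarith
    nlinarith [mul_pos hτ hτ])
  subst ha
  have hm0 : m ≠ 0 := by
    rintro rfl
    apply hm
    have h4 := nu_le_one hw
    unfold nu at h4
    refine ⟨b, n, μ, ?_, ?_, ?_⟩
    · have := h4.1
      push_cast at this
      linarith
    · have := h4.2
      push_cast at this
      linarith
    · unfold WEq at he
      push_cast at he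
      linear_combination he
  have key : ∀ (b l n : ℤ) (μ : Fin 20 → ℤ), 0 < l → WallData G 0 b l n μ →
      nu G 0 b l n μ * d = 1 → WEq G 0 b l n μ (ω, pt X N y τ) →
      Cand G (xr X N) l n μ d (ω.im / τ.im - bf G (xr X N) (xr X N) / 2) := by
    intro b l n μ hl hw hd he
    refine ⟨hl, wd_b.1 hw, by rw [← hd, nu_b (b := b)], ?_⟩
    have h1 := WEq_im h he
    rw [kf_Pw h] at h1
    simp only [Int.cast_zero, zero_mul, imW] at h1
    rw [imv_ptg, dt_smul] at h1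
    have hl' : (l : ℝ) ≠ 0 := by
      have : (0 : ℝ) < l := by exact_mod_cast hl
      exact this.ne'
    have h2 : (pt X N y τ).1.im = τ.im := rfl
    rw [h2] at h1
    have h3 : ω.im / τ.im = -((n : ℝ) + dt μ (xr X N)) / l := by
      field_simp
      linarith
    rw [h3]
  rcases lt_or_gt_of_ne hm0 with hneg | hpos
  · refine ⟨-b, -m, -n, -μ, d, key _ _ _ _ (by omega) (WallData_neg hw) ?_ (WEq_neg he),
      WEq_neg he⟩
    rw [nu_neg]
    exact hd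
  · exact ⟨b, m, n, μ, d, key _ _ _ _ hpos hw hd he, he⟩

theorem cand_id (h : PosSymm G) {x : Fin 20 → ℝ} {l n : ℤ} {μ : Fin 20 → ℤ} {d : ℕ} {h' : ℝ}
    (hc : Cand G x l n μ d h') : nu G 0 0 l n μ = (l : ℝ) ^ 2 * h' +
      bf G (lam G μ + (l : ℝ) • x) (lam G μ + (l : ℝ) • x) / 2 := by
  obtain ⟨hl, -, -, he⟩ := hc
  have hl' : (l : ℝ) ≠ 0 := by
    have : (0 : ℝ) < l := by exact_mod_cast hl
    exact this.ne'
  rw [bf_add_left, bf_add_right, bf_add_right, bf_smul_left, bf_smul_left, bf_smul_right,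
    bf_smul_right, bf_comm h.symm x (lam G μ), bf_lam_lam h, bf_lam h]
  unfold nu
  rw [he]
  push_cast
  field_simp
  ring

theorem bd_nonneg (h : PosSymm G) (μ : Fin 20 → ℤ) : 0 ≤ bd G μ μ := by
  rw [← bf_lam_lam h]
  exact h.nonneg _

theorem cand_bound (h : PosSymm G) {x : Fin 20 → ℝ} {l n : ℤ} {μ : Fin 20 → ℤ} {d : ℕ} {h' : ℝ}
    (hc : Cand G x l n μ d h') (hpos : 0 < h') :
    (l : ℝ) ^ 2 * h' ≤ 1 ∧ bd G μ μ ≤ 4 + 2 * (l : ℝ) ^ 2 * bf G x x := by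
  have h1 := cand_id h hc
  have h2 := nu_le_one hc.2.1
  have h3 := h.nonneg (lam G μ + (l : ℝ) • x)
  have h4 : 0 ≤ (l : ℝ) ^ 2 * h' := by positivity
  refine ⟨by linarith [h2.2], ?_⟩
  have h5 := h.nonneg (lam G μ + (2 * (l : ℝ)) • x)
  have e1 : bf G (lam G μ + (l : ℝ) • x) (lam G μ + (l : ℝ) • x) =
      bd G μ μ + 2 * l * dt μ x + (l : ℝ) ^ 2 * bf G x x := by
    rw [bf_add_left, bf_add_right, bf_add_right, bf_smul_left, bf_smul_left, bf_smul_right,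
      bf_smul_right, bf_comm h.symm x (lam G μ), bf_lam_lam h, bf_lam h]
    ring
  have e2 : bf G (lam G μ + (2 * (l : ℝ)) • x) (lam G μ + (2 * (l : ℝ)) • x) =
      bd G μ μ + 4 * l * dt μ x + 4 * (l : ℝ) ^ 2 * bf G x x := by
    rw [bf_add_left, bf_add_right, bf_add_right, bf_smul_left, bf_smul_left, bf_smul_right,
      bf_smul_right, bf_comm h.symm x (lam G μ), bf_lam_lam h, bf_lam h]
    ring
  rw [e1] at h1
  rw [e2] at h5
  linarith [h2.2]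

/-- the candidate heights above `h0` are finite in number -/
theorem cand_fin (h : PosSymm G) (x : Fin 20 → ℝ) {h0 : ℝ} (h00 : 0 < h0) :
    {h' : ℝ | h0 < h' ∧ ∃ (l n : ℤ) (μ : Fin 20 → ℤ) (d : ℕ), Cand G x l n μ d h'}.Finite := by
  obtain ⟨L, hL⟩ := exists_nat_gt (1 / h0)
  set c : ℝ := 4 + 2 * (L : ℝ) ^ 2 * bf G x x with hc
  obtain ⟨B, hB⟩ := exists_nat_gt (c / 2 + 1)
  have hfin : ((Set.Icc (1 : ℤ) L) ×ˢ ((Set.Icc (-(B : ℤ)) B) ×ˢ
      {μ : Fin 20 → ℤ | bd G μ μ ≤ c})).Finite :=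
    (Set.finite_Icc _ _).prod ((Set.finite_Icc _ _).prod (short_finite h c))
  refine (hfin.image fun p : ℤ × (ℤ × (Fin 20 → ℤ)) =>
    -((p.2.1 : ℝ) + dt p.2.2 x) / p.1 - bf G x x / 2).subset ?_
  rintro h' ⟨h1, l, n, μ, d, hcand⟩
  have hpos : 0 < h' := h00.trans h1
  obtain ⟨h2, h3⟩ := cand_bound h hcand hpos
  have hl1 : (1 : ℝ) ≤ l := by
    have : (1 : ℤ) ≤ l := hcand.1
    exact_mod_cast this
  have hlL : (l : ℝ) < L := by
    have h4 : (l : ℝ) * h0 ≤ (l : ℝ) ^ 2 * h' := by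
      have : (l : ℝ) * h0 ≤ (l : ℝ) * h' := by nlinarith
      nlinarith [mul_pos (show (0 : ℝ) < l by linarith) hpos]
    have h5 : (l : ℝ) ≤ 1 / h0 := by
      rw [le_div_iff₀ h00]
      linarith
    linarith
  have hx0 := h.nonneg x
  have hbd : bd G μ μ ≤ c := by
    have : (l : ℝ) ^ 2 ≤ (L : ℝ) ^ 2 := by nlinarith
    have := mul_le_mul_of_nonneg_right this hx0
    linarith
  have hn : |n| ≤ (B : ℤ) := by
    have h4 := nu_le_one hcand.2.1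
    unfold nu at h4
    push_cast at h4
    have h5 := bd_nonneg h μ
    have h6 : |(l : ℝ) * n| ≤ c / 2 + 1 := by
      rw [abs_le]
      constructor <;> linarith [h4.1, h4.2]
    have h7 : |(n : ℝ)| ≤ |(l : ℝ) * n| := by
      rw [abs_mul]
      have : 1 ≤ |(l : ℝ)| := by rw [abs_of_pos (by linarith)]; exact hl1
      nlinarith [abs_nonneg (n : ℝ)]
    have h8 : |(n : ℝ)| < B := by linarith
    have h9 : ((|n| : ℤ) : ℝ) < ((B : ℤ) : ℝ) := by push_cast; exact h8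
    exact (Int.cast_lt.1 h9).le
  refine ⟨(l, (n, μ)), ⟨⟨hcand.1, ?_⟩, ⟨abs_le.1 hn, hbd⟩⟩, hcand.2.2.2.symm⟩
  have : (l : ℝ) < ((L : ℤ) : ℝ) := by exact_mod_cast hlL
  exact (Int.cast_lt.1 this).le

theorem nz_of_cand (h : PosSymm G) {F : TP → ℂ} (hs : StrongZeros G F)
    {X : Fin 20 → ℤ} {N : ℕ} {y : Fin 20 → ℝ} (hm : ∀ τ : ℂ, 0 < τ.im → pt X N y τ ∉ Mir G)
    {h0 : ℝ} (h00 : 0 < h0)
    (hc : ∀ (l n : ℤ) (μ : Fin 20 → ℤ) (d : ℕ) (h' : ℝ), Cand G (xr X N) l n μ d h' → h' ≤ h0) :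
    NZ G F X N y h0 := by
  have hinv : 0 < 1 / h0 := by positivity
  refine ⟨1 + 1 / h0, by linarith, fun τ ω hτ hω hF => ?_⟩
  have hτ0 : 0 < τ.im := by linarith
  obtain ⟨b, l, n, μ, d, hcand, -⟩ := zero_cand h hs (hm τ hτ0) h00 hτ hω hF
  have h1 := hc _ _ _ _ _ hcand
  have h2 : ω.im / τ.im ≤ h0 + bf G (xr X N) (xr X N) / 2 := by linarith
  rw [div_le_iff₀ hτ0] at h2
  linarith

end

end Pool.Agent.R396.F
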