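import Pool.Agent.R396.F.GB
import Pool.Agent.Y155.RL.VD

set_option autoImplicit false

/-!
# MP_f1d0b6_nt: growth of the quotient on slices (subtask T9, helper393)
-/

namespace Pool.Agent.R396.F

open Complex Set Finset Topology Pool.Agent.Y813.RL Pool.Agent.Y683.RL

noncomputable section

variable {G : Matrix (Fin 20) (Fin 20) ℤ}

theorem rad_pos (G : Matrix (Fin 20) (Fin 20) ℤ) (X : Fin 20 → ℤ) (N : ℕ) (η : ℝ) (τ : ℂ) :
    0 < rad G X N η τ := Real.exp_pos _

theorem rad_lt (X : Fin 20 → ℤ) (N : ℕ) (y : Fin 20 → ℝ) {η : ℝ} {τ : ℂ} (hη : 0 < η)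
    (hτ : 0 < τ.im) : rad G X N η τ < Real.exp (-(2 * Real.pi * bh G (pt X N y τ))) := by
  unfold rad
  apply Real.exp_lt_exp.2
  rw [bh_pt X N y hτ]
  have h1 : 0 < Real.pi * (η * τ.im) := mul_pos Real.pi_pos (mul_pos hη hτ)
  nlinarith

/-- a logarithm of a point in the disc of height `η` -/
theorem exists_log (X : Fin 20 → ℤ) (N : ℕ) {η : ℝ} {τ s : ℂ} (hs : s ≠ 0)
    (hsR : ‖s‖ ≤ rad G X N η τ) :
    ∃ ω : ℂ, ee ω = s ∧ (η + bf G (xr X N) (xr X N) / 2) * τ.im ≤ ω.im := by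
  obtain ⟨ω, hω, him⟩ := exists_ee hs
  refine ⟨ω, hω, ?_⟩
  rw [him, le_div_iff₀ (by have := Real.pi_pos; positivity)]
  have := Real.log_le_log (norm_pos_iff.2 hs) hsR
  unfold rad at this
  rw [Real.log_exp] at this
  linarith

theorem jobGrow : JobGB → JobGrow := by
  intro hGB G k F φ C m hG H X N y h0 hN hh0 hmir hNZ c hcq ε hε
  set q := bf G (xr X N) (xr X N) with hq
  have hq0 : 0 ≤ q := hG.nonneg _
  have hpi := Real.pi_pos
  have hη : 0 < h0 + ε / 2 := by linarith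
  obtain ⟨A, T1, hA, hT1, hgb⟩ := hGB G k F φ C m hG H X N y (h0 + ε / 2) hN hη hmir
  obtain ⟨T2, hT2, hnz⟩ := hNZ
  have hm : (0 : ℝ) < m := by exact_mod_cast H.hm
  refine ⟨2 * A * 2 ^ m / (Real.pi * m * ε), max T1 T2, lt_max_of_lt_left hT1, ?_⟩
  intro τ hτ
  have hτ1 : T1 ≤ τ.im := (le_max_left _ _).trans hτ
  have hτ2 : T2 ≤ τ.im := (le_max_right _ _).trans hτ
  have hτ0 : 0 < τ.im := lt_of_lt_of_le hT1 hτ1
  set p := pt X N y τ with hp
  have hpU : p ∈ UP := pt_mem X N y hτ0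
  have hφ0 : φ C p ≠ 0 := leading_ne_zero hG H.tf H.fd H.hC H.hne hpU (hmir _ hτ0)
  set R := rad G X N (h0 + ε / 2) τ with hR
  have hR0 : 0 < R := rad_pos _ _ _ _ _
  have hRR : R < Real.exp (-(2 * Real.pi * bh G p)) := rad_lt X N y hη hτ0
  have hgne : ∀ s ∈ Metric.ball (0 : ℂ) R, gp φ C m p s ≠ 0 := by
    intro s hs
    rw [Metric.mem_ball, dist_zero_right] at hs
    by_cases hs0 : s = 0
    · rw [hs0]
      simp [gp, H.hm.ne']
    · obtain ⟨ω, hω, him⟩ := exists_log (G := G) X N hs0 hs.le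
      rw [← hq] at him
      have h1 : (h0 + q / 2) * τ.im < ω.im := by
        refine lt_of_lt_of_le ?_ him
        have : 0 < ε * τ.im := mul_pos hε hτ0
        nlinarith
      have h2 : bh G p < ω.im := by
        rw [hp, bh_pt X N y hτ0, ← hq]
        have : 0 < h0 * τ.im := mul_pos hh0 hτ0
        nlinarith
      rw [← hω, H.gp_eq hpU hφ0 h2]
      exact div_ne_zero (mul_ne_zero (hnz τ ω hτ2 h1) (ee_ne_zero _)) hφ0
  have hHd := H.Hs_diff hpU
  have hcont : ContinuousAt (fun s => Hs φ C m p s / φ C p) 0 := by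
    have : DifferentiableAt ℂ (Hs φ C m p) 0 :=
      hHd.differentiableAt (Metric.isOpen_ball.mem_nhds (Metric.mem_ball_self (Real.exp_pos _)))
    exact (this.div_const _).continuousAt
  have key := Pool.Agent.Y155.RL.bc m R (A * τ.im) (gp φ C m p) (fun s => Hs φ C m p s / φ C p)
    H.hm hR0 (mul_pos hA hτ0) ((H.gp_diff hpU).mono (Metric.ball_subset_ball hRR.le)) hcont
    (fun s _ => rfl) hgne (fun s hs => by
      rw [Metric.mem_ball, dist_zero_right] at hs
      exact hgb τ hτ1 s hs.le)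
  simp only [Hs_zero] at key
  have hcp : φ (C + m) p / φ C p = c τ p.2 := by
    have h1 := hcq τ p.2 hτ0
    have h2 : (τ, p.2) = p := rfl
    rw [h2] at h1
    rw [h1]
    field_simp
  rw [hcp] at key
  refine key.trans ?_
  have e1 : (2 / R) ^ m = 2 ^ m * Real.exp (2 * Real.pi * m * ((h0 + ε / 2 + q / 2) * τ.im)) := by
    rw [div_pow, hR]
    unfold rad
    rw [← Real.exp_nat_mul, div_eq_mul_inv, ← Real.exp_neg]
    congr 2
    rw [← hq]
    ring
  rw [e1]
  have h3 : τ.im ≤ Real.exp (Real.pi * m * ε * τ.im) / (Real.pi * m * ε) := by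
    rw [le_div_iff₀ (by positivity)]
    have := Real.add_one_le_exp (Real.pi * m * ε * τ.im)
    linarith
  have e2 : Real.exp (2 * Real.pi * m * ((h0 + ε + q / 2) * τ.im)) =
      Real.exp (Real.pi * m * ε * τ.im) *
        Real.exp (2 * Real.pi * m * ((h0 + ε / 2 + q / 2) * τ.im)) := by
    rw [← Real.exp_add]
    congr 1
    ring
  rw [e2]
  calc 2 * (A * τ.im) * (2 ^ m * Real.exp (2 * Real.pi * m * ((h0 + ε / 2 + q / 2) * τ.im)))
      ≤ 2 * (A * (Real.exp (Real.pi * m * ε * τ.im) / (Real.pi * m * ε))) *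
        (2 ^ m * Real.exp (2 * Real.pi * m * ((h0 + ε / 2 + q / 2) * τ.im))) := by
        gcongr
    _ = _ := by ring

end

end Pool.Agent.R396.F
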