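import Pool.Agent.R396.F.Stm2
import Pool.Agent.Y813.RL.Tube5
import Pool.Agent.Y813.RL.Wall

set_option autoImplicit false

/-!
# From a reflective lattice to a reflective form on the tube domain (job A)
-/

namespace Pool.Agent.R396.F

open Set Topology Pool.Agent.Y813.RL Pool.Agent.Y683.RL
open Pool.Agent.Y813.Refl (form quadric act discKernel act_mul act_one form_act_of_int act_cast
  gramM coneM IsModularForm IsReflective IsReflectiveLattice gramUU)

noncomputable section

namespace JA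

variable {G : Matrix (Fin 20) (Fin 20) ℤ}

/-- the transformation law in tube coordinates -/
theorem trans_law (h : PosSymm G) {k : ℤ} {χ : discKernel (gramM G) (coneM G) →* ℂˣ}
    {F₀ : (Fin 4 ⊕ Fin 20 → ℂ) → ℂ} (hF : IsModularForm (gramM G) (coneM G) k χ F₀) {N : ℕ}
    (hχ : ∀ g, χ g ^ N = 1)
    {g : Matrix.GeneralLinearGroup (Fin 4 ⊕ Fin 20) ℤ}
    (hg : g ∈ discKernel (gramM G) (coneM G)) {W W' : TP}
    (hW : W ∈ Hd G) {j : ℂ} (hj : j ≠ 0)
    (hZ : act g.val (ZW G W) = fun i => j * ZW G W' i) :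
    F₀ (ZW G W') ^ N = j ^ (N * k) * F₀ (ZW G W) ^ N := by
  have hc := ZW_mem_cone h hW
  have h1 := hF.equi ⟨g, hg⟩ _ hc
  have h2 : act g.val (ZW G W) ∈ coneM G := (hg.2.1 _).2 hc
  have h3 := hF.homog _ h2 j⁻¹ (inv_ne_zero hj)
  have h4 : (fun i => j⁻¹ * act g.val (ZW G W) i) = ZW G W' := by
    rw [hZ]
    funext i
    field_simp
  rw [h4] at h3
  have h1' : F₀ (act g.val (ZW G W)) = (χ ⟨g, hg⟩ : ℂ) * F₀ (ZW G W) := h1
  rw [h3, h1', mul_pow, mul_pow]
  have h5 : ((χ ⟨g, hg⟩ : ℂˣ) : ℂ) ^ N = 1 := by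
    rw [← Units.val_pow_eq_pow_val, hχ]
    simp
  rw [h5, one_mul]
  congr 1
  have h6 : (j : ℂ) ^ ((N : ℤ) * k) = (j ^ k) ^ N := by
    rw [mul_comm, zpow_mul]
    norm_cast
  rw [inv_zpow', neg_neg, h6]

theorem bf_div (a : Fin 20 → ℂ) (j : ℂ) :
    bf G (fun i => a i / j) (fun i => a i / j) = bf G a a / j ^ 2 := by
  have : (fun i => a i / j) = j⁻¹ • a := by funext i; simp [div_eq_inv_mul]
  rw [this, bf_smul_left, bf_smul_right]
  ring

theorem eq_smul_ZW {a b c d : ℂ} {z : Fin 20 → ℂ} (ha : a ≠ 0)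
    (h : 2 * (a * b + c * d) = bf G z z) :
    mk a b c d z = fun i => a * ZW G (c / a, (d / a, fun i => z i / a)) i := by
  unfold ZW
  rw [smul_mk]
  simp only
  rw [bf_div, ← h]
  congr 1
  · ring
  · field_simp
    ring
  · field_simp
  · field_simp
  · funext i
    field_simp

theorem quadric_eq {a b c d : ℂ} {z : Fin 20 → ℂ}
    (h : mk a b c d z ∈ quadric (gramM G)) :
    2 * (a * b + c * d) = bf G z z := ((quadric_mk G a b c d z).1 h).1

theorem disc_quadric {g : Matrix.GeneralLinearGroup (Fin 4 ⊕ Fin 20) ℤ}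
    (h : PosSymm G) (hg : g ∈ discKernel (gramM G) (coneM G)) {W : TP} (hW : W ∈ Hd G) :
    act g.val (ZW G W) ∈ quadric (gramM G) := by
  have h2 : act g.val (ZW G W) ∈ coneM G := (hg.2.1 _).2 (ZW_mem_cone h hW)
  rw [coneM_eq] at h2
  exact connectedComponentIn_subset _ _ h2

theorem diff_ZW : Differentiable ℂ (ZW G) := by
  rw [differentiable_pi]
  have h1 : Differentiable ℂ fun W : TP => bf G W.2.2 W.2.2 := by
    rw [← differentiableOn_univ]
    exact bf_diffC G (by fun_prop) (by fun_prop)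
  rintro (i | i)
  · match i with
    | 0 => exact differentiable_const _
    | 1 =>
      have h2 : Differentiable ℂ fun W : TP => bf G W.2.2 W.2.2 / 2 := by
        simp only [div_eq_mul_inv]
        exact h1.mul_const _
      exact h2.sub (by fun_prop : Differentiable ℂ fun W : TP => W.1 * W.2.1)
    | 2 => exact (by fun_prop : Differentiable ℂ fun W : TP => W.1)
    | 3 => exact (by fun_prop : Differentiable ℂ fun W : TP => W.2.1)
  · exact (by fun_prop : Differentiable ℂ fun W : TP => W.2.2 i)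

/-- casts of vectors -/
theorem cast_mk {R : Type*} [CommRing R] (a b c d : ℤ) (z : Fin 20 → ℤ) :
    (fun i => ((mk a b c d z : Fin 4 ⊕ Fin 20 → ℤ) i : R)) =
      mk (a : R) (b : R) (c : R) (d : R) (fun i => (z i : R)) := by
  funext i
  rcases i with i | i
  · match i with
    | 0 => simp [mk]
    | 1 => simp [mk]
    | 2 => simp [mk]
    | 3 => simp [mk]
  · simp [mk]

/-- the linear form of a vector in tube coordinates -/
theorem bf_ZW (a b c d : ℂ) (z : Fin 20 → ℂ) (W : TP) :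
    bf (gramM G) (mk a b c d z) (ZW G W) =
      a * (bf G W.2.2 W.2.2 / 2 - W.1 * W.2.1) + b + c * W.2.1 + d * W.1 - bf G z W.2.2 := by
  rw [ZW, bf_mk]
  ring

/-- the vector of `M` with the given component in `K = U + L(-1)` -/
def kM (e : ℤ × (ℤ × (Fin 20 → ℤ))) : Fin 4 ⊕ Fin 20 → ℤ := mk 0 0 e.1 e.2.1 e.2.2

/-- the linear form of a vector of `K` in tube coordinates -/
theorem bf_kM_ZW (e : ℤ × (ℤ × (Fin 20 → ℤ))) (W : TP) :
    bf (gramM G) (fun i => ((kM e i : ℤ) : ℂ)) (ZW G W) = kf G (cK e) W := by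
  unfold kM
  rw [cast_mk, bf_ZW]
  unfold kf cK
  push_cast
  ring

theorem bf_kM (e u : ℤ × (ℤ × (Fin 20 → ℤ))) :
    bf (gramM G) (kM e) (kM u) = kf G e u := by
  unfold kM
  rw [bf_mk]
  unfold kf
  ring

theorem Hd_base {s t : ℝ} (hs : 0 < s) (ht : 0 < t) :
    (((s : ℂ) * Complex.I, ((t : ℂ) * Complex.I, 0)) : TP) ∈ Hd G := by
  rw [mem_Hd]
  have : imv (((s : ℂ) * Complex.I, ((t : ℂ) * Complex.I, 0)) : TP).2.2 = 0 := by
    funext i; simp [imv]
  rw [this, bf_zero_left]
  simp only [Complex.mul_im, Complex.ofReal_re, Complex.I_im, mul_one, Complex.ofReal_im,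
    Complex.I_re, mul_zero, add_zero]
  exact ⟨ht, by positivity⟩

/-- **Walls**, strong form. -/
theorem wall_strong (h : PosSymm G) (he : ∀ i, Even (G i i)) {v : Fin 4 ⊕ Fin 20 → ℤ}
    (hv : IsReflective (gramM G) v) {W : TP}
    (hW : bf (gramM G) (fun i => (v i : ℂ)) (ZW G W) = 0) :
    ∃ (a b m n : ℤ) (μ : Fin 20 → ℤ) (d : ℕ), WallData G a b m n μ ∧
      nu G a b m n μ * d = 1 ∧ WEq G a b m n μ W := by
  have hMs := gramM_symm h.symm
  set w : Fin 4 ⊕ Fin 20 → ℤ := act (gramM G) v with hw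
  have hneg : bf (gramM G) v v < 0 := hv.2.1
  have hvv : bf (gramM G) v v = ∑ i, v i * w i := bf_eq_act _ _ _
  set d : ℤ := Finset.univ.gcd w with hd
  have hdn : normalize d = d := Finset.normalize_gcd
  have hd0 : d ≠ 0 := by
    intro h0
    rw [hd, Finset.gcd_eq_zero_iff] at h0
    rw [hvv, Finset.sum_eq_zero (fun i _ => by rw [h0 i (Finset.mem_univ i)]; ring)] at hneg
    exact lt_irrefl _ hneg
  have hdpos : 0 < d := by
    have : 0 ≤ d := Int.nonneg_of_normalize_eq_self hdn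
    omega
  have hdw : ∀ i, d ∣ w i := fun i => Finset.gcd_dvd (Finset.mem_univ i)
  choose w0 hw0 using hdw
  -- the wall equation
  have hS : ∑ i, (w0 i : ℂ) * ZW G W i = 0 := by
    have h1 : bf (gramM G) (fun i => (v i : ℂ)) (ZW G W) = ∑ i, (w i : ℂ) * ZW G W i := by
      rw [bf_comm hMs, bf_eq_act]
      refine Finset.sum_congr rfl fun i _ => ?_
      rw [act_cast]
      ring
    rw [h1] at hW
    have h2 : ∑ i, (w i : ℂ) * ZW G W i = (d : ℂ) * ∑ i, (w0 i : ℂ) * ZW G W i := by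
      rw [Finset.mul_sum]
      refine Finset.sum_congr rfl fun i _ => ?_
      rw [hw0 i]
      push_cast
      ring
    rw [h2] at hW
    rcases mul_eq_zero.1 hW with h3 | h3
    · exact absurd (by exact_mod_cast h3) hd0
    · exact h3
  -- s = -(v,v) = d * t, t | 2
  have hdvd1 : d ∣ bf (gramM G) v v := by
    rw [hvv]
    exact Finset.dvd_sum fun i _ => (Finset.gcd_dvd (Finset.mem_univ i)).mul_left _
  have hdvd2 : bf (gramM G) v v ∣ 2 * d := by
    have h1 : ∀ i, bf (gramM G) v v ∣ 2 * w i := by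
      intro i
      have := reflective_dvd hv (Pi.single i 1)
      have h3 : bf (gramM G) (Pi.single i 1) v = w i := by
        rw [bf_eq_act]
        simp [Pi.single_apply, hw]
      rwa [h3] at this
    have h2 : bf (gramM G) v v ∣ Finset.univ.gcd fun i => 2 * w i :=
      Finset.dvd_gcd fun i _ => h1 i
    rw [Finset.gcd_mul_left, show normalize (2 : ℤ) = 2 from rfl] at h2
    exact h2
  obtain ⟨t, ht⟩ := hdvd1
  have ht2 : -t ∣ 2 := by
    rw [ht] at hdvd2
    obtain ⟨c, hc⟩ := hdvd2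
    refine ⟨-c, ?_⟩
    have : d * 2 = d * (t * c) := by linarith
    have := mul_left_cancel₀ hd0 this
    linarith
  have htneg : 0 < -t := by
    rw [ht] at hneg
    nlinarith
  have ht12 : -t = 1 ∨ -t = 2 := by
    have := Int.le_of_dvd (by norm_num) ht2
    omega
  -- coordinates of w
  have cw : w = mk (v (.inl 1)) (v (.inl 0)) (v (.inl 3)) (v (.inl 2))
      (fun i => -(G.mulVec (fun j => v (.inr j))) i) := by
    funext i
    rcases i with i | i
    · match i with
      | 0 => simp [hw, act, mk, gramM, gramUU, Fintype.sum_sum_type, Fin.sum_univ_four]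
      | 1 => simp [hw, act, mk, gramM, gramUU, Fintype.sum_sum_type, Fin.sum_univ_four]
      | 2 => simp [hw, act, mk, gramM, gramUU, Fintype.sum_sum_type, Fin.sum_univ_four]
      | 3 => simp [hw, act, mk, gramM, gramUU, Fintype.sum_sum_type, Fin.sum_univ_four]
    · simp [hw, act, mk, gramM, Fintype.sum_sum_type, Matrix.mulVec, dotProduct]
  have c0 : d * w0 (.inl 0) = v (.inl 1) := by rw [← hw0, cw]; rfl
  have c1 : d * w0 (.inl 1) = v (.inl 0) := by rw [← hw0, cw]; rfl
  have c2 : d * w0 (.inl 2) = v (.inl 3) := by rw [← hw0, cw]; rfl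
  have c3 : d * w0 (.inl 3) = v (.inl 2) := by rw [← hw0, cw]; rfl
  have cz : ∀ i, d * w0 (.inr i) = G.mulVec (fun j => -v (.inr j)) i := by
    intro i
    rw [← hw0, cw]
    simp [mk, Matrix.mulVec, dotProduct]
  have hbd := bd_of_smul h cz
  have hvv2 : bf (gramM G) v v = 2 * (v (.inl 0) * v (.inl 1)) + 2 * (v (.inl 2) * v (.inl 3)) -
      bf G (fun j => -v (.inr j)) (fun j => -v (.inr j)) := by
    conv_lhs => rw [mk_eta v]
    rw [bf_mk]
    have : bf G (fun j => -v (.inr j)) (fun j => -v (.inr j)) =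
        bf G (fun j => v (.inr j)) (fun j => v (.inr j)) := by
      have : (fun j => -v (.inr j)) = -(fun j : Fin 20 => v (.inr j)) := rfl
      rw [this, bf_neg_left, bf_neg_right, neg_neg]
    rw [this]
    ring
  have hdR : (d : ℝ) ≠ 0 := by exact_mod_cast hd0
  have hν : (bd G (fun i => w0 (.inr i)) (fun i => w0 (.inr i)) / 2 -
      (w0 (.inl 1) : ℝ) * (w0 (.inl 0) : ℝ) - (w0 (.inl 2) : ℝ) * (w0 (.inl 3) : ℝ)) * (2 * d) =
      ((-t : ℤ) : ℝ) := by
    have e0 : ((d * w0 (.inl 0) : ℤ) : ℝ) = v (.inl 1) := by rw [c0]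
    have e1 : ((d * w0 (.inl 1) : ℤ) : ℝ) = v (.inl 0) := by rw [c1]
    have e2 : ((d * w0 (.inl 2) : ℤ) : ℝ) = v (.inl 3) := by rw [c2]
    have e3 : ((d * w0 (.inl 3) : ℤ) : ℝ) = v (.inl 2) := by rw [c3]
    push_cast at e0 e1 e2 e3
    have e4 : ((bf (gramM G) v v : ℤ) : ℝ) = d * t := by rw [ht]; push_cast; ring
    rw [hvv2] at e4
    push_cast at e4
    rw [← hbd, ← e0, ← e1, ← e2, ← e3] at e4
    push_cast
    have : (d : ℝ) * ((bd G (fun i => w0 (.inr i)) (fun i => w0 (.inr i)) / 2 -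
      (w0 (.inl 1) : ℝ) * (w0 (.inl 0) : ℝ) - (w0 (.inl 2) : ℝ) * (w0 (.inl 3) : ℝ)) * (2 * d)) =
      d * (-t) := by linarith
    exact mul_left_cancel₀ hdR this
  obtain ⟨D, hD⟩ : ∃ D : ℕ, nu G (w0 (.inl 1)) (w0 (.inl 0)) (w0 (.inl 2)) (w0 (.inl 3))
      (fun i => w0 (.inr i)) * D = 1 := by
    obtain ⟨d', hd'⟩ := Int.eq_ofNat_of_zero_le hdpos.le
    have hd'' : (d : ℝ) = (d' : ℝ) := by rw [hd']; push_cast; rfl
    rcases ht12 with h1 | h1
    · refine ⟨2 * d', ?_⟩
      rw [h1] at hν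
      unfold nu
      push_cast at hν ⊢
      rw [hd''] at hν
      exact hν
    · refine ⟨d', ?_⟩
      rw [h1] at hν
      unfold nu
      push_cast at hν ⊢
      rw [hd''] at hν
      linarith
  refine ⟨w0 (.inl 1), w0 (.inl 0), w0 (.inl 2), w0 (.inl 3), fun i => w0 (.inr i), D, ?_, hD, ?_⟩
  · unfold WallData
    set ν := bd G (fun i => w0 (.inr i)) (fun i => w0 (.inr i)) / 2 -
      (w0 (.inl 1) : ℝ) * (w0 (.inl 0) : ℝ) - (w0 (.inl 2) : ℝ) * (w0 (.inl 3) : ℝ) with hνdef
    rcases eq_or_lt_of_le (show 1 ≤ d by omega) with hd1 | hd1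
    · left
      -- d = 1, the norm is even so t = -2
      have hev := even_bf hMs (gramM_even he) v
      obtain ⟨N, hN⟩ := hev
      have : -t = 2 := by
        rw [← hd1] at ht
        rcases ht12 with h1 | h1
        · omega
        · exact h1
      refine ⟨?_, fun j => -v (.inr j), ?_⟩
      · rw [this, ← hd1] at hν
        push_cast at hν
        linarith
      · funext i
        have := cz i
        rw [← hd1, one_mul] at this
        exact this
    · right
      have hd2 : (2 : ℝ) ≤ d := by exact_mod_cast (show (2 : ℤ) ≤ d by omega)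
      have ht1 : (1 : ℝ) ≤ ((-t : ℤ) : ℝ) := by exact_mod_cast (show (1 : ℤ) ≤ -t by omega)
      have ht2' : ((-t : ℤ) : ℝ) ≤ 2 := by exact_mod_cast (show -t ≤ (2 : ℤ) by omega)
      have hνpos : 0 < ν := by
        by_contra hc
        push Not at hc
        nlinarith
      exact ⟨hνpos, by nlinarith⟩
  · have h1 : ∑ i, (w0 i : ℂ) * ZW G W i = w0 (.inl 0) * 1 +
        w0 (.inl 1) * (bf G W.2.2 W.2.2 / 2 - W.1 * W.2.1) + w0 (.inl 2) * W.1 +
        w0 (.inl 3) * W.2.1 + ∑ i, (w0 (.inr i) : ℂ) * W.2.2 i := by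
      rw [Fintype.sum_sum_type, Fin.sum_univ_four]
      rfl
    rw [h1] at hS
    unfold WEq dt
    linear_combination hS

theorem isPreconnected_cone (G : Matrix (Fin 20) (Fin 20) ℤ) : IsPreconnected (coneM G) := by
  rw [coneM_eq]
  exact isPreconnected_connectedComponentIn

end JA

open JA in
/-- **Job A.** -/
theorem jobA : JobA := by
  intro G hP he hR
  obtain ⟨k, χ, F₀, hF, hnc, hz⟩ := hR
  obtain ⟨N, hN0, hχ⟩ := hF.finite_order
  have hMs := gramM_symm hP.symm
  -- the law S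
  have lawS : ∀ W ∈ Hd G, F₀ (ZW G (W.1 - bf G W.2.2 W.2.2 / (2 * W.2.1),
      (-1 / W.2.1, fun i => W.2.2 i / W.2.1))) ^ N = W.2.1 ^ ((N : ℤ) * k) * F₀ (ZW G W) ^ N := by
    intro W hW
    have hτ : W.2.1 ≠ 0 := by
      intro h0
      have h1 : 0 < W.2.1.im := hW.1
      rw [h0] at h1
      simp at h1
    have hact : act (blkG PS_mul PS_mul').val (ZW G W) =
        mk W.2.1 W.1 (-(bf G W.2.2 W.2.2 / 2 - W.1 * W.2.1)) (-1) W.2.2 := by
      show act (blk PS) (ZW G W) = _
      rw [ZW, act_PS]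
    have hq := disc_quadric hP PS_mem hW
    rw [hact] at hq
    exact trans_law hP hF hχ PS_mem
      (W' := (W.1 - bf G W.2.2 W.2.2 / (2 * W.2.1), (-1 / W.2.1, fun i => W.2.2 i / W.2.1))) hW
      (j := W.2.1) hτ (by
        rw [hact, eq_smul_ZW hτ (quadric_eq hq)]
        funext i
        congr 3
        field_simp
        ring)
  refine ⟨(N : ℤ) * k, fun W => F₀ (ZW G W) ^ N, ⟨?_, ?_, ?_, lawS, ?_, ?_, ?_⟩, ?_⟩
  · -- holomorphy
    exact (hF.holo.comp diff_ZW.differentiableOn fun W hW => ZW_mem_cone hP hW).pow N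
  · -- translations
    intro W hW a b v
    obtain ⟨M, hM⟩ := even_bf hP.symm he v
    have hee : bf (gramM G) (mk 0 1 0 0 0 : Fin 4 ⊕ Fin 20 → ℤ) (mk 0 1 0 0 0) = 0 := by
      rw [bf_mk, bf_zero_left]; ring
    have hea : bf (gramM G) (mk 0 1 0 0 0 : Fin 4 ⊕ Fin 20 → ℤ) (mk 0 0 a b v) = 0 := by
      rw [bf_mk, bf_zero_left]; ring
    have haa : bf (gramM G) (mk 0 0 a b v : Fin 4 ⊕ Fin 20 → ℤ)
        (mk 0 0 a b v) = 2 * (a * b - M) := by
      rw [bf_mk, hM]; ring
    have hg := tvG_mem hMs (base_mem G) hee hea haa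
    rw [← coneM_eq] at hg
    have hact : act (tvG hMs hee hea haa).val (ZW G W) =
        mk 1 (bf G (fun i => W.2.2 i + v i) (fun i => W.2.2 i + v i) / 2 -
          (W.1 + a) * (W.2.1 + b)) (W.1 + a) (W.2.1 + b) (fun i => W.2.2 i + v i) := by
      show act (tvM _ _ _ _) (ZW G W) = _
      rw [act_tvM hMs, cast_mk, cast_mk]
      have c0 : (fun i => (((0 : Fin 20 → ℤ) i : ℤ) : ℂ)) = 0 := by funext i; simp
      rw [c0]
      have hbz : bf G (0 : Fin 20 → ℂ) W.2.2 = 0 := bf_zero_left _ _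
      have e1 : bf (gramM G) (mk ((0 : ℤ) : ℂ) ((1 : ℤ) : ℂ) ((0 : ℤ) : ℂ) ((0 : ℤ) : ℂ) 0)
          (ZW G W) = 1 := by
        rw [bf_ZW, hbz]; push_cast; ring
      have e2 : bf (gramM G) (mk ((0 : ℤ) : ℂ) ((0 : ℤ) : ℂ) (a : ℂ) (b : ℂ)
          (fun i => (v i : ℂ))) (ZW G W) =
          a * W.2.1 + b * W.1 - bf G (fun i => (v i : ℂ)) W.2.2 := by
        rw [bf_ZW]; push_cast; ring
      have e3 : bf G (fun i => W.2.2 i + (v i : ℂ)) (fun i => W.2.2 i + v i) =
          bf G W.2.2 W.2.2 + 2 * bf G (fun i => (v i : ℂ)) W.2.2 + 2 * M := by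
        have : (fun i => W.2.2 i + (v i : ℂ)) = W.2.2 + fun i => (v i : ℂ) := rfl
        rw [this, bf_add_left, bf_add_right, bf_add_right, bf_intCast, hM,
          bf_comm hP.symm W.2.2 (fun i => (v i : ℂ))]
        push_cast
        ring
      funext i
      simp only [tv, Pi.add_apply, Pi.sub_apply, Pi.smul_apply, smul_eq_mul, e1, e2, e3]
      rcases i with i | i
      · match i with
        | 0 => simp [mk, ZW]
        | 1 => simp [mk, ZW]; ring
        | 2 => simp [mk, ZW]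
        | 3 => simp [mk, ZW]
      · simp [mk, ZW]
    have := trans_law hP hF hχ hg (W' := (W.1 + a, (W.2.1 + b, fun i => W.2.2 i + v i))) hW
      (j := 1) one_ne_zero (by rw [hact]; funext i; rw [one_mul]; rfl)
    simpa using this
  · -- transvections
    intro W hW e u hee heu
    obtain ⟨M, hM⟩ : ∃ M : ℤ, kf G u u = 2 * M := by
      obtain ⟨M, hM⟩ := even_bf hP.symm he u.2.2
      exact ⟨u.1 * u.2.1 - M, by unfold kf; rw [hM]; ring⟩
    have hee' : bf (gramM G) (kM e) (kM e) = 0 := by rw [bf_kM]; exact hee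
    have hea' : bf (gramM G) (kM e) (kM u) = 0 := by rw [bf_kM]; exact heu
    have haa' : bf (gramM G) (kM u) (kM u) = 2 * M := by rw [bf_kM]; exact hM
    have hg := tvG_mem hMs (base_mem G) hee' hea' haa'
    rw [← coneM_eq] at hg
    set W' : TP := W + kf G (cK e) W • cK u -
      (kf G (cK u) W + ((kf G u u : ℤ) : ℂ) / 2 * kf G (cK e) W) • cK e with hW'
    obtain ⟨b', hact⟩ : ∃ b', act (tvG hMs hee' hea' haa').val (ZW G W) =
        mk 1 b' W'.1 W'.2.1 W'.2.2 := by
      refine ⟨act (tvM (gramM G) (kM e) (kM u) M) (ZW G W) (.inl 1), ?_⟩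
      show act (tvM _ _ _ _) (ZW G W) = _
      rw [act_tvM hMs]
      funext i
      have hN2 : ((kf G u u : ℤ) : ℂ) / 2 = (M : ℂ) := by rw [hM]; push_cast; ring
      rcases i with i | i
      · match i with
        | 0 =>
          simp only [tv, Pi.add_apply, Pi.sub_apply, Pi.smul_apply, smul_eq_mul, bf_kM_ZW]
          simp [mk, ZW, kM]
        | 1 => rfl
        | 2 =>
          simp only [tv, Pi.add_apply, Pi.sub_apply, Pi.smul_apply, smul_eq_mul, bf_kM_ZW]
          rw [hW', hN2]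
          simp [mk, ZW, cK, kM]
          ring
        | 3 =>
          simp only [tv, Pi.add_apply, Pi.sub_apply, Pi.smul_apply, smul_eq_mul, bf_kM_ZW]
          rw [hW', hN2]
          simp [mk, ZW, cK, kM]
          ring
      · simp only [tv, Pi.add_apply, Pi.sub_apply, Pi.smul_apply, smul_eq_mul, bf_kM_ZW]
        rw [hW', hN2]
        simp [mk, ZW, cK, kM]
        ring
    have hq := disc_quadric hP hg hW
    rw [hact] at hq
    have := trans_law hP hF hχ hg (W' := W') hW (j := 1) one_ne_zero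
      (by rw [hact, eq_ZW G hq]; funext i; rw [one_mul])
    simpa using this
  · -- swap
    intro W hW
    have hact : act (blkG PW_mul PW_mul).val (ZW G W) =
        mk 1 (bf G W.2.2 W.2.2 / 2 - W.1 * W.2.1) W.2.1 W.1 W.2.2 := by
      show act (blk PW) (ZW G W) = _
      rw [ZW, act_PW]
    have := trans_law hP hF hχ PW_mem (W' := (W.2.1, (W.1, W.2.2))) hW (j := 1) one_ne_zero (by
        rw [hact]
        funext i
        rw [one_mul, ZW]
        simp only
        congr 2
        ring)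
    simpa using this
  · -- zeros
    intro W hW hFW
    have h0 : F₀ (ZW G W) = 0 := (pow_eq_zero_iff hN0.ne').1 hFW
    obtain ⟨v, hv, hv0⟩ := hz _ (ZW_mem_cone hP hW) h0
    exact wall_of_reflective hP he hv hv0
  · -- nonconstant
    rintro ⟨c, hc⟩
    have hcone : ∀ Z ∈ coneM G, F₀ Z ^ N = (Z (.inl 0)) ^ (-((N : ℤ) * k)) * c := by
      intro Z hZ
      obtain ⟨h1, W, hW, h2⟩ := cone_param hP hZ
      have h3 := hF.homog _ (ZW_mem_cone hP hW) (Z (.inl 0)) h1
      have h4 : F₀ Z = (Z (.inl 0)) ^ (-k) * F₀ (ZW G W) := by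
        rw [← h3, ← h2]
      have h5 : F₀ (ZW G W) ^ N = c := hc W hW
      rw [h4, mul_pow, h5]
      congr 1
      rw [← mul_neg, mul_comm, zpow_mul]
      norm_cast
    have hc0 : c ≠ 0 := by
      intro h0
      apply hnc
      refine ⟨0, fun Z hZ => ?_⟩
      have := hcone Z hZ
      rw [h0, mul_zero] at this
      exact (pow_eq_zero_iff hN0.ne').1 this
    have hk : k = 0 := by
      have hW1 : (((1 : ℝ) : ℂ) * Complex.I, ((((2 : ℝ) : ℂ) * Complex.I), (0 : Fin 20 → ℂ))) ∈ Hd G :=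
        Hd_base one_pos two_pos
      have hW2 : (((1 : ℝ) : ℂ) * Complex.I, ((((1 / 2 : ℝ) : ℂ) * Complex.I), (0 : Fin 20 → ℂ))) ∈
          Hd G := Hd_base one_pos (by norm_num)
      have h1 := lawS _ hW1
      have e1 : ((((1 : ℝ) : ℂ) * Complex.I - bf G (0 : Fin 20 → ℂ) (0 : Fin 20 → ℂ) /
          (2 * (((2 : ℝ) : ℂ) * Complex.I)), (-1 / (((2 : ℝ) : ℂ) * Complex.I),
          fun i => (0 : Fin 20 → ℂ) i / (((2 : ℝ) : ℂ) * Complex.I))) : TP) =
          (((1 : ℝ) : ℂ) * Complex.I, ((((1 / 2 : ℝ) : ℂ) * Complex.I), (0 : Fin 20 → ℂ))) := by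
        rw [bf_zero_left]
        refine Prod.ext ?_ (Prod.ext ?_ ?_)
        · simp
        · simp only
          push_cast
          field_simp
          rw [Complex.I_sq]
        · funext i
          simp
      simp only at h1
      rw [e1] at h1
      have h2 : F₀ (ZW G (((1 : ℝ) : ℂ) * Complex.I, ((((1 / 2 : ℝ) : ℂ) * Complex.I),
        (0 : Fin 20 → ℂ)))) ^ N = c := hc _ hW2
      have h3 : F₀ (ZW G (((1 : ℝ) : ℂ) * Complex.I, ((((2 : ℝ) : ℂ) * Complex.I),
        (0 : Fin 20 → ℂ)))) ^ N = c := hc _ hW1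
      rw [h2, h3] at h1
      have h4 : (((2 : ℝ) : ℂ) * Complex.I) ^ ((N : ℤ) * k) = 1 := by
        have : (1 : ℂ) * c = (((2 : ℝ) : ℂ) * Complex.I) ^ ((N : ℤ) * k) * c := by
          rw [one_mul]; exact h1
        exact (mul_right_cancel₀ hc0 this).symm
      have h5 := congrArg norm h4
      rw [norm_zpow, norm_mul, Complex.norm_I, mul_one, norm_one, Complex.norm_real] at h5
      have h6 : ‖(2 : ℝ)‖ = 2 := by norm_num
      rw [h6] at h5
      have h7 : ((N : ℤ) * k) = 0 := by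
        have := (zpow_eq_one_iff_right₀ (show (0 : ℝ) ≤ 2 by norm_num) (by norm_num)).1 h5
        exact this
      rcases mul_eq_zero.1 h7 with h8 | h8
      · exact absurd (by exact_mod_cast h8) hN0.ne'
      · exact h8
    subst hk
    have hroots : ({z : ℂ | z ^ N = c} : Set ℂ).Finite := by
      have : ({z : ℂ | z ^ N = c} : Set ℂ) ⊆
          ((Polynomial.X ^ N - Polynomial.C c : Polynomial ℂ).roots.toFinset : Set ℂ) := by
        intro z hz
        have hne := Polynomial.X_pow_sub_C_ne_zero hN0 c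
        simp only [Finset.mem_coe, Multiset.mem_toFinset, Polynomial.mem_roots hne,
          Polynomial.IsRoot.def, Polynomial.eval_sub, Polynomial.eval_pow, Polynomial.eval_X,
          Polynomial.eval_C]
        rw [hz, sub_self]
      exact (Finset.finite_toSet _).subset this
    have hmaps : MapsTo F₀ (coneM G) {z : ℂ | z ^ N = c} := by
      intro Z hZ
      have := hcone Z hZ
      simpa using this
    have hbase : ZW G W0 ∈ coneM G := ZW_mem_cone hP W0_mem
    obtain ⟨y, _, hy⟩ := (isPreconnected_cone G).eqOn_const_of_mapsTo hroots.isDiscrete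
      hF.holo.continuousOn hmaps
      ⟨F₀ (ZW G W0), hmaps hbase⟩
    exact hnc ⟨y, fun Z hZ => hy hZ⟩
  · -- strong zeros
    intro W hW hFW
    have h0 : F₀ (ZW G W) = 0 := (pow_eq_zero_iff hN0.ne').1 hFW
    obtain ⟨v, hv, hv0⟩ := hz _ (ZW_mem_cone hP hW) h0
    exact wall_strong hP he hv hv0

end

end Pool.Agent.R396.F
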