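import Pool.Agent.R396.F.Serre

set_option autoImplicit false

/-!
# JobODE
-/

open Complex Set Topology Metric

namespace Pool.Agent.R396.F

open Pool.Agent.Y813.RL

noncomputable section

/-- short name for the index type -/
abbrev Z20 : Type := Fin 20 → ℤ

lemma bd_add_mulVec' {A : Matrix (Fin 20) (Fin 20) ℤ} (hA : 0 < A.det) (μ ρ v : Z20) :
    bd A μ (ρ + A.mulVec v) = bd A μ ρ + ((∑ i, μ i * v i : ℤ) : ℝ) := by
  have hdet : (A.map (Int.cast : ℤ → ℝ)).det = ((A.det : ℤ) : ℝ) := by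
    have := (Int.castRingHom ℝ).map_det A
    simpa using this.symm
  have hunit : IsUnit (A.map (Int.cast : ℤ → ℝ)).det := by
    rw [hdet, isUnit_iff_ne_zero]
    exact_mod_cast hA.ne'
  have h1 : (fun j => (((ρ + A.mulVec v) j : ℤ) : ℝ)) =
      (fun j => (ρ j : ℝ)) + (A.map (Int.cast : ℤ → ℝ)).mulVec (fun j => (v j : ℝ)) := by
    funext j
    simp [Matrix.mulVec, dotProduct]
  unfold bd
  rw [h1, Matrix.mulVec_add, Matrix.mulVec_mulVec, Matrix.nonsing_inv_mul _ hunit,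
    Matrix.one_mulVec]
  push_cast
  rw [← Finset.sum_add_distrib]
  refine Finset.sum_congr rfl fun i _ => ?_
  rw [Pi.add_apply]
  ring

lemma ee_bd_add {A : Matrix (Fin 20) (Fin 20) ℤ} (hA : 0 < A.det) (μ ρ v : Z20) :
    ee (-(bd A μ (ρ + A.mulVec v) : ℂ)) = ee (-(bd A μ ρ : ℂ)) := by
  rw [bd_add_mulVec' hA]
  push_cast
  rw [neg_add, ee_addq]
  have : ee (-(∑ i, (μ i : ℂ) * (v i : ℂ))) = 1 := by
    rw [← ee_intq (-∑ i, μ i * v i)]
    congr 1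
    push_cast
    rfl
  rw [this, mul_one]

lemma bd_zero_left (A : Matrix (Fin 20) (Fin 20) ℤ) (ρ : Z20) : bd A 0 ρ = 0 := by
  unfold bd
  simp

/-- Sums of class functions do not depend on the system of representatives. -/
lemma sum_reps {M : Type*} [AddCommMonoid M] {A : Matrix (Fin 20) (Fin 20) ℤ}
    {R R' : Finset Z20} (hR : IsReps A R) (hR' : IsReps A R') (h : Z20 → M)
    (hh : ∀ μ v, h (μ + A.mulVec v) = h μ) : ∑ ρ ∈ R, h ρ = ∑ ρ ∈ R', h ρ := by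
  have key : ∀ {S T : Finset Z20} (hS : IsReps A S) (hT : IsReps A T) (ρ : Z20), ρ ∈ S →
      (hS (hT ρ).choose).choose = ρ := by
    intro S T hS hT ρ hρ
    obtain ⟨v, hv⟩ := (hT ρ).choose_spec.1.2
    have h2 := (hS (hT ρ).choose).choose_spec.2 ρ ⟨hρ, -v, ?_⟩
    · exact h2.symm
    · rw [Matrix.mulVec_neg]
      rw [eq_add_neg_iff_add_eq]
      exact hv.symm
  refine Finset.sum_bij' (fun ρ _ => (hR' ρ).choose) (fun ρ _ => (hR ρ).choose) ?_ ?_ ?_ ?_ ?_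
  · intro ρ _
    exact (hR' ρ).choose_spec.1.1
  · intro ρ _
    exact (hR ρ).choose_spec.1.1
  · intro ρ hρ
    exact key hR hR' ρ hρ
  · intro ρ hρ
    exact key hR' hR ρ hρ
  · intro ρ hρ
    obtain ⟨v, hv⟩ := (hR' ρ).choose_spec.1.2
    have := hh (hR' ρ).choose v
    rw [← hv] at this
    exact this

/-- change of the system of representatives -/
lemma transfer {A : Matrix (Fin 20) (Fin 20) ℤ} (hA : 0 < A.det) {R R' : Finset Z20}
    (hR : IsReps A R) (hR' : IsReps A R') {f : Z20 → ℂ → ℂ} (hf : VV10 A R f) : VV10 A R' f := by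
  refine ⟨hf.holo, hf.inv, hf.T, fun μ τ hτ => ?_⟩
  rw [hf.S μ τ hτ]
  congr 1
  refine sum_reps hR hR' _ fun ρ v => ?_
  rw [ee_bd_add hA, hf.inv ρ v _ (inv_UH hτ)]

/-- The vanishing lemma applied to a vector valued form. -/
lemma vv_app (hVV : JobVV) {A : Matrix (Fin 20) (Fin 20) ℤ} (hA : 0 < A.det) {R : Finset Z20}
    (hU : ∀ a : Z20 → ℂ,
      ∑ μ ∈ R, ‖∑ ρ ∈ R, ee (-(bd A μ ρ : ℂ)) * a ρ‖ ^ 2 = (A.det : ℝ) * ∑ ρ ∈ R, ‖a ρ‖ ^ 2)
    (w : ℕ) (κ : ℝ) (hκ : -(w : ℝ) / 12 < κ) (F : Z20 → ℂ → ℂ)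
    (hd : ∀ μ ∈ R, DifferentiableOn ℂ (F μ) UH)
    (hT : ∀ μ ∈ R, ∀ τ ∈ UH, ‖F μ (τ + 1)‖ = ‖F μ τ‖)
    (hS : ∀ μ ∈ R, ∀ τ ∈ UH, F μ τ = (-1 / (Real.sqrt (A.det : ℝ) : ℂ)) * τ ^ w *
      ∑ ρ ∈ R, ee (-(bd A μ ρ : ℂ)) * F ρ (-1 / τ))
    (hb : ∃ C : ℝ, ∀ τ : ℂ, 1 / 2 ≤ τ.im → ∀ μ ∈ R,
      ‖F μ τ‖ ≤ C * Real.exp (-(2 * Real.pi * κ * τ.im))) :
    ∀ μ ∈ R, ∀ τ ∈ UH, F μ τ = 0 := by
  have hAr : (0 : ℝ) < (A.det : ℝ) := by exact_mod_cast hA
  have h := hVV {x // x ∈ R} w κ (fun τ i => F i.1 τ) hκ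
    (differentiableOn_pi.mpr fun i => hd i.1 i.2) ?_ ?_ ?_
  · intro μ hμ τ hτ
    exact h τ hτ ⟨μ, hμ⟩
  · intro τ hτ
    exact Finset.sum_congr rfl fun i _ => by rw [hT i.1 i.2 τ hτ]
  · intro τ hτ
    rw [Finset.sum_coe_sort R (fun μ => ‖F μ (-1 / τ)‖ ^ 2),
      Finset.sum_coe_sort R (fun μ => ‖F μ τ‖ ^ 2)]
    have h1 : ∀ μ ∈ R, ‖F μ τ‖ ^ 2 = (1 / (A.det : ℝ)) * ‖τ‖ ^ (2 * w) *
        ‖∑ ρ ∈ R, ee (-(bd A μ ρ : ℂ)) * F ρ (-1 / τ)‖ ^ 2 := by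
      intro μ hμ
      rw [hS μ hμ τ hτ, norm_mul, norm_mul, mul_pow, mul_pow, norm_pow, norm_div, norm_neg,
        norm_one, Complex.norm_real, Real.norm_of_nonneg (Real.sqrt_nonneg _), div_pow,
        Real.sq_sqrt hAr.le, one_pow, ← pow_mul, mul_comm w 2]
    rw [Finset.sum_congr rfl h1, ← Finset.mul_sum, hU (fun ρ => F ρ (-1 / τ))]
    field_simp
  · obtain ⟨C, hC⟩ := hb
    exact ⟨C, fun τ hτ i => hC τ hτ i.1 i.2⟩

/-- uniform constants for finitely many functions -/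
lemma unif (F : Z20 → ℂ → ℂ) (κ₀ : ℝ) (R : Finset Z20)
    (h : ∀ μ ∈ R, ∃ κ > κ₀, ∃ C : ℝ, ∀ τ : ℂ, 1 / 2 ≤ τ.im →
      ‖F μ τ‖ ≤ C * Real.exp (-(2 * Real.pi * κ * τ.im))) :
    ∃ κ > κ₀, ∃ C : ℝ, ∀ τ : ℂ, 1 / 2 ≤ τ.im → ∀ μ ∈ R,
      ‖F μ τ‖ ≤ C * Real.exp (-(2 * Real.pi * κ * τ.im)) := by
  classical
  induction R using Finset.induction_on with
  | empty => exact ⟨κ₀ + 1, by linarith, 0, fun τ _ μ hμ => absurd hμ (Finset.notMem_empty _)⟩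
  | insert μ₀ R _ ih =>
    obtain ⟨κ₁, hκ₁, C₁, h₁⟩ := ih fun μ hμ => h μ (Finset.mem_insert_of_mem hμ)
    obtain ⟨κ₂, hκ₂, C₂, h₂⟩ := h μ₀ (Finset.mem_insert_self _ _)
    refine ⟨min κ₁ κ₂, lt_min hκ₁ hκ₂, |C₁| + |C₂|, fun τ hτ μ hμ => ?_⟩
    have hpi := Real.pi_pos
    have key : ∀ (C κ : ℝ), |C| ≤ |C₁| + |C₂| → min κ₁ κ₂ ≤ κ →
        C * Real.exp (-(2 * Real.pi * κ * τ.im)) ≤
          (|C₁| + |C₂|) * Real.exp (-(2 * Real.pi * min κ₁ κ₂ * τ.im)) := by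
      intro C κ hC hκ
      have h3 : Real.exp (-(2 * Real.pi * κ * τ.im)) ≤
          Real.exp (-(2 * Real.pi * min κ₁ κ₂ * τ.im)) := by
        apply Real.exp_le_exp.mpr
        have h4 : 2 * Real.pi * min κ₁ κ₂ * τ.im ≤ 2 * Real.pi * κ * τ.im := by
          apply mul_le_mul_of_nonneg_right _ (by linarith)
          exact mul_le_mul_of_nonneg_left hκ (by positivity)
        linarith
      calc C * Real.exp (-(2 * Real.pi * κ * τ.im))
          ≤ |C| * Real.exp (-(2 * Real.pi * κ * τ.im)) :=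
            mul_le_mul_of_nonneg_right (le_abs_self C) (Real.exp_pos _).le
        _ ≤ _ := mul_le_mul hC h3 (Real.exp_pos _).le (by positivity)
    rcases Finset.mem_insert.mp hμ with rfl | hμ'
    · exact (h₂ τ hτ).trans (key C₂ κ₂ (by linarith [abs_nonneg C₁]) (min_le_right _ _))
    · exact (h₁ τ hτ μ hμ').trans (key C₁ κ₁ (by linarith [abs_nonneg C₂]) (min_le_left _ _))

/-- The relation `(ST)^3 = 1` kills scalar forms of weight `-10` with the sign `-1`. -/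
lemma st_cube (φ : ℂ → ℂ) (hT : ∀ τ ∈ UH, φ (τ + 1) = φ τ)
    (hS : ∀ τ ∈ UH, φ τ = -(τ ^ 10) * φ (-1 / τ)) : ∀ τ ∈ UH, φ τ = 0 := by
  intro τ hτ
  have h0 := ne_zero_UH hτ
  have h1 : τ + 1 ≠ 0 := ne_zero_UH (add_UH hτ)
  have hσ : -1 / (τ + 1) + 1 ∈ UH := add_UH (inv_UH (add_UH hτ))
  have hσ0 := ne_zero_UH hσ
  have e1 := hT τ hτ
  have e2 := hS _ (add_UH hτ)
  have e3 := hT _ (inv_UH (add_UH hτ))
  have e4 := hS _ hσ
  have e5 := hT _ (inv_UH hσ)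
  have e6 : -1 / (-1 / (τ + 1) + 1) + 1 = -1 / τ := by
    have : -1 / (τ + 1) + 1 = τ / (τ + 1) := by field_simp; ring
    rw [this]
    field_simp
    ring
  rw [e6] at e5
  have e7 := hS τ hτ
  have e8 : (-1 / (τ + 1) + 1) * (τ + 1) = τ := by field_simp; ring
  have e9 : φ τ = τ ^ 10 * φ (-1 / τ) := by
    rw [← e1, e2, ← e3, e4, ← e5]
    have : τ ^ 10 = ((-1 / (τ + 1) + 1) * (τ + 1)) ^ 10 := by rw [e8]
    rw [this]
    ring
  have : φ τ = -φ τ := by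
    nth_rewrite 2 [e9]
    rw [e7]
    ring
  linear_combination (1 / 2) * this

theorem ode : JobVV → JobFinFour → JobODE := by
  intro hVV hFF G R₀ f hG _ hR₀ hf₀ hb1 hb2 hne
  obtain ⟨hdet, R, hR, _, hU⟩ := hFF G hG
  have hf : VV10 G R f := transfer hdet hR₀ hR hf₀
  have hdetr : (0 : ℝ) < (G.det : ℝ) := by exact_mod_cast hdet
  have f_in : ∀ μ : Z20, (∃ v : Z20, μ = G.mulVec v) → ∀ τ ∈ UH, f μ τ = f 0 τ := by
    rintro _ ⟨v, rfl⟩ τ hτ
    have := hf.inv 0 v τ hτ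
    rwa [zero_add] at this
  -- expansions
  have q0 : ∃ a, QE (-1) (f 0) a := by
    obtain ⟨C, hC⟩ := hb1 0
    refine rep (f 0) (hf.holo 0) 0 (-1) 1 (-1) (by norm_num) ?_
      ⟨C, fun τ hτ => by simpa using hC τ hτ⟩ (by norm_num)
    intro τ hτ
    have := hf.T 0 τ hτ
    rw [bd_zero_left] at this
    simpa using this
  have q1 : ∀ μ : Z20, (¬ ∃ v : Z20, μ = G.mulVec v) → ∃ x : ℝ, -(1 / 2) ≤ x ∧
      (∃ n : ℤ, x + bd G μ μ / 2 = n) ∧ ∃ a, QE x (f μ) a := by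
    intro μ hμ
    obtain ⟨C, hC⟩ := hb2 μ hμ
    set y : ℝ := -(bd G μ μ / 2) + 1 / 2 with hy
    have hx : (Int.fract y - 1 / 2) + bd G μ μ / 2 = ((-⌊y⌋ : ℤ) : ℝ) := by
      push_cast
      rw [Int.fract, hy]
      ring
    refine ⟨Int.fract y - 1 / 2, by linarith [Int.fract_nonneg y], ⟨-⌊y⌋, hx⟩, ?_⟩
    refine rep (f μ) (hf.holo μ) (bd G μ μ / 2) _ (1 / 2) (-⌊y⌋) hx ?_
      ⟨C, fun τ hτ => ?_⟩ (by linarith [Int.fract_lt_one y])
    · intro τ hτ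
      have := hf.T μ τ hτ
      push_cast
      exact this
    · have := hC τ hτ
      have e : 2 * Real.pi * (1 / 2) * τ.im = Real.pi * τ.im := by ring
      rw [e]
      exact this
  -- the transformation law of `f` and `L f`
  have hS : ∀ μ : Z20, ∀ τ ∈ UH, f μ τ = (-1 / (Real.sqrt (G.det : ℝ) : ℂ)) * τ ^ 10 *
      ∑ ρ ∈ R, ee (-(bd G μ ρ : ℂ)) * f ρ (-1 / τ) := by
    intro μ τ hτ
    rw [hf.S μ τ hτ]
    ring
  have hLS : ∀ μ : Z20, ∀ τ ∈ UH, L (f μ) τ = (-1 / (Real.sqrt (G.det : ℝ) : ℂ)) * τ ^ 6 *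
      ∑ ρ ∈ R, ee (-(bd G μ ρ : ℂ)) * L (f ρ) (-1 / τ) := fun μ =>
    L_S R (fun ρ => ee (-(bd G μ ρ : ℂ))) f (f μ) _ (fun ρ _ => hf.holo ρ) (hS μ)
  -- every component has some expansion
  have qall : ∀ μ : Z20, ∃ (x : ℝ) (a : ℂ), QE x (f μ) a := by
    intro μ
    by_cases hμ : ∃ v : Z20, μ = G.mulVec v
    · obtain ⟨a, ha⟩ := q0
      exact ⟨-1, a, ha.congr (f_in μ hμ)⟩
    · obtain ⟨x, _, _, a, ha⟩ := q1 μ hμ
      exact ⟨x, a, ha⟩
  have hL0 : ∀ μ ∈ R, ∀ τ ∈ UH, L (f μ) τ = 0 := by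
    have hun : ∀ μ ∈ R, ∃ κ > (-(1 / 2) : ℝ), ∃ C : ℝ, ∀ τ : ℂ, 1 / 2 ≤ τ.im →
        ‖L (f μ) τ‖ ≤ C * Real.exp (-(2 * Real.pi * κ * τ.im)) := by
      intro μ _
      by_cases hμ : ∃ v : Z20, μ = G.mulVec v
      · obtain ⟨a, ha⟩ := q0
        have h1 := (L_QE (ha.congr (f_in μ hμ))).cast rfl (b := 0) (by push_cast; ring)
        obtain ⟨b, hb⟩ := h1.shift
        obtain ⟨C, hC⟩ := hb.bound
        exact ⟨-1 + 1, by norm_num, C, hC⟩
      · obtain ⟨x, hx, _, a, ha⟩ := q1 μ hμ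
        rcases hx.eq_or_lt with hx1 | hx1
        · have h1 := (L_QE ha).cast rfl (b := 0) (by rw [← hx1]; push_cast; ring)
          obtain ⟨b, hb⟩ := h1.shift
          obtain ⟨C, hC⟩ := hb.bound
          exact ⟨x + 1, by rw [← hx1]; norm_num, C, hC⟩
        · obtain ⟨C, hC⟩ := (L_QE ha).bound
          exact ⟨x, hx1, C, hC⟩
    obtain ⟨κ, hκ, C, hC⟩ := unif (fun μ => L (f μ)) (-(1 / 2)) R hun
    refine vv_app hVV hdet hU 6 κ (by push_cast; linarith) (fun μ => L (f μ))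
      (fun μ _ => L_diff (hf.holo μ)) ?_ (fun μ _ => hLS μ) ⟨C, hC⟩
    intro μ _ τ hτ
    obtain ⟨x, a, ha⟩ := qall μ
    exact (L_QE ha).norm_T hτ
  have hL : ∀ μ : Z20, ∀ τ ∈ UH, L (f μ) τ = 0 := by
    intro μ τ hτ
    obtain ⟨ρ, ⟨hρ, v, hv⟩, _⟩ := hR μ
    rw [hv, L_congr (fun τ hτ => hf.inv ρ v τ hτ) τ hτ]
    exact hL0 ρ hρ τ hτ
  -- the component `f 0` is not zero
  have hf0 : ∃ τ ∈ UH, f 0 τ ≠ 0 := by
    by_contra hcon
    push Not at hcon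
    have hun : ∀ μ ∈ R, ∃ κ > (-(10 / 12) : ℝ), ∃ C : ℝ, ∀ τ : ℂ, 1 / 2 ≤ τ.im →
        ‖f μ τ‖ ≤ C * Real.exp (-(2 * Real.pi * κ * τ.im)) := by
      intro μ _
      refine ⟨-(1 / 2), by norm_num, ?_⟩
      by_cases hμ : ∃ v : Z20, μ = G.mulVec v
      · refine ⟨0, fun τ hτ => ?_⟩
        have hτ' : τ ∈ UH := by
          show 0 < τ.im
          linarith
        rw [f_in μ hμ τ hτ', hcon τ hτ']
        simp
      · obtain ⟨C, hC⟩ := hb2 μ hμ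
        refine ⟨C, fun τ hτ => ?_⟩
        have e : -(2 * Real.pi * (-(1 / 2)) * τ.im) = Real.pi * τ.im := by ring
        rw [e]
        exact hC τ hτ
    obtain ⟨κ, hκ, C, hC⟩ := unif f (-(10 / 12)) R hun
    have hTf : ∀ μ ∈ R, ∀ τ ∈ UH, ‖f μ (τ + 1)‖ = ‖f μ τ‖ := by
      intro μ _ τ hτ
      obtain ⟨x, a, ha⟩ := qall μ
      exact ha.norm_T hτ
    have hz := vv_app hVV hdet hU 10 κ (by push_cast; linarith) f
      (fun μ _ => hf.holo μ) hTf (fun μ _ => hS μ) ⟨C, hC⟩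
    obtain ⟨μ, τ, hτ, h⟩ := hne
    obtain ⟨ρ, ⟨hρ, v, hv⟩, _⟩ := hR μ
    apply h
    rw [hv, hf.inv ρ v τ hτ]
    exact hz ρ hρ τ hτ
  obtain ⟨b, hb, hqb⟩ : ∃ b : ℂ, b ≠ 0 ∧ QE (-1) (f 0) b := by
    obtain ⟨a, ha⟩ := q0
    obtain ⟨n, b, hb, hq, hn | hn⟩ := L_lead ha hf0 (hL 0)
    · exact ⟨b, hb, hq.cast hn rfl⟩
    · exfalso
      have h1 : (n : ℝ) = 1 / 2 := by linarith
      have h2 : ((2 * n : ℕ) : ℝ) = ((1 : ℕ) : ℝ) := by push_cast; linarith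
      have h3 : 2 * n = 1 := by exact_mod_cast h2
      omega
  -- no component vanishes
  have hall : ∀ μ : Z20, ∃ τ ∈ UH, f μ τ ≠ 0 := by
    intro μ
    by_contra hcon
    push Not at hcon
    have hzero : ∀ s : ℝ, 0 < s → ∑ ρ ∈ R, ee (-(bd G μ ρ : ℂ)) * f ρ (s * I) = 0 := by
      intro s hs
      have hsI : (s : ℂ) * I ∈ UH := by
        show 0 < ((s : ℂ) * I).im
        simpa using hs
      have h1 := hS μ _ (inv_UH hsI)
      have h2 : -1 / (-1 / ((s : ℂ) * I)) = s * I := by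
        have := ne_zero_UH hsI
        field_simp
      rw [h2, hcon _ (inv_UH hsI)] at h1
      have h3 : (-1 / (Real.sqrt (G.det : ℝ) : ℂ)) ≠ 0 := by
        apply div_ne_zero (by norm_num)
        exact_mod_cast (Real.sqrt_pos.mpr hdetr).ne'
      have h4 : (-1 / ((s : ℂ) * I)) ^ 10 ≠ 0 := pow_ne_zero _ (ne_zero_UH (inv_UH hsI))
      rcases mul_eq_zero.mp h1.symm with h5 | h5
      · exact absurd h5 (mul_ne_zero h3 h4)
      · exact h5
    classical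
    have hlim : ∀ ρ ∈ R, Filter.Tendsto (fun s : ℝ => ee (-(bd G μ ρ : ℂ)) *
        (ee (-(((-1 : ℝ) : ℂ) * (s * I))) * f ρ (s * I))) Filter.atTop
        (𝓝 (ee (-(bd G μ ρ : ℂ)) * (if ∃ v : Z20, ρ = G.mulVec v then b else 0))) := by
      intro ρ _
      apply Filter.Tendsto.const_mul
      by_cases hρ : ∃ v : Z20, ρ = G.mulVec v
      · rw [if_pos hρ]
        exact (hqb.congr (f_in ρ hρ)).tendsto
      · rw [if_neg hρ]
        obtain ⟨C, hC⟩ := hb2 ρ hρ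
        have h1 : Filter.Tendsto (fun s : ℝ => C * Real.exp (-(Real.pi * s)))
            Filter.atTop (𝓝 0) := by
          have h4 : Filter.Tendsto (fun y : ℝ => Real.pi * y)
              Filter.atTop Filter.atTop := Filter.tendsto_id.const_mul_atTop Real.pi_pos
          have := (Real.tendsto_exp_neg_atTop_nhds_zero.comp h4).const_mul C
          simpa using this
        refine squeeze_zero_norm' ?_ h1
        filter_upwards [Filter.eventually_ge_atTop (1 / 2 : ℝ)] with s hs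
        have h2 := hC (s * I) (by simpa using hs)
        rw [norm_mul, ee_norm]
        have e1 : (-(((-1 : ℝ) : ℂ) * ((s : ℂ) * I))).im = s := by simp
        have e2 : ((s : ℂ) * I).im = s := by simp
        rw [e2] at h2
        rw [e1]
        calc Real.exp (-(2 * Real.pi * s)) * ‖f ρ (s * I)‖
            ≤ Real.exp (-(2 * Real.pi * s)) * (C * Real.exp (Real.pi * s)) :=
              mul_le_mul_of_nonneg_left h2 (Real.exp_pos _).le
          _ = C * (Real.exp (-(2 * Real.pi * s)) * Real.exp (Real.pi * s)) := by ring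
          _ = _ := by
              rw [← Real.exp_add]
              congr 2
              ring
    have hsum := tendsto_finsetSum R hlim
    have hz2 : Filter.Tendsto (fun s : ℝ => ∑ ρ ∈ R, ee (-(bd G μ ρ : ℂ)) *
        (ee (-(((-1 : ℝ) : ℂ) * (s * I))) * f ρ (s * I))) Filter.atTop (𝓝 0) := by
      apply tendsto_const_nhds.congr'
      filter_upwards [Filter.eventually_gt_atTop (0 : ℝ)] with s hs
      have h1 : ∑ ρ ∈ R, ee (-(bd G μ ρ : ℂ)) *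
          (ee (-(((-1 : ℝ) : ℂ) * (s * I))) * f ρ (s * I)) =
          ee (-(((-1 : ℝ) : ℂ) * (s * I))) *
            ∑ ρ ∈ R, ee (-(bd G μ ρ : ℂ)) * f ρ (s * I) := by
        rw [Finset.mul_sum]
        exact Finset.sum_congr rfl fun ρ _ => by ring
      rw [h1, hzero s hs, mul_zero]
    have h3 := tendsto_nhds_unique hz2 hsum
    obtain ⟨ρ₀, ⟨hρ₀, v₀, hv₀⟩, huniq⟩ := hR 0
    have hρ₀' : ρ₀ = G.mulVec (-v₀) := by
      rw [Matrix.mulVec_neg, eq_neg_iff_add_eq_zero]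
      exact hv₀.symm
    rw [Finset.sum_eq_single ρ₀] at h3
    · rw [if_pos ⟨_, hρ₀'⟩] at h3
      exact mul_ne_zero (ee_ne _) hb h3.symm
    · intro ρ hρ hne'
      rw [if_neg, mul_zero]
      rintro ⟨v, hv⟩
      apply hne'
      apply huniq ρ
      refine ⟨hρ, -v, ?_⟩
      rw [Matrix.mulVec_neg, hv, add_neg_cancel]
    · intro h
      exact absurd hρ₀ h
  constructor
  · intro μ hμ
    obtain ⟨x, hx, ⟨n, hn⟩, a, ha⟩ := q1 μ hμ
    obtain ⟨m, b', _, _, hm | hm⟩ := L_lead ha (hall μ) (hL μ)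
    · exfalso
      have : (0 : ℝ) ≤ m := Nat.cast_nonneg m
      linarith
    · have h0 : (0 : ℝ) ≤ m := Nat.cast_nonneg m
      have hx' : x = -(1 / 2) := by linarith
      refine ⟨n, ?_⟩
      rw [hx'] at hn
      linarith
  · intro h1
    have hR1 : IsReps G {0} := by
      intro μ
      refine ⟨0, ⟨Finset.mem_singleton_self 0, G.adjugate.mulVec μ, ?_⟩, ?_⟩
      · rw [zero_add, Matrix.mulVec_mulVec, Matrix.mul_adjugate, h1, one_smul,
          Matrix.one_mulVec]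
      · rintro ρ ⟨hρ, _⟩
        exact Finset.mem_singleton.mp hρ
    have hf1 := transfer hdet hR hR1 hf
    obtain ⟨τ, hτ, h⟩ := hall 0
    apply h
    refine st_cube (f 0) ?_ ?_ τ hτ
    · intro τ hτ
      have := hf.T 0 τ hτ
      rw [bd_zero_left] at this
      simpa [ee_zero] using this
    · intro τ hτ
      have := hf1.S 0 τ hτ
      rw [Finset.sum_singleton, bd_zero_left, h1] at this
      simpa [ee_zero] using this

end

end Pool.Agent.R396.F
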