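import Pool.Agent.R396.F.Th2a

set_option autoImplicit false

/-!
# The statement JobTheta2
-/

open MeasureTheory Complex Set Topology

namespace Pool.Agent.R396.F

open Pool.Agent.Y813.RL

noncomputable section

/-- cubes and translations -/
theorem setIntegral_cu {E : Type*} [NormedAddCommGroup E] [NormedSpace ℝ E]
    (G : (Fin 20 → ℝ) → E) (t : Fin 20 → ℝ) :
    ∫ y in cu t, G y = ∫ y in Icc (0 : Fin 20 → ℝ) 1, G (t + y) := by
  have h4 : MeasurePreserving (fun y : Fin 20 → ℝ => t + y) volume volume :=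
    measurePreserving_add_left volume t
  have h5 : MeasurableEmbedding (fun y : Fin 20 → ℝ => t + y) := measurableEmbedding_addLeft t
  have h6 := h4.setIntegral_preimage_emb h5 G (cu t)
  have h7 : (fun y : Fin 20 → ℝ => t + y) ⁻¹' (cu t) = cu 0 := by
    ext y
    simp only [cu, Set.mem_preimage, Set.mem_ofPred_eq, Pi.add_apply, Pi.zero_apply, Set.mem_Ioc,
      zero_add]
    exact ⟨fun hy i => ⟨by linarith [(hy i).1], by linarith [(hy i).2]⟩,
      fun hy i => ⟨by linarith [(hy i).1], by linarith [(hy i).2]⟩⟩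
  rw [h7] at h6
  rw [← h6]
  exact setIntegral_congr_set cu_zero_ae

/-- unfolding -/
theorem unfold_cubes {E : Type*} [NormedAddCommGroup E] [NormedSpace ℝ E] [CompleteSpace E]
    {G : (Fin 20 → ℝ) → E} (hG : Integrable G) :
    HasSum (fun v : Fin 20 → ℤ => ∫ y in Icc (0 : Fin 20 → ℝ) 1, G (fun i => y i - (v i : ℝ)))
      (∫ y, G y) := by
  obtain ⟨s, hs⟩ : ∃ s : (Fin 20 → ℤ) → Set (Fin 20 → ℝ),
    s = fun v => cu (fun i => -(v i : ℝ)) := ⟨_, rfl⟩
  have hm : ∀ v, MeasurableSet (s v) := by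
    intro v
    have : s v = Set.univ.pi (fun i => Ioc (-(v i : ℝ)) (-(v i : ℝ) + 1)) := by
      rw [hs]; ext x; simp [cu]
    rw [this]
    exact MeasurableSet.univ_pi (fun i => measurableSet_Ioc)
  have hd : Pairwise (Function.onFun Disjoint s) := by
    intro v v' hvv
    rw [Function.onFun, Set.disjoint_left]
    intro x hx hx'
    apply hvv
    rw [hs] at hx hx'
    funext i
    have h1 := hx i
    have h2 := hx' i
    have h3 : (v i : ℝ) < v' i + 1 := by linarith [h1.1, h1.2, h2.1, h2.2]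
    have h4 : (v' i : ℝ) < v i + 1 := by linarith [h1.1, h1.2, h2.1, h2.2]
    have h5 : v i < v' i + 1 := by exact_mod_cast h3
    have h6 : v' i < v i + 1 := by exact_mod_cast h4
    omega
  have hu : (⋃ v, s v) = Set.univ := by
    rw [Set.eq_univ_iff_forall]
    intro x
    rw [Set.mem_iUnion]
    refine ⟨fun i => -(⌈x i⌉ - 1), ?_⟩
    rw [hs]
    intro i
    have h1 := Int.ceil_lt_add_one (x i)
    have h2 := Int.le_ceil (x i)
    simp only
    push_cast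
    constructor <;> linarith
  have h1 := hasSum_integral_iUnion hm hd (f := G) (μ := (volume : Measure (Fin 20 → ℝ)))
    (by rw [hu]; exact hG.integrableOn)
  rw [hu, Measure.restrict_univ] at h1
  have e : (fun v : Fin 20 → ℤ => ∫ y in Icc (0 : Fin 20 → ℝ) 1, G (fun i => y i - (v i : ℝ))) =
      fun v => ∫ x in s v, G x := by
    funext v
    rw [hs]
    simp only
    rw [setIntegral_cu]
    have h2 : ∀ y : Fin 20 → ℝ, (fun i => y i - (v i : ℝ)) = (fun i => -(v i : ℝ)) + y := by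
      intro y; funext i; simp only [Pi.add_apply]; ring
    simp_rw [h2]
  rw [e]
  exact h1

/-- the Gaussian attached to a representative -/
def Gs (A : Matrix (Fin 20) (Fin 20) ℤ) (τ : ℂ) (μ ρ : Fin 20 → ℤ) (x : Fin 20 → ℝ) : ℂ :=
  ee (-(((bf A x x : ℝ) : ℂ) / (2 * τ)) + dt ρ (fun i => (x i : ℂ)) / τ -
    (bd A ρ ρ : ℂ) / (2 * τ) - dt μ (fun i => (x i : ℂ)))

variable {A : Matrix (Fin 20) (Fin 20) ℤ}

theorem bdC_int (ρ μ : Fin 20 → ℤ) :
    bdC A (fun i => (ρ i : ℂ)) (fun i => (μ i : ℂ)) = (bd A ρ μ : ℂ) := by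
  unfold bdC bd
  simp only [dotProduct, Matrix.mulVec, Matrix.map_apply]
  push_cast
  rfl

theorem bdC_lin (h : PosSymm A) (a b : ℂ) (ρ μ : Fin 20 → ℤ) :
    bdC A (fun i => a * (ρ i : ℂ) + b * (μ i : ℂ)) (fun i => a * (ρ i : ℂ) + b * (μ i : ℂ)) =
      a ^ 2 * (bd A ρ ρ : ℂ) + 2 * a * b * (bd A ρ μ : ℂ) + b ^ 2 * (bd A μ μ : ℂ) := by
  have h0 : (fun i => a * (ρ i : ℂ) + b * (μ i : ℂ)) =
      a • (fun i => (ρ i : ℂ)) + b • (fun i => (μ i : ℂ)) := by
    funext i; simp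
  have h1 : (bd A μ ρ : ℂ) = (bd A ρ μ : ℂ) := by rw [bd_comm h]
  rw [← bdC_int ρ ρ, ← bdC_int μ μ, h0]
  have h2 := bdC_int (A := A) ρ μ
  have h3 := bdC_int (A := A) μ ρ
  rw [h1] at h3
  unfold bdC at h2 h3 ⊢
  simp only [Matrix.mulVec_add, Matrix.mulVec_smul, add_dotProduct, dotProduct_add,
    smul_dotProduct, dotProduct_smul, smul_eq_mul]
  rw [h2, h3]
  ring

theorem Gs_integral (h : PosSymm A) {τ : ℂ} (hτ : 0 < τ.im) (μ ρ : Fin 20 → ℤ) :
    Integrable (Gs A τ μ ρ) ∧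
    ∫ x, Gs A τ μ ρ x = -(τ ^ 10) / (Real.sqrt (A.det : ℝ) : ℂ) *
      ee (-(bd A μ ρ : ℂ) + τ * (bd A μ μ : ℂ) / 2) := by
  have hτ0 : τ ≠ 0 := by
    intro h0; rw [h0] at hτ; simp at hτ
  have hb : 0 < ((Real.pi : ℂ) * Complex.I / τ).re := by
    rw [Complex.div_re]
    have h1 : 0 < Complex.normSq τ := Complex.normSq_pos.mpr hτ0
    simp only [Complex.mul_re, Complex.mul_im, Complex.ofReal_re, Complex.ofReal_im, Complex.I_re,
      Complex.I_im, mul_zero, mul_one, zero_mul, sub_zero, add_zero, zero_div, zero_add]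
    have := Real.pi_pos
    positivity
  obtain ⟨l, hl⟩ : ∃ l : Fin 20 → ℂ, l = fun i =>
    (2 * Real.pi * Complex.I / τ) * (ρ i : ℂ) + (-(2 * Real.pi * Complex.I)) * (μ i : ℂ) :=
    ⟨_, rfl⟩
  have hG : ∀ x : Fin 20 → ℝ, Gs A τ μ ρ x = ee (-((bd A ρ ρ : ℂ) / (2 * τ))) *
      cexp (-((Real.pi : ℂ) * Complex.I / τ) * ((bf A x x : ℝ) : ℂ) + ∑ i, l i * (x i : ℂ)) := by
    intro x
    unfold Gs ee
    rw [← Complex.exp_add]
    congr 1
    have h1 : ∑ i, l i * (x i : ℂ) = (2 * Real.pi * Complex.I / τ) * dt ρ (fun i => (x i : ℂ)) +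
        (-(2 * Real.pi * Complex.I)) * dt μ (fun i => (x i : ℂ)) := by
      unfold dt
      rw [Finset.mul_sum, Finset.mul_sum, ← Finset.sum_add_distrib, hl]
      exact Finset.sum_congr rfl (fun i _ => by ring)
    rw [h1]
    field_simp
    ring
  have hg := gauss h hb l
  constructor
  · have h1 : Gs A τ μ ρ = fun x => ee (-((bd A ρ ρ : ℂ) / (2 * τ))) *
      cexp (-((Real.pi : ℂ) * Complex.I / τ) * ((bf A x x : ℝ) : ℂ) + ∑ i, l i * (x i : ℂ)) :=
      funext hG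
    rw [h1]
    exact hg.1.const_mul _
  · simp_rw [hG]
    rw [integral_const_mul, hg.2]
    have h1 : ((Real.pi : ℂ) / ((Real.pi : ℂ) * Complex.I / τ)) ^ 10 = -(τ ^ 10) := by
      have hpi : (Real.pi : ℂ) ≠ 0 := by exact_mod_cast Real.pi_ne_zero
      have h2 : (Real.pi : ℂ) / ((Real.pi : ℂ) * Complex.I / τ) = -Complex.I * τ := by
        field_simp
        rw [Complex.I_sq]
        ring
      rw [h2, mul_pow]
      have h3 : (-Complex.I) ^ 10 = -1 := by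
        have : (-Complex.I) ^ 10 = (Complex.I ^ 2) ^ 5 := by ring
        rw [this, Complex.I_sq]; norm_num
      rw [h3]; ring
    rw [h1, hl, bdC_lin h]
    have h2 : cexp (((2 * Real.pi * Complex.I / τ) ^ 2 * (bd A ρ ρ : ℂ) +
        2 * (2 * Real.pi * Complex.I / τ) * (-(2 * Real.pi * Complex.I)) * (bd A ρ μ : ℂ) +
        (-(2 * Real.pi * Complex.I)) ^ 2 * (bd A μ μ : ℂ)) /
        (4 * ((Real.pi : ℂ) * Complex.I / τ))) =
        ee ((bd A ρ ρ : ℂ) / (2 * τ) - (bd A ρ μ : ℂ) + τ * (bd A μ μ : ℂ) / 2) := by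
      unfold ee
      congr 1
      have hpi : (Real.pi : ℂ) ≠ 0 := by exact_mod_cast Real.pi_ne_zero
      field_simp
      ring
    rw [h2, bd_comm h μ ρ]
    have h3 : ee (-((bd A ρ ρ : ℂ) / (2 * τ))) *
        (-(τ ^ 10) / (Real.sqrt (A.det : ℝ) : ℂ) *
        ee ((bd A ρ ρ : ℂ) / (2 * τ) - (bd A ρ μ : ℂ) + τ * (bd A μ μ : ℂ) / 2)) =
        -(τ ^ 10) / (Real.sqrt (A.det : ℝ) : ℂ) * (ee (-((bd A ρ ρ : ℂ) / (2 * τ))) *
        ee ((bd A ρ ρ : ℂ) / (2 * τ) - (bd A ρ μ : ℂ) + τ * (bd A μ μ : ℂ) / 2)) := by ring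
    rw [h3, ← ee_add]
    congr 2
    ring

theorem bf_sub_sub (h : PosSymm A) (y : Fin 20 → ℝ) (v : Fin 20 → ℤ) :
    bf A (fun i => y i - (v i : ℝ)) (fun i => y i - (v i : ℝ)) =
      bf A y y - 2 * bf A (fun i => (v i : ℝ)) y +
        bf A (fun i => (v i : ℝ)) (fun i => (v i : ℝ)) := by
  have h1 : (fun i => y i - (v i : ℝ)) = y - fun i => (v i : ℝ) := by funext i; rfl
  rw [h1, bf_sub_left, bf_sub_right, bf_sub_right, bf_comm h.symm y (fun i => (v i : ℝ))]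
  ring

/-- a term of the expansion in the transformed variables -/
theorem term_eq (h : PosSymm A) {τ : ℂ} (hτ0 : τ ≠ 0) (μ ρ v : Fin 20 → ℤ) (y : Fin 20 → ℝ) :
    ee (-((bd A (ρ + A.mulVec v) (ρ + A.mulVec v) : ℂ) / (2 * τ))) *
      ee (dt (ρ + A.mulVec v) (fun i => (y i : ℂ) / τ)) *
      (ee (-(((bf A y y : ℝ) : ℂ) / (2 * τ))) * ee (-(dt μ (fun i => (y i : ℂ))))) =
    Gs A τ μ ρ (fun i => y i - (v i : ℝ)) := by
  unfold Gs
  rw [← ee_add, ← ee_add, ← ee_add, bd_shift h, bf_sub_sub h]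
  have h1 : dt (ρ + A.mulVec v) (fun i => (y i : ℂ) / τ) =
      (dt ρ (fun i => (y i : ℂ)) + ((bf A (fun i => (v i : ℝ)) y : ℝ) : ℂ)) / τ := by
    rw [← sum_mulVec h]
    unfold dt
    push_cast
    rw [← Finset.sum_add_distrib, Finset.sum_div]
    exact Finset.sum_congr rfl (fun i _ => by simp; ring)
  have h2 : dt ρ (fun i => ((y i - (v i : ℝ) : ℝ) : ℂ)) = dt ρ (fun i => (y i : ℂ)) -
      dt ρ (fun i => (v i : ℂ)) := by
    unfold dt
    rw [← Finset.sum_sub_distrib]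
    exact Finset.sum_congr rfl (fun i _ => by push_cast; ring)
  have h3 : dt μ (fun i => ((y i - (v i : ℝ) : ℝ) : ℂ)) = dt μ (fun i => (y i : ℂ)) -
      dt μ (fun i => (v i : ℂ)) := by
    unfold dt
    rw [← Finset.sum_sub_distrib]
    exact Finset.sum_congr rfl (fun i _ => by push_cast; ring)
  have h4 : ((bf A (fun i => (v i : ℝ)) (fun i => (v i : ℝ)) : ℝ) : ℂ) =
      bf A (fun i => (v i : ℂ)) (fun i => (v i : ℂ)) := by
    rw [← bf_ofReal]; simp
  have h5 : ee (dt μ (fun i => (v i : ℂ))) = 1 := by rw [dt_int]; exact ee_int _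
  rw [h1, h2, h3, ← h4]
  push_cast
  have h6 : ∀ a b : ℂ, a = b + dt μ (fun i => (v i : ℂ)) → ee b = ee a := by
    intro a b hab
    rw [hab, ee_add, h5, mul_one]
  symm
  refine (h6 _ _ ?_).symm
  field_simp
  ring

theorem theta2' (A : Matrix (Fin 20) (Fin 20) ℤ) (c : ℂ → (Fin 20 → ℂ) → ℂ)
    (R : Finset (Fin 20 → ℤ)) (hA : PosSymm A) (hc : JacobiZero A c) (hR : IsReps A R)
    (μ : Fin 20 → ℤ) (τ : ℂ) (hτ : 0 < τ.im) :
    vf A c μ τ = -(τ ^ 10) / (Real.sqrt (A.det : ℝ) : ℂ) *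
      ∑ ρ ∈ R, ee (-(bd A μ ρ : ℂ)) * vf A c ρ (-1 / τ) := by
  obtain ⟨_, _, _, hvf, hexp⟩ := theta1 A c hA hc
  have hτ0 : τ ≠ 0 := by
    intro h0; rw [h0] at hτ; simp at hτ
  have hτ' : 0 < (-1 / τ).im := by
    rw [Complex.div_im]
    have h1 : 0 < Complex.normSq τ := Complex.normSq_pos.mpr hτ0
    simp only [Complex.neg_im, Complex.one_im, neg_zero, zero_mul, zero_div, Complex.neg_re,
      Complex.one_re, zero_sub]
    have : -(-1 * τ.im / Complex.normSq τ) = τ.im / Complex.normSq τ := by ring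
    rw [this]
    positivity
  -- the equivalence
  have hAinj : Function.Injective (fun v : Fin 20 → ℤ => A.mulVec v) := by
    intro v w hvw
    have h1 : (A.map (Int.cast : ℤ → ℝ)).mulVec (fun i => (v i : ℝ)) =
        (A.map (Int.cast : ℤ → ℝ)).mulVec (fun i => (w i : ℝ)) := by
      funext i
      have h2 : ((A.mulVec v i : ℤ) : ℝ) = ((A.mulVec w i : ℤ) : ℝ) := by
        rw [show A.mulVec v = A.mulVec w from hvw]
      simpa [Matrix.mulVec, dotProduct] using h2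
    have h3 := Matrix.mulVec_injective_of_isUnit
      ((Matrix.isUnit_iff_isUnit_det _).mpr (det_unit hA)) h1
    funext i
    have := congrFun h3 i
    simpa using this
  have hbij : Function.Bijective (fun p : R × (Fin 20 → ℤ) => (p.1 : Fin 20 → ℤ) + A.mulVec p.2) := by
    constructor
    · rintro ⟨ρ, v⟩ ⟨ρ', v'⟩ he
      simp only at he
      obtain ⟨ρ₀, _, huni⟩ := hR ((ρ : Fin 20 → ℤ) + A.mulVec v)
      have h1 := huni ρ ⟨ρ.2, v, rfl⟩
      have h2 := huni ρ' ⟨ρ'.2, v', he⟩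
      have h3 : (ρ : Fin 20 → ℤ) = ρ' := h1.trans h2.symm
      have h4 : ρ = ρ' := Subtype.ext h3
      subst h4
      have h5 : A.mulVec v = A.mulVec v' := add_left_cancel he
      rw [hAinj h5]
    · intro ν
      obtain ⟨ρ, ⟨hρ, v, hv⟩, _⟩ := hR ν
      exact ⟨(⟨ρ, hρ⟩, v), hv.symm⟩
  obtain ⟨e, he⟩ : ∃ e : (R × (Fin 20 → ℤ)) ≃ (Fin 20 → ℤ), ∀ p,
    e p = (p.1 : Fin 20 → ℤ) + A.mulVec p.2 := ⟨Equiv.ofBijective _ hbij, fun _ => rfl⟩
  -- pointwise expansion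
  have hpt : ∀ y : Fin 20 → ℝ, HasSum (fun p : R × (Fin 20 → ℤ) =>
      vf A c p.1 (-1 / τ) * Gs A τ μ p.1 (fun i => y i - (p.2 i : ℝ)))
      (c τ (fun i => (y i : ℂ)) * ee (-(dt μ (fun i => (y i : ℂ))))) := by
    intro y
    have h1 := hexp (-1 / τ) (fun i => (y i : ℂ) / τ) hτ'
    rw [← e.hasSum_iff] at h1
    have h2 := h1.mul_right (ee (-(((bf A y y : ℝ) : ℂ) / (2 * τ))) *
      ee (-(dt μ (fun i => (y i : ℂ)))))
    have h3 : c τ (fun i => (y i : ℂ)) * ee (-(dt μ (fun i => (y i : ℂ)))) =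
        c (-1 / τ) (fun i => (y i : ℂ) / τ) * (ee (-(((bf A y y : ℝ) : ℂ) / (2 * τ))) *
          ee (-(dt μ (fun i => (y i : ℂ))))) := by
      rw [hc.S τ (fun i => (y i : ℂ)) hτ, bf_ofReal]
      have h4 := ee_neg_mul (((bf A y y : ℝ) : ℂ) / (2 * τ))
      linear_combination -(c τ (fun i => (y i : ℂ)) * ee (-(dt μ (fun i => (y i : ℂ))))) * h4
    rw [h3]
    convert! h2 using 1
    funext p
    have h5 : fc c (e p) (-1 / τ) = ee (-((bd A (e p) (e p) : ℂ) / (2 * τ))) *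
        vf A c p.1 (-1 / τ) := by
      have h6 := hvf p.1 p.2 (-1 / τ) hτ'
      rw [← he] at h6
      rw [← h6]
      unfold vf
      rw [← mul_assoc, ← ee_add]
      have h7 : -((bd A (e p) (e p) : ℂ) / (2 * τ)) + -(-1 / τ * (bd A (e p) (e p) : ℂ) / 2) =
          ((0 : ℤ) : ℂ) := by
        field_simp
        simp
      rw [h7, ee_int, one_mul]
    have h8 := term_eq hA hτ0 μ p.1 p.2 y
    rw [← he] at h8
    rw [← h8]
    simp only [Function.comp]
    rw [h5]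
    ring
  -- integrate
  have hGi : ∀ ρ, Integrable (Gs A τ μ ρ) := fun ρ => (Gs_integral hA hτ μ ρ).1
  have hGshift : ∀ ρ (v : Fin 20 → ℤ), Integrable (fun y : Fin 20 → ℝ =>
      Gs A τ μ ρ (fun i => y i - (v i : ℝ))) := by
    intro ρ v
    exact (hGi ρ).comp_sub_right (fun i => (v i : ℝ))
  have hsum : Summable (fun p : R × (Fin 20 → ℤ) => ∫ y in Icc (0 : Fin 20 → ℝ) 1,
      ‖vf A c p.1 (-1 / τ) * Gs A τ μ p.1 (fun i => y i - (p.2 i : ℝ))‖) := by
    rw [summable_prod_of_nonneg (fun p => integral_nonneg (fun y => norm_nonneg _))]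
    constructor
    · intro ρ
      have h1 := (unfold_cubes (hGi ρ).norm).summable.mul_left ‖vf A c ρ (-1 / τ)‖
      refine h1.congr (fun v => ?_)
      simp only [norm_mul]
      rw [integral_const_mul]
    · exact (hasSum_fintype _).summable
  have hint := hasSum_integral_of_summable_integral_norm
    (μ := (volume : Measure (Fin 20 → ℝ)).restrict (Icc 0 1))
    (F := fun (p : R × (Fin 20 → ℤ)) (y : Fin 20 → ℝ) =>
      vf A c p.1 (-1 / τ) * Gs A τ μ p.1 (fun i => y i - (p.2 i : ℝ)))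
    (fun p => ((hGshift p.1 p.2).const_mul _).integrableOn) hsum
  have hfc : ∫ y in Icc (0 : Fin 20 → ℝ) 1, (∑' p : R × (Fin 20 → ℤ),
      vf A c p.1 (-1 / τ) * Gs A τ μ p.1 (fun i => y i - (p.2 i : ℝ))) = fc c μ τ := by
    unfold fc
    refine integral_congr_ae (Filter.Eventually.of_forall (fun y => ?_))
    exact (hpt y).tsum_eq
  rw [hfc] at hint
  have hfib := hint.prod_fiberwise (g := fun ρ : R => vf A c ρ (-1 / τ) *
    ∫ x, Gs A τ μ ρ x) (fun ρ => by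
      have h1 := (unfold_cubes (hGi ρ)).mul_left (vf A c ρ (-1 / τ))
      have h2 : (fun v : Fin 20 → ℤ => ∫ y in Icc (0 : Fin 20 → ℝ) 1,
          vf A c ρ (-1 / τ) * Gs A τ μ ρ (fun i => y i - (v i : ℝ))) =
          fun v => vf A c ρ (-1 / τ) * ∫ y in Icc (0 : Fin 20 → ℝ) 1,
            Gs A τ μ ρ (fun i => y i - (v i : ℝ)) := by
        funext v
        rw [integral_const_mul]
      show HasSum (fun v : Fin 20 → ℤ => ∫ y in Icc (0 : Fin 20 → ℝ) 1,
          vf A c ρ (-1 / τ) * Gs A τ μ ρ (fun i => y i - (v i : ℝ))) _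
      rw [h2]
      exact h1)
  have hfin : fc c μ τ = ∑ ρ : R, vf A c ρ (-1 / τ) * ∫ x, Gs A τ μ ρ x :=
    hfib.unique (hasSum_fintype _)
  have hfin2 : fc c μ τ = ∑ ρ ∈ R, vf A c ρ (-1 / τ) * ∫ x, Gs A τ μ ρ x := by
    rw [hfin]
    exact Finset.sum_coe_sort R (fun ρ => vf A c ρ (-1 / τ) * ∫ x, Gs A τ μ ρ x)
  have hvfdef : vf A c μ τ = ee (-(τ * (bd A μ μ : ℂ) / 2)) * fc c μ τ := rfl
  rw [hvfdef, hfin2, Finset.mul_sum, Finset.mul_sum]
  refine Finset.sum_congr rfl (fun ρ _ => ?_)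
  rw [(Gs_integral hA hτ μ ρ).2, ee_add]
  have h1 := ee_neg_mul (τ * (bd A μ μ : ℂ) / 2)
  linear_combination (vf A c ρ (-1 / τ) * (-(τ ^ 10) / (Real.sqrt (A.det : ℝ) : ℂ)) *
    ee (-(bd A μ ρ : ℂ))) * h1

theorem theta2 : JobTheta1 → JobTheta2 := fun _ A c R hA hc hR μ τ hτ =>
  theta2' A c R hA hc hR μ τ hτ

end

end Pool.Agent.R396.F
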