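import Pool.Agent.R396.F.Desc
import Pool.Agent.R396.F.Th1
import Pool.Agent.R396.F.Th2
import Pool.Agent.R396.F.FinFour
import Pool.Agent.R396.F.Ode
import Pool.Agent.R396.F.Genus
import Pool.Agent.Y155.RL.DIV
import Pool.Agent.Y155.RL.VD
import Pool.Agent.Y683.RL.Kd
import Pool.Agent.Y683.RL.Fj

set_option autoImplicit false

/-!
# Reflective lattices of signature (2, 22): assembly
-/

namespace Pool.Agent.R396.F

open Complex Set Finset Topology Pool.Agent.Y813.RL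

noncomputable section

variable {G : Matrix (Fin 20) (Fin 20) ℤ}

theorem lam_smul_G (h : PosSymm G) {m : ℕ} (hm : 0 < m) (μ : Fin 20 → ℤ) :
    bd ((m : ℤ) • G) μ μ = bd G μ μ / m := by
  have hm' : (m : ℝ) ≠ 0 := by exact_mod_cast hm.ne'
  have h1 : ((m : ℤ) • G).map (Int.cast : ℤ → ℝ) = (m : ℝ) • G.map (Int.cast : ℤ → ℝ) := by
    ext i j
    show ((((m : ℤ) • G) i j : ℤ) : ℝ) = m * (G i j : ℝ)
    rw [Matrix.smul_apply, smul_eq_mul]
    push_cast
    ring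
  have h2 : ((m : ℝ) • G.map (Int.cast : ℤ → ℝ))⁻¹ = (m : ℝ)⁻¹ • (G.map (Int.cast : ℤ → ℝ))⁻¹ := by
    refine Matrix.inv_eq_left_inv ?_
    rw [Matrix.smul_mul, Matrix.mul_smul, smul_smul, inv_mul_cancel₀ hm', one_smul,
      Matrix.nonsing_inv_mul _ (isUnit_det h)]
  unfold bd
  rw [h1, h2, Finset.sum_div]
  refine Finset.sum_congr rfl fun i _ => ?_
  rw [Matrix.smul_mulVec, Pi.smul_apply, smul_eq_mul]
  field_simp

/-- the theta components are a vector valued form -/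
theorem vv10 {A : Matrix (Fin 20) (Fin 20) ℤ} (hA : PosSymm A) {c : ℂ → (Fin 20 → ℂ) → ℂ}
    (hc : JacobiZero A c) {R : Finset (Fin 20 → ℤ)} (hR : IsReps A R) : VV10 A R (vf A c) where
  holo := fun μ => by
    have h1 := (theta1 A c hA hc).1 μ
    unfold vf
    refine DifferentiableOn.mul ?_ h1
    unfold ee
    fun_prop
  inv := fun μ v τ hτ => (theta1 A c hA hc).2.2.2.1 μ v τ hτ
  T := fun μ τ hτ => by
    have h1 := (theta1 A c hA hc).2.1 μ τ hτ
    unfold vf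
    rw [h1, ← mul_assoc, ← Pool.Agent.Y813.RL.ee_add]
    congr 2
    ring
  S := fun μ τ hτ => theta2 theta1 A c R hA hc hR μ τ hτ

theorem hp_fc {A : Matrix (Fin 20) (Fin 20) ℤ} (hA : PosSymm A) {c : ℂ → (Fin 20 → ℂ) → ℂ}
    (hc : JacobiZero A c) (μ : Fin 20 → ℤ) : Pool.Agent.Y683.RL.HP 0 (fc c μ) where
  holo := (theta1 A c hA hc).1 μ
  per := fun t ht => (theta1 A c hA hc).2.1 μ t ht

/-- growth of a theta component from the vanishing of Fourier coefficients -/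
theorem vf_growth {A : Matrix (Fin 20) (Fin 20) ℤ} (hA : PosSymm A) {c : ℂ → (Fin 20 → ℂ) → ℂ}
    (hc : JacobiZero A c) (μ : Fin 20 → ℤ) (κ : ℝ)
    (h0 : ∀ n : ℤ, (n : ℝ) < bd A μ μ / 2 - κ → Pool.Agent.Y683.RL.fco 0 (fc c μ) n = 0) :
    ∃ C : ℝ, 0 ≤ C ∧ ∀ τ : ℂ, 1 / 2 ≤ τ.im →
      ‖vf A c μ τ‖ ≤ C * Real.exp (2 * Real.pi * κ * τ.im) := by
  obtain ⟨C, hC0, hC⟩ := per_growth (hp_fc hA hc μ) h0
  refine ⟨C, hC0, fun τ hτ => ?_⟩
  unfold vf
  rw [norm_mul, Pool.Agent.Y813.RL.norm_ee]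
  have e1 : (-(τ * (bd A μ μ : ℂ) / 2)).im = -(τ.im * bd A μ μ / 2) := by
    have : τ * (bd A μ μ : ℂ) / 2 = ((bd A μ μ / 2 : ℝ) : ℂ) * τ := by push_cast; ring
    rw [this, Complex.neg_im, Complex.im_ofReal_mul]
    ring
  rw [e1]
  calc Real.exp (-(2 * Real.pi * -(τ.im * bd A μ μ / 2))) * ‖fc c μ τ‖
      ≤ Real.exp (-(2 * Real.pi * -(τ.im * bd A μ μ / 2))) *
        (C * Real.exp (-(2 * Real.pi * (bd A μ μ / 2 - κ) * τ.im))) :=
        mul_le_mul_of_nonneg_left (hC τ hτ) (Real.exp_pos _).le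
    _ = C * Real.exp (2 * Real.pi * κ * τ.im) := by
        rw [mul_left_comm, ← Real.exp_add]
        congr 2
        ring

/-- vanishing of Fourier coefficients from the absence of zeros -/
theorem coef_zero (hGrow : JobGrow) (hFC : JobFC) (h : PosSymm G) {k : ℤ} {F : TP → ℂ}
    {φ : ℕ → ℂ × (Fin 20 → ℂ) → ℂ} {C m : ℕ} (H : CM G k F φ C m)
    {c : ℂ → (Fin 20 → ℂ) → ℂ} (hc : JacobiZero ((m : ℤ) • G) c)
    (hφ : ∀ τ z, 0 < τ.im → φ (C + m) (τ, z) = φ C (τ, z) * c τ z)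
    {X : Fin 20 → ℤ} {N : ℕ} (hN : 0 < N)
    (hmir : ∀ (y : Fin 20 → ℝ) (τ : ℂ), 0 < τ.im → pt X N y τ ∉ Mir G) {h0 : ℝ} (h00 : 0 < h0)
    (hNZ : ∀ y : Fin 20 → ℝ, NZ G F X N y h0) (μ : Fin 20 → ℤ) (n : ℤ)
    (hn : (n : ℝ) < bd G μ μ / (2 * m) - m * h0 -
      bf G (lam G μ + (m : ℝ) • xr X N) (lam G μ + (m : ℝ) • xr X N) / (2 * m)) :
    Pool.Agent.Y683.RL.fco 0 (fc c μ) n = 0 := by
  have hm : (0 : ℝ) < m := by exact_mod_cast H.hm
  have e1 : bf G (lam G μ + (m : ℝ) • xr X N) (lam G μ + (m : ℝ) • xr X N) =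
      bd G μ μ + 2 * m * dt μ (xr X N) + (m : ℝ) ^ 2 * bf G (xr X N) (xr X N) := by
    rw [bf_add_left, bf_add_right, bf_add_right, bf_smul_left, bf_smul_left, bf_smul_right,
      bf_smul_right, bf_comm h.symm (xr X N) (lam G μ), bf_lam_lam h, bf_lam h]
    ring
  rw [e1] at hn
  set δ : ℝ := -((n : ℝ) + dt μ (xr X N) + m * h0 + m * bf G (xr X N) (xr X N) / 2) with hδ
  have hδpos : 0 < δ := by
    have e2 : bd G μ μ / (2 * m) - m * h0 -
        (bd G μ μ + 2 * m * dt μ (xr X N) + (m : ℝ) ^ 2 * bf G (xr X N) (xr X N)) / (2 * m) =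
        -(m * h0) - dt μ (xr X N) - m * bf G (xr X N) (xr X N) / 2 := by
      field_simp
      ring
    rw [e2] at hn
    rw [hδ]
    linarith
  refine hFC ((m : ℤ) • G) c (posSymm_smul h H.hm) hc X N
    (2 * Real.pi * m * (h0 + δ / (2 * m) + bf G (xr X N) (xr X N) / 2)) hN (fun y => ?_) μ n ?_
  · obtain ⟨K, T, hT, hK⟩ := hGrow G k F φ C m h H X N y h0 hN h00 (hmir y) (hNZ y) c hφ
      (δ / (2 * m)) (by positivity)
    refine ⟨K, T, hT, fun τ hτ => (hK τ hτ).trans (le_of_eq ?_)⟩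
    congr 2
    ring
  · have e3 : 2 * Real.pi * ((n : ℝ) + dt μ (xr X N)) +
        2 * Real.pi * m * (h0 + δ / (2 * m) + bf G (xr X N) (xr X N) / 2) =
        2 * Real.pi * (-δ / 2) := by
      have : (m : ℝ) * (h0 + δ / (2 * m) + bf G (xr X N) (xr X N) / 2) =
          m * h0 + δ / 2 + m * bf G (xr X N) (xr X N) / 2 := by
        field_simp
      rw [show 2 * Real.pi * m * (h0 + δ / (2 * m) + bf G (xr X N) (xr X N) / 2) =
        2 * Real.pi * (m * (h0 + δ / (2 * m) + bf G (xr X N) (xr X N) / 2)) by ring, this]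
      rw [← mul_add]
      congr 1
      rw [hδ]
      ring
    rw [e3]
    have := Real.pi_pos
    nlinarith

/-- an open set of directions -/
theorem open_dir (μ : Fin 20 → ℤ) {m : ℕ} (hm : 0 < m) {δ : ℝ} (hδ : 0 < δ) :
    IsOpen {x : Fin 20 → ℝ | bf G (lam G μ + (m : ℝ) • x) (lam G μ + (m : ℝ) • x) < δ} ∧
    {x : Fin 20 → ℝ | bf G (lam G μ + (m : ℝ) • x) (lam G μ + (m : ℝ) • x) < δ}.Nonempty := by
  have hm' : (m : ℝ) ≠ 0 := by exact_mod_cast hm.ne'
  constructor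
  · exact isOpen_lt (bf_contR G (by fun_prop) (by fun_prop)) continuous_const
  · refine ⟨-((m : ℝ)⁻¹ • lam G μ), ?_⟩
    have : lam G μ + (m : ℝ) • -((m : ℝ)⁻¹ • lam G μ) = 0 := by
      rw [smul_neg, smul_smul, mul_inv_cancel₀ hm', one_smul, add_neg_cancel]
    show bf G _ _ < δ
    rw [this, bf_zero_left]
    exact hδ

/-- the Jacobi form is not identically zero -/
theorem jac_ne {k : ℤ} {F : TP → ℂ} {φ : ℕ → ℂ × (Fin 20 → ℂ) → ℂ} {C m : ℕ}
    (H : CM G k F φ C m) {c : ℂ → (Fin 20 → ℂ) → ℂ}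
    (hφ : ∀ τ z, 0 < τ.im → φ (C + m) (τ, z) = φ C (τ, z) * c τ z) :
    ∃ (τ : ℂ) (z : Fin 20 → ℂ), 0 < τ.im ∧ c τ z ≠ 0 := by
  obtain ⟨p, hp, hne⟩ := H.hne2
  refine ⟨p.1, p.2, hp, fun h0 => hne ?_⟩
  have := hφ p.1 p.2 hp
  rw [h0, mul_zero] at this
  exact this

theorem vf_ne {A : Matrix (Fin 20) (Fin 20) ℤ} (hA : PosSymm A) {c : ℂ → (Fin 20 → ℂ) → ℂ}
    (hc : JacobiZero A c) {τ : ℂ} {z : Fin 20 → ℂ} (hτ : 0 < τ.im) (hne : c τ z ≠ 0) :
    ∃ μ, vf A c μ τ ≠ 0 := by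
  by_contra hall
  push Not at hall
  have h1 := (theta1 A c hA hc).2.2.2.2 τ z hτ
  have h2 : (fun μ : Fin 20 → ℤ => fc c μ τ * ee (dt μ z)) = fun _ => 0 := by
    funext μ
    have := hall μ
    unfold vf at this
    rcases mul_eq_zero.1 this with h3 | h3
    · exact absurd h3 (Complex.exp_ne_zero _)
    · rw [h3, zero_mul]
  rw [h2] at h1
  exact hne (h1.unique hasSum_zero)

/-- **`m = 1`** -/
theorem m_eq_one (hGrow : JobGrow) (hFC : JobFC) (hVDS : JobVDS) (h : PosSymm G) {k : ℤ}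
    {F : TP → ℂ} {φ : ℕ → ℂ × (Fin 20 → ℂ) → ℂ} {C m : ℕ} (H : CM G k F φ C m)
    (hs : StrongZeros G F) {c : ℂ → (Fin 20 → ℂ) → ℂ} (hc : JacobiZero ((m : ℤ) • G) c)
    (hφ : ∀ τ z, 0 < τ.im → φ (C + m) (τ, z) = φ C (τ, z) * c τ z) : m = 1 := by
  by_contra hne
  have hm2 : 2 ≤ m := by have := H.hm; omega
  have hm2' : (2 : ℝ) ≤ m := by exact_mod_cast hm2
  have hm : (0 : ℝ) < m := by linarith
  have hA := posSymm_smul h H.hm
  have hgrow : ∀ μ : Fin 20 → ℤ, ∃ C0 : ℝ, 0 ≤ C0 ∧ ∀ τ : ℂ, 1 / 2 ≤ τ.im →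
      ‖vf ((m : ℤ) • G) c μ τ‖ ≤ C0 * Real.exp (2 * Real.pi * (2 / 3) * τ.im) := by
    intro μ
    refine vf_growth hA hc μ (2 / 3) fun n hn => ?_
    rw [lam_smul_G h H.hm] at hn
    obtain ⟨ho, hne⟩ := open_dir (G := G) μ H.hm (δ := m / 3) (by positivity)
    obtain ⟨X, N, hN, hX, hmir, hNZ⟩ := exists_dir hVDS h H hs ho hne
    refine coef_zero hGrow hFC h H hc hφ hN hmir (by positivity) hNZ μ n ?_
    have h1 : (m : ℝ) * (1 / (m : ℝ) ^ 2) = 1 / m := by field_simp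
    rw [h1]
    have h2 : (1 : ℝ) / m ≤ 1 / 2 := one_div_le_one_div_of_le (by norm_num) hm2'
    have h3 : bf G (lam G μ + (m : ℝ) • xr X N) (lam G μ + (m : ℝ) • xr X N) / (2 * m) < 1 / 6 := by
      rw [div_lt_iff₀ (by positivity)]
      have : bf G (lam G μ + (m : ℝ) • xr X N) (lam G μ + (m : ℝ) • xr X N) < m / 3 := hX
      linarith
    have h4 : bd G μ μ / m / 2 = bd G μ μ / (2 * m) := by
      field_simp
    rw [h4] at hn
    linarith
  obtain ⟨hdet, R, hR, -, hU⟩ := finFour ((m : ℤ) • G) hA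
  have hV := vv10 hA hc hR
  have hzero := vv_app vv hdet hU 10 (-(2 / 3)) (by norm_num) (vf ((m : ℤ) • G) c)
    (fun μ _ => hV.holo μ) (fun μ _ τ hτ => by
      rw [hV.T μ τ hτ, norm_mul]
      have : ‖ee (-((bd ((m : ℤ) • G) μ μ : ℂ) / 2))‖ = 1 := by
        rw [Pool.Agent.Y813.RL.norm_ee]
        have : (-((bd ((m : ℤ) • G) μ μ : ℂ) / 2)).im = 0 := by
          have e : -((bd ((m : ℤ) • G) μ μ : ℂ) / 2) = ((-(bd ((m : ℤ) • G) μ μ / 2) : ℝ) : ℂ) := by
            push_cast; ring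
          rw [e, Complex.ofReal_im]
        rw [this]
        simp
      rw [this, one_mul]) (fun μ _ τ hτ => by
      rw [hV.S μ τ hτ]
      congr 1
      ring) (by
      choose C0 hC0 hC1 using hgrow
      refine ⟨∑ μ ∈ R, C0 μ, fun τ hτ μ hμ => (hC1 μ τ hτ).trans ?_⟩
      have e : 2 * Real.pi * (2 / 3) * τ.im = -(2 * Real.pi * (-(2 / 3)) * τ.im) := by ring
      rw [e]
      exact mul_le_mul_of_nonneg_right
        (Finset.single_le_sum (f := C0) (fun i _ => hC0 i) hμ) (Real.exp_pos _).le)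
  obtain ⟨τ, z, hτ, hcz⟩ := jac_ne H hφ
  obtain ⟨μ, hμ⟩ := vf_ne hA hc hτ hcz
  obtain ⟨ρ, ⟨hρ, v, hv⟩, -⟩ := hR μ
  rw [hv, hV.inv ρ v τ hτ] at hμ
  exact hμ (hzero ρ hρ τ hτ)

/-- growth for `m = 1`, general class -/
theorem growth_one (hGrow : JobGrow) (hFC : JobFC) (hVDS : JobVDS) (h : PosSymm G) {k : ℤ}
    {F : TP → ℂ} {φ : ℕ → ℂ × (Fin 20 → ℂ) → ℂ} {C : ℕ} (H : CM G k F φ C 1)
    (hs : StrongZeros G F) {c : ℂ → (Fin 20 → ℂ) → ℂ} (hc : JacobiZero (((1 : ℕ) : ℤ) • G) c)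
    (hφ : ∀ τ z, 0 < τ.im → φ (C + 1) (τ, z) = φ C (τ, z) * c τ z) (μ : Fin 20 → ℤ) :
    ∃ C0 : ℝ, 0 ≤ C0 ∧ ∀ τ : ℂ, 1 / 2 ≤ τ.im →
      ‖vf (((1 : ℕ) : ℤ) • G) c μ τ‖ ≤ C0 * Real.exp (2 * Real.pi * 1 * τ.im) := by
  have hA := posSymm_smul h H.hm
  refine vf_growth hA hc μ 1 fun n hn => ?_
  rw [lam_smul_G h H.hm] at hn
  simp only [Nat.cast_one, div_one] at hn
  obtain ⟨ho, hne⟩ := open_dir (G := G) μ H.hm (δ := 2 * (bd G μ μ / 2 - 1 - n)) (by linarith)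
  obtain ⟨X, N, hN, hX, hmir, hNZ⟩ := exists_dir hVDS h H hs ho hne
  refine coef_zero hGrow hFC h H hc hφ hN hmir (by norm_num) hNZ μ n ?_
  have hX' : bf G (lam G μ + ((1 : ℕ) : ℝ) • xr X N) (lam G μ + ((1 : ℕ) : ℝ) • xr X N) <
    2 * (bd G μ μ / 2 - 1 - n) := hX
  simp only [Nat.cast_one, one_smul] at hX' ⊢
  norm_num
  linarith

/-- norms of dual vectors translated by lattice vectors -/
theorem bf_sub_lam (h : PosSymm G) (he : ∀ i, Even (G i i)) (μ w : Fin 20 → ℤ) :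
    ∃ j : ℤ, bf G (fun i => (w i : ℝ) - lam G μ i) (fun i => (w i : ℝ) - lam G μ i) / 2 =
      bd G μ μ / 2 + j := by
  obtain ⟨q, hq⟩ := even_bf h.symm he w
  refine ⟨q - ∑ i, μ i * w i, ?_⟩
  have e0 : (fun i => (w i : ℝ) - lam G μ i) = (fun i => (w i : ℝ)) - lam G μ := rfl
  have e1 : bf G (fun i => (w i : ℝ)) (fun i => (w i : ℝ)) = 2 * q := by
    rw [bf_intCast, hq]
    push_cast
    ring
  have e2 : bf G (lam G μ) (fun i => (w i : ℝ)) = ((∑ i, μ i * w i : ℤ) : ℝ) := by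
    rw [bf_lam h]
    simp [dt]
  rw [e0, bf_sub_left, bf_sub_right, bf_sub_right, bf_comm h.symm _ (lam G μ), e1, e2,
    bf_lam_lam h]
  push_cast
  ring

/-- **growth for `m = 1`, nontrivial classes** -/
theorem growth_half (hGrow : JobGrow) (hFC : JobFC) (hVDS : JobVDS) (h : PosSymm G)
    (he : ∀ i, Even (G i i)) {k : ℤ}
    {F : TP → ℂ} {φ : ℕ → ℂ × (Fin 20 → ℂ) → ℂ} {C : ℕ} (H : CM G k F φ C 1)
    (hs : StrongZeros G F) {c : ℂ → (Fin 20 → ℂ) → ℂ} (hc : JacobiZero (((1 : ℕ) : ℤ) • G) c)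
    (hφ : ∀ τ z, 0 < τ.im → φ (C + 1) (τ, z) = φ C (τ, z) * c τ z) (μ : Fin 20 → ℤ)
    (hμ : ¬ ∃ v : Fin 20 → ℤ, μ = G.mulVec v) :
    ∃ C0 : ℝ, 0 ≤ C0 ∧ ∀ τ : ℂ, 1 / 2 ≤ τ.im →
      ‖vf (((1 : ℕ) : ℤ) • G) c μ τ‖ ≤ C0 * Real.exp (2 * Real.pi * (1 / 2) * τ.im) := by
  have hA := posSymm_smul h H.hm
  refine vf_growth hA hc μ (1 / 2) fun n hn => ?_
  rw [lam_smul_G h H.hm] at hn
  simp only [Nat.cast_one, div_one] at hn
  set κ : ℝ := bd G μ μ / 2 - n with hκ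
  have hκ2 : 1 / 2 < κ := by linarith
  -- the smallest possible value of half the norm
  set em : ℝ := κ - ⌈κ⌉ + 1 with hem
  have hem0 : 0 < em := by
    have := Int.ceil_lt_add_one κ
    linarith
  have hem1 : em ≤ 1 := by
    have := Int.le_ceil κ
    linarith
  have hem2 : 1 - em < κ := by
    have h1 : (⌈κ⌉ : ℝ) < 2 * κ := by
      rcases le_or_gt κ 1 with h2 | h2
      · have h3 : ⌈κ⌉ ≤ 1 := Int.ceil_le.2 (by simpa using h2)
        have h4 : (⌈κ⌉ : ℝ) ≤ 1 := by exact_mod_cast h3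
        linarith
      · have := Int.ceil_lt_add_one κ
        linarith
    rw [hem]
    linarith
  have hmin : ∀ w : Fin 20 → ℤ,
      em ≤ bf G (fun i => (w i : ℝ) - lam G μ i) (fun i => (w i : ℝ) - lam G μ i) / 2 := by
    intro w
    obtain ⟨j, hj⟩ := bf_sub_lam h he μ w
    set e := bf G (fun i => (w i : ℝ) - lam G μ i) (fun i => (w i : ℝ) - lam G μ i) / 2 with he'
    have hpos : 0 < e := by
      refine div_pos (h.pos _ fun h0 => hμ ⟨w, ?_⟩) (by norm_num)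
      funext i
      have h1 : lam G μ = fun i => (w i : ℝ) := by
        funext i
        have := congrFun h0 i
        simp only [Pi.zero_apply] at this
        linarith
      have h2 := mulVec_lam h μ i
      rw [h1] at h2
      have h3 : bf G (Pi.single i (1 : ℝ)) (fun i => (w i : ℝ)) = ((G.mulVec w i : ℤ) : ℝ) := by
        have e1 : (Pi.single i (1 : ℝ) : Fin 20 → ℝ) =
            fun j => (((Pi.single i 1 : Fin 20 → ℤ) j : ℤ) : ℝ) := by
          funext j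
          by_cases hj : j = i
          · subst hj; simp
          · simp [hj]
        rw [e1, bf_intCast]
        congr 1
        simp [bf, Matrix.mulVec, dotProduct, Pi.single_apply]
      rw [h3] at h2
      exact_mod_cast h2
    -- e = κ + (n + j)
    have h2 : e = κ + ((n + j : ℤ) : ℝ) := by
      rw [hj, hκ]
      push_cast
      ring
    rw [h2, hem]
    have h3 : -(⌈κ⌉ : ℝ) + 1 ≤ ((n + j : ℤ) : ℝ) := by
      have h4 : -((n + j : ℤ) : ℝ) < κ := by linarith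
      have h5 : -(n + j) < ⌈κ⌉ := by
        have := Int.le_ceil κ
        have h6 : ((-(n + j) : ℤ) : ℝ) < (⌈κ⌉ : ℝ) := by push_cast; push_cast at h4; linarith
        exact_mod_cast h6
      have h7 : -⌈κ⌉ + 1 ≤ n + j := by omega
      exact_mod_cast h7
    linarith
  -- constants
  set γ : ℝ := κ - (1 - em) with hγ
  have hγ0 : 0 < γ := by linarith
  set θ : ℝ := min (γ / 8) (1 / 2) with hθ
  have hθ0 : 0 < θ := lt_min (by linarith) (by norm_num)
  have hθ1 : θ ≤ 1 / 2 := min_le_right _ _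
  have hθγ : θ ≤ γ / 8 := min_le_left _ _
  set ρ : ℝ := min (θ * (γ / 8)) (κ - 1 / 2) with hρ
  have hρ0 : 0 < ρ := lt_min (by positivity) (by linarith)
  obtain ⟨ho, hne⟩ := open_dir (G := G) μ H.hm (δ := ρ) hρ0
  obtain ⟨X, N, hN, hX, hmir, -⟩ := exists_dir hVDS h H hs ho hne
  have hX' : bf G (lam G μ + ((1 : ℕ) : ℝ) • xr X N) (lam G μ + ((1 : ℕ) : ℝ) • xr X N) < ρ := hX
  simp only [Nat.cast_one, one_smul] at hX'
  set r : ℝ := bf G (lam G μ + xr X N) (lam G μ + xr X N) with hr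
  have hr0 : 0 ≤ r := h.nonneg _
  set h0 : ℝ := max (1 / 2) (1 - em + γ / 8 + γ / 16) with hh0
  have hh00 : 0 < h0 := lt_max_of_lt_left (by norm_num)
  have hNZ : ∀ y : Fin 20 → ℝ, NZ G F X N y h0 := by
    intro y
    refine nz_of_cand h hs (hmir y) hh00 fun l n' μ' d' h' hcand => ?_
    by_contra hlt
    push Not at hlt
    have hh'2 : 1 / 2 < h' := lt_of_le_of_lt (le_max_left _ _) hlt
    have hpos : 0 < h' := by linarith
    have hid := cand_id h hcand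
    obtain ⟨hl, hw, hd, heq⟩ := hcand
    have hl1 : (1 : ℝ) ≤ l := by
      have : (1 : ℤ) ≤ l := hl
      exact_mod_cast this
    have hnn := h.nonneg (lam G μ' + (l : ℝ) • xr X N)
    have hl2 : (l : ℝ) ^ 2 * h' ≤ nu G 0 0 l n' μ' := by linarith
    rcases hw with ⟨hw1, v, hv⟩ | ⟨hw1, hw2⟩
    · have hnu : nu G 0 0 l n' μ' = 1 := hw1
      rw [hnu] at hl2 hid
      have hl' : l = 1 := by
        by_contra hne
        have : (2 : ℤ) ≤ l := by omega
        have h2 : (2 : ℝ) ≤ l := by exact_mod_cast this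
        nlinarith
      subst hl'
      simp only [Int.cast_one, one_pow, one_mul, one_smul] at hid
      have hlam : lam G μ' = fun i => (v i : ℝ) := by rw [hv]; exact lam_mulVec h v
      -- |v + x|^2 >= (1 - θ) |v - λ|^2 - (1/θ) |λ + x|^2
      have hmv := hmin v
      set u : Fin 20 → ℝ := fun i => (v i : ℝ) - lam G μ i with hu
      have e1 : lam G μ' + xr X N = u + (lam G μ + xr X N) := by
        rw [hlam]
        funext i
        simp [hu]
        ring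
      have quad : ∀ u w : Fin 20 → ℝ, bf G (u + w) (u + w) =
          bf G u u + 2 * bf G u w + bf G w w := by
        intro u w
        rw [bf_add_left, bf_add_right, bf_add_right, bf_comm h.symm w u]
        ring
      have e2 : bf G (u + (lam G μ + xr X N)) (u + (lam G μ + xr X N)) =
          bf G u u + 2 * bf G u (lam G μ + xr X N) + r := quad _ _
      have e3 := h.nonneg (θ • u + (lam G μ + xr X N))
      have e4 : bf G (θ • u + (lam G μ + xr X N)) (θ • u + (lam G μ + xr X N)) =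
          θ ^ 2 * bf G u u + 2 * θ * bf G u (lam G μ + xr X N) + r := by
        rw [quad, bf_smul_left, bf_smul_right, bf_smul_left]
        ring
      rw [e4] at e3
      have e5 : -(θ * bf G u u + r / θ) ≤ 2 * bf G u (lam G μ + xr X N) := by
        have h5 : 0 ≤ (θ ^ 2 * bf G u u + 2 * θ * bf G u (lam G μ + xr X N) + r) / θ :=
          div_nonneg e3 hθ0.le
        have h6 : (θ ^ 2 * bf G u u + 2 * θ * bf G u (lam G μ + xr X N) + r) / θ =
            θ * bf G u u + 2 * bf G u (lam G μ + xr X N) + r / θ := by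
          field_simp
        rw [h6] at h5
        linarith
      have e6 : r / θ ≤ γ / 8 := by
        rw [div_le_iff₀ hθ0]
        have : ρ ≤ θ * (γ / 8) := min_le_left _ _
        linarith
      rw [e1, e2] at hid
      have e7 : (1 - θ) * bf G u u ≤ bf G u u + 2 * bf G u (lam G μ + xr X N) + r + γ / 8 := by
        linarith
      have e8 : (1 - θ) * (2 * em) ≤ (1 - θ) * bf G u u :=
        mul_le_mul_of_nonneg_left (by linarith) (by linarith)
      have e9 : h' ≤ 1 - em + γ / 8 + γ / 16 := by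
        have e10 : θ * em ≤ γ / 8 := by nlinarith
        nlinarith
      have := le_max_right (1 / 2) (1 - em + γ / 8 + γ / 16)
      linarith
    · have hnu : nu G 0 0 l n' μ' ≤ 1 / 2 := hw2
      have : (1 : ℝ) ≤ (l : ℝ) ^ 2 := by nlinarith
      nlinarith
  refine coef_zero hGrow hFC h H hc hφ hN hmir hh00 hNZ μ n ?_
  simp only [Nat.cast_one, one_smul, one_mul, mul_one]
  rw [← hr]
  have hb1 : h0 < κ - r / 2 := by
    have hρ1 : ρ ≤ θ * (γ / 8) := min_le_left _ _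
    have hρ2 : ρ ≤ κ - 1 / 2 := min_le_right _ _
    refine max_lt ?_ ?_
    · linarith
    · have : θ * (γ / 8) ≤ γ / 16 := by nlinarith
      linarith
  linarith

end

end Pool.Agent.R396.F
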