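import Pool.Agent.R396.F.VV

set_option autoImplicit false

/-!
# Expansions in powers of `q` with a real leading exponent, and Serre derivatives
-/

open Complex Set Topology Metric

namespace Pool.Agent.R396.F

open Pool.Agent.Y813.RL

noncomputable section

/-- The upper half plane as a set. -/
def UH : Set ℂ := {τ | 0 < τ.im}

lemma isOpen_UH : IsOpen UH := isOpen_lt continuous_const Complex.continuous_im

lemma ne_zero_UH {τ : ℂ} (h : τ ∈ UH) : τ ≠ 0 := by
  rintro rfl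
  simp [UH] at h

lemma inv_UH {τ : ℂ} (h : τ ∈ UH) : -1 / τ ∈ UH := by
  have h0 := ne_zero_UH h
  show 0 < (-1 / τ).im
  have h1 : (-1 / τ).im = τ.im / Complex.normSq τ := by
    rw [neg_div, one_div, Complex.neg_im, Complex.inv_im]
    ring
  rw [h1]
  exact div_pos h (Complex.normSq_pos.mpr h0)

lemma add_UH {τ : ℂ} (h : τ ∈ UH) : τ + 1 ∈ UH := by
  have h' : 0 < τ.im := h
  show 0 < (τ + 1).im
  simpa using h'

lemma ee_addq (x y : ℂ) : ee (x + y) = ee x * ee y := by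
  unfold ee
  rw [← Complex.exp_add]
  congr 1
  ring

lemma ee_ne (x : ℂ) : ee x ≠ 0 := Complex.exp_ne_zero _

lemma ee_intq (n : ℤ) : ee n = 1 := by
  unfold ee
  rw [show 2 * (Real.pi : ℂ) * I * n = n * (2 * Real.pi * I) by ring]
  exact Complex.exp_int_mul_two_pi_mul_I n

lemma ee_zero : ee 0 = 1 := by simp [ee]

lemma ee_norm (τ : ℂ) : ‖ee τ‖ = Real.exp (-(2 * Real.pi * τ.im)) := by
  unfold ee
  rw [Complex.norm_exp]
  congr 1
  simp [mul_assoc]

lemma ee_norm_real (x : ℝ) (τ : ℂ) : ‖ee (x * τ)‖ = Real.exp (-(2 * Real.pi * x * τ.im)) := by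
  rw [ee_norm]
  congr 1
  simp
  ring

lemma ee_norm_ofReal (x : ℝ) : ‖ee (x : ℂ)‖ = 1 := by
  rw [ee_norm]
  simp

lemma ee_hasDerivAt (x τ : ℂ) :
    HasDerivAt (fun τ => ee (x * τ)) (2 * Real.pi * I * x * ee (x * τ)) τ := by
  unfold ee
  have h : HasDerivAt (fun τ : ℂ => 2 * Real.pi * I * (x * τ)) (2 * Real.pi * I * x) τ := by
    have := ((hasDerivAt_id τ).const_mul x).const_mul (2 * Real.pi * I)
    simpa using this
  exact h.cexp.congr_deriv (by ring)

lemma ee_mem {τ : ℂ} (h : τ ∈ UH) : ee τ ∈ ball (0 : ℂ) 1 := by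
  rw [mem_ball_zero_iff, ee_norm, Real.exp_lt_one_iff]
  have : 0 < τ.im := h
  have : 0 < 2 * Real.pi * τ.im := by positivity
  linarith

lemma ee_surj {q : ℂ} (hq : q ∈ ball (0 : ℂ) 1) (h0 : q ≠ 0) : ∃ τ ∈ UH, ee τ = q := by
  refine ⟨log q / (2 * Real.pi * I), ?_, ?_⟩
  · show 0 < (log q / (2 * Real.pi * I)).im
    have h1 : log q / (2 * Real.pi * I) = -((log q * I) / ((2 * Real.pi : ℝ) : ℂ)) := by
      have : (Real.pi : ℂ) ≠ 0 := by exact_mod_cast Real.pi_ne_zero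
      field_simp
      push_cast
      rw [I_sq]
      ring
    rw [h1, Complex.neg_im, Complex.div_ofReal_im]
    simp only [mul_im, I_re, mul_zero, I_im, mul_one, log_re, add_zero]
    have h2 : Real.log ‖q‖ < 0 := Real.log_neg (norm_pos_iff.mpr h0) (by simpa using hq)
    have h3 : Real.log ‖q‖ / (2 * Real.pi) < 0 := div_neg_of_neg_of_pos h2 (by positivity)
    linarith
  · unfold ee
    have h4 : 2 * Real.pi * I * (log q / (2 * Real.pi * I)) = log q := by
      field_simp [Complex.two_pi_I_ne_zero]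
    rw [h4, Complex.exp_log h0]

lemma qParam_eq_ee (z : ℂ) : Function.Periodic.qParam 1 z = ee z := by
  unfold Function.Periodic.qParam ee
  simp

/-- `F` has an expansion `q^x (a + O(q))` with holomorphic coefficient function on the disc. -/
def QE (x : ℝ) (F : ℂ → ℂ) (a : ℂ) : Prop :=
  ∃ g : ℂ → ℂ, DifferentiableOn ℂ g (ball 0 1) ∧ g 0 = a ∧ ∀ τ ∈ UH, F τ = ee (x * τ) * g (ee τ)

lemma QE.congr {x : ℝ} {F F' : ℂ → ℂ} {a : ℂ} (h : QE x F a) (hF : ∀ τ ∈ UH, F' τ = F τ) :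
    QE x F' a := by
  obtain ⟨g, hg, h0, h1⟩ := h
  exact ⟨g, hg, h0, fun τ hτ => (hF τ hτ).trans (h1 τ hτ)⟩

lemma QE.cast {x y : ℝ} {F : ℂ → ℂ} {a b : ℂ} (h : QE x F a) (hx : x = y) (ha : a = b) :
    QE y F b := by
  subst hx ha
  exact h

lemma QE.add {x : ℝ} {F F' : ℂ → ℂ} {a b : ℂ} (h : QE x F a) (h' : QE x F' b) :
    QE x (fun τ => F τ + F' τ) (a + b) := by
  obtain ⟨g, hg, h0, h1⟩ := h
  obtain ⟨g', hg', h0', h1'⟩ := h'
  refine ⟨fun q => g q + g' q, hg.add hg', by simp [h0, h0'], fun τ hτ => ?_⟩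
  show F τ + F' τ = _
  rw [h1 τ hτ, h1' τ hτ]
  ring

lemma QE.const_mul {x : ℝ} {F : ℂ → ℂ} {a : ℂ} (c : ℂ) (h : QE x F a) :
    QE x (fun τ => c * F τ) (c * a) := by
  obtain ⟨g, hg, h0, h1⟩ := h
  refine ⟨fun q => c * g q, hg.const_mul c, by simp [h0], fun τ hτ => ?_⟩
  show c * F τ = _
  rw [h1 τ hτ]
  ring

lemma QE.mul {x y : ℝ} {F F' : ℂ → ℂ} {a b : ℂ} (h : QE x F a) (h' : QE y F' b) :
    QE (x + y) (fun τ => F τ * F' τ) (a * b) := by
  obtain ⟨g, hg, h0, h1⟩ := h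
  obtain ⟨g', hg', h0', h1'⟩ := h'
  refine ⟨fun q => g q * g' q, hg.mul hg', by simp [h0, h0'], fun τ hτ => ?_⟩
  show F τ * F' τ = _
  rw [h1 τ hτ, h1' τ hτ]
  push_cast
  rw [add_mul, ee_addq]
  ring

/-- The derivative of a `q`-expansion. -/
lemma QE.deriv {x : ℝ} {F : ℂ → ℂ} {a : ℂ} (h : QE x F a) :
    QE x (fun τ => (2 * Real.pi * I)⁻¹ * deriv F τ) (x * a) := by
  obtain ⟨g, hg, h0, h1⟩ := h
  refine ⟨fun q => x * g q + q * _root_.deriv g q,
    (hg.const_mul _).add (differentiableOn_id.mul (hg.deriv isOpen_ball)), by simp [h0],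
    fun τ hτ => ?_⟩
  have h2 : F =ᶠ[𝓝 τ] fun τ => ee (x * τ) * g (ee τ) := by
    filter_upwards [isOpen_UH.mem_nhds hτ] with z hz using h1 z hz
  have h3 : HasDerivAt g (_root_.deriv g (ee τ)) (ee τ) :=
    (hg.differentiableAt (isOpen_ball.mem_nhds (ee_mem hτ))).hasDerivAt
  have h4 : HasDerivAt (fun τ => ee τ) (2 * Real.pi * I * ee τ) τ := by
    have := ee_hasDerivAt 1 τ
    simpa using this
  have h5 := (ee_hasDerivAt x τ).mul (h3.comp τ h4)
  have h6 : _root_.deriv F τ = _ := h2.deriv_eq.trans h5.deriv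
  show (2 * Real.pi * I)⁻¹ * _root_.deriv F τ = _
  rw [h6]
  have : (2 * Real.pi * I : ℂ) ≠ 0 := Complex.two_pi_I_ne_zero
  simp only [Function.comp_apply]
  field_simp

lemma QE.norm_T {x : ℝ} {F : ℂ → ℂ} {a : ℂ} (h : QE x F a) {τ : ℂ} (hτ : τ ∈ UH) :
    ‖F (τ + 1)‖ = ‖F τ‖ := by
  obtain ⟨g, hg, h0, h1⟩ := h
  rw [h1 τ hτ, h1 _ (add_UH hτ), norm_mul, norm_mul]
  have e1 : ee (τ + 1) = ee τ := by
    rw [ee_addq]
    have := ee_intq 1
    push_cast at this
    rw [this, mul_one]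
  rw [e1, ee_norm_real, ee_norm_real]
  simp

lemma QE.bound {x : ℝ} {F : ℂ → ℂ} {a : ℂ} (h : QE x F a) :
    ∃ C : ℝ, ∀ τ : ℂ, 1 / 2 ≤ τ.im → ‖F τ‖ ≤ C * Real.exp (-(2 * Real.pi * x * τ.im)) := by
  obtain ⟨g, hg, h0, h1⟩ := h
  have hr : Real.exp (-Real.pi) < 1 := by
    rw [Real.exp_lt_one_iff]
    linarith [Real.pi_pos]
  have hc : IsCompact (closedBall (0 : ℂ) (Real.exp (-Real.pi))) := isCompact_closedBall _ _
  obtain ⟨C, hC⟩ := hc.exists_bound_of_continuousOn
    (hg.continuousOn.mono (closedBall_subset_ball hr))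
  refine ⟨C, fun τ hτ => ?_⟩
  have hτ' : τ ∈ UH := by
    show 0 < τ.im
    linarith
  rw [h1 τ hτ', norm_mul, ee_norm_real, mul_comm]
  refine mul_le_mul_of_nonneg_right (hC _ ?_) (Real.exp_pos _).le
  rw [mem_closedBall_zero_iff, ee_norm]
  apply Real.exp_le_exp.mpr
  nlinarith [Real.pi_pos]

lemma QE.shift {x : ℝ} {F : ℂ → ℂ} (h : QE x F 0) : ∃ b, QE (x + 1) F b := by
  obtain ⟨g, hg, h0, h1⟩ := h
  refine ⟨dslope g 0 0, dslope g 0, ?_, rfl, fun τ hτ => ?_⟩
  · exact (Complex.differentiableOn_dslope (ball_mem_nhds 0 one_pos)).mpr hg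
  · rw [h1 τ hτ]
    have h2 := sub_smul_dslope g 0 (ee τ)
    rw [h0, sub_zero, sub_zero, smul_eq_mul] at h2
    rw [← h2]
    push_cast
    rw [add_mul, ee_addq, one_mul]
    ring

lemma QE.eq_zero {x : ℝ} {F : ℂ → ℂ} {a : ℂ} (h : QE x F a) (hF : ∀ τ ∈ UH, F τ = 0) : a = 0 := by
  obtain ⟨g, hg, h0, h1⟩ := h
  have h2 : ∀ q ∈ ball (0 : ℂ) 1, q ≠ 0 → g q = 0 := by
    intro q hq hq0
    obtain ⟨τ, hτ, rfl⟩ := ee_surj hq hq0
    have := h1 τ hτ
    rw [hF τ hτ] at this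
    rcases mul_eq_zero.mp this.symm with h3 | h3
    · exact absurd h3 (ee_ne _)
    · exact h3
  have h3 : ContinuousAt g 0 :=
    (hg.differentiableAt (ball_mem_nhds 0 one_pos)).continuousAt
  have h4 : Filter.Tendsto g (𝓝[≠] 0) (𝓝 (g 0)) := h3.tendsto.mono_left nhdsWithin_le_nhds
  have h5 : Filter.Tendsto g (𝓝[≠] 0) (𝓝 0) := by
    apply tendsto_const_nhds.congr'
    filter_upwards [nhdsWithin_le_nhds (ball_mem_nhds (0 : ℂ) one_pos), self_mem_nhdsWithin]
      with q hq hq0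
    exact (h2 q hq hq0).symm
  rw [← h0]
  exact tendsto_nhds_unique h4 h5

/-- leading coefficient -/
lemma QE.lead {x : ℝ} {F : ℂ → ℂ} {a : ℂ} (h : QE x F a) (hF : ∃ τ ∈ UH, F τ ≠ 0) :
    ∃ (n : ℕ) (b : ℂ), b ≠ 0 ∧ QE (x + n) F b := by
  obtain ⟨g, hg, h0, h1⟩ := h
  have hgn : AnalyticOnNhd ℂ g (ball 0 1) := hg.analyticOnNhd isOpen_ball
  have hne : ¬ ∀ᶠ z in 𝓝 (0 : ℂ), g z = 0 := by
    intro hcon
    have := hgn.eqOn_zero_of_preconnected_of_eventuallyEq_zero
      (convex_ball (0 : ℂ) 1).isPreconnected (mem_ball_self one_pos) hcon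
    obtain ⟨τ, hτ, hτ0⟩ := hF
    apply hτ0
    rw [h1 τ hτ, this (ee_mem hτ)]
    simp
  obtain ⟨n, g₁, hg₁, hg₁0, hev⟩ :=
    ((hgn 0 (mem_ball_self one_pos)).exists_eventuallyEq_pow_smul_nonzero_iff).mpr hne
  refine ⟨n, g₁ 0, hg₁0, Function.update (fun q => g q / q ^ n) 0 (g₁ 0), ?_, by simp, ?_⟩
  · intro q hq
    apply DifferentiableAt.differentiableWithinAt
    by_cases hq0 : q = 0
    · subst hq0
      have : Function.update (fun q => g q / q ^ n) 0 (g₁ 0) =ᶠ[𝓝 0] g₁ := by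
        filter_upwards [hev] with z hz
        by_cases hz0 : z = 0
        · subst hz0
          simp
        · rw [Function.update_of_ne hz0, hz, sub_zero, smul_eq_mul]
          field_simp
      exact this.differentiableAt_iff.mpr hg₁.differentiableAt
    · have : Function.update (fun q => g q / q ^ n) 0 (g₁ 0) =ᶠ[𝓝 q] fun q => g q / q ^ n := by
        filter_upwards [isOpen_ne.mem_nhds hq0] with z hz
        rw [Function.update_of_ne hz]
      rw [this.differentiableAt_iff]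
      exact ((hg.differentiableAt (isOpen_ball.mem_nhds hq)).div (differentiableAt_pow n)
        (pow_ne_zero n hq0))
  · intro τ hτ
    rw [h1 τ hτ, Function.update_of_ne (ee_ne τ)]
    have h2 : ee ((x + n : ℝ) * τ) = ee (x * τ) * ee τ ^ n := by
      push_cast
      rw [add_mul, ee_addq]
      congr 1
      unfold ee
      rw [← Complex.exp_nat_mul]
      congr 1
      ring
    rw [h2]
    have := pow_ne_zero n (ee_ne τ)
    field_simp

/-- The limit at the cusp along the imaginary axis. -/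
lemma QE.tendsto {x : ℝ} {F : ℂ → ℂ} {a : ℂ} (h : QE x F a) :
    Filter.Tendsto (fun s : ℝ => ee (-(x * (s * I))) * F (s * I)) Filter.atTop (𝓝 a) := by
  obtain ⟨g, hg, h0, h1⟩ := h
  have h2 : Filter.Tendsto (fun s : ℝ => ee (s * I)) Filter.atTop (𝓝 0) := by
    rw [tendsto_zero_iff_norm_tendsto_zero]
    have h3 : (fun s : ℝ => ‖ee (s * I)‖) = fun s : ℝ => Real.exp (-(2 * Real.pi * s)) := by
      funext s
      rw [ee_norm]
      simp
    rw [h3]
    have h4 : Filter.Tendsto (fun y : ℝ => (2 * Real.pi) * y)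
        Filter.atTop Filter.atTop := Filter.tendsto_id.const_mul_atTop (by positivity)
    exact Real.tendsto_exp_neg_atTop_nhds_zero.comp h4
  have h3 : ContinuousAt g 0 :=
    (hg.differentiableAt (ball_mem_nhds 0 one_pos)).continuousAt
  have h4 := h3.tendsto.comp h2
  rw [h0] at h4
  refine h4.congr' ?_
  filter_upwards [Filter.eventually_gt_atTop 0] with s hs
  have hs' : (s : ℂ) * I ∈ UH := by
    show 0 < ((s : ℂ) * I).im
    simpa using hs
  rw [h1 _ hs', ← mul_assoc, ← ee_addq]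
  simp [ee_zero]

/-- A twisted periodic function of restricted growth has an expansion. -/
lemma rep (F : ℂ → ℂ) (hF : DifferentiableOn ℂ F UH) (α x β : ℝ) (n : ℤ) (hx : x + α = n)
    (hT : ∀ τ ∈ UH, F (τ + 1) = ee (-(α : ℂ)) * F τ)
    (hb : ∃ C : ℝ, ∀ τ : ℂ, 1 / 2 ≤ τ.im → ‖F τ‖ ≤ C * Real.exp (2 * Real.pi * β * τ.im))
    (hxβ : x + β < 1) : ∃ a, QE x F a := by
  classical
  obtain ⟨C, hC⟩ := hb
  set h : ℂ → ℂ := fun τ => if 0 < τ.im then F τ * ee (-((x - 1 : ℝ) * τ)) else 0 with hh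
  have hper : Function.Periodic h ((1 : ℝ) : ℂ) := by
    intro τ
    simp only [hh]
    by_cases hτ : 0 < τ.im
    · have h1 : 0 < (τ + ((1 : ℝ) : ℂ)).im := by simpa using hτ
      rw [if_pos h1, if_pos hτ]
      push_cast
      rw [hT τ hτ]
      have h2 : -((x - 1 : ℂ) * (τ + 1)) = -((x - 1) * τ) + -(x - 1 : ℂ) := by ring
      rw [h2, ee_addq]
      have h3 : ee (-(α : ℂ)) * ee (-(x - 1 : ℂ)) = 1 := by
        rw [← ee_addq]
        have h4 : -(α : ℂ) + -(x - 1 : ℂ) = ((-n + 1 : ℤ) : ℂ) := by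
          have : (x : ℂ) + α = n := by exact_mod_cast hx
          push_cast
          rw [← this]
          ring
        rw [h4, ee_intq]
      linear_combination (F τ * ee (-((x - 1 : ℂ) * τ))) * h3
    · have h1 : ¬ 0 < (τ + ((1 : ℝ) : ℂ)).im := by simpa using hτ
      rw [if_neg h1, if_neg hτ]
  have hdiff : ∀ τ ∈ UH, DifferentiableAt ℂ h τ := by
    intro τ hτ
    have h1 : h =ᶠ[𝓝 τ] fun τ => F τ * ee (-((x - 1 : ℝ) * τ)) := by
      filter_upwards [isOpen_UH.mem_nhds hτ] with z hz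
      exact if_pos hz
    rw [h1.differentiableAt_iff]
    apply (hF.differentiableAt (isOpen_UH.mem_nhds hτ)).mul
    have h2 : (fun τ : ℂ => ee (-((x - 1 : ℝ) * τ))) = fun τ => ee ((-((x - 1 : ℝ) : ℂ)) * τ) := by
      funext τ
      congr 1
      ring
    rw [h2]
    exact (ee_hasDerivAt _ τ).differentiableAt
  have hbd : ∀ τ : ℂ, 1 / 2 ≤ τ.im →
      ‖h τ‖ ≤ C * Real.exp (-((2 * Real.pi * (1 - x - β)) * τ.im)) := by
    intro τ hτ
    have hτ' : 0 < τ.im := by linarith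
    simp only [hh]
    rw [if_pos hτ', norm_mul]
    have h2 : -(((x - 1 : ℝ) : ℂ) * τ) = ((-(x - 1) : ℝ) : ℂ) * τ := by push_cast; ring
    rw [h2, ee_norm_real]
    refine (mul_le_mul_of_nonneg_right (hC τ hτ) (Real.exp_pos _).le).trans (le_of_eq ?_)
    rw [mul_assoc, ← Real.exp_add]
    congr 2
    ring
  have hz : Filter.ZeroAtFilter (Filter.comap Complex.im Filter.atTop) h := by
    have h1 : Filter.Tendsto (fun y : ℝ => C * Real.exp (-((2 * Real.pi * (1 - x - β)) * y)))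
        Filter.atTop (𝓝 0) := by
      have hpos : 0 < 2 * Real.pi * (1 - x - β) := by
        have : 0 < 1 - x - β := by linarith
        positivity
      have h1 : Filter.Tendsto (fun y : ℝ => (2 * Real.pi * (1 - x - β)) * y)
          Filter.atTop Filter.atTop := Filter.tendsto_id.const_mul_atTop hpos
      have h2 := (Real.tendsto_exp_neg_atTop_nhds_zero.comp h1).const_mul C
      simpa using h2
    have h2 := h1.comp (Filter.tendsto_comap (f := Complex.im) (x := Filter.atTop))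
    refine squeeze_zero_norm' ?_ h2
    filter_upwards [Filter.preimage_mem_comap (Filter.Ici_mem_atTop (1 / 2 : ℝ))] with τ hτ
    exact hbd τ hτ
  have hev : ∀ᶠ z in Filter.comap Complex.im Filter.atTop, DifferentiableAt ℂ h z := by
    filter_upwards [Filter.preimage_mem_comap (Filter.Ioi_mem_atTop (0 : ℝ))] with τ hτ
    exact hdiff τ hτ
  set g := Function.Periodic.cuspFunction 1 h with hg
  have hg0 : g 0 = 0 := Function.Periodic.cuspFunction_zero_of_zero_at_inf one_pos hz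
  have hgd : DifferentiableOn ℂ g (ball 0 1) := by
    intro q hq
    apply DifferentiableAt.differentiableWithinAt
    by_cases hq0 : q = 0
    · subst hq0
      exact Function.Periodic.differentiableAt_cuspFunction_zero one_pos hper hev
        hz.boundedAtFilter
    · obtain ⟨τ, hτ, rfl⟩ := ee_surj hq hq0
      rw [← qParam_eq_ee]
      exact Function.Periodic.differentiableAt_cuspFunction one_ne_zero hper (hdiff τ hτ)
  have hq : QE (x - 1) F 0 := by
    refine ⟨g, hgd, hg0, fun τ hτ => ?_⟩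
    rw [← qParam_eq_ee τ, hg, Function.Periodic.eq_cuspFunction one_ne_zero hper]
    simp only [hh]
    rw [if_pos (show 0 < τ.im from hτ), mul_comm (F τ), ← mul_assoc, ← ee_addq, add_neg_cancel,
      ee_zero, one_mul]
  obtain ⟨b, hb⟩ := hq.shift
  exact ⟨b, hb.cast (by ring) rfl⟩

end

end Pool.Agent.R396.F
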