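import Pool.Agent.R396.F.QE

set_option autoImplicit false

/-!
# The Eisenstein series `E_2`, `E_4`, Serre derivatives and the second order operator
-/

open Complex Set Topology Metric

namespace Pool.Agent.R396.F

open Pool.Agent.Y813.RL

noncomputable section

lemma Dl_QE : QE 1 Dl 1 := by
  refine ⟨fun q => ∏' i, (1 - q ^ (i + 1)) ^ 24,
    ModularForm.differentiableOn_tprod_one_sub_pow_pow 24, by simp, fun τ hτ => ?_⟩
  rw [Dl_eq hτ, ModularForm.discriminant_eq_q_prod]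
  simp only [ModularForm.eta_q, qParam_eq_ee]
  simp

lemma QE.div {x y : ℝ} {F F' : ℂ → ℂ} {a b : ℂ} (h : QE x F a) (h' : QE y F' b) (hb : b ≠ 0)
    (hF' : ∀ τ ∈ UH, F' τ ≠ 0) : QE (x - y) (fun τ => F τ / F' τ) (a / b) := by
  obtain ⟨g, hg, h0, h1⟩ := h
  obtain ⟨g', hg', h0', h1'⟩ := h'
  have hne : ∀ q ∈ ball (0 : ℂ) 1, g' q ≠ 0 := by
    intro q hq
    by_cases hq0 : q = 0
    · rw [hq0, h0']
      exact hb
    · obtain ⟨τ, hτ, rfl⟩ := ee_surj hq hq0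
      intro h2
      apply hF' τ hτ
      rw [h1' τ hτ, h2, mul_zero]
  refine ⟨fun q => g q / g' q, hg.div hg' hne, by simp [h0, h0'], fun τ hτ => ?_⟩
  show F τ / F' τ = _
  rw [h1 τ hτ, h1' τ hτ]
  have h3 := hne _ (ee_mem hτ)
  have h4 : ee ((x - y : ℝ) * τ) * ee (y * τ) = ee (x * τ) := by
    rw [← ee_addq]
    congr 1
    push_cast
    ring
  rw [← h4]
  have h5 := ee_ne (y * τ)
  generalize ee (y * τ) = w at h5
  generalize ee ((x - y : ℝ) * τ) = w'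
  field_simp

/-- The Eisenstein series of weight two. -/
def E (τ : ℂ) : ℂ := (2 * Real.pi * I)⁻¹ * deriv Dl τ / Dl τ

lemma E_QE : QE 0 E 1 :=
  (Dl_QE.deriv.div Dl_QE one_ne_zero fun _ hτ => Dl_ne hτ).cast (by ring) (by simp)

lemma E_diff : DifferentiableOn ℂ E UH :=
  ((Dl_diff.deriv isOpen_UH).const_mul _).div Dl_diff fun _ hτ => Dl_ne hτ

lemma hasDerivAt_neg_inv {τ : ℂ} (hτ : τ ∈ UH) :
    HasDerivAt (fun τ : ℂ => -1 / τ) (1 / τ ^ 2) τ := by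
  have h0 := ne_zero_UH hτ
  have := (hasDerivAt_inv h0).neg
  have h2 : (fun τ : ℂ => -1 / τ) = fun τ => -(τ⁻¹) := by
    funext z
    rw [neg_div, one_div]
  rw [h2]
  exact this.congr_deriv (by rw [neg_neg, one_div])

lemma hasDerivAt_comp_inv {φ : ℂ → ℂ} (hφ : DifferentiableOn ℂ φ UH) {τ : ℂ} (hτ : τ ∈ UH) :
    HasDerivAt (fun τ => φ (-1 / τ)) (deriv φ (-1 / τ) * (1 / τ ^ 2)) τ :=
  ((hφ.differentiableAt (isOpen_UH.mem_nhds (inv_UH hτ))).hasDerivAt).comp τ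
    (hasDerivAt_neg_inv hτ)

lemma E_S {τ : ℂ} (hτ : τ ∈ UH) :
    E (-1 / τ) = τ ^ 2 * E τ + 12 * (2 * Real.pi * I)⁻¹ * τ := by
  have h0 := ne_zero_UH hτ
  have h1 := hasDerivAt_comp_inv (φ := Dl) Dl_diff hτ
  have h2 : (fun τ => Dl (-1 / τ)) =ᶠ[𝓝 τ] fun τ => τ ^ 12 * Dl τ := by
    filter_upwards [isOpen_UH.mem_nhds hτ] with z hz using Dl_S hz
  have h3 : HasDerivAt Dl (deriv Dl τ) τ :=
    (Dl_diff.differentiableAt (isOpen_UH.mem_nhds hτ)).hasDerivAt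
  have h4 := (hasDerivAt_pow 12 τ).mul h3
  have h5 := h1.unique (h4.congr_of_eventuallyEq h2)
  have h6 := Dl_ne hτ
  unfold E
  rw [Dl_S hτ]
  have h7 : deriv Dl (-1 / τ) = τ ^ 2 * (12 * τ ^ 11 * Dl τ + τ ^ 12 * deriv Dl τ) := by
    have h8 : deriv Dl (-1 / τ) = deriv Dl (-1 / τ) * (1 / τ ^ 2) * τ ^ 2 := by
      field_simp
    rw [h8, h5]
    push_cast
    ring
  rw [h7]
  field_simp
  ring

/-- The Serre derivative on forms of weight `-k`. -/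
def sd (k : ℂ) (F : ℂ → ℂ) (τ : ℂ) : ℂ := (2 * Real.pi * I)⁻¹ * deriv F τ + k / 12 * E τ * F τ

lemma sd_diff {F : ℂ → ℂ} (k : ℂ) (hF : DifferentiableOn ℂ F UH) :
    DifferentiableOn ℂ (sd k F) UH :=
  ((hF.deriv isOpen_UH).const_mul _).add ((E_diff.const_mul _).mul hF)

lemma sd_congr {F F' : ℂ → ℂ} (k : ℂ) (h : ∀ τ ∈ UH, F τ = F' τ) :
    ∀ τ ∈ UH, sd k F τ = sd k F' τ := by
  intro τ hτ
  have h2 : F =ᶠ[𝓝 τ] F' := by
    filter_upwards [isOpen_UH.mem_nhds hτ] with z hz using h z hz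
  unfold sd
  rw [h2.deriv_eq, h τ hτ]

lemma sd_QE {x : ℝ} {F : ℂ → ℂ} {a : ℂ} (k : ℂ) (h : QE x F a) :
    QE x (sd k F) ((x + k / 12) * a) := by
  have h1 := h.deriv
  have h2 := ((E_QE.const_mul (k / 12)).mul h).cast (zero_add x) rfl
  exact (h1.add h2).cast rfl (by ring)

lemma sd_S {ι : Type*} (s : Finset ι) (m : ι → ℂ) (F : ι → ℂ → ℂ) (Φ : ℂ → ℂ) (c : ℂ) (k : ℕ)
    (hF : ∀ i ∈ s, DifferentiableOn ℂ (F i) UH)
    (h : ∀ τ ∈ UH, Φ τ = c * τ ^ (k + 2) * ∑ i ∈ s, m i * F i (-1 / τ)) :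
    ∀ τ ∈ UH, sd (k + 2) Φ τ = c * τ ^ k * ∑ i ∈ s, m i * sd (k + 2) (F i) (-1 / τ) := by
  intro τ hτ
  have h0 := ne_zero_UH hτ
  have h1 : HasDerivAt (fun τ => ∑ i ∈ s, m i * F i (-1 / τ))
      (∑ i ∈ s, m i * (deriv (F i) (-1 / τ) * (1 / τ ^ 2))) τ := by
    apply HasDerivAt.fun_sum
    intro i hi
    exact (hasDerivAt_comp_inv (hF i hi) hτ).const_mul _
  have h2 := ((hasDerivAt_pow (k + 2) τ).const_mul c).mul h1
  have h3 : Φ =ᶠ[𝓝 τ] fun τ => c * τ ^ (k + 2) * ∑ i ∈ s, m i * F i (-1 / τ) := by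
    filter_upwards [isOpen_UH.mem_nhds hτ] with z hz using h z hz
  have h4 := h3.deriv_eq.trans h2.deriv
  set P := ∑ i ∈ s, m i * F i (-1 / τ) with hP
  set Q := ∑ i ∈ s, m i * deriv (F i) (-1 / τ) with hQ
  have h5 : ∑ i ∈ s, m i * (deriv (F i) (-1 / τ) * (1 / τ ^ 2)) = Q * (1 / τ ^ 2) := by
    rw [hQ, Finset.sum_mul]
    exact Finset.sum_congr rfl fun i _ => by ring
  have h6 : ∑ i ∈ s, m i * sd (k + 2) (F i) (-1 / τ) =
      (2 * Real.pi * I)⁻¹ * Q + (k + 2) / 12 * E (-1 / τ) * P := by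
    rw [hQ, hP, Finset.mul_sum, Finset.mul_sum, ← Finset.sum_add_distrib]
    refine Finset.sum_congr rfl fun i _ => ?_
    unfold sd
    ring
  rw [h6]
  unfold sd
  have h7 : Φ τ = c * τ ^ (k + 2) * P := h τ hτ
  rw [h4, h5, h7, E_S hτ]
  rw [show k + 2 - 1 = k + 1 by omega]
  generalize (2 * (Real.pi : ℂ) * I)⁻¹ = u
  push_cast
  field_simp
  ring

/-- The Eisenstein series of weight four. -/
def E4 (τ : ℂ) : ℂ := -12 * sd (-1) E τ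

lemma E4_QE : QE 0 E4 1 :=
  ((sd_QE (-1) E_QE).const_mul (-12)).cast rfl (by norm_num)

lemma E4_diff : DifferentiableOn ℂ E4 UH := (sd_diff (-1) E_diff).const_mul _

lemma E4_S {τ : ℂ} (hτ : τ ∈ UH) : E4 (-1 / τ) = τ ^ 4 * E4 τ := by
  have h0 := ne_zero_UH hτ
  have h1 := hasDerivAt_comp_inv (φ := E) E_diff hτ
  have h2 : (fun τ => E (-1 / τ)) =ᶠ[𝓝 τ] fun τ => τ ^ 2 * E τ + 12 * (2 * Real.pi * I)⁻¹ * τ := by
    filter_upwards [isOpen_UH.mem_nhds hτ] with z hz using E_S hz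
  have h3 : HasDerivAt E (deriv E τ) τ :=
    (E_diff.differentiableAt (isOpen_UH.mem_nhds hτ)).hasDerivAt
  have h4 := ((hasDerivAt_pow 2 τ).mul h3).add
    ((hasDerivAt_id τ).const_mul (12 * (2 * (Real.pi : ℂ) * I)⁻¹))
  have h5 := h1.unique (h4.congr_of_eventuallyEq h2)
  have h7 : deriv E (-1 / τ) =
      τ ^ 2 * (2 * τ * E τ + τ ^ 2 * deriv E τ + 12 * (2 * Real.pi * I)⁻¹) := by
    have h8 : deriv E (-1 / τ) = deriv E (-1 / τ) * (1 / τ ^ 2) * τ ^ 2 := by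
      field_simp
    rw [h8, h5]
    push_cast
    ring
  unfold E4 sd
  rw [h7, E_S hτ]
  ring

/-- The second order operator. -/
def L (F : ℂ → ℂ) (τ : ℂ) : ℂ := sd 8 (sd 10 F) τ - 1 / 18 * E4 τ * F τ

lemma L_diff {F : ℂ → ℂ} (hF : DifferentiableOn ℂ F UH) : DifferentiableOn ℂ (L F) UH :=
  (sd_diff 8 (sd_diff 10 hF)).sub ((E4_diff.const_mul _).mul hF)

lemma L_congr {F F' : ℂ → ℂ} (h : ∀ τ ∈ UH, F τ = F' τ) : ∀ τ ∈ UH, L F τ = L F' τ := by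
  intro τ hτ
  unfold L
  rw [sd_congr 8 (sd_congr 10 h) τ hτ, h τ hτ]

lemma L_QE {x : ℝ} {F : ℂ → ℂ} {a : ℂ} (h : QE x F a) :
    QE x (L F) ((x + 1) * (x + 1 / 2) * a) := by
  have h1 := sd_QE 8 (sd_QE 10 h)
  have h2 := ((E4_QE.const_mul (-(1 / 18))).mul h).cast (zero_add x) rfl
  have h3 := (h1.add h2).cast rfl
    (show _ = ((x : ℂ) + 1) * (x + 1 / 2) * a by ring)
  refine h3.congr fun τ _ => ?_
  unfold L
  ring

lemma L_S {ι : Type*} (s : Finset ι) (m : ι → ℂ) (F : ι → ℂ → ℂ) (Φ : ℂ → ℂ) (c : ℂ)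
    (hF : ∀ i ∈ s, DifferentiableOn ℂ (F i) UH)
    (h : ∀ τ ∈ UH, Φ τ = c * τ ^ 10 * ∑ i ∈ s, m i * F i (-1 / τ)) :
    ∀ τ ∈ UH, L Φ τ = c * τ ^ 6 * ∑ i ∈ s, m i * L (F i) (-1 / τ) := by
  have h1 := sd_S s m F Φ c 8 hF h
  have e1 : (((8 : ℕ) : ℂ) + 2) = 10 := by norm_num
  rw [e1] at h1
  have h2 := sd_S s m (fun i => sd 10 (F i)) (sd 10 Φ) c 6
    (fun i hi => sd_diff 10 (hF i hi)) h1
  have e2 : (((6 : ℕ) : ℂ) + 2) = 8 := by norm_num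
  rw [e2] at h2
  intro τ hτ
  unfold L
  rw [h2 τ hτ, h τ hτ]
  have h3 : ∑ i ∈ s, m i * (sd 8 (sd 10 (F i)) (-1 / τ) - 1 / 18 * E4 (-1 / τ) * F i (-1 / τ)) =
      ∑ i ∈ s, m i * sd 8 (sd 10 (F i)) (-1 / τ) -
        1 / 18 * E4 (-1 / τ) * ∑ i ∈ s, m i * F i (-1 / τ) := by
    rw [Finset.mul_sum, ← Finset.sum_sub_distrib]
    exact Finset.sum_congr rfl fun i _ => by ring
  rw [h3, E4_S hτ]
  ring

/-- The leading exponent of a nonzero solution of `L F = 0` is `-1` or `-1/2`. -/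
lemma L_lead {x : ℝ} {F : ℂ → ℂ} {a : ℂ} (h : QE x F a) (hF : ∃ τ ∈ UH, F τ ≠ 0)
    (hL : ∀ τ ∈ UH, L F τ = 0) :
    ∃ (n : ℕ) (b : ℂ), b ≠ 0 ∧ QE (x + n) F b ∧ (x + n = -1 ∨ x + n = -(1 / 2)) := by
  obtain ⟨n, b, hb, hq⟩ := h.lead hF
  refine ⟨n, b, hb, hq, ?_⟩
  have h1 := (L_QE hq).eq_zero hL
  rcases mul_eq_zero.mp h1 with h2 | h2
  · rcases mul_eq_zero.mp h2 with h3 | h3
    · left
      have : (x + n : ℝ) + 1 = 0 := by exact_mod_cast h3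
      linarith
    · right
      have : (x + n : ℝ) + 1 / 2 = 0 := by
        have h4 : (((x + n : ℝ) + 1 / 2 : ℝ) : ℂ) = 0 := by
          push_cast
          push_cast at h3
          exact h3
        exact_mod_cast h4
      linarith
  · exact absurd h2 hb

end

end Pool.Agent.R396.F
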