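import Pool.Agent.Y813.RL.Per
import Pool.Agent.Y813.RL.Comp

set_option autoImplicit false

/-!
# MP_f1d0b6_nt: the remaining jobs

`x = X / N` is a rational direction, `y` a real vector, and the relevant points are
`(τ, τ x + y)`.
-/

namespace Pool.Agent.R396.F

open Complex Set Finset Topology Pool.Agent.Y813.RL Pool.Agent.Y683.RL

noncomputable section

/-- the point `(τ, τ x + y)` with `x = X / N` -/
def pt (X : Fin 20 → ℤ) (N : ℕ) (y : Fin 20 → ℝ) (τ : ℂ) : ℂ × (Fin 20 → ℂ) :=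
  (τ, fun i => τ * ((xr X N i : ℝ) : ℂ) + ((y i : ℝ) : ℂ))

/-- the radius (in the variable `s = e(ω)`) of height `η` -/
def rad (G : Matrix (Fin 20) (Fin 20) ℤ) (X : Fin 20 → ℤ) (N : ℕ) (η : ℝ) (τ : ℂ) : ℝ :=
  Real.exp (-(2 * Real.pi * ((η + bf G (xr X N) (xr X N) / 2) * τ.im)))

/-- strong form of the zero condition: the walls have `1 / ν` integral -/
def StrongZeros (G : Matrix (Fin 20) (Fin 20) ℤ) (F : TP → ℂ) : Prop :=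
  ∀ W ∈ Hd G, F W = 0 → ∃ (a b m n : ℤ) (μ : Fin 20 → ℤ) (d : ℕ), WallData G a b m n μ ∧
    nu G a b m n μ * d = 1 ∧ WEq G a b m n μ W

/-- A: from a reflective lattice to a reflective form on the tube domain. -/
def JobA : Prop := ∀ (G : Matrix (Fin 20) (Fin 20) ℤ), PosSymm G → (∀ i, Even (G i i)) →
  Pool.Agent.Y813.Refl.IsReflectiveLattice (Pool.Agent.Y813.Refl.gramM G)
    (Pool.Agent.Y813.Refl.coneM G) →
  ∃ (k : ℤ) (F : TP → ℂ), TubeForm G k F ∧ StrongZeros G F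

/-- GB: `gp` is bounded by `exp (A Im τ)` on the disc of height `η`. -/
def JobGB : Prop := ∀ (G : Matrix (Fin 20) (Fin 20) ℤ) (k : ℤ) (F : TP → ℂ)
  (φ : ℕ → ℂ × (Fin 20 → ℂ) → ℂ) (C m : ℕ), PosSymm G → CM G k F φ C m →
  ∀ (X : Fin 20 → ℤ) (N : ℕ) (y : Fin 20 → ℝ) (η : ℝ), 0 < N → 0 < η →
    (∀ τ : ℂ, 0 < τ.im → pt X N y τ ∉ Mir G) →
    ∃ A T : ℝ, 0 < A ∧ 0 < T ∧ ∀ τ : ℂ, T ≤ τ.im → ∀ s : ℂ, ‖s‖ ≤ rad G X N η τ →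
      ‖gp φ C m (pt X N y τ) s‖ ≤ Real.exp (A * τ.im)

/-- NZ: there are no zeros of height greater than `h`, for large `Im τ`. -/
def NZ (G : Matrix (Fin 20) (Fin 20) ℤ) (F : TP → ℂ) (X : Fin 20 → ℤ) (N : ℕ)
    (y : Fin 20 → ℝ) (h : ℝ) : Prop :=
  ∃ T : ℝ, 0 < T ∧ ∀ τ ω : ℂ, T ≤ τ.im → (h + bf G (xr X N) (xr X N) / 2) * τ.im < ω.im →
    F (ω, pt X N y τ) ≠ 0

/-- GROW: growth of the quotient. -/
def JobGrow : Prop := ∀ (G : Matrix (Fin 20) (Fin 20) ℤ) (k : ℤ) (F : TP → ℂ)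
  (φ : ℕ → ℂ × (Fin 20 → ℂ) → ℂ) (C m : ℕ), PosSymm G → CM G k F φ C m →
  ∀ (X : Fin 20 → ℤ) (N : ℕ) (y : Fin 20 → ℝ) (h0 : ℝ), 0 < N → 0 < h0 →
    (∀ τ : ℂ, 0 < τ.im → pt X N y τ ∉ Mir G) → NZ G F X N y h0 →
    ∀ c : ℂ → (Fin 20 → ℂ) → ℂ,
      (∀ τ z, 0 < τ.im → φ (C + m) (τ, z) = φ C (τ, z) * c τ z) →
      ∀ ε : ℝ, 0 < ε → ∃ K T : ℝ, 0 < T ∧ ∀ τ : ℂ, T ≤ τ.im →
        ‖c τ (pt X N y τ).2‖ ≤
          K * Real.exp (2 * Real.pi * m * ((h0 + ε + bf G (xr X N) (xr X N) / 2) * τ.im))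

/-- VDS: descending one height. If, for large `Im τ`, all zeros of height greater than `h` have the
same height `h1 > h` and their `N0`-th powers (in the variable `s = e(ω)`) agree, where `N0 < m`,
then there are no zeros of height greater than `h` for large `Im τ`. -/
def JobVDS : Prop := ∀ (G : Matrix (Fin 20) (Fin 20) ℤ) (k : ℤ) (F : TP → ℂ)
  (φ : ℕ → ℂ × (Fin 20 → ℂ) → ℂ) (C m : ℕ), PosSymm G → CM G k F φ C m →
  ∀ (X : Fin 20 → ℤ) (N : ℕ) (y : Fin 20 → ℝ) (h h1 : ℝ) (N0 : ℕ), 0 < N → 0 < h → h < h1 →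
    0 < N0 → N0 < m →
    (∀ τ : ℂ, 0 < τ.im → pt X N y τ ∉ Mir G) →
    (∃ T : ℝ, 0 < T ∧ ∀ τ ω : ℂ, T ≤ τ.im →
      (h + bf G (xr X N) (xr X N) / 2) * τ.im < ω.im → F (ω, pt X N y τ) = 0 →
      ω.im = (h1 + bf G (xr X N) (xr X N) / 2) * τ.im) →
    (∃ T : ℝ, 0 < T ∧ ∀ τ ω ω' : ℂ, T ≤ τ.im →
      (h + bf G (xr X N) (xr X N) / 2) * τ.im < ω.im →
      (h + bf G (xr X N) (xr X N) / 2) * τ.im < ω'.im →
      F (ω, pt X N y τ) = 0 → F (ω', pt X N y τ) = 0 → ee (N0 * ω) = ee (N0 * ω')) →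
    NZ G F X N y h

/-- FC: vanishing of Fourier coefficients of theta components from growth on slices. -/
def JobFC : Prop := ∀ (A : Matrix (Fin 20) (Fin 20) ℤ) (c : ℂ → (Fin 20 → ℂ) → ℂ),
  PosSymm A → JacobiZero A c → ∀ (X : Fin 20 → ℤ) (N : ℕ) (a : ℝ), 0 < N →
  (∀ y : Fin 20 → ℝ, ∃ K T : ℝ, 0 < T ∧ ∀ τ : ℂ, T ≤ τ.im →
    ‖c τ (pt X N y τ).2‖ ≤ K * Real.exp (a * τ.im)) →
  ∀ (μ : Fin 20 → ℤ) (n : ℤ), 2 * Real.pi * ((n : ℝ) + dt μ (xr X N)) + a < 0 →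
    fco 0 (fc c μ) n = 0

end

end Pool.Agent.R396.F
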