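import Pool.Agent.Y813.RL.Bf
import Pool.Agent.Y813.RL.HI

set_option autoImplicit false

/-!
# Fourier analysis of entire periodic functions of 20 variables
-/

open MeasureTheory Complex Set Topology

namespace Pool.Agent.R396.F

open Pool.Agent.Y813.RL

noncomputable section

/-- the projection to the torus -/
def mk (y : Fin 20 → ℝ) : UnitAddTorus (Fin 20) := fun i => (y i : UnitAddCircle)

theorem mk_surj (x : UnitAddTorus (Fin 20)) : ∃ y, mk y = x := by
  have h : ∀ i, ∃ r : ℝ, (r : UnitAddCircle) = x i := fun i => QuotientAddGroup.mk_surjective (x i)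
  choose y hy using h
  exact ⟨y, funext hy⟩

theorem mk_eq {y y' : Fin 20 → ℝ} (h : mk y = mk y') :
    ∃ v : Fin 20 → ℤ, y = fun i => y' i + (v i : ℝ) := by
  have h1 : ∀ i, ∃ m : ℤ, y i = y' i + m := by
    intro i
    have h2 : ((y i - y' i : ℝ) : UnitAddCircle) = 0 := by
      have h3 : (y i : UnitAddCircle) = (y' i : UnitAddCircle) := congrFun h i
      rw [AddCircle.coe_sub, h3, sub_self]
    obtain ⟨m, hm⟩ := (AddCircle.coe_eq_zero_iff (1 : ℝ)).mp h2
    refine ⟨m, ?_⟩
    rw [zsmul_eq_mul, mul_one] at hm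
    linarith
  choose v hv using h1
  exact ⟨v, funext hv⟩

theorem isOpenQuotientMap_mk : IsOpenQuotientMap mk :=
  IsOpenQuotientMap.piMap (fun _ => QuotientAddGroup.isOpenQuotientMap_mk)

/-- descent to the torus -/
theorem descend {h : (Fin 20 → ℝ) → ℂ}
    (hper : ∀ y (v : Fin 20 → ℤ), h (fun i => y i + (v i : ℝ)) = h y) :
    ∃ H : UnitAddTorus (Fin 20) → ℂ, ∀ y, H (mk y) = h y := by
  choose r hr using mk_surj
  refine ⟨fun x => h (r x), fun y => ?_⟩
  obtain ⟨v, hv⟩ := mk_eq (hr (mk y))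
  show h (r (mk y)) = h y
  rw [hv, hper]

theorem descend_cont {h : (Fin 20 → ℝ) → ℂ} (hc : Continuous h)
    (hper : ∀ y (v : Fin 20 → ℤ), h (fun i => y i + (v i : ℝ)) = h y) :
    ∃ H : C(UnitAddTorus (Fin 20), ℂ), ∀ y, H (mk y) = h y := by
  obtain ⟨H, hH⟩ := descend hper
  refine ⟨⟨H, ?_⟩, hH⟩
  rw [isOpenQuotientMap_mk.isQuotientMap.continuous_iff]
  have : H ∘ mk = h := funext hH
  rw [this]
  exact hc

theorem mFourier_mk (μ : Fin 20 → ℤ) (y : Fin 20 → ℝ) :
    UnitAddTorus.mFourier μ (mk y) = ee (dt μ (fun i => (y i : ℂ))) := by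
  unfold UnitAddTorus.mFourier mk ee dt
  simp only [ContinuousMap.coe_mk, fourier_coe_apply]
  rw [← Complex.exp_sum]
  congr 1
  rw [Finset.mul_sum]
  refine Finset.sum_congr rfl (fun i _ => ?_)
  push_cast
  ring

/-- the half open cube with corner `a` -/
def cu (a : Fin 20 → ℝ) : Set (Fin 20 → ℝ) := {x | ∀ i, x i ∈ Ioc (a i) (a i + 1)}

theorem cu_zero_ae : (cu 0 : Set (Fin 20 → ℝ)) =ᵐ[volume] Icc (0 : Fin 20 → ℝ) 1 := by
  have h1 : (cu 0 : Set (Fin 20 → ℝ)) = Set.univ.pi (fun i => Ioc ((0 : Fin 20 → ℝ) i) ((1 : Fin 20 → ℝ) i)) := by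
    ext x
    simp [cu]
  rw [h1]
  exact Measure.univ_pi_Ioc_ae_eq_Icc

theorem integral_cu (f : (Fin 20 → ℝ) → ℂ) :
    ∫ y in cu 0, f y = ∫ y in Icc (0 : Fin 20 → ℝ) 1, f y :=
  setIntegral_congr_set cu_zero_ae

/-- invariance under real translations -/
theorem shift_real {h : (Fin 20 → ℝ) → ℂ}
    (hper : ∀ y (v : Fin 20 → ℤ), h (fun i => y i + (v i : ℝ)) = h y) (t : Fin 20 → ℝ) :
    ∫ y in Icc (0 : Fin 20 → ℝ) 1, h (t + y) = ∫ y in Icc (0 : Fin 20 → ℝ) 1, h y := by
  obtain ⟨H, hH⟩ := descend hper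
  have h1 := UnitAddTorus.mFourierCoeff_eq_integral H 0 t
  have h2 := UnitAddTorus.mFourierCoeff_eq_integral H 0 0
  rw [h1] at h2
  simp only [neg_zero, UnitAddTorus.mFourier_zero, ContinuousMap.one_apply, one_smul] at h2
  have h3 : ∀ y : Fin 20 → ℝ, H (fun i => (y i : UnitAddCircle)) = h y := hH
  simp only [h3] at h2
  rw [← integral_cu, ← integral_cu]
  refine Eq.trans ?_ h2
  have h4 : MeasurePreserving (fun y : Fin 20 → ℝ => t + y) volume volume :=
    measurePreserving_add_left volume t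
  have h5 : MeasurableEmbedding (fun y : Fin 20 → ℝ => t + y) := measurableEmbedding_addLeft t
  have h6 := h4.setIntegral_preimage_emb h5 h (cu t)
  have h7 : (fun y : Fin 20 → ℝ => t + y) ⁻¹' (cu t) = cu 0 := by
    ext y
    simp only [cu, Set.mem_preimage, Set.mem_ofPred_eq, Pi.add_apply, Pi.zero_apply, Set.mem_Ioc,
      zero_add]
    exact ⟨fun hy i => ⟨by linarith [(hy i).1], by linarith [(hy i).2]⟩,
      fun hy i => ⟨by linarith [(hy i).1], by linarith [(hy i).2]⟩⟩
  rw [h7] at h6
  exact h6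

/-- the integral of an entire periodic function over shifted cubes is constant -/
theorem shift_const {F : (Fin 20 → ℂ) → ℂ} (hF : Differentiable ℂ F)
    (hper : ∀ z (v : Fin 20 → ℤ), F (fun i => z i + (v i : ℂ)) = F z) (w : Fin 20 → ℂ) :
    ∫ y in Icc (0 : Fin 20 → ℝ) 1, F (fun i => w i + (y i : ℂ)) =
      ∫ y in Icc (0 : Fin 20 → ℝ) 1, F (fun i => (y i : ℂ)) := by
  obtain ⟨J, hJ⟩ : ∃ J : (Fin 20 → ℂ) → ℂ, J = fun w =>
    ∫ y in Icc (0 : Fin 20 → ℝ) 1, F (fun i => w i + (y i : ℂ)) := ⟨_, rfl⟩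
  have hJd : Differentiable ℂ J := by
    have h1 := differentiableOn_setIntegral (E := Fin 20 → ℂ) (volume : Measure (Fin 20 → ℝ))
      (K := Icc (0 : Fin 20 → ℝ) 1) isCompact_Icc measurableSet_Icc
      (isCompact_Icc.measure_lt_top) (U := Set.univ) isOpen_univ
      (f := fun w y => F (fun i => w i + (y i : ℂ)))
      (by
        refine (hF.continuous.comp ?_).continuousOn
        fun_prop)
      (fun y _ => by
        refine (hF.comp ?_).differentiableOn
        fun_prop)
    rw [differentiableOn_univ] at h1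
    rw [hJ]; exact h1
  have hJt : ∀ (w : Fin 20 → ℂ) (t : Fin 20 → ℝ), J (w + fun i => (t i : ℂ)) = J w := by
    intro w t
    simp only [hJ]
    have h1 := shift_real (h := fun y : Fin 20 → ℝ => F (fun i => w i + (y i : ℂ)))
      (fun y v => by
        have := hper (fun i => w i + (y i : ℂ)) v
        rw [← this]
        congr 1
        funext i
        push_cast
        ring) t
    rw [← h1]
    refine integral_congr_ae (Filter.Eventually.of_forall (fun y => ?_))
    simp only [Pi.add_apply]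
    congr 1
    funext i
    push_cast
    ring
  have hJ0 : ∀ w, fderiv ℂ J w = 0 := by
    intro w
    have h1 : ∀ i : Fin 20, fderiv ℂ J w (Pi.single i 1) = 0 := by
      intro i
      have h2 : HasDerivAt (fun s : ℝ => J (w + (s : ℂ) • (Pi.single i 1 : Fin 20 → ℂ)))
          (fderiv ℂ J w (Pi.single i 1)) 0 := by
        have h3 : HasDerivAt (fun s : ℝ => w + (s : ℂ) • (Pi.single i 1 : Fin 20 → ℂ))
            (Pi.single i 1) 0 := by
          have h4 : HasDerivAt (fun s : ℝ => (s : ℂ)) 1 0 := Complex.ofRealCLM.hasDerivAt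
          have h5 := (h4.smul_const (Pi.single i 1 : Fin 20 → ℂ)).const_add w
          simpa using h5
        have h6 : HasFDerivAt J ((fderiv ℂ J w).restrictScalars ℝ)
            (w + ((0 : ℝ) : ℂ) • (Pi.single i 1 : Fin 20 → ℂ)) := by
          have := ((hJd w).hasFDerivAt).restrictScalars ℝ
          simpa using this
        exact h6.comp_hasDerivAt (0 : ℝ) h3
      have h7 : (fun s : ℝ => J (w + (s : ℂ) • (Pi.single i 1 : Fin 20 → ℂ))) = fun _ => J w := by
        funext s
        have h8 := hJt w (s • (Pi.single i 1 : Fin 20 → ℝ))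
        rw [← h8]
        congr 2
        funext k
        by_cases hk : k = i
        · subst hk; simp
        · simp [Pi.single_eq_of_ne hk]
      rw [h7] at h2
      exact h2.unique (hasDerivAt_const _ _)
    ext1 v
    have h2 : v = ∑ i, v i • (Pi.single i 1 : Fin 20 → ℂ) := by
      funext k
      simp [Finset.sum_apply, Pi.single_apply]
    rw [h2, map_sum]
    simp only [map_smul, h1, smul_zero, Finset.sum_const_zero, zero_apply]
  have hfin : J w = J 0 := is_const_of_fderiv_eq_zero hJd hJ0 w 0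
  rw [hJ] at hfin
  simpa using hfin

/-- summability of the product of exponentials -/
theorem summable_prod_exp (k : ℕ) :
    Summable (fun n : Fin k → ℤ => ∏ i, Real.exp (-(2 * Real.pi * |(n i : ℝ)|))) := by
  have h1 : Summable (fun m : ℤ => Real.exp (-(2 * Real.pi * |(m : ℝ)|))) := by
    have h2 : Summable (fun m : ℕ => Real.exp (-(2 * Real.pi * (m : ℝ)))) := by
      have h3 : ∀ m : ℕ, Real.exp (-(2 * Real.pi * (m : ℝ))) = Real.exp (-(2 * Real.pi)) ^ m := by
        intro m; rw [← Real.exp_nat_mul]; congr 1; ring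
      simp_rw [h3]
      exact summable_geometric_of_lt_one (Real.exp_pos _).le
        (by rw [Real.exp_lt_one_iff]; have := Real.pi_pos; linarith)
    refine Summable.of_nat_of_neg ?_ ?_
    · refine h2.congr (fun m => ?_)
      simp
    · refine h2.congr (fun m => ?_)
      simp
  induction k with
  | zero => exact (hasSum_fintype _).summable
  | succ k ih =>
    have h3 := (h1.mul_of_nonneg ih (fun _ => (Real.exp_pos _).le)
      (fun _ => Finset.prod_nonneg (fun _ _ => (Real.exp_pos _).le)))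
    rw [← (Fin.consEquiv (fun _ : Fin (k + 1) => ℤ)).summable_iff]
    refine h3.congr (fun p => ?_)
    simp [Fin.prod_univ_succ, Fin.consEquiv]

end

end Pool.Agent.R396.F
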