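import Pool.Agent.R396.F.Th1

set_option autoImplicit false

/-!
# A Gaussian integral
-/

open MeasureTheory Complex Set Topology

namespace Pool.Agent.R396.F

open Pool.Agent.Y813.RL

noncomputable section

section gauss

open scoped MatrixOrder

variable {A : Matrix (Fin 20) (Fin 20) ℤ}

theorem exists_S (h : PosSymm A) :
    ∃ S : Matrix (Fin 20) (Fin 20) ℝ, A.map (Int.cast : ℤ → ℝ) = S.transpose * S := by
  have h1 : (A.map (Int.cast : ℤ → ℝ)).PosSemidef := by
    refine Matrix.PosSemidef.of_dotProduct_mulVec_nonneg ?_ ?_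
    · ext i j
      simp [Matrix.conjTranspose_apply, h.symm.apply]
    · intro x
      have h3 : bf A x x = star x ⬝ᵥ (A.map (Int.cast : ℤ → ℝ)).mulVec x := by
        simp only [bf, Matrix.mulVec, dotProduct, Matrix.map_apply, Finset.mul_sum, mul_assoc]
        rfl
      rw [← h3]
      exact h.nonneg x
  obtain ⟨S, hS⟩ := CStarAlgebra.nonneg_iff_eq_star_mul_self.mp h1.nonneg
  exact ⟨S, by rw [hS]; rfl⟩

/-- complex bilinear extension of the inverse form -/
def bdC (A : Matrix (Fin 20) (Fin 20) ℤ) (l m : Fin 20 → ℂ) : ℂ :=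
  l ⬝ᵥ ((A.map (Int.cast : ℤ → ℝ))⁻¹.map (fun x : ℝ => (x : ℂ))).mulVec m

theorem gauss (h : PosSymm A) {b : ℂ} (hb : 0 < b.re) (l : Fin 20 → ℂ) :
    Integrable (fun x : Fin 20 → ℝ => cexp (-b * ((bf A x x : ℝ) : ℂ) + ∑ i, l i * (x i : ℂ))) ∧
    ∫ x : Fin 20 → ℝ, cexp (-b * ((bf A x x : ℝ) : ℂ) + ∑ i, l i * (x i : ℂ)) =
      (Real.pi / b) ^ 10 / (Real.sqrt (A.det : ℝ) : ℂ) * cexp (bdC A l l / (4 * b)) := by
  obtain ⟨S, hS⟩ := exists_S h
  have hdetA : ((A.det : ℤ) : ℝ) = S.det ^ 2 := by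
    have h1 : ((A.det : ℤ) : ℝ) = (A.map (Int.cast : ℤ → ℝ)).det :=
      RingHom.map_det (Int.castRingHom ℝ) A
    rw [h1, hS, Matrix.det_mul, Matrix.det_transpose]
    ring
  have hdetS : S.det ≠ 0 := by
    intro h0
    have h1 := det_unit h
    rw [hS, Matrix.det_mul, h0, mul_zero] at h1
    simp at h1
  have hsqrt : Real.sqrt (A.det : ℝ) = |S.det| := by rw [hdetA, Real.sqrt_sq_eq_abs]
  have hunit : IsUnit S.det := isUnit_iff_ne_zero.mpr hdetS
  -- complex matrices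
  obtain ⟨f, hf⟩ : ∃ f : ℝ →+* ℂ, f = Complex.ofRealHom := ⟨_, rfl⟩
  have hfr : ∀ x : ℝ, f x = (x : ℂ) := fun x => by rw [hf]; rfl
  have hinv1 : (S⁻¹).map f * S.map f = 1 := by
    rw [← Matrix.map_mul, Matrix.nonsing_inv_mul _ hunit]
    simp
  set c : Fin 20 → ℂ := Matrix.vecMul l ((S⁻¹).map f) with hc
  have hcx : ∀ x : Fin 20 → ℝ, ∑ i, c i * ((S.mulVec x i : ℝ) : ℂ) = ∑ i, l i * (x i : ℂ) := by
    intro x
    have h1 : (fun i => ((S.mulVec x i : ℝ) : ℂ)) = (S.map f).mulVec (fun i => (x i : ℂ)) := by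
      funext i
      simp [Matrix.mulVec, dotProduct, hfr]
    have h2 : ∑ i, c i * ((S.mulVec x i : ℝ) : ℂ) =
        c ⬝ᵥ (S.map f).mulVec (fun i => (x i : ℂ)) := by rw [← h1]; rfl
    rw [h2, hc, ← Matrix.dotProduct_mulVec, Matrix.mulVec_mulVec, hinv1, Matrix.one_mulVec]
    rfl
  have hcc : ∑ i, c i ^ 2 = bdC A l l := by
    have h1 : ∑ i, c i ^ 2 = c ⬝ᵥ c := by
      unfold dotProduct
      exact Finset.sum_congr rfl (fun i _ => by ring)
    have h2 : Matrix.vecMul l ((S⁻¹).map f) = (((S⁻¹).map f).transpose).mulVec l := by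
      rw [Matrix.mulVec_transpose]
    have h3 : (S⁻¹).map f * ((S⁻¹).map f).transpose =
        (A.map (Int.cast : ℤ → ℝ))⁻¹.map (fun x : ℝ => (x : ℂ)) := by
      have h4 : ((S⁻¹).map f).transpose = ((S⁻¹).transpose).map f := rfl
      rw [h4, ← Matrix.map_mul, Matrix.transpose_nonsing_inv, ← Matrix.mul_inv_rev, ← hS, hf]
      rfl
    calc ∑ i, c i ^ 2 = Matrix.vecMul l ((S⁻¹).map f) ⬝ᵥ Matrix.vecMul l ((S⁻¹).map f) := h1
      _ = Matrix.vecMul l ((S⁻¹).map f) ⬝ᵥ (((S⁻¹).map f).transpose).mulVec l := by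
          congr 1
      _ = bdC A l l := by
          rw [← Matrix.dotProduct_mulVec, Matrix.mulVec_mulVec, h3]
          rfl
  have hbf : ∀ x : Fin 20 → ℝ, ((bf A x x : ℝ) : ℂ) = ∑ i, ((S.mulVec x i : ℝ) : ℂ) ^ 2 := by
    intro x
    have h1 : bf A x x = x ⬝ᵥ (A.map (Int.cast : ℤ → ℝ)).mulVec x := by
      simp only [bf, Matrix.mulVec, dotProduct, Matrix.map_apply, Finset.mul_sum, mul_assoc]
    have h2 : bf A x x = ∑ i, (S.mulVec x i) ^ 2 := by
      rw [h1, hS, ← Matrix.mulVec_mulVec, Matrix.dotProduct_mulVec, Matrix.vecMul_transpose]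
      unfold dotProduct
      exact Finset.sum_congr rfl (fun i _ => by ring)
    rw [h2]
    push_cast
    rfl
  obtain ⟨g, hg⟩ : ∃ g : (Fin 20 → ℝ) → ℂ, g = fun v =>
    cexp (-b * ∑ i, (v i : ℂ) ^ 2 + ∑ i, c i * v i) := ⟨_, rfl⟩
  have hgint : Integrable g := by
    rw [hg]; exact GaussianFourier.integrable_cexp_neg_mul_sum_add hb c
  have hgval : ∫ v, g v = (Real.pi / b) ^ 10 * cexp (bdC A l l / (4 * b)) := by
    rw [hg, GaussianFourier.integral_cexp_neg_mul_sum_add hb c, hcc]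
    congr 1
    have h1 : ((Fintype.card (Fin 20) : ℂ) / 2) = ((10 : ℕ) : ℂ) := by
      rw [Fintype.card_fin]; norm_num
    rw [h1, Complex.cpow_natCast]
  have hgS : ∀ x : Fin 20 → ℝ, g (S.mulVec x) =
      cexp (-b * ((bf A x x : ℝ) : ℂ) + ∑ i, l i * (x i : ℂ)) := by
    intro x
    rw [hg]
    simp only
    rw [← hbf, hcx]
  -- change of variables
  obtain ⟨L, hL⟩ : ∃ L : (Fin 20 → ℝ) →L[ℝ] (Fin 20 → ℝ),
    L = LinearMap.toContinuousLinearMap (Matrix.toLin' S) := ⟨_, rfl⟩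
  have hLx : ∀ x, L x = S.mulVec x := fun x => by rw [hL]; rfl
  have hLdet : L.det = S.det := by
    rw [hL]
    exact LinearMap.det_toLin' S
  have hinj : Function.Injective L := by
    intro x y hxy
    rw [hLx, hLx] at hxy
    exact Matrix.mulVec_injective_of_isUnit ((Matrix.isUnit_iff_isUnit_det S).mpr hunit) hxy
  have hsurj : L '' Set.univ = Set.univ := by
    rw [Set.image_univ, Set.range_eq_univ]
    exact (LinearMap.injective_iff_surjective (f := (L : (Fin 20 → ℝ) →ₗ[ℝ] (Fin 20 → ℝ)))).mp hinj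
  have hder : ∀ x ∈ (Set.univ : Set (Fin 20 → ℝ)), HasFDerivWithinAt L L Set.univ x :=
    fun x _ => L.hasFDerivWithinAt
  have h1 := (integrableOn_image_iff_integrableOn_abs_det_fderiv_smul
    (volume : Measure (Fin 20 → ℝ)) MeasurableSet.univ hder hinj.injOn g).mp
    (by rw [hsurj]; exact hgint.integrableOn)
  have h2 := integral_image_eq_integral_abs_det_fderiv_smul
    (volume : Measure (Fin 20 → ℝ)) MeasurableSet.univ hder hinj.injOn g
  rw [hsurj] at h2
  simp only [Measure.restrict_univ, hLdet, integrableOn_univ] at h1 h2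
  rw [hgval, integral_smul] at h2
  simp only [hLx, hgS] at h1 h2
  have habs : |S.det| ≠ 0 := abs_ne_zero.mpr hdetS
  constructor
  · exact (integrable_smul_iff habs _).mp h1
  · rw [hsqrt]
    have h3 : ((|S.det| : ℝ) : ℂ) ≠ 0 := by exact_mod_cast habs
    rw [Complex.real_smul] at h2
    rw [div_mul_eq_mul_div, eq_div_iff h3, mul_comm]
    exact h2.symm

end gauss

end

end Pool.Agent.R396.F
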