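import Pool.Agent.R396.F.Grow

set_option autoImplicit false

/-!
# MP_f1d0b6_nt: no zeros of the next height (subtask T10, helper393)
-/

namespace Pool.Agent.R396.F

open Complex Set Finset Topology Pool.Agent.Y813.RL Pool.Agent.Y683.RL

noncomputable section

/-- `x exp (-b x)` is small for large `x` -/
theorem exists_small {K b : ℝ} (hK : 0 ≤ K) (hb : 0 < b) : ∃ T : ℝ, ∀ x : ℝ, T ≤ x →
    K * x * Real.exp (-(b * x)) < 1 ∧ Real.exp (-(b * x)) ≤ 1 / 2 := by
  have h1 : Filter.Tendsto (fun x : ℝ => (K * (2 / b)) * Real.exp (-(b / 2) * x)) Filter.atTop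
      (𝓝 ((K * (2 / b)) * 0)) := by
    refine Filter.Tendsto.const_mul _ ?_
    refine Real.tendsto_exp_atBot.comp ?_
    exact Filter.Tendsto.const_mul_atTop_of_neg (by linarith) Filter.tendsto_id
  rw [mul_zero] at h1
  have h2 : Filter.Tendsto (fun x : ℝ => Real.exp (-b * x)) Filter.atTop (𝓝 0) := by
    refine Real.tendsto_exp_atBot.comp ?_
    exact Filter.Tendsto.const_mul_atTop_of_neg (by linarith) Filter.tendsto_id
  obtain ⟨T, hT⟩ := Filter.eventually_atTop.1
    ((h1.eventually (gt_mem_nhds (show (0 : ℝ) < 1 by norm_num))).and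
      (h2.eventually (gt_mem_nhds (show (0 : ℝ) < 1 / 2 by norm_num))))
  refine ⟨T, fun x hx => ⟨?_, ?_⟩⟩
  · refine lt_of_le_of_lt ?_ (hT x hx).1
    have h3 : x ≤ (2 / b) * Real.exp (b / 2 * x) := by
      have := Real.add_one_le_exp (b / 2 * x)
      rw [div_mul_eq_mul_div, le_div_iff₀ hb]
      linarith
    calc K * x * Real.exp (-(b * x)) ≤ K * ((2 / b) * Real.exp (b / 2 * x)) *
          Real.exp (-(b * x)) := by gcongr
      _ = K * (2 / b) * (Real.exp (b / 2 * x) * Real.exp (-(b * x))) := by ring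
      _ = _ := by
        rw [← Real.exp_add]
        congr 2
        ring
  · have := (hT x hx).2
    rw [neg_mul] at this
    exact this.le

theorem jobVDS : JobGB → JobVDS := by
  classical
  intro hGB G k F φ C m hG H X N y h h1 N0 hN hh hh1 hN0 hN0m hmir hheight hroots
  set q := bf G (xr X N) (xr X N) with hq
  have hq0 : 0 ≤ q := hG.nonneg _
  have hpi := Real.pi_pos
  set η := (h + h1) / 2 with hηd
  have hη : 0 < η := by rw [hηd]; linarith
  have hη1 : h < η := by rw [hηd]; linarith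
  have hη2 : η < h1 := by rw [hηd]; linarith
  obtain ⟨A, T0, hA, hT0, hgb⟩ := hGB G k F φ C m hG H X N y η hN hη hmir
  obtain ⟨T1, hT1, hhe⟩ := hheight
  obtain ⟨T2, hT2, hro⟩ := hroots
  set E : Finset ℂ := Polynomial.nthRootsFinset N0 (1 : ℂ) with hE
  have hEmem : ∀ ε : ℂ, ε ∈ E ↔ ε ^ N0 = 1 := fun ε => Polynomial.mem_nthRootsFinset hN0 _
  have hEcard : E.card < m := by
    refine lt_of_le_of_lt ?_ hN0m
    rw [hE, Polynomial.nthRootsFinset]
    exact (Multiset.toFinset_card_le _).trans (Polynomial.card_nthRoots _ _)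
  obtain ⟨K, hK, hvd⟩ := Pool.Agent.Y155.RL.vd m E hEcard (fun ε hε =>
    Complex.norm_eq_one_of_pow_eq_one ((hEmem ε).1 hε) hN0.ne')
  obtain ⟨T3, hT3⟩ := exists_small (K := K * A) (b := 2 * Real.pi * (h1 - η)) (by positivity)
    (by have : 0 < h1 - η := by linarith
        positivity)
  refine ⟨max (max T0 T1) (max T2 T3), lt_max_of_lt_left (lt_max_of_lt_left hT0), ?_⟩
  intro τ ω₁ hτ hω₁ hF
  have hτa : T0 ≤ τ.im := ((le_max_left _ _).trans (le_max_left _ _)).trans hτ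
  have hτb : T1 ≤ τ.im := ((le_max_right _ _).trans (le_max_left _ _)).trans hτ
  have hτc : T2 ≤ τ.im := ((le_max_left _ _).trans (le_max_right _ _)).trans hτ
  have hτd : T3 ≤ τ.im := ((le_max_right _ _).trans (le_max_right _ _)).trans hτ
  have hτ0 : 0 < τ.im := lt_of_lt_of_le hT0 hτa
  obtain ⟨hs1, hs2⟩ := hT3 τ.im hτd
  have him₁ : ω₁.im = (h1 + q / 2) * τ.im := hhe τ ω₁ hτb hω₁ hF
  set p := pt X N y τ with hp
  have hpU : p ∈ UP := pt_mem X N y hτ0
  have hφ0 : φ C p ≠ 0 := leading_ne_zero hG H.tf H.fd H.hC H.hne hpU (hmir _ hτ0)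
  set R := rad G X N η τ with hR
  have hR0 : 0 < R := rad_pos _ _ _ _ _
  have hRc : (R : ℂ) ≠ 0 := by exact_mod_cast hR0.ne'
  have hRR : R < Real.exp (-(2 * Real.pi * bh G p)) := rad_lt X N y hη hτ0
  have hbh : ∀ ω : ℂ, (h + q / 2) * τ.im < ω.im → bh G p < ω.im := by
    intro ω hω
    rw [hp, bh_pt X N y hτ0, ← hq]
    have : 0 < h * τ.im := mul_pos hh hτ0
    nlinarith
  set a : ℂ := ee ω₁ / R with ha
  have haR : (R : ℂ) * a = ee ω₁ := by rw [ha]; field_simp
  have hane : a ≠ 0 := div_ne_zero (ee_ne_zero _) hRc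
  have hna : ‖a‖ = Real.exp (-(2 * Real.pi * (h1 - η) * τ.im)) := by
    rw [ha, norm_div, norm_ee, Complex.norm_real, Real.norm_eq_abs, abs_of_pos hR0, hR]
    unfold rad
    rw [← Real.exp_sub, him₁, ← hq]
    congr 1
    ring
  have ha2 : ‖a‖ ≤ 1 / 2 := by rw [hna]; exact hs2
  set ρ := Real.exp (-(2 * Real.pi * bh G p)) / R with hρ
  have hρ1 : 1 < ρ := by rw [hρ, one_lt_div hR0]; exact hRR
  have hmaps : ∀ s ∈ Metric.ball (0 : ℂ) ρ, (R : ℂ) * s ∈
      Metric.ball (0 : ℂ) (Real.exp (-(2 * Real.pi * bh G p))) := by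
    intro s hs
    rw [Metric.mem_ball, dist_zero_right] at hs ⊢
    rw [norm_mul, Complex.norm_real, Real.norm_eq_abs, abs_of_pos hR0]
    rw [hρ, lt_div_iff₀ hR0] at hs
    linarith
  have hsub : Metric.closedBall (0 : ℂ) 1 ⊆ Metric.ball (0 : ℂ) ρ :=
    Metric.closedBall_subset_ball hρ1
  have hlin : DifferentiableOn ℂ (fun s : ℂ => (R : ℂ) * s) (Metric.ball (0 : ℂ) ρ) := by fun_prop
  have hgd : AnalyticOnNhd ℂ (fun s => gp φ C m p ((R : ℂ) * s)) (Metric.closedBall 0 1) := by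
    have : DifferentiableOn ℂ (fun s => gp φ C m p ((R : ℂ) * s)) (Metric.ball 0 ρ) :=
      (H.gp_diff hpU).comp hlin hmaps
    exact (this.analyticOnNhd Metric.isOpen_ball).mono hsub
  have hhd : AnalyticOnNhd ℂ (fun s => (R : ℂ) ^ m * (Hs φ C m p ((R : ℂ) * s) / φ C p))
      (Metric.closedBall 0 1) := by
    have h2 : DifferentiableOn ℂ (fun s => Hs φ C m p ((R : ℂ) * s)) (Metric.ball 0 ρ) :=
      (H.Hs_diff hpU).comp hlin hmaps
    have : DifferentiableOn ℂ (fun s => (R : ℂ) ^ m * (Hs φ C m p ((R : ℂ) * s) / φ C p))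
        (Metric.ball 0 ρ) := by
      fun_prop
    exact (this.analyticOnNhd Metric.isOpen_ball).mono hsub
  have hball : ∀ s ∈ Metric.closedBall (0 : ℂ) 1, ‖(R : ℂ) * s‖ ≤ R := by
    intro s hs
    rw [Metric.mem_closedBall, dist_zero_right] at hs
    rw [norm_mul, Complex.norm_real, Real.norm_eq_abs, abs_of_pos hR0]
    nlinarith
  have hzero : ∀ s ∈ Metric.closedBall (0 : ℂ) 1, gp φ C m p ((R : ℂ) * s) = 0 →
      ∃ ε ∈ E, s = a * ε := by
    intro s hs hgs
    have hs0 : s ≠ 0 := by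
      rintro rfl
      rw [mul_zero] at hgs
      simp [gp, H.hm.ne'] at hgs
    have hRs0 : (R : ℂ) * s ≠ 0 := mul_ne_zero hRc hs0
    obtain ⟨ω, hω, him⟩ := exists_log (G := G) X N hRs0 (hball s hs)
    rw [← hq] at him
    have h2 : (h + q / 2) * τ.im < ω.im := by
      refine lt_of_lt_of_le ?_ him
      have : 0 < (η - h) * τ.im := mul_pos (by linarith) hτ0
      nlinarith
    have h3 := H.gp_eq hpU hφ0 (hbh ω h2)
    rw [hω, hgs] at h3
    have h4 : F (ω, p) = 0 := by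
      have h5 := h3.symm
      rw [div_eq_zero_iff, mul_eq_zero] at h5
      rcases h5 with (h5 | h5) | h5
      · exact h5
      · exact absurd h5 (ee_ne_zero _)
      · exact absurd h5 hφ0
    have h5 := hro τ ω ω₁ hτc h2 hω₁ h4 hF
    rw [ee_pow, ee_pow, hω, ← haR] at h5
    refine ⟨s / a, (hEmem _).2 ?_, by field_simp⟩
    rw [mul_pow, mul_pow] at h5
    have h6 := mul_left_cancel₀ (pow_ne_zero N0 hRc) h5
    rw [div_pow, h6, div_self (pow_ne_zero _ hane)]
  have key := hvd (fun s => gp φ C m p ((R : ℂ) * s))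
    (fun s => (R : ℂ) ^ m * (Hs φ C m p ((R : ℂ) * s) / φ C p)) a (A * τ.im)
    (norm_pos_iff.2 hane) ha2 hgd hhd (fun s _ => by
      simp only [gp]
      ring) (fun s hs => hgb τ hτa _ (hball s hs)) hzero ⟨a, by
        rw [Metric.mem_closedBall, dist_zero_right]; linarith, by
        show gp φ C m p ((R : ℂ) * a) = 0
        rw [haR, H.gp_eq hpU hφ0 (hbh ω₁ hω₁), hF]
        simp⟩
  rw [hna] at key
  have : K * (A * τ.im) = K * A * τ.im := by ring
  rw [this] at key
  linarith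

end

end Pool.Agent.R396.F
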