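import Pool.Agent.Y813.RL.Stm

set_option autoImplicit false

/-!
# JobVV: vector valued functions of negative weight with small poles vanish
-/

open Complex Set Topology

namespace Pool.Agent.R396.F

open Pool.Agent.Y813.RL

noncomputable section

/-- The discriminant as a function on `ℂ`. -/
def Dl (z : ℂ) : ℂ := ModularForm.eta z ^ 24

lemma Dl_diff : DifferentiableOn ℂ Dl {τ | 0 < τ.im} := by
  intro z hz
  exact ((ModularForm.differentiableAt_eta_of_mem_upperHalfPlaneSet hz).pow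
    24).differentiableWithinAt

lemma Dl_ne {z : ℂ} (hz : 0 < z.im) : Dl z ≠ 0 :=
  pow_ne_zero _ (ModularForm.eta_ne_zero hz)

lemma Dl_eq {z : ℂ} (hz : 0 < z.im) :
    Dl z = ModularForm.discriminant ⟨z, hz⟩ := rfl

lemma qParam_add_one (z : ℂ) :
    Function.Periodic.qParam 1 (z + 1) = Function.Periodic.qParam 1 z := by
  unfold Function.Periodic.qParam
  rw [← Complex.exp_periodic (2 * Real.pi * I * z / ((1 : ℝ) : ℂ))]
  congr 1
  push_cast
  ring

lemma Dl_T {z : ℂ} (hz : 0 < z.im) : Dl (z + 1) = Dl z := by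
  have hz1 : 0 < (z + 1).im := by simpa using hz
  rw [Dl_eq hz, Dl_eq hz1, ModularForm.discriminant_eq_q_prod, ModularForm.discriminant_eq_q_prod]
  simp only [ModularForm.eta_q, qParam_add_one]

lemma Dl_S {z : ℂ} (hz : 0 < z.im) : Dl (-1 / z) = z ^ 12 * Dl z := by
  have h := ModularForm.eta_comp_eq_csqrt_I_inv (x := z) hz
  have h0 : z ≠ 0 := by rintro rfl; simp at hz
  simp only [Function.comp_apply, Pi.smul_apply, Pi.mul_apply, smul_eq_mul] at h
  unfold Dl
  rw [h, mul_pow, mul_pow, inv_pow]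
  have e1 : Complex.sqrt I ^ 24 = 1 := by
    rw [sqrt_eq_exp I_ne_zero, ← Complex.exp_nat_mul]
    have : ((24 : ℕ) : ℂ) * (log I / 2) = ((12 : ℕ) : ℂ) * log I := by push_cast; ring
    rw [this, Complex.exp_nat_mul, Complex.exp_log I_ne_zero, show 12 = 4 * 3 from rfl, pow_mul,
      I_pow_four, one_pow]
  have e2 : Complex.sqrt z ^ 24 = z ^ 12 := by
    rw [sqrt_eq_exp h0, ← Complex.exp_nat_mul]
    have : ((24 : ℕ) : ℂ) * (log z / 2) = ((12 : ℕ) : ℂ) * log z := by push_cast; ring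
    rw [this, Complex.exp_nat_mul, Complex.exp_log h0]
  rw [e1, e2]
  ring

lemma Dl_bound : ∃ Y : ℝ, 0 < Y ∧ ∀ z : ℂ, Y ≤ z.im →
    ‖Dl z‖ ≤ 2 * Real.exp (-(2 * Real.pi * z.im)) := by
  have h := ModularForm.tendsto_atImInfty_tprod_one_sub_eta_q_pow.eventually
    (Metric.ball_mem_nhds 1 (by norm_num : (0 : ℝ) < 1))
  rw [UpperHalfPlane.atImInfty, Filter.eventually_comap, Filter.eventually_atTop] at h
  obtain ⟨Y, hY⟩ := h
  refine ⟨max Y 1, by positivity, fun z hz => ?_⟩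
  have hz0 : 0 < z.im := lt_of_lt_of_le (by positivity) hz
  have h1 := hY z.im ((le_max_left _ _).trans hz) ⟨z, hz0⟩ rfl
  rw [Dl_eq hz0, ModularForm.discriminant_eq_q_prod, norm_mul]
  have hq : ‖Function.Periodic.qParam 1 z‖ = Real.exp (-(2 * Real.pi * z.im)) := by
    rw [Function.Periodic.norm_qParam]
    congr 1
    ring
  have h2 : ‖∏' n, (1 - ModularForm.eta_q n z) ^ 24‖ ≤ 2 := by
    have h3 : ‖∏' n, (1 - ModularForm.eta_q n z) ^ 24 - 1‖ < 1 := by
      simpa [Complex.dist_eq] using h1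
    have := norm_le_norm_add_norm_sub' (∏' n, (1 - ModularForm.eta_q n z) ^ 24) 1
    rw [norm_one] at this
    linarith
  rw [show ((⟨z, hz0⟩ : UpperHalfPlane) : ℂ) = z from rfl, hq, mul_comm]
  exact mul_le_mul_of_nonneg_right h2 (Real.exp_pos _).le

/-- A function on the upper half plane invariant under `S`, `T` is invariant under `SL(2, ℤ)`. -/
lemma inv_SL (U : ℂ → ℝ) (hT : ∀ z : ℂ, 0 < z.im → U (z + 1) = U z)
    (hS : ∀ z : ℂ, 0 < z.im → U (-1 / z) = U z) (γ : Matrix.SpecialLinearGroup (Fin 2) ℤ) :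
    ∀ z : UpperHalfPlane, U ((γ • z : UpperHalfPlane) : ℂ) = U (z : ℂ) := by
  have hγ : γ ∈ Subgroup.closure {ModularGroup.S, ModularGroup.T} := by
    simp [SpecialLinearGroup.SL2Z_generators]
  induction hγ using Subgroup.closure_induction with
  | one => intro z; simp
  | mem g hg =>
    intro z
    simp only [mem_insert_iff, mem_singleton_iff] at hg
    rcases hg with rfl | rfl
    · rw [UpperHalfPlane.modular_S_smul]
      have := hS z z.im_pos
      rw [← this]
      congr 1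
      simp [neg_div]
    · rw [UpperHalfPlane.modular_T_smul]
      have := hT z z.im_pos
      rw [← this]
      congr 1
      simp [add_comm]
  | mul g h _ _ ig ih =>
    intro z
    rw [mul_smul, ig, ih]
  | inv g _ ig =>
    intro z
    have := ig (g⁻¹ • z)
    rw [smul_inv_smul] at this
    exact this.symm

/-- A continuous invariant function which is positive somewhere and tends to zero at the cusp
attains its maximum. -/
lemma exists_max (U : ℂ → ℝ) (hc : ContinuousOn U {τ | 0 < τ.im})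
    (hT : ∀ z : ℂ, 0 < z.im → U (z + 1) = U z)
    (hS : ∀ z : ℂ, 0 < z.im → U (-1 / z) = U z)
    (h0 : ∀ ε > 0, ∃ Y : ℝ, ∀ z : ℂ, Y ≤ z.im → U z < ε)
    (τ₁ : ℂ) (hτ₁ : 0 < τ₁.im) (hp : 0 < U τ₁) :
    ∃ τ₀ : ℂ, 0 < τ₀.im ∧ 0 < U τ₀ ∧ ∀ z : ℂ, 0 < z.im → U z ≤ U τ₀ := by
  obtain ⟨Y, hY⟩ := h0 (U τ₁) hp
  have key : ∀ z : ℂ, 0 < z.im → ∃ w : ℂ, U w = U z ∧ w.re ∈ Icc (-(1 / 2) : ℝ) (1 / 2) ∧
      1 / 2 ≤ w.im := by
    intro z hz
    obtain ⟨g, hg⟩ := ModularGroup.exists_smul_mem_fd (⟨z, hz⟩ : UpperHalfPlane)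
    refine ⟨((g • (⟨z, hz⟩ : UpperHalfPlane) : UpperHalfPlane) : ℂ), inv_SL U hT hS g _, ?_, ?_⟩
    · have := abs_le.mp hg.2
      exact ⟨this.1, this.2⟩
    · have h1 : 1 ≤ Complex.normSq ((g • (⟨z, hz⟩ : UpperHalfPlane) : UpperHalfPlane) : ℂ) := hg.1
      have h2 := abs_le.mp hg.2
      rw [Complex.normSq_apply] at h1
      have h4 := (g • (⟨z, hz⟩ : UpperHalfPlane)).im_pos
      set w := (g • (⟨z, hz⟩ : UpperHalfPlane) : UpperHalfPlane) with hw
      have e1 : (w : ℂ).re = w.re := rfl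
      have e2 : (w : ℂ).im = w.im := rfl
      rw [e1, e2] at h1
      rw [e2]
      by_contra hcon
      push Not at hcon
      nlinarith [h2.1, h2.2]
  set K : Set ℂ := Icc (-(1 / 2) : ℝ) (1 / 2) ×ℂ Icc (1 / 2 : ℝ) (max Y 1) with hK
  have hKc : IsCompact K := isCompact_Icc.reProdIm isCompact_Icc
  have hKsub : K ⊆ {τ | 0 < τ.im} := by
    intro z hz
    have := hz.2
    simp only [mem_preimage, mem_Icc] at this
    show 0 < z.im
    linarith [this.1]
  obtain ⟨w₁, hw₁, hw₁r, hw₁i⟩ := key τ₁ hτ₁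
  have hw₁K : w₁ ∈ K := by
    refine ⟨hw₁r, hw₁i, ?_⟩
    by_contra hcon
    push Not at hcon
    have := hY w₁ ((le_max_left _ _).trans hcon.le)
    rw [hw₁] at this
    exact lt_irrefl _ this
  obtain ⟨τ₀, hτ₀K, hτ₀⟩ := hKc.exists_isMaxOn ⟨w₁, hw₁K⟩ (hc.mono hKsub)
  have hmax1 : U τ₁ ≤ U τ₀ := by rw [← hw₁]; exact hτ₀ hw₁K
  refine ⟨τ₀, hKsub hτ₀K, hp.trans_le hmax1, fun z hz => ?_⟩
  obtain ⟨w, hw, hwr, hwi⟩ := key z hz
  rw [← hw]
  by_cases hwY : w.im ≤ max Y 1
  · exact hτ₀ (show w ∈ K from ⟨hwr, hwi, hwY⟩)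
  · push Not at hwY
    exact ((hY w ((le_max_left _ _).trans hwY.le)).le).trans hmax1

theorem vv : JobVV := by
  intro ι _ w κ Ψ hκ hd hT hS hC τ hτ i
  obtain ⟨C, hC⟩ := hC
  set N : ℂ → ℝ := fun τ => ∑ i, ‖Ψ τ i‖ ^ 2 with hN
  set U : ℂ → ℝ := fun τ => N τ ^ 6 * ‖Dl τ‖ ^ w with hU
  have hNnn : ∀ τ, 0 ≤ N τ := fun τ => Finset.sum_nonneg fun i _ => by positivity
  have hUT : ∀ z : ℂ, 0 < z.im → U (z + 1) = U z := by
    intro z hz
    simp only [hU, Dl_T hz, hN]
    rw [hT z hz]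
  have hUS : ∀ z : ℂ, 0 < z.im → U (-1 / z) = U z := by
    intro z hz
    have h1 : ‖z‖ ^ (2 * w) * N (-1 / z) = N z := hS z hz
    simp only [hU, Dl_S hz, norm_mul, norm_pow, mul_pow]
    rw [← h1, mul_pow, ← pow_mul, ← pow_mul, show 2 * w * 6 = 12 * w by ring]
    ring
  have hopen : IsOpen {τ : ℂ | 0 < τ.im} := isOpen_lt continuous_const Complex.continuous_im
  have hdi : ∀ i, DifferentiableOn ℂ (fun τ => Ψ τ i) {τ | 0 < τ.im} := fun i =>
    (differentiableOn_pi.mp hd) i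
  have hcont : ContinuousOn U {τ | 0 < τ.im} := by
    apply ContinuousOn.mul
    · apply ContinuousOn.pow
      apply continuousOn_finsetSum
      intro i _
      exact ((hdi i).continuousOn.norm).pow 2
    · exact (Dl_diff.continuousOn.norm).pow w
  have h0 : ∀ ε > 0, ∃ Y : ℝ, ∀ z : ℂ, Y ≤ z.im → U z < ε := by
    obtain ⟨Y₀, hY₀, hDl⟩ := Dl_bound
    set B : ℝ := (Fintype.card ι * C ^ 2) ^ 6 * 2 ^ w with hB
    have hbd : ∀ z : ℂ, max Y₀ 1 ≤ z.im →
        U z ≤ B * Real.exp (-((2 * Real.pi * (12 * κ + w)) * z.im)) := by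
      intro z hz
      have hz1 : Y₀ ≤ z.im := (le_max_left _ _).trans hz
      have hz2 : (1 : ℝ) / 2 ≤ z.im := by
        have := (le_max_right Y₀ 1).trans hz
        linarith
      have hNz : N z ≤ Fintype.card ι * C ^ 2 * Real.exp (-(4 * Real.pi * κ * z.im)) := by
        have h1 : ∀ i, ‖Ψ z i‖ ^ 2 ≤ C ^ 2 * Real.exp (-(4 * Real.pi * κ * z.im)) := by
          intro i
          have h2 := hC z hz2 i
          have h3 := pow_le_pow_left₀ (norm_nonneg _) h2 2
          rw [mul_pow, ← Real.exp_nat_mul] at h3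
          refine h3.trans (le_of_eq ?_)
          congr 2
          push_cast
          ring
        calc N z ≤ ∑ i : ι, C ^ 2 * Real.exp (-(4 * Real.pi * κ * z.im)) :=
              Finset.sum_le_sum fun i _ => h1 i
          _ = _ := by
              rw [Finset.sum_const, Finset.card_univ, nsmul_eq_mul]
              ring
      calc U z = N z ^ 6 * ‖Dl z‖ ^ w := rfl
        _ ≤ (Fintype.card ι * C ^ 2 * Real.exp (-(4 * Real.pi * κ * z.im))) ^ 6 *
            (2 * Real.exp (-(2 * Real.pi * z.im))) ^ w := by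
            apply mul_le_mul
            · exact pow_le_pow_left₀ (hNnn z) hNz 6
            · exact pow_le_pow_left₀ (norm_nonneg _) (hDl z hz1) w
            · positivity
            · positivity
        _ = _ := by
            rw [mul_pow, mul_pow _ _ w, ← Real.exp_nat_mul, ← Real.exp_nat_mul, hB]
            rw [show ∀ a b c d : ℝ, a * b * (c * d) = a * c * (b * d) from fun a b c d => by ring,
              ← Real.exp_add]
            congr 2
            push_cast
            ring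
    have hlim : Filter.Tendsto (fun y : ℝ => B * Real.exp (-((2 * Real.pi * (12 * κ + w)) * y)))
        Filter.atTop (𝓝 0) := by
      have hpos : 0 < 2 * Real.pi * (12 * κ + w) := by
        have : 0 < 12 * κ + w := by
          have h1 : -(w : ℝ) / 12 < κ := hκ
          rw [div_lt_iff₀ (by norm_num)] at h1
          linarith
        positivity
      have h1 : Filter.Tendsto (fun y : ℝ => (2 * Real.pi * (12 * κ + w)) * y)
          Filter.atTop Filter.atTop := Filter.tendsto_id.const_mul_atTop hpos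
      have h2 := (Real.tendsto_exp_neg_atTop_nhds_zero.comp h1).const_mul B
      simpa using h2
    intro ε hε
    have h3 := (hlim.eventually (gt_mem_nhds hε)).exists_forall_of_atTop
    obtain ⟨Y, hY⟩ := h3
    refine ⟨max Y (max Y₀ 1), fun z hz => ?_⟩
    exact (hbd z ((le_max_right _ _).trans hz)).trans_lt (hY z.im ((le_max_left _ _).trans hz))
  by_contra hi
  have hp : 0 < U τ := by
    have h1 : 0 < N τ := by
      have : ‖Ψ τ i‖ ^ 2 ≤ N τ :=
        Finset.single_le_sum (f := fun i => ‖Ψ τ i‖ ^ 2) (fun j _ => by positivity)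
          (Finset.mem_univ i)
      have h2 : 0 < ‖Ψ τ i‖ := norm_pos_iff.mpr hi
      exact lt_of_lt_of_le (by positivity) this
    have h2 : 0 < ‖Dl τ‖ := norm_pos_iff.mpr (Dl_ne hτ)
    simp only [hU]
    positivity
  obtain ⟨τ₀, hτ₀, hpos, hmax⟩ := exists_max U hcont hUT hUS h0 τ hτ hp
  set h : ℂ → ℂ := fun τ => (∑ i, (starRingEnd ℂ) (Ψ τ₀ i) * Ψ τ i) ^ 12 * Dl τ ^ w with hh
  have hle : ∀ τ, ‖h τ‖ ≤ N τ₀ ^ 6 * U τ := by
    intro τ
    have h1 : ‖∑ i, (starRingEnd ℂ) (Ψ τ₀ i) * Ψ τ i‖ ^ 2 ≤ N τ₀ * N τ := by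
      have h2 : ‖∑ i, (starRingEnd ℂ) (Ψ τ₀ i) * Ψ τ i‖ ≤ ∑ i, ‖Ψ τ₀ i‖ * ‖Ψ τ i‖ := by
        refine (norm_sum_le _ _).trans (le_of_eq ?_)
        refine Finset.sum_congr rfl fun i _ => ?_
        rw [norm_mul, RCLike.norm_conj]
      refine (pow_le_pow_left₀ (norm_nonneg _) h2 2).trans ?_
      exact Finset.sum_mul_sq_le_sq_mul_sq _ _ _
    calc ‖h τ‖ = (‖∑ i, (starRingEnd ℂ) (Ψ τ₀ i) * Ψ τ i‖ ^ 2) ^ 6 * ‖Dl τ‖ ^ w := by
          simp only [hh, norm_mul, norm_pow, ← pow_mul]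
      _ ≤ (N τ₀ * N τ) ^ 6 * ‖Dl τ‖ ^ w :=
          mul_le_mul_of_nonneg_right (pow_le_pow_left₀ (by positivity) h1 6) (by positivity)
      _ = _ := by simp only [hU]; ring
  have heq : ‖h τ₀‖ = N τ₀ ^ 6 * U τ₀ := by
    have h1 : ∑ i, (starRingEnd ℂ) (Ψ τ₀ i) * Ψ τ₀ i = ((N τ₀ : ℝ) : ℂ) := by
      simp only [hN]
      push_cast
      refine Finset.sum_congr rfl fun i _ => ?_
      exact Complex.conj_mul' _
    simp only [hh, h1, norm_mul, norm_pow, hU, Complex.norm_real, Real.norm_of_nonneg (hNnn τ₀)]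
    ring
  have hN0 : 0 < N τ₀ := by
    rcases (hNnn τ₀).lt_or_eq with h1 | h1
    · exact h1
    · exfalso
      simp only [hU, ← h1] at hpos
      simp at hpos
  have hhd : DifferentiableOn ℂ h {τ | 0 < τ.im} := by
    apply DifferentiableOn.mul
    · apply DifferentiableOn.pow
      apply DifferentiableOn.fun_sum
      intro i _
      exact (hdi i).const_mul _
    · exact Dl_diff.pow w
  have hconn : IsPreconnected {τ : ℂ | 0 < τ.im} :=
    (convex_halfSpace_im_gt 0).isPreconnected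
  have hmaxon : IsMaxOn (norm ∘ h) {τ | 0 < τ.im} τ₀ := by
    intro z hz
    show ‖h z‖ ≤ ‖h τ₀‖
    rw [heq]
    exact (hle z).trans (mul_le_mul_of_nonneg_left (hmax z hz) (by positivity))
  have hconst := Complex.eqOn_of_isPreconnected_of_isMaxOn_norm hconn hopen hhd hτ₀ hmaxon
  have hpos2 : 0 < ‖h τ₀‖ := by rw [heq]; positivity
  obtain ⟨Y, hY⟩ := h0 (‖h τ₀‖ / N τ₀ ^ 6) (by positivity)
  set z : ℂ := ((max Y 1 : ℝ) : ℂ) * I with hz
  have hzim : z.im = max Y 1 := by simp [hz]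
  have hz0 : 0 < z.im := by rw [hzim]; positivity
  have h1 := hY z (by rw [hzim]; exact le_max_left _ _)
  have h2 : h z = h τ₀ := hconst hz0
  have h3 := hle z
  rw [h2] at h3
  rw [lt_div_iff₀ (by positivity)] at h1
  linarith

end

end Pool.Agent.R396.F
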